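import Mathlib
import Pool.Agent.H20.Q1.Low

set_option autoImplicit false
open Finset

/-!
# Lower bound for the contacts of a macroscopic cluster: deterministic part

`W1 κ w R` : `w` is connected to distance `R` above the wall through `w`.
`Lm κ w R m` : moreover `w` is the leftmost wall vertex of its cluster in the half box of radius `R`
and this cluster has at most `m` wall vertices.
`cover` : if a box at height `4R` is connected to the level `0` (above it), and not to distance `D`,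
then one of the windows of length `ρ` of one of the levels `-jρ` satisfies `Lm` for one of its
vertices, or one of the exceptional events `B1`, `B2`.
-/

namespace Pool.Agent.H59.Q1

open Pool.Agent.H75.Perc Pool.Agent.H75.TwoArm Pool.Agent.H75.Four Pool.Agent.H49.Perc
open Pool.Agent.H99.NC Pool.Agent.H60.Q1 Pool.Agent.H20.Q1

/-- labels above the level `h` -/
noncomputable def Ab (κ h : ℤ) (ω : Finset (ℤ × ℤ)) : Finset (ℤ × ℤ) :=
  ω.filter (fun l => 2 * h ≤ ht κ l)

/-- `w` is connected to distance `R` above the wall through `w` -/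
def W1 (κ : ℤ) (w : ℤ × ℤ) (R : ℤ) (ω : Finset (ℤ × ℤ)) : Prop :=
  ∃ v, Far w R v ∧ Co (ω ∩ HL κ w R) w v

/-- `w` is the leftmost wall vertex of its cluster, which reaches distance `R` and has at most `m`
wall vertices -/
def Lm (κ : ℤ) (w : ℤ × ℤ) (R : ℤ) (m : ℝ) (ω : Finset (ℤ × ℤ)) : Prop :=
  W1 κ w R ω ∧ (∀ y, Co (ω ∩ HL κ w R) w y → ht κ y = ht κ w → w.1 ≤ y.1) ∧
  ∀ S : Finset (ℤ × ℤ), (∀ y ∈ S, ht κ y = ht κ w ∧ Co (ω ∩ HL κ w R) w y) → (S.card : ℝ) ≤ m

/-- the box `a` is connected to the level `h` above it -/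
def XX (κ : ℤ) (a : ℤ × ℤ) (R h : ℤ) (ω : Finset (ℤ × ℤ)) : Prop :=
  ∃ u, Near a R u ∧ ∃ w, ht κ w = h ∧ Co (Ab κ h ω) u w

variable {κ : ℤ} {E ω ω' : Finset (ℤ × ℤ)} {o w z a u : ℤ × ℤ} {N ρ R D K L J I : ℤ} {m : ℝ}

lemma mem_Ab {h : ℤ} {l : ℤ × ℤ} : l ∈ Ab κ h ω ↔ l ∈ ω ∧ 2 * h ≤ ht κ l := by
  unfold Ab; rw [mem_filter]

lemma Ab_sub {h : ℤ} : Ab κ h ω ⊆ ω := filter_subset _ _

lemma Ab_anti {h h' : ℤ} (hh : h' ≤ h) : Ab κ h ω ⊆ Ab κ h' ω := by
  intro l hl
  rw [mem_Ab] at hl ⊢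
  exact ⟨hl.1, by omega⟩

lemma HL_sub_Ab : ω ∩ HL κ z R ⊆ Ab κ (ht κ z) ω := by
  intro l hl
  obtain ⟨h1, h2⟩ := mem_inter.1 hl
  unfold HL at h2
  exact mem_Ab.2 ⟨h1, (mem_filter.1 h2).2⟩

lemma Ab_inter_HL : Ab κ (ht κ z) ω ∩ Bx (z.1 - R) (z.1 + R) (z.2 - R) (z.2 + R) ⊆ ω ∩ HL κ z R := by
  intro l hl
  obtain ⟨h1, h2⟩ := mem_inter.1 hl
  rw [mem_Ab] at h1
  refine mem_inter.2 ⟨h1.1, ?_⟩
  unfold HL
  exact mem_filter.2 ⟨h2, h1.2⟩

/-- an arm above the wall -/
lemma W1_of (hR : 1 ≤ R) (h : Co (Ab κ (ht κ w) ω) w u) (hu : Far w R u) : W1 κ w R ω := by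
  obtain ⟨v', h1, h2⟩ := open_exit (o := w) (M := R) h (by rw [sub_self, sub_self, abs_zero]; omega) hu
  exact ⟨v', h1, h2.mono Ab_inter_HL⟩

/-- a cluster without wall vertices crosses a half annulus -/
lemma U3_of (hno : ∀ y, ht κ y = ht κ z → ¬ Co (Ab κ (ht κ z) ω) w y)
    (h : Co (Ab κ (ht κ z) ω) w u) (hw : inR z ρ w) (hρR : ρ < R) (hu : Far z R u) :
    U3 κ z ρ R ω := by
  obtain ⟨v', hv', h2⟩ := open_exit (o := z) (M := R) h (by
    rw [inR_iff] at hw
    rw [abs_lt, abs_lt]; omega) hu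
  have hnv : ¬ inR z ρ v' := by
    rw [le_abs, le_abs] at hv'
    rw [inR_iff]
    omega
  obtain ⟨u', hu', h3⟩ := last_exit h2 hw hnv
  have hsub : (Ab κ (ht κ z) ω ∩ Bx (z.1 - R) (z.1 + R) (z.2 - R) (z.2 + R)) \ BR z ρ ⊆
      ω ∩ AL κ z ρ R := by
    intro l hl
    obtain ⟨g1, g2⟩ := mem_sdiff.1 hl
    obtain ⟨g3, g4⟩ := mem_inter.1 (Ab_inter_HL g1)
    refine mem_inter.2 ⟨g3, ?_⟩
    unfold AL
    exact mem_sdiff.2 ⟨g4, g2⟩
  have hsub2 : ω ∩ AL κ z ρ R ⊆ Ab κ (ht κ z) ω :=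
    (inter_subset_inter_left AL_sub_HL).trans HL_sub_Ab
  have hwu : Co (Ab κ (ht κ z) ω) w u' :=
    (h2.mono inter_subset_left).trans (h3.mono (sdiff_subset.trans inter_subset_left)).symm
  refine ⟨u', v', ?_, hv', h3.mono hsub, ?_⟩
  · rw [inR_iff] at hu'
    unfold Near
    rw [abs_le, abs_le]
    omega
  · intro y hy hty
    exact hno y hty (hwu.trans (hy.mono hsub2))

/-- base point of the level `-jρ` below the box `a` -/
def bs (a : ℤ × ℤ) (R ρ j : ℤ) : ℤ × ℤ := (a.1, a.2 - 4 * R - j * ρ)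

/-- exceptional event: a second window -/
def B1 (κ : ℤ) (a : ℤ × ℤ) (R ρ j i n : ℤ) (ω : Finset (ℤ × ℤ)) : Prop :=
  U3 κ (wp κ (bs a R ρ (j + 1)) (i * ρ)) (2 * ρ) (n * ρ / 4) ω ∧
  U3 κ (wp κ (bs a R ρ (j + 1)) ((i + n) * ρ)) (2 * ρ) (n * ρ / 4) ω ∧
  (4 * (n * ρ) < R → U3 κ (wp κ (bs a R ρ (j + 1)) (i * ρ)) (4 * (n * ρ)) R ω)

open Classical in
/-- exceptional event: too many wall vertices -/
def B2 (κ : ℤ) (a : ℤ × ℤ) (R ρ K : ℤ) (m : ℝ) (j i : ℤ) (ω : Finset (ℤ × ℤ)) : Prop :=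
  U3 κ (wp κ (bs a R ρ (j + 1)) (i * ρ)) ((K + 3) * ρ) R ω ∧
  m < (((Icc (-((K + 1) * ρ)) ((K + 1) * ρ)).filter
    (fun t => W1 κ (wp κ (bs a R ρ j) (i * ρ + t)) ρ ω)).card : ℝ)

lemma ht_wp (t : ℤ) : ht κ (wp κ o t) = ht κ o := by
  unfold ht wp
  ring

lemma ht_bs (j : ℤ) : ht κ (bs a R ρ j) = ht κ a - 4 * R - j * ρ := by
  unfold ht bs
  ring

lemma eq_wp {y : ℤ × ℤ} (h : ht κ y = ht κ o) : y = wp κ o (y.1 - o.1) := by
  unfold ht at h
  unfold wp
  refine Prod.ext ?_ ?_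
  · simp only; ring
  · simp only
    linarith

theorem cover (hκ : κ = 0 ∨ κ = 1) (hρ : 1 ≤ ρ) (hρR : (K + 3) * ρ < R) (hK : 12 ≤ K)
    {Jn : ℕ} (hJ : 2 * D ≤ Jn * ρ) (hI : D + ρ ≤ I * ρ) (hN : 2 * D + ρ ≤ N * ρ)
    (hX : XX κ a R (ht κ a - 4 * R) ω) (hA : ¬ Arm1 a R D ω) :
    ∃ j ∈ range Jn, ∃ i ∈ Icc (-I) I, (∃ t ∈ Ico (0 : ℤ) ρ, Lm κ (wp κ (bs a R ρ j) (i * ρ + t)) R m ω) ∨
      B2 κ a R ρ K m j i ω ∨ ∃ n ∈ Icc K N, B1 κ a R ρ j i n ω := by
  classical
  have hκ0 : 0 ≤ κ ∧ κ ≤ 1 := by omega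
  have hR : 1 ≤ R := by nlinarith
  have hρR' : ρ < R := by nlinarith
  -- the level
  obtain ⟨j, hj, hj1, hj2⟩ : ∃ j : ℕ, j < Jn ∧ XX κ a R (ht κ a - 4 * R - (j : ℤ) * ρ) ω ∧
      ¬ XX κ a R (ht κ a - 4 * R - ((j : ℤ) + 1) * ρ) ω := by
    by_contra hcon
    push Not at hcon
    have h1 : ∀ j : ℕ, j ≤ Jn → XX κ a R (ht κ a - 4 * R - (j : ℤ) * ρ) ω := by
      intro j
      induction j with
      | zero => intro _; simpa using hX
      | succ j ih =>
        intro hj
        have := hcon j (by omega) (ih (by omega))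
        push_cast
        exact this
    obtain ⟨u, hu, w, hw, h2⟩ := h1 Jn le_rfl
    apply hA
    refine ⟨u, w, hu.1, hu.2, ?_, h2.mono Ab_sub⟩
    unfold ht at hw
    rw [le_abs, le_abs]
    rcases hκ with rfl | rfl
    · omega
    · omega
  obtain ⟨u, hu, w1, hw1, huw1⟩ := hj1
  set h0 : ℤ := ht κ a - 4 * R - (j : ℤ) * ρ with hh0
  have hlev : ht κ (bs a R ρ j) = h0 := ht_bs _
  have hlev1 : ht κ (bs a R ρ (j + 1)) = h0 - ρ := by rw [ht_bs, hh0]; ring
  have hno : ∀ y, ht κ y = h0 - ρ → ¬ Co (Ab κ (h0 - ρ) ω) u y := by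
    intro y hy hco
    apply hj2
    have e1 : ht κ a - 4 * R - ((j : ℤ) + 1) * ρ = h0 - ρ := by rw [hh0]; ring
    rw [e1]
    exact ⟨u, hu, y, hy, hco⟩
  -- all vertices are at distance less than `D`
  have hnear : ∀ y, Co ω u y → |y.1 - a.1| < D ∧ |y.2 - a.2| < D := by
    intro y hy
    by_contra hcon
    apply hA
    refine ⟨u, y, hu.1, hu.2, ?_, hy⟩
    omega
  set S : Finset (ℤ × ℤ) := (WW a D).filter (fun y => ht κ y = h0 ∧ Co (Ab κ h0 ω) u y) with hS
  have hmemS : ∀ y, y ∈ S ↔ ht κ y = h0 ∧ Co (Ab κ h0 ω) u y := by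
    intro y
    rw [hS, mem_filter]
    constructor
    · exact fun h => h.2
    · intro h
      refine ⟨?_, h⟩
      have h1 := hnear y (h.2.mono Ab_sub)
      rw [abs_lt, abs_lt] at h1
      rw [mem_WW, inR_iff]
      omega
  obtain ⟨w0, hw0, hmin⟩ := exists_min_image S (fun y => y.1) ⟨w1, (hmemS w1).2 ⟨hw1, huw1⟩⟩
  obtain ⟨hw0h, hw0u⟩ := (hmemS w0).1 hw0
  have hw0n := hnear w0 (hw0u.mono Ab_sub)
  rw [abs_lt, abs_lt] at hw0n
  have hfar : ∀ y, ht κ y ≤ h0 → Far y R u := by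
    intro y hy
    have h1 := hu.1
    have h2 := hu.2
    rw [abs_le] at h1 h2
    unfold Far
    rw [le_abs, le_abs]
    have h3 : 0 ≤ (j : ℤ) * ρ := by positivity
    unfold ht at hy hh0
    rcases hκ with rfl | rfl
    · omega
    · omega
  -- windows
  set i : ℤ := (w0.1 - a.1) / ρ with hi
  set t : ℤ := (w0.1 - a.1) % ρ with ht'
  have ht0 : 0 ≤ t := Int.emod_nonneg _ (by omega)
  have ht1 : t < ρ := Int.emod_lt_of_pos _ (by omega)
  have hit : w0.1 - a.1 = i * ρ + t := by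
    have := Int.mul_ediv_add_emod (w0.1 - a.1) ρ
    rw [← hi, ← ht'] at this
    linarith
  have hiI : i ∈ Icc (-I) I := by
    rw [mem_Icc]
    constructor
    · by_contra hcon
      push Not at hcon
      have : (i + 1) * ρ ≤ -I * ρ := mul_le_mul_of_nonneg_right (by omega) (by omega)
      nlinarith
    · by_contra hcon
      push Not at hcon
      have : (I + 1) * ρ ≤ i * ρ := mul_le_mul_of_nonneg_right (by omega) (by omega)
      nlinarith
  have hw0wp : w0 = wp κ (bs a R ρ j) (i * ρ + t) := by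
    have h1 := eq_wp (κ := κ) (o := bs a R ρ j) (y := w0) (by rw [hw0h, hlev])
    have h2 : w0.1 - (bs a R ρ j).1 = i * ρ + t := by
      unfold bs
      simp only
      linarith
    rw [h2] at h1
    exact h1
  refine ⟨j, mem_range.2 hj, i, hiI, ?_⟩
  -- the lower wall
  have hA1 : Ab κ h0 ω ⊆ Ab κ (h0 - ρ) ω := Ab_anti (by omega)
  have hco1 : ∀ y ∈ S, Co (Ab κ (h0 - ρ) ω) u y := fun y hy => ((hmemS y).1 hy).2.mono hA1
  have hno' : ∀ y ∈ S, ∀ y', ht κ y' = h0 - ρ → ¬ Co (Ab κ (h0 - ρ) ω) y y' := by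
    intro y hy y' hy' h1
    exact hno y' hy' ((hco1 y hy).trans h1)
  have hwpr : ∀ (k : ℤ), ht κ (wp κ (bs a R ρ (j + 1)) k) = h0 - ρ := fun k => by
    rw [ht_wp, hlev1]
  have hin : ∀ y ∈ S, ∀ k q : ℤ, |y.1 - a.1 - k| ≤ q → inR (wp κ (bs a R ρ (j + 1)) k) (q + ρ) y := by
    intro y hy k q hq
    have h1 := eq_wp (κ := κ) (o := bs a R ρ j) (y := y) (by rw [((hmemS y).1 hy).1, hlev])
    rw [inR_iff]
    have h2 : y.2 = a.2 - 4 * R - j * ρ - κ * (y.1 - a.1) := by
      have := congrArg Prod.snd h1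
      unfold wp bs at this
      simpa using this
    unfold wp bs
    simp only
    rw [abs_le] at hq
    rw [h2]
    have e1 : ((j : ℤ) + 1) * ρ = j * ρ + ρ := by ring
    rw [e1]
    rcases hκ with rfl | rfl
    · omega
    · omega
  by_cases hcase : ∃ w' ∈ S, K * ρ < w'.1 - w0.1
  · -- a second window
    obtain ⟨w', hw', hfar'⟩ := hcase
    refine Or.inr (Or.inr ?_)
    obtain ⟨hw'h, hw'u⟩ := (hmemS w').1 hw'
    have hw'n := hnear w' (hw'u.mono Ab_sub)
    rw [abs_lt, abs_lt] at hw'n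
    set i' : ℤ := (w'.1 - a.1) / ρ with hi'
    set t' : ℤ := (w'.1 - a.1) % ρ with ht''
    have ht0' : 0 ≤ t' := Int.emod_nonneg _ (by omega)
    have ht1' : t' < ρ := Int.emod_lt_of_pos _ (by omega)
    have hit' : w'.1 - a.1 = i' * ρ + t' := by
      have := Int.mul_ediv_add_emod (w'.1 - a.1) ρ
      rw [← hi', ← ht''] at this
      linarith
    set n : ℤ := i' - i with hn
    have hnρ : n * ρ = (w'.1 - w0.1) - (t' - t) := by
      rw [hn, sub_mul]
      linarith
    have hnK : K ≤ n := by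
      by_contra hcon
      push Not at hcon
      have : n * ρ + ρ ≤ K * ρ := by
        have : (n + 1) * ρ ≤ K * ρ := mul_le_mul_of_nonneg_right (by omega) (by omega)
        linarith
      linarith
    have hnN : n ≤ N := by
      by_contra hcon
      push Not at hcon
      have : N * ρ + ρ ≤ n * ρ := by
        have : (N + 1) * ρ ≤ n * ρ := mul_le_mul_of_nonneg_right (by omega) (by omega)
        linarith
      linarith
    have hnρ12 : 12 * ρ ≤ n * ρ := mul_le_mul_of_nonneg_right (by omega) (by omega)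
    have hin0 : inR (wp κ (bs a R ρ (j + 1)) (i * ρ)) (2 * ρ) w0 := by
      have h1 := hin w0 hw0 (i * ρ) ρ (by rw [abs_le]; constructor <;> linarith)
      rwa [show ρ + ρ = 2 * ρ by ring] at h1
    have hin1 : inR (wp κ (bs a R ρ (j + 1)) ((i + n) * ρ)) (2 * ρ) w' := by
      have e1 : (i + n) * ρ = i' * ρ := by rw [hn]; ring
      have h1 := hin w' hw' (i' * ρ) ρ (by rw [abs_le]; constructor <;> linarith)
      rw [e1]
      rwa [show ρ + ρ = 2 * ρ by ring] at h1
    have e2 : (i + n) * ρ = i * ρ + n * ρ := by ring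
    have hin4 : inR (wp κ (bs a R ρ (j + 1)) (i * ρ)) (4 * (n * ρ)) w0 := by
      rw [inR_iff] at hin0 ⊢
      omega
    set nr := n * ρ with hnr
    set ir := i * ρ with hir
    refine ⟨n, mem_Icc.2 ⟨hnK, hnN⟩, ?_, ?_, ?_⟩
    · refine U3_of (w := w0) (u := w') ?_ ?_ hin0 (by omega) ?_
      · rw [hwpr]
        exact hno' w0 hw0
      · rw [hwpr]
        exact (hco1 w0 hw0).symm.trans (hco1 w' hw')
      · left
        unfold wp bs
        simp only
        rw [le_abs]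
        left
        omega
    · refine U3_of (w := w') (u := w0) ?_ ?_ hin1 (by omega) ?_
      · rw [hwpr]
        exact hno' w' hw'
      · rw [hwpr]
        exact (hco1 w' hw').symm.trans (hco1 w0 hw0)
      · left
        unfold wp bs
        simp only
        rw [le_abs, e2]
        right
        omega
    · intro h4
      refine U3_of (w := w0) (u := u) ?_ ?_ ?_ h4 ?_
      · rw [hwpr]
        exact hno' w0 hw0
      · rw [hwpr]
        exact (hco1 w0 hw0).symm
      · exact hin4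
      · exact hfar _ (by rw [hwpr]; omega)
  · push Not at hcase
    by_cases hcard : (((Icc (-((K + 1) * ρ)) ((K + 1) * ρ)).filter
        (fun t => W1 κ (wp κ (bs a R ρ j) (i * ρ + t)) ρ ω)).card : ℝ) ≤ m
    · -- the good case
      refine Or.inl ⟨t, mem_Ico.2 ⟨ht0, ht1⟩, ?_⟩
      rw [← hw0wp]
      have hsubS : ∀ y, Co (ω ∩ HL κ w0 R) w0 y → ht κ y = ht κ w0 → y ∈ S := by
        intro y hy hty
        rw [hmemS]
        refine ⟨by rw [hty, hw0h], hw0u.trans (hy.mono ?_)⟩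
        rw [← hw0h]
        exact HL_sub_Ab
      refine ⟨?_, fun y hy hty => hmin y (hsubS y hy hty), ?_⟩
      · refine W1_of hR (u := u) ?_ (hfar w0 hw0h.le)
        rw [hw0h]
        exact hw0u.symm
      · intro T hT
        refine le_trans ?_ hcard
        have h1 : T.card ≤ ((Icc (-((K + 1) * ρ)) ((K + 1) * ρ)).filter
            (fun t => W1 κ (wp κ (bs a R ρ j) (i * ρ + t)) ρ ω)).card := by
          refine card_le_card_of_injOn (fun y => y.1 - a.1 - i * ρ) ?_ ?_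
          · intro y hy
            have hyS := hsubS y (hT y hy).2 (hT y hy).1
            obtain ⟨g1, g2⟩ := (hmemS y).1 hyS
            have g3 := hmin y hyS
            have g4 := hcase y hyS
            rw [coe_filter]
            refine ⟨?_, ?_⟩
            · rw [mem_Icc]
              have e1 : (K + 1) * ρ = K * ρ + ρ := by ring
              rw [e1]
              have e2 : 0 ≤ K * ρ := by positivity
              constructor <;> linarith
            · have h1 := eq_wp (κ := κ) (o := bs a R ρ j) (y := y) (by rw [g1, hlev])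
              have h2 : y.1 - (bs a R ρ j).1 = i * ρ + (y.1 - a.1 - i * ρ) := by
                unfold bs
                simp only
                ring
              rw [h2] at h1
              rw [← h1]
              refine W1_of hρ (u := u) (by rw [g1]; exact g2.symm) ?_
              have := hfar y g1.le
              unfold Far at this ⊢
              omega
          · intro y hy y' hy' hyy
            simp only at hyy
            have g1 := ((hmemS y).1 (hsubS y (hT y hy).2 (hT y hy).1)).1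
            have g2 := ((hmemS y').1 (hsubS y' (hT y' hy').2 (hT y' hy').1)).1
            have g3 := eq_wp (κ := κ) (o := bs a R ρ j) (y := y) (by rw [g1, hlev])
            have g4 := eq_wp (κ := κ) (o := bs a R ρ j) (y := y') (by rw [g2, hlev])
            rw [g3, g4]
            have : y.1 = y'.1 := by linarith
            rw [this]
        exact_mod_cast h1
    · push Not at hcard
      refine Or.inr (Or.inl ⟨?_, hcard⟩)
      refine U3_of (w := w0) (u := u) ?_ ?_ ?_ hρR ?_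
      · rw [hwpr]
        exact hno' w0 hw0
      · rw [hwpr]
        exact (hco1 w0 hw0).symm
      · have h1 := hin w0 hw0 (i * ρ) ρ (by rw [abs_le]; constructor <;> linarith)
        have e1 : ρ + ρ ≤ (K + 3) * ρ := by nlinarith
        rw [inR_iff] at h1 ⊢
        omega
      · exact hfar _ (by rw [hwpr]; omega)

end Pool.Agent.H59.Q1
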