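import Mathlib
import Pool.Agent.H59.Q1.LowGeo

set_option autoImplicit false
open Finset

/-! Locality and translation invariance of `W1`, `Lm`; Markov inequality. -/

namespace Pool.Agent.H59.Q1

open Pool.Agent.H75.Perc Pool.Agent.H75.TwoArm Pool.Agent.H75.Four Pool.Agent.H49.Perc
open Pool.Agent.H99.NC Pool.Agent.H60.Q1 Pool.Agent.H20.Q1

variable {κ : ℤ} {E ω ω' : Finset (ℤ × ℤ)} {o w z a u : ℤ × ℤ} {N ρ R D K L J I : ℤ} {m : ℝ}

lemma far_shift (t u : ℤ × ℤ) : Far (z + t) R (u + t) ↔ Far z R u := by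
  unfold Far
  simp only [Prod.fst_add, Prod.snd_add, add_sub_add_right_eq_sub]

lemma co_shift (t y : ℤ × ℤ) : Co (ω.map (syT t).G ∩ HL κ (z + t) R) (z + t) y ↔
    Co (ω ∩ HL κ z R) z (y - t) := by
  rw [(syT t).map_inter ω (HL_shift t)]
  have h := (syT t).co_iff (ω := ω ∩ HL κ z R) (u := z) (v := y - t)
  have hg : ∀ u, (syT t).g u = u + t := fun u => rfl
  rwa [hg, hg, sub_add_cancel] at h

lemma ht_sub' (t y : ℤ × ℤ) : ht κ (y - t) = ht κ z ↔ ht κ y = ht κ (z + t) := by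
  have h := ht_add (κ := κ) (y - t) t
  rw [sub_add_cancel] at h
  rw [ht_add, h]
  omega

lemma W1_shift (t : ℤ × ℤ) : W1 κ (z + t) R (ω.map (syT t).G) ↔ W1 κ z R ω := by
  unfold W1
  constructor
  · rintro ⟨v, h1, h2⟩
    refine ⟨v - t, ?_, (co_shift t v).1 h2⟩
    rw [← far_shift t, sub_add_cancel]; exact h1
  · rintro ⟨v, h1, h2⟩
    refine ⟨v + t, (far_shift t v).2 h1, (co_shift t _).2 ?_⟩
    rw [add_sub_cancel_right]; exact h2

lemma Lm_shift (t : ℤ × ℤ) : Lm κ (z + t) R m (ω.map (syT t).G) ↔ Lm κ z R m ω := by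
  unfold Lm
  rw [W1_shift]
  refine and_congr Iff.rfl (and_congr ?_ ?_)
  · constructor
    · intro h y hy hty
      have h1 := h (y + t) ((co_shift t _).2 (by rw [add_sub_cancel_right]; exact hy))
        ((ht_sub' t _).1 (by rw [add_sub_cancel_right]; exact hty))
      simpa using h1
    · intro h y hy hty
      have h1 := h (y - t) ((co_shift t y).1 hy) ((ht_sub' t y).2 hty)
      simp only [Prod.fst_add, Prod.fst_sub] at h1 ⊢
      omega
  · constructor
    · intro h S hS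
      have h1 := h (S.map (addRightEmbedding t)) (by
        intro y hy
        rw [mem_map] at hy
        obtain ⟨y', hy', rfl⟩ := hy
        obtain ⟨g1, g2⟩ := hS y' hy'
        rw [addRightEmbedding_apply]
        exact ⟨(ht_sub' t _).1 (by rw [add_sub_cancel_right]; exact g1),
          (co_shift t _).2 (by rw [add_sub_cancel_right]; exact g2)⟩)
      rwa [card_map] at h1
    · intro h S hS
      have h1 := h (S.map (addRightEmbedding (-t))) (by
        intro y hy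
        rw [mem_map] at hy
        obtain ⟨y', hy', rfl⟩ := hy
        obtain ⟨g1, g2⟩ := hS y' hy'
        rw [addRightEmbedding_apply, ← sub_eq_add_neg]
        exact ⟨(ht_sub' t _).2 g1, (co_shift t _).1 g2⟩)
      rwa [card_map] at h1

/-- one arm at the wall -/
noncomputable def a1 (κ : ℤ) (R : ℤ) : ℝ := Pr (HL κ 0 R) (W1 κ 0 R)

/-- probability of `Lm` -/
noncomputable def lmp (κ : ℤ) (R : ℤ) (m : ℝ) : ℝ := Pr (HL κ 0 R) (Lm κ 0 R m)

lemma W1_local : W1 κ z R ω ↔ W1 κ z R (ω ∩ HL κ z R) := by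
  unfold W1
  rw [inter_assoc, inter_self]

lemma Lm_local : Lm κ z R m ω ↔ Lm κ z R m (ω ∩ HL κ z R) := by
  unfold Lm W1
  rw [inter_assoc, inter_self]

lemma Pr_W1 (hE : HL κ z R ⊆ E) : Pr E (W1 κ z R) = a1 κ R := by
  have h0 : Pr E (W1 κ z R) = Pr (HL κ z R) (W1 κ z R) := by
    rw [← Pr_restrict hE]
    exact Pr_congr fun ω _ => W1_local
  rw [h0]
  unfold a1
  rw [← hf_Pr, ← hf_Pr]
  have h := Sy_PrP (syT z) (1 / 2) (E1 := HL κ 0 R) (E2 := HL κ (0 + z) R)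
    (fun e => HL_shift z e) (W1 κ (0 + z) R)
  rw [zero_add] at h
  refine h.trans ?_
  refine PrP_congr fun ω _ => ?_
  have := W1_shift (κ := κ) (z := 0) (R := R) (ω := ω) z
  rwa [zero_add] at this

lemma Pr_Lm (hE : HL κ z R ⊆ E) : Pr E (Lm κ z R m) = lmp κ R m := by
  have h0 : Pr E (Lm κ z R m) = Pr (HL κ z R) (Lm κ z R m) := by
    rw [← Pr_restrict hE]
    exact Pr_congr fun ω _ => Lm_local
  rw [h0]
  unfold lmp
  rw [← hf_Pr, ← hf_Pr]
  have h := Sy_PrP (syT z) (1 / 2) (E1 := HL κ 0 R) (E2 := HL κ (0 + z) R)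
    (fun e => HL_shift z e) (Lm κ (0 + z) R m)
  rw [zero_add] at h
  refine h.trans ?_
  refine PrP_congr fun ω _ => ?_
  have := Lm_shift (κ := κ) (z := 0) (R := R) (m := m) (ω := ω) z
  rwa [zero_add] at this

lemma a1_nonneg : 0 ≤ a1 κ R := Pr_nonneg _ _

lemma lmp_nonneg : 0 ≤ lmp κ R m := Pr_nonneg _ _

lemma a1_pos (hκ : κ = 0 ∨ κ = 1) (hR : 1 ≤ R) : 0 < a1 κ R := by
  obtain ⟨c, hc, h⟩ := l1_ge
  have h1 := h κ hκ 0 R hR
  have h2 : l1 κ 0 R ≤ a1 κ R := Pr_mono fun ω _ h => h.1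
  have hRR : (1 : ℝ) ≤ R := by exact_mod_cast hR
  have h3 : 0 < c / (R : ℝ) ^ 2 := by positivity
  linarith

/-- Markov inequality for the number of events that occur -/
theorem markov {α ι : Type*} [DecidableEq α] (F : Finset α) (T : Finset ι)
    (A : ι → Finset α → Prop) {m : ℝ} (hm : 0 < m) (B : Finset α → Prop)
    (hB : ∀ ω, ω ⊆ F → B ω → ∃ S ⊆ T, (∀ t ∈ S, A t ω) ∧ m ≤ (S.card : ℝ)) :
    Pr F B ≤ (∑ t ∈ T, Pr F (A t)) / m := by
  classical
  rw [le_div_iff₀ hm]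
  simp only [Pr_eq]
  rw [← sum_div, div_mul_eq_mul_div]
  refine div_le_div_of_nonneg_right ?_ (by positivity)
  have h1 : ∑ t ∈ T, ((F.powerset.filter (A t)).card : ℝ) =
      ∑ ω ∈ F.powerset, ((T.filter (fun t => A t ω)).card : ℝ) := by
    simp only [card_filter]
    push_cast
    rw [sum_comm]
  rw [h1]
  calc ((F.powerset.filter B).card : ℝ) * m = ∑ ω ∈ F.powerset.filter B, m := by
        rw [sum_const, nsmul_eq_mul]
    _ ≤ ∑ ω ∈ F.powerset.filter B, ((T.filter (fun t => A t ω)).card : ℝ) := by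
        refine sum_le_sum fun ω hω => ?_
        rw [mem_filter, mem_powerset] at hω
        obtain ⟨S, hS1, hS2, hS3⟩ := hB ω hω.1 hω.2
        refine hS3.trans ?_
        have : S ⊆ T.filter (fun t => A t ω) := fun t ht => mem_filter.2 ⟨hS1 ht, hS2 t ht⟩
        exact_mod_cast card_le_card this
    _ ≤ ∑ ω ∈ F.powerset, ((T.filter (fun t => A t ω)).card : ℝ) :=
        sum_le_sum_of_subset_of_nonneg (filter_subset _ _) fun _ _ _ => by positivity

lemma Pr_exists_le {ι : Type*} (E : Finset (ℤ × ℤ)) (s : Finset ι)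
    (A : ι → Finset (ℤ × ℤ) → Prop) : Pr E (fun ω => ∃ i ∈ s, A i ω) ≤ ∑ i ∈ s, Pr E (A i) := by
  have h := PrP_exists_le hf_Pb E s A
  simpa only [hf_Pr] using h

/-- three independent events -/
lemma Pr_indep3 {α : Type*} [DecidableEq α] {E F1 F2 F3 : Finset α} (h1 : F1 ⊆ E) (h2 : F2 ⊆ E)
    (h3 : F3 ⊆ E) (d12 : Disjoint F1 F2) (d13 : Disjoint F1 F3) (d23 : Disjoint F2 F3)
    (A B C : Finset α → Prop) :
    Pr E (fun ω => (A (ω ∩ F1) ∧ B (ω ∩ F2)) ∧ C (ω ∩ F3)) = Pr F1 A * Pr F2 B * Pr F3 C := by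
  have e1 := Pr_indep (union_subset h1 h2) h3 (disjoint_union_left.2 ⟨d13, d23⟩)
    (fun ω => A (ω ∩ F1) ∧ B (ω ∩ F2)) C
  have e2 := Pr_indep (E := F1 ∪ F2) (subset_union_left (s₁ := F1) (s₂ := F2))
    (subset_union_right (s₁ := F1) (s₂ := F2)) d12 A B
  rw [e2] at e1
  rw [← e1]
  refine Pr_congr fun ω _ => ?_
  have i1 : ω ∩ (F1 ∪ F2) ∩ F1 = ω ∩ F1 := by
    ext x
    simp only [mem_inter, mem_union]
    tauto
  have i2 : ω ∩ (F1 ∪ F2) ∩ F2 = ω ∩ F2 := by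
    ext x
    simp only [mem_inter, mem_union]
    tauto
  rw [i1, i2]

/-- a path from above to below meets the level -/
lemma level_of {h : ℤ} {u p : ℤ × ℤ} (hκ : κ = 0 ∨ κ = 1) (hco : Co ω u p) (hu : h ≤ ht κ u)
    (hp : ht κ p < h) : ∃ w, ht κ w = h ∧ Co (Ab κ h ω) u w := by
  rcases eq_or_lt_of_le hu with h0 | h0
  · exact ⟨u, h0.symm, Co.refl _ _⟩
  · obtain ⟨z, z', hz, hz', hzz, hX, -⟩ := exit_co (X := fun y => h < ht κ y) hco h0 (by omega)
    have hs := (ht_step hκ hzz.1)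
    have key : ∀ y, CoX ω (fun y => h < ht κ y) u y → h < ht κ y ∧ Co (Ab κ h ω) u y := by
      intro y hy
      induction hy with
      | refl => exact ⟨h0, Co.refl _ _⟩
      | @tail b c _ hbc ih =>
        refine ⟨hbc.2, ih.2.tail ⟨hbc.1.1, mem_Ab.2 ⟨hbc.1.2, ?_⟩⟩⟩
        have := (ht_step hκ hbc.1.1).2.2
        have h1 := hbc.2
        have h2 := ih.1
        omega
    have hz2 := key z hX
    refine ⟨z', by omega, hz2.2.tail ⟨hzz.1, mem_Ab.2 ⟨hzz.2, ?_⟩⟩⟩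
    have := hs.2.2
    omega

end Pool.Agent.H59.Q1
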