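import Mathlib
import Pool.Agent.H59.Q1.LowShift
import Pool.Agent.H49.Q1.KPoint
import Pool.Agent.H49.Q1.Harnack

set_option autoImplicit false
open Finset MeasureTheory

/-! One-arm probabilities at a straight or diagonal wall: `a1 κ ρ` is of order `ρ ^ (-1/3)`. -/

namespace Pool.Agent.H59.Q1

open Pool.Agent.H75.Perc Pool.Agent.H75.TwoArm Pool.Agent.H75.Four Pool.Agent.H49.Perc
open Pool.Agent.H99.NC Pool.Agent.H60.Q1 Pool.Agent.H20.Q1 Pool.Agent.H49.Q1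
open Pool.Agent.H65.Perc (PConf planeMeasure HalfArm)

lemma co_in_HL {κ : ℤ} (hκ : κ = 0 ∨ κ = 1) {n : ℤ} (hn : 0 ≤ n) {ω : Finset (ℤ × ℤ)} {z : ℤ × ℤ}
    (h : Co (ω ∩ HL κ 0 n) 0 z) : 0 ≤ z.2 + κ * z.1 ∧ inB (-n) n (-n) n z := by
  induction h with
  | refl => simp only [Prod.fst_zero, Prod.snd_zero, inB]; omega
  | @tail b c _ hbc _ =>
    have h1 := unit_cases hbc.1
    have h2 := mem_HL.1 (mem_inter.1 hbc.2).2
    simp only [Prod.fst_add, Prod.snd_add, Prod.fst_zero, Prod.snd_zero] at h2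
    unfold inB
    rcases hκ with rfl | rfl
    · simp only [zero_mul, add_zero] at h2 ⊢; omega
    · simp only [one_mul] at h2 ⊢; omega

/-- the event `W1` and the finite one-arm event -/
lemma W1_iff_armF {κ : ℤ} (hκ : κ = 0 ∨ κ = 1) (n : ℕ) {ω : Finset (ℤ × ℤ)}
    (hω : ω ⊆ HL κ 0 n) : W1 κ 0 n ω ↔ armF n ω := by
  have e1 : ω ∩ HL κ 0 n = ω := inter_eq_left.2 hω
  unfold W1 armF Far
  constructor
  · rintro ⟨v, h1, h2⟩
    have h3 := (co_in_HL hκ (by omega) h2).2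
    rw [e1] at h2
    refine ⟨v, ?_, h2⟩
    unfold inB at h3
    simp only [Prod.fst_zero, Prod.snd_zero, sub_zero] at h1
    rw [le_abs, le_abs] at h1
    rw [abs_eq (by omega), abs_eq (by omega)]
    omega
  · rintro ⟨z, h1, h2⟩
    refine ⟨z, ?_, by rw [e1]; exact h2⟩
    simp only [Prod.fst_zero, Prod.snd_zero, sub_zero]
    omega

lemma a1_eq_armF {κ : ℤ} (hκ : κ = 0 ∨ κ = 1) (n : ℕ) : a1 κ n = Pr (HL κ 0 n) (armF n) := by
  unfold a1
  exact Pr_congr fun ω hω => W1_iff_armF hκ n hω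

/-- the diagonal wall -/
lemma a1_one (n : ℕ) :
    a1 1 n = (planeMeasure {ω | armD (fun v => 0 ≤ v.1 + v.2) n ω}).toReal := by
  rw [a1_eq_armF (Or.inr rfl)]
  refine (armD_Pr (E := HL 1 0 n) (fun e he => (mem_HL.1 he).1.2.2) (fun u v h => ?_)).symm
  have h1 := unit_cases h
  rw [mem_HL]
  unfold inB
  simp only [Prod.fst_add, Prod.snd_add, Prod.fst_zero, Prod.snd_zero, one_mul]
  omega

/-- the straight wall -/
lemma a1_zero (n : ℕ) : a1 0 n = ph n := by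
  rw [a1_eq_armF (Or.inl rfl), ← Pr_AS_HB (sB 0) (k := n) (by omega)]
  have hE : Pool.Agent.H49.Q1.HB (sB 0) n = HL 0 0 n := by
    ext e
    rw [Pool.Agent.H49.Q1.mem_HB, mem_Bx, mem_HL]
    simp only [sB, comp, syT, syY, syD, Prod.fst_zero, Prod.snd_zero]
    omega
  rw [hE]
  refine Pr_congr fun ω hω => ?_
  unfold armF AS
  rw [hE, inter_eq_left.2 hω, sB_g]
  constructor
  · rintro ⟨z, h1, h2⟩
    have h3 := co_in_HL (Or.inl rfl) (n := n) (by omega) (ω := ω) (by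
      rw [inter_eq_left.2 hω]; exact h2)
    refine ⟨z, ?_, h2⟩
    unfold VB VI inB at *
    simp only [sB, comp, syT, syY, syD, Prod.fst_sub, Prod.snd_sub, Prod.fst_zero,
      Prod.snd_zero]
    rw [abs_eq (by omega), abs_eq (by omega)] at h1
    omega
  · rintro ⟨z, h1, h2⟩
    refine ⟨z, ?_, h2⟩
    unfold VB VI inB at *
    simp only [sB, comp, syT, syY, syD, Prod.fst_sub, Prod.snd_sub, Prod.fst_zero,
      Prod.snd_zero] at h1
    rw [abs_eq (by omega), abs_eq (by omega)]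
    omega

/-- **One-arm probabilities at a wall**, both bounds -/
theorem a1_bd : ∃ c C : ℝ, 0 < c ∧ c ≤ 1 ∧ 1 ≤ C ∧ ∀ κ : ℤ, κ = 0 ∨ κ = 1 → ∀ ρ : ℤ, 1 ≤ ρ →
    c * (ρ : ℝ) ^ (-(1 / 3) : ℝ) ≤ a1 κ ρ ∧ a1 κ ρ ≤ C * (ρ : ℝ) ^ (-(1 / 3) : ℝ) := by
  obtain ⟨c1, C1, hc1, hC1, h1⟩ := PB_ph
  obtain ⟨c2, C2, hc2, hC2, h2⟩ := PB_half_diag
  refine ⟨min (min c1 c2) 1, max (max C1 C2) 1, lt_min (lt_min hc1 hc2) one_pos,
    min_le_right _ _, le_max_right _ _, fun κ hκ ρ hρ => ?_⟩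
  obtain ⟨n, rfl⟩ : ∃ n : ℕ, ρ = n := ⟨ρ.toNat, by omega⟩
  have hn : 1 ≤ n := by omega
  have hp : (0 : ℝ) ≤ (n : ℝ) ^ (-(1 / 3) : ℝ) := by positivity
  push_cast
  rcases hκ with rfl | rfl
  · rw [a1_zero]
    obtain ⟨g1, g2⟩ := h1 n hn
    exact ⟨(mul_le_mul_of_nonneg_right ((min_le_left _ _).trans (min_le_left _ _)) hp).trans g1,
      g2.trans (mul_le_mul_of_nonneg_right ((le_max_left _ _).trans (le_max_left _ _)) hp)⟩
  · rw [a1_one]
    obtain ⟨g1, g2⟩ := h2 n hn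
    exact ⟨(mul_le_mul_of_nonneg_right ((min_le_left _ _).trans (min_le_right _ _)) hp).trans g1,
      g2.trans (mul_le_mul_of_nonneg_right ((le_max_right _ _).trans (le_max_left _ _)) hp)⟩

end Pool.Agent.H59.Q1
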