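import Mathlib
import Pool.Agent.H59.Q1.LowShift

set_option autoImplicit false
open Finset

/-!
# Lower bound for the contacts of a macroscopic cluster

`lmp_ge` : for a constant `L` and all `ρ ≥ 1`, `L ρ ≤ R`, `m ≥ L ρ a1(ρ)`:
`P(w is the leftmost wall vertex of its cluster, which reaches R and has at most m wall vertices)`
is at least `c ρ / R²` (wall `y = const` or `x + y = const`, `p = 1/2`).
-/

namespace Pool.Agent.H59.Q1

open Pool.Agent.H75.Perc Pool.Agent.H75.TwoArm Pool.Agent.H75.Four Pool.Agent.H49.Perc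
open Pool.Agent.H99.NC Pool.Agent.H60.Q1 Pool.Agent.H20.Q1

variable {κ : ℤ} {E ω ω' : Finset (ℤ × ℤ)} {o w z a u : ℤ × ℤ} {N ρ R D K L J I : ℤ} {m : ℝ}

lemma AL_sub_BR : AL κ z ρ R ⊆ BR z R := by
  intro l hl
  unfold AL HL at hl
  unfold BR
  exact (mem_filter.1 (mem_sdiff.1 hl).1).1

lemma AL_disj_BR : Disjoint (BR z ρ) (AL κ z ρ R) := by
  rw [disjoint_left]
  intro l h1 h2
  unfold AL at h2
  exact (mem_sdiff.1 h2).2 h1

lemma BR_disj {z z' : ℤ × ℤ} {r : ℤ} (h : 2 * r < z'.1 - z.1) : Disjoint (BR z r) (BR z' r) := by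
  rw [disjoint_left]
  intro l h1 h2
  unfold BR at h1 h2
  rw [mem_Bx] at h1 h2
  omega

/-- a second window -/
theorem B1_le {C : ℝ} (hC : 1 ≤ C) (hu3 : ∀ (z : ℤ × ℤ) (ρ R : ℤ), 1 ≤ ρ → 1 ≤ R →
    u3 κ z ρ R ≤ C * (ρ / R) ^ 2) (hκ : κ = 0 ∨ κ = 1) (hρ : 1 ≤ ρ) (hR : 1 ≤ R) {j i n : ℤ}
    (hn : 12 ≤ n) (hE : BR (wp κ (bs a R ρ (j + 1)) (i * ρ)) (2 * (n * ρ) + R) ⊆ E) :
    Pr E (B1 κ a R ρ j i n) ≤ C ^ 3 * 2 ^ 20 * ((ρ : ℝ) / R) ^ 2 * (1 / (n : ℝ) ^ 2) := by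
  have hκ0 : 0 ≤ κ ∧ κ ≤ 1 := by omega
  set z1 := wp κ (bs a R ρ (j + 1)) (i * ρ) with hz1
  set z2 := wp κ (bs a R ρ (j + 1)) ((i + n) * ρ) with hz2
  have hz12 : z2.1 = z1.1 + n * ρ ∧ z2.2 = z1.2 - κ * (n * ρ) := by
    rw [hz1, hz2]
    unfold wp
    simp only
    constructor <;> ring
  have hnρ : 12 ≤ n * ρ := by nlinarith
  set nr := n * ρ with hnr
  have hr1 : 1 ≤ nr / 4 := by omega
  have hκn : 0 ≤ κ * nr ∧ κ * nr ≤ nr := by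
    constructor
    · exact mul_nonneg hκ0.1 (by omega)
    · nlinarith
  have hF1 : AL κ z1 (2 * ρ) (nr / 4) ⊆ BR z1 (nr / 4) := AL_sub_BR
  have hF2 : AL κ z2 (2 * ρ) (nr / 4) ⊆ BR z2 (nr / 4) := AL_sub_BR
  have hB1 : BR z1 (nr / 4) ⊆ BR z1 (4 * nr) := BR_mono (by omega)
  have hB2 : BR z2 (nr / 4) ⊆ BR z1 (4 * nr) := by
    intro l hl
    unfold BR at hl ⊢
    rw [mem_Bx] at hl ⊢
    omega
  have hB2' : BR z2 (nr / 4) ⊆ BR z1 (2 * nr + R) := by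
    intro l hl
    unfold BR at hl ⊢
    rw [mem_Bx] at hl ⊢
    omega
  have hE1 : AL κ z1 (2 * ρ) (nr / 4) ⊆ E := hF1.trans ((BR_mono (by omega)).trans hE)
  have hE2 : AL κ z2 (2 * ρ) (nr / 4) ⊆ E := hF2.trans (hB2'.trans hE)
  have hd12 : Disjoint (AL κ z1 (2 * ρ) (nr / 4)) (AL κ z2 (2 * ρ) (nr / 4)) :=
    (BR_disj (z := z1) (z' := z2) (r := nr / 4) (by omega)).mono hF1 hF2
  have hnR : (12 : ℝ) ≤ n := by exact_mod_cast hn
  have hρR : (1 : ℝ) ≤ ρ := by exact_mod_cast hρ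
  have hRR : (1 : ℝ) ≤ R := by exact_mod_cast hR
  -- the bound for one annulus
  have hb : ∀ z, u3 κ z (2 * ρ) (nr / 4) ≤ C * (256 / (n : ℝ) ^ 2) := by
    intro z
    refine (hu3 z (2 * ρ) (nr / 4) (by omega) hr1).trans ?_
    refine mul_le_mul_of_nonneg_left ?_ (by linarith)
    have h1 : (n : ℝ) * ρ / 8 ≤ ((nr / 4 : ℤ) : ℝ) := by
      have h2 : nr ≤ 8 * (nr / 4) := by omega
      have h3 : (nr : ℝ) ≤ 8 * ((nr / 4 : ℤ) : ℝ) := by exact_mod_cast h2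
      have h4 : (nr : ℝ) = n * ρ := by rw [hnr]; push_cast; ring
      linarith
    have h0 : (0 : ℝ) < (n : ℝ) * ρ / 8 := by positivity
    push_cast
    have h5 : (2 * (ρ : ℝ)) / ((nr / 4 : ℤ) : ℝ) ≤ 16 / n := by
      rw [div_le_div_iff₀ (by linarith) (by positivity)]
      nlinarith
    calc ((2 * (ρ : ℝ)) / ((nr / 4 : ℤ) : ℝ)) ^ 2 ≤ (16 / (n : ℝ)) ^ 2 :=
          pow_le_pow_left₀ (by positivity) h5 2
      _ = 256 / (n : ℝ) ^ 2 := by rw [div_pow]; norm_num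
  have hb0 : 0 ≤ C * (256 / (n : ℝ) ^ 2) := by positivity
  have hT : C * (256 / (n : ℝ) ^ 2) * (C * (256 / (n : ℝ) ^ 2)) * (C * (4 * (n * ρ) / R) ^ 2) =
      C ^ 3 * 2 ^ 20 * ((ρ : ℝ) / R) ^ 2 * (1 / (n : ℝ) ^ 2) := by
    field_simp
    ring
  rw [← hT]
  by_cases h4 : 4 * nr < R
  · have hF3 : AL κ z1 (4 * nr) R ⊆ E := AL_sub_BR.trans ((BR_mono (by omega)).trans hE)
    have hd13 : Disjoint (AL κ z1 (2 * ρ) (nr / 4)) (AL κ z1 (4 * nr) R) :=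
      AL_disj_BR.mono_left (hF1.trans hB1)
    have hd23 : Disjoint (AL κ z2 (2 * ρ) (nr / 4)) (AL κ z1 (4 * nr) R) :=
      AL_disj_BR.mono_left (hF2.trans hB2)
    have e1 := Pr_indep3 hE1 hE2 hF3 hd12 hd13 hd23 (U3 κ z1 (2 * ρ) (nr / 4))
      (U3 κ z2 (2 * ρ) (nr / 4)) (U3 κ z1 (4 * nr) R)
    have e2 : Pr E (B1 κ a R ρ j i n) ≤ Pr E (fun ω => (U3 κ z1 (2 * ρ) (nr / 4)
        (ω ∩ AL κ z1 (2 * ρ) (nr / 4)) ∧ U3 κ z2 (2 * ρ) (nr / 4)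
        (ω ∩ AL κ z2 (2 * ρ) (nr / 4))) ∧ U3 κ z1 (4 * nr) R (ω ∩ AL κ z1 (4 * nr) R)) := by
      refine Pr_mono fun ω _ h => ?_
      exact ⟨⟨U3_local.1 h.1, U3_local.1 h.2.1⟩, U3_local.1 (h.2.2 h4)⟩
    rw [e1] at e2
    refine e2.trans ?_
    have g1 := hb z1
    have g2 := hb z2
    have g3 := hu3 z1 (4 * nr) R (by omega) hR
    have g4 : C * (((4 * nr : ℤ) : ℝ) / R) ^ 2 = C * (4 * (n * ρ) / R) ^ 2 := by
      rw [hnr]; push_cast; ring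
    rw [g4] at g3
    exact mul_le_mul (mul_le_mul g1 g2 u3_nonneg hb0) g3 u3_nonneg (mul_nonneg hb0 hb0)
  · have e1 := Pr_indep hE1 hE2 hd12 (U3 κ z1 (2 * ρ) (nr / 4)) (U3 κ z2 (2 * ρ) (nr / 4))
    have e2 : Pr E (B1 κ a R ρ j i n) ≤ Pr E (fun ω => U3 κ z1 (2 * ρ) (nr / 4)
        (ω ∩ AL κ z1 (2 * ρ) (nr / 4)) ∧ U3 κ z2 (2 * ρ) (nr / 4)
        (ω ∩ AL κ z2 (2 * ρ) (nr / 4))) := by
      refine Pr_mono fun ω _ h => ?_
      exact ⟨U3_local.1 h.1, U3_local.1 h.2.1⟩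
    rw [e1] at e2
    refine e2.trans ?_
    have g1 := hb z1
    have g2 := hb z2
    have g3 : (1 : ℝ) ≤ C * (4 * (n * ρ) / R) ^ 2 := by
      have h5 : (R : ℝ) ≤ 4 * (n * ρ) := by
        have : R ≤ 4 * (n * ρ) := by rw [← hnr]; omega
        exact_mod_cast this
      have h6 : (1 : ℝ) ≤ 4 * (n * ρ) / R := by rw [le_div_iff₀ (by positivity)]; linarith
      have h7 : (1 : ℝ) ≤ (4 * (n * ρ) / R) ^ 2 := one_le_pow₀ h6
      nlinarith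
    calc _ ≤ C * (256 / (n : ℝ) ^ 2) * (C * (256 / (n : ℝ) ^ 2)) := mul_le_mul g1 g2 u3_nonneg hb0
      _ ≤ _ := le_mul_of_one_le_right (mul_nonneg hb0 hb0) g3

lemma HL_sub_BR : HL κ z R ⊆ BR z R := by
  intro l hl
  unfold HL at hl
  unfold BR
  exact (mem_filter.1 hl).1

/-- too many wall vertices -/
theorem B2_le {C : ℝ} (hC : 1 ≤ C) (hu3 : ∀ (z : ℤ × ℤ) (ρ R : ℤ), 1 ≤ ρ → 1 ≤ R →
    u3 κ z ρ R ≤ C * (ρ / R) ^ 2) (hκ : κ = 0 ∨ κ = 1) (hρ : 1 ≤ ρ) (hR : 1 ≤ R) {j i : ℤ}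
    (hK : 12 ≤ K) (hKR : (K + 3) * ρ ≤ R) (hm : 0 < m)
    (hE : BR (wp κ (bs a R ρ (j + 1)) (i * ρ)) R ⊆ E) :
    Pr E (B2 κ a R ρ K m j i) ≤
      C * (((K : ℝ) + 3) * ρ / R) ^ 2 * ((2 * (K + 1) * ρ + 1) * a1 κ ρ / m) := by
  classical
  have hκ0 : 0 ≤ κ ∧ κ ≤ 1 := by omega
  set z1 := wp κ (bs a R ρ (j + 1)) (i * ρ) with hz1
  set F2 := BR z1 ((K + 3) * ρ) with hF2
  have hF2E : F2 ⊆ E := (BR_mono hKR).trans hE
  have hF1E : AL κ z1 ((K + 3) * ρ) R ⊆ E := AL_sub_BR.trans hE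
  set T := Icc (-((K + 1) * ρ)) ((K + 1) * ρ) with hT
  have hsub : ∀ t ∈ T, HL κ (wp κ (bs a R ρ j) (i * ρ + t)) ρ ⊆ F2 := by
    intro t ht l hl
    rw [hT, mem_Icc] at ht
    have h1 := HL_sub_BR hl
    rw [hF2]
    unfold BR at h1 ⊢
    rw [mem_Bx] at h1 ⊢
    rw [hz1]
    unfold wp bs at h1 ⊢
    simp only at h1 ⊢
    have e1 : (j + 1) * ρ = j * ρ + ρ := by ring
    have e2 : (K + 3) * ρ = (K + 1) * ρ + 2 * ρ := by ring
    rw [e1, e2]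
    rcases hκ with rfl | rfl
    · omega
    · omega
  set B : Finset (ℤ × ℤ) → Prop := fun ω => m < (((T).filter
    (fun t => W1 κ (wp κ (bs a R ρ j) (i * ρ + t)) ρ ω)).card : ℝ) with hBdef
  have hBloc : ∀ ω, B ω ↔ B (ω ∩ F2) := by
    intro ω
    rw [hBdef]
    simp only
    have : T.filter (fun t => W1 κ (wp κ (bs a R ρ j) (i * ρ + t)) ρ ω) =
        T.filter (fun t => W1 κ (wp κ (bs a R ρ j) (i * ρ + t)) ρ (ω ∩ F2)) := by
      refine filter_congr fun t ht => ?_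
      rw [W1_local, W1_local (ω := ω ∩ F2), inter_assoc,
        inter_eq_right.2 (hsub t ht)]
    rw [this]
  have e1 := Pr_indep hF1E hF2E (AL_disj_BR (κ := κ) (z := z1) (ρ := (K + 3) * ρ) (R := R)).symm
    (U3 κ z1 ((K + 3) * ρ) R) B
  have e2 : Pr E (B2 κ a R ρ K m j i) ≤ Pr E (fun ω => U3 κ z1 ((K + 3) * ρ) R
      (ω ∩ AL κ z1 ((K + 3) * ρ) R) ∧ B (ω ∩ F2)) := by
    refine Pr_mono fun ω _ h => ?_
    refine ⟨U3_local.1 h.1, (hBloc ω).1 ?_⟩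
    exact h.2
  rw [e1] at e2
  refine e2.trans ?_
  have g1 := hu3 z1 ((K + 3) * ρ) R (by nlinarith) hR
  push_cast at g1
  have g2 : Pr F2 B ≤ (2 * (K + 1) * ρ + 1) * a1 κ ρ / m := by
    refine (markov F2 T (fun t => W1 κ (wp κ (bs a R ρ j) (i * ρ + t)) ρ) hm B ?_).trans ?_
    · intro ω _ hB
      exact ⟨T.filter (fun t => W1 κ (wp κ (bs a R ρ j) (i * ρ + t)) ρ ω), filter_subset _ _,
        fun t ht => (mem_filter.1 ht).2, hB.le⟩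
    · refine div_le_div_of_nonneg_right ?_ hm.le
      have h1 : ∑ t ∈ T, Pr F2 (W1 κ (wp κ (bs a R ρ j) (i * ρ + t)) ρ) = ∑ t ∈ T, a1 κ ρ :=
        sum_congr rfl fun t ht => Pr_W1 (hsub t ht)
      rw [h1, sum_const, nsmul_eq_mul, hT, Int.card_Icc]
      refine mul_le_mul_of_nonneg_right ?_ a1_nonneg
      have h2 : (((K + 1) * ρ + 1 - -((K + 1) * ρ)).toNat : ℤ) = 2 * (K + 1) * ρ + 1 := by
        rw [Int.toNat_of_nonneg (by nlinarith)]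
        ring
      have h3 : (((((K + 1) * ρ + 1 - -((K + 1) * ρ)).toNat : ℕ) : ℤ) : ℝ) = 2 * (K + 1) * ρ + 1 := by
        rw [h2]; push_cast; ring
      rw [← h3, Int.cast_natCast]
  exact mul_le_mul g1 g2 (Pr_nonneg _ _) (by positivity)

/-- telescoping -/
lemma sum_inv_sq {K : ℤ} (hK : 1 ≤ K) (N : ℤ) : ∑ n ∈ Icc K N, 1 / (n : ℝ) ^ 2 ≤ 2 / (K : ℝ) := by
  have hKR : (1 : ℝ) ≤ K := by exact_mod_cast hK
  rcases lt_or_ge N K with h | h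
  · rw [Icc_eq_empty (by omega), sum_empty]
    positivity
  · have key : ∀ k : ℕ, ∑ n ∈ Icc K (K + k), 1 / (n : ℝ) ^ 2 ≤ 2 / (K : ℝ) - 1 / ((K : ℝ) + k) := by
      intro k
      induction k with
      | zero =>
        simp only [Nat.cast_zero, add_zero, Icc_self, sum_singleton]
        have : (1 : ℝ) / (K : ℝ) ^ 2 ≤ 1 / K := by
          rw [div_le_div_iff₀ (by positivity) (by positivity)]
          nlinarith
        have e : (2 : ℝ) / K - 1 / K = 1 / K := by ring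
        rw [e]
        exact this
      | succ k ih =>
        have e1 : Icc K (K + ((k + 1 : ℕ) : ℤ)) = insert (K + ((k + 1 : ℕ) : ℤ)) (Icc K (K + k)) := by
          ext x
          rw [mem_insert, mem_Icc, mem_Icc]
          push_cast
          omega
        rw [e1, sum_insert (by rw [mem_Icc]; push_cast; omega)]
        push_cast
        have hk : (0 : ℝ) ≤ k := Nat.cast_nonneg k
        have h1 : (1 : ℝ) / ((K : ℝ) + (k + 1)) ^ 2 ≤ 1 / (K + k) - 1 / (K + (k + 1)) := by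
          rw [div_sub_div _ _ (by positivity) (by positivity), div_le_div_iff₀ (by positivity)
            (by positivity)]
          nlinarith
        linarith
    obtain ⟨k, hk⟩ : ∃ k : ℕ, N = K + k := ⟨(N - K).toNat, by omega⟩
    rw [hk]
    have := key k
    have h2 : (0 : ℝ) ≤ 1 / ((K : ℝ) + k) := by positivity
    linarith

end Pool.Agent.H59.Q1
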