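import Mathlib
import Pool.Agent.H59.Q1.LowProb

set_option autoImplicit false
open Finset

/-!
# Lower bound for the contacts of a macroscopic cluster: the union bound
-/

namespace Pool.Agent.H59.Q1

open Pool.Agent.H75.Perc Pool.Agent.H75.TwoArm Pool.Agent.H75.Four Pool.Agent.H49.Perc
open Pool.Agent.H99.NC Pool.Agent.H60.Q1 Pool.Agent.H20.Q1

variable {κ : ℤ} {E ω ω' : Finset (ℤ × ℤ)} {o w z a u : ℤ × ℤ} {N ρ R D K L J I : ℤ} {m : ℝ}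

/-- a vertical crossing connects the box to the level -/
lemma XX_of_VC (hκ : κ = 0 ∨ κ = 1) (hR : 1 ≤ R)
    (h : VC (a.1 - R) (a.1 + R) (a.2 - 6 * R) a.2 ω) : XX κ a R (ht κ a - 4 * R) ω := by
  obtain ⟨p, q, hp, hp2, hq2, hco⟩ := h
  have hq : inB (a.1 - R) (a.1 + R) (a.2 - 6 * R) a.2 q := by
    rcases Relation.ReflTransGen.cases_tail hco with h1 | ⟨y, -, h1⟩
    · rw [h1]; exact hp
    · have g1 := (mem_inter.1 h1.2).2
      rw [mem_Bx] at g1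
      have g2 := unit_cases h1.1
      simp only [Prod.fst_add, Prod.snd_add] at g1
      unfold inB
      omega
  unfold inB at hp hq
  have hqa : Near a R q := by
    unfold Near
    rw [abs_le, abs_le]
    omega
  obtain ⟨w, h1, h2⟩ := level_of (ω := ω) (h := ht κ a - 4 * R) (u := q) (p := p) hκ
    (hco.mono inter_subset_left).symm (by
      unfold ht
      rcases hκ with rfl | rfl <;> omega) (by
      unfold ht
      rcases hκ with rfl | rfl <;> omega)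
  exact ⟨q, hqa, w, h1, h2⟩

/-- the macroscopic event has a positive probability -/
theorem macro_ge : ∃ c : ℝ, 0 < c ∧ ∃ M : ℤ, 4 ≤ M ∧ ∀ κ : ℤ, (κ = 0 ∨ κ = 1) → ∀ (a : ℤ × ℤ)
    (R : ℤ), 1 ≤ R → ∀ Q : ℤ, 6 * R ≤ Q →
    c ≤ Pr (BR a Q) (fun ω => XX κ a R (ht κ a - 4 * R) ω ∧ ¬ Arm1 a R (M * R) ω) := by
  obtain ⟨δ, hδ0, hδ1, hdec⟩ := open_arm_decay
  obtain ⟨c1, hc1, hrsw⟩ := rsw_q 3
  obtain ⟨k, hk⟩ := exists_pow_lt_of_lt_one (show (0 : ℝ) < c1 / 2 by positivity)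
    (show 1 - δ < 1 by linarith)
  have hk' : (1 - δ) ^ (k + 1) ≤ c1 / 2 := by
    have h1 : (1 - δ) ^ (k + 1) ≤ (1 - δ) ^ k :=
      pow_le_pow_of_le_one (by linarith) (by linarith) (Nat.le_succ k)
    linarith
  refine ⟨c1 / 2, by positivity, 4 ^ (k + 1), ?_, fun κ hκ a R hR Q hQ => ?_⟩
  · rw [pow_succ]
    have : (1 : ℤ) ≤ 4 ^ k := one_le_pow₀ (by norm_num)
    omega
  have h1 : c1 ≤ Pr (BR a Q) (VC (a.1 - R) (a.1 + R) (a.2 - 6 * R) a.2) := by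
    rw [← hf_Pr]
    refine (hrsw hf hf_Qh (BR a Q) (a.1 - R) (a.1 + R) (a.2 - 6 * R) a.2 (by omega) (by omega)
      ?_).2 ?_
    · unfold BR
      exact Bx_sub (by omega) (by omega) (by omega) (by omega)
    · push_cast
      omega
  have h2 : Pr (BR a Q) (Arm1 a R (4 ^ (k + 1) * R)) ≤ c1 / 2 :=
    (hdec (BR a Q) BR_odd a R hR (k + 1)).trans hk'
  have h3 : Pr (BR a Q) (VC (a.1 - R) (a.1 + R) (a.2 - 6 * R) a.2) ≤
      Pr (BR a Q) (fun ω => XX κ a R (ht κ a - 4 * R) ω ∧ ¬ Arm1 a R (4 ^ (k + 1) * R) ω) +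
      Pr (BR a Q) (Arm1 a R (4 ^ (k + 1) * R)) := by
    refine (Pr_mono fun ω _ h => ?_).trans (Pr_or_le _ _ _)
    by_cases h4 : Arm1 a R (4 ^ (k + 1) * R) ω
    · exact Or.inr h4
    · exact Or.inl ⟨XX_of_VC hκ hR h, h4⟩
  linarith

/-- the union bound -/
theorem union_le {C : ℝ} (hC : 1 ≤ C) (hu3 : ∀ (z : ℤ × ℤ) (ρ R : ℤ), 1 ≤ ρ → 1 ≤ R →
    u3 κ z ρ R ≤ C * (ρ / R) ^ 2) (hκ : κ = 0 ∨ κ = 1) (hρ : 1 ≤ ρ) (hK : 12 ≤ K)
    (hKR : (K + 3) * ρ < R) (hRD : R ≤ D) (hm : 0 < m) {Jn : ℕ} (hI0 : 0 ≤ I)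
    (hJ : 2 * D ≤ Jn * ρ) (hI : D + ρ ≤ I * ρ) (hN : 2 * D + ρ ≤ N * ρ)
    (hJ' : Jn * ρ ≤ 2 * D + ρ) (hI' : I * ρ ≤ D + 2 * ρ) (hN' : N * ρ ≤ 2 * D + 2 * ρ) :
    Pr (BR a (30 * D)) (fun ω => XX κ a R (ht κ a - 4 * R) ω ∧ ¬ Arm1 a R D ω) ≤
      Jn * ((2 * I + 1) * (ρ * lmp κ R m +
        C * (((K : ℝ) + 3) * ρ / R) ^ 2 * ((2 * (K + 1) * ρ + 1) * a1 κ ρ / m) +
        C ^ 3 * 2 ^ 20 * ((ρ : ℝ) / R) ^ 2 * (2 / K))) := by
  classical
  have hρR : ρ < R := by nlinarith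
  have hR : 1 ≤ R := by omega
  have hκ0 : 0 ≤ κ ∧ κ ≤ 1 := by omega
  set E := BR a (30 * D) with hE
  have hu : Pr E (fun ω => XX κ a R (ht κ a - 4 * R) ω ∧ ¬ Arm1 a R D ω) ≤
      ∑ j ∈ range Jn, ∑ i ∈ Icc (-I) I, (∑ t ∈ Ico (0 : ℤ) ρ,
        Pr E (Lm κ (wp κ (bs a R ρ j) (i * ρ + t)) R m) +
        (Pr E (B2 κ a R ρ K m j i) + ∑ n ∈ Icc K N, Pr E (B1 κ a R ρ j i n))) := by
    refine (Pr_mono (B := fun ω => ∃ j ∈ range Jn, ∃ i ∈ Icc (-I) I, (∃ t ∈ Ico (0 : ℤ) ρ,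
      Lm κ (wp κ (bs a R ρ j) (i * ρ + t)) R m ω) ∨ (B2 κ a R ρ K m j i ω ∨ ∃ n ∈ Icc K N,
        B1 κ a R ρ j i n ω)) fun ω _ h => cover hκ hρ hKR hK hJ hI hN h.1 h.2).trans ?_
    refine (Pr_exists_le E _ _).trans (sum_le_sum fun j _ => ?_)
    refine (Pr_exists_le E _ _).trans (sum_le_sum fun i _ => ?_)
    refine (Pr_or_le E _ _).trans (add_le_add (Pr_exists_le E _ _) ?_)
    exact (Pr_or_le E _ _).trans (add_le_add le_rfl (Pr_exists_le E _ _))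
  refine hu.trans ?_
  have hpt : ∀ j ∈ range Jn, ∀ i ∈ Icc (-I) I, (∑ t ∈ Ico (0 : ℤ) ρ,
        Pr E (Lm κ (wp κ (bs a R ρ j) (i * ρ + t)) R m) +
        (Pr E (B2 κ a R ρ K m j i) + ∑ n ∈ Icc K N, Pr E (B1 κ a R ρ j i n))) ≤
      ρ * lmp κ R m +
        C * (((K : ℝ) + 3) * ρ / R) ^ 2 * ((2 * (K + 1) * ρ + 1) * a1 κ ρ / m) +
        C ^ 3 * 2 ^ 20 * ((ρ : ℝ) / R) ^ 2 * (2 / K) := by
    intro j hj i hi
    rw [mem_range] at hj
    rw [mem_Icc] at hi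
    have hjρ : 0 ≤ (j : ℤ) * ρ ∧ (j : ℤ) * ρ + ρ ≤ Jn * ρ := by
      constructor
      · positivity
      · have : ((j : ℤ) + 1) * ρ ≤ Jn * ρ := mul_le_mul_of_nonneg_right (by omega) (by omega)
        linarith
    have hiρ : -(I * ρ) ≤ i * ρ ∧ i * ρ ≤ I * ρ := by
      constructor
      · have : (-I) * ρ ≤ i * ρ := mul_le_mul_of_nonneg_right hi.1 (by omega)
        linarith
      · exact mul_le_mul_of_nonneg_right hi.2 (by omega)
    have e1 : ((j : ℤ) + 1) * ρ = j * ρ + ρ := by ring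
    -- boxes
    have hbox : ∀ (jj k r : ℤ), -ρ ≤ jj * ρ → jj * ρ ≤ 2 * D + 2 * ρ → |k| ≤ D + 3 * ρ → r ≤ 18 * D →
        BR (wp κ (bs a R ρ jj) k) r ⊆ E := by
      intro jj k r h1 h2 h3 h4
      rw [hE]
      unfold BR
      rw [abs_le] at h3
      unfold wp bs
      rcases hκ with rfl | rfl
      · exact Bx_sub (by simp only; omega) (by simp only; omega) (by simp only; omega)
          (by simp only; omega)
      · exact Bx_sub (by simp only; omega) (by simp only; omega) (by simp only; omega)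
          (by simp only; omega)
    have g1 : ∑ t ∈ Ico (0 : ℤ) ρ, Pr E (Lm κ (wp κ (bs a R ρ j) (i * ρ + t)) R m) =
        ρ * lmp κ R m := by
      have h1 : ∑ t ∈ Ico (0 : ℤ) ρ, Pr E (Lm κ (wp κ (bs a R ρ j) (i * ρ + t)) R m) =
          ∑ t ∈ Ico (0 : ℤ) ρ, lmp κ R m := by
        refine sum_congr rfl fun t ht => ?_
        rw [mem_Ico] at ht
        refine Pr_Lm (HL_sub_BR.trans (hbox j (i * ρ + t) R (by omega) (by omega) ?_ (by omega)))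
        rw [abs_le]
        omega
      rw [h1, sum_const, nsmul_eq_mul, Int.card_Ico, sub_zero]
      congr 1
      have : ((ρ.toNat : ℤ) : ℝ) = ρ := by rw [Int.toNat_of_nonneg (by omega)]
      rw [← this, Int.cast_natCast]
    have g2 := B2_le (κ := κ) (E := E) (a := a) (j := j) (i := i) hC hu3 hκ hρ hR hK hKR.le hm
      (hbox (j + 1) (i * ρ) R (by rw [e1]; omega) (by rw [e1]; omega)
        (by rw [abs_le]; omega) (by omega))
    have g3 : ∑ n ∈ Icc K N, Pr E (B1 κ a R ρ j i n) ≤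
        C ^ 3 * 2 ^ 20 * ((ρ : ℝ) / R) ^ 2 * (2 / K) := by
      have h1 : ∀ n ∈ Icc K N, Pr E (B1 κ a R ρ j i n) ≤
          C ^ 3 * 2 ^ 20 * ((ρ : ℝ) / R) ^ 2 * (1 / (n : ℝ) ^ 2) := by
        intro n hn
        rw [mem_Icc] at hn
        have hnρ : n * ρ ≤ N * ρ := mul_le_mul_of_nonneg_right hn.2 (by omega)
        refine B1_le hC hu3 hκ hρ hR (by omega) ?_
        refine hbox (j + 1) (i * ρ) _ (by rw [e1]; omega) (by rw [e1]; omega)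
          (by rw [abs_le]; omega) ?_
        omega
      refine (sum_le_sum h1).trans ?_
      rw [← mul_sum]
      exact mul_le_mul_of_nonneg_left (sum_inv_sq (by omega) N) (by positivity)
    rw [g1]
    linarith
  have h1 : ∀ j ∈ range Jn, ∑ i ∈ Icc (-I) I, (∑ t ∈ Ico (0 : ℤ) ρ,
        Pr E (Lm κ (wp κ (bs a R ρ j) (i * ρ + t)) R m) +
        (Pr E (B2 κ a R ρ K m j i) + ∑ n ∈ Icc K N, Pr E (B1 κ a R ρ j i n))) ≤
      (2 * I + 1) * (ρ * lmp κ R m +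
        C * (((K : ℝ) + 3) * ρ / R) ^ 2 * ((2 * (K + 1) * ρ + 1) * a1 κ ρ / m) +
        C ^ 3 * 2 ^ 20 * ((ρ : ℝ) / R) ^ 2 * (2 / K)) := by
    intro j hj
    refine (sum_le_sum (hpt j hj)).trans ?_
    rw [sum_const, nsmul_eq_mul, Int.card_Icc]
    have h2 : (((I + 1 - -I).toNat : ℤ) : ℝ) = 2 * I + 1 := by
      rw [Int.toNat_of_nonneg (by omega)]
      push_cast
      ring
    rw [← h2, Int.cast_natCast]
  refine (sum_le_sum h1).trans ?_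
  rw [sum_const, nsmul_eq_mul, card_range]


end Pool.Agent.H59.Q1
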