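import Mathlib
import Pool.Agent.H59.Q1.LowUnion

set_option autoImplicit false
open Finset

/-!
# Lower bound for the contacts of a macroscopic cluster: the theorem

`lmp_ge` : there are `c > 0` and `L` such that for `κ ∈ {0,1}`, `ρ ≥ 1`, `L ρ ≤ R`, `m ≥ L ρ a1(ρ)`:
`P(w is the leftmost wall vertex of its cluster, which reaches R and has at most m wall vertices)`
is at least `c ρ / R²` (wall `y = const` for `κ = 0`, `x + y = const` for `κ = 1`, `p = 1/2`);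
`a1 κ ρ` is the probability that a wall vertex is connected to distance `ρ` above the wall.
-/

namespace Pool.Agent.H59.Q1

open Pool.Agent.H75.Perc Pool.Agent.H75.TwoArm Pool.Agent.H75.Four Pool.Agent.H49.Perc
open Pool.Agent.H99.NC Pool.Agent.H60.Q1 Pool.Agent.H20.Q1

/-- **lower bound for the contacts** -/
theorem lmp_ge : ∃ c : ℝ, 0 < c ∧ ∃ L : ℤ, 1 ≤ L ∧ ∀ κ : ℤ, (κ = 0 ∨ κ = 1) → ∀ ρ R : ℤ, 1 ≤ ρ →
    L * ρ ≤ R → ∀ m : ℝ, L * (ρ * a1 κ ρ) ≤ m → c * ρ / R ^ 2 ≤ lmp κ R m := by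
  obtain ⟨c1, hc1, M, hM, hmac⟩ := macro_ge
  obtain ⟨C0, hC0, hu0⟩ := u3_le
  set C : ℝ := max C0 1 with hCdef
  have hC : 1 ≤ C := le_max_right _ _
  have hu3 : ∀ κ : ℤ, (κ = 0 ∨ κ = 1) → ∀ (z : ℤ × ℤ) (ρ R : ℤ), 1 ≤ ρ → 1 ≤ R →
      u3 κ z ρ R ≤ C * (ρ / R) ^ 2 := fun κ hκ z ρ R h1 h2 =>
    (hu0 κ hκ z ρ R h1 h2).trans (mul_le_mul_of_nonneg_right (le_max_left _ _) (by positivity))
  have hMR : (4 : ℝ) ≤ M := by exact_mod_cast hM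
  set CD : ℝ := 21 * (M : ℝ) ^ 2 with hCD
  have hCDp : 0 < CD := by positivity
  obtain ⟨K0, hK0⟩ := exists_nat_ge (16 * CD * C ^ 3 * 2 ^ 20 / c1)
  set K : ℤ := (K0 : ℤ) + 12 with hK
  have hK12 : 12 ≤ K := by omega
  have hKR : (12 : ℝ) ≤ K := by exact_mod_cast hK12
  have hKb : CD * (C ^ 3 * 2 ^ 20 * (2 / K)) ≤ c1 / 8 := by
    have h1 : 16 * CD * C ^ 3 * 2 ^ 20 / c1 ≤ (K : ℝ) := by
      rw [hK]; push_cast; linarith
    rw [div_le_iff₀ hc1] at h1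
    rw [show CD * (C ^ 3 * 2 ^ 20 * (2 / (K : ℝ))) = (CD * C ^ 3 * 2 ^ 20 * 2) / K by ring,
      div_le_iff₀ (by linarith)]
    linarith
  obtain ⟨Λ, hΛ⟩ := exists_nat_ge (8 * CD * C * ((K : ℝ) + 3) ^ 2 * (2 * K + 3) / c1)
  have hΛ' : 8 * CD * C * ((K : ℝ) + 3) ^ 2 * (2 * K + 3) ≤ c1 * (Λ + 1) := by
    rw [div_le_iff₀ hc1] at hΛ
    linarith
  refine ⟨c1 / (2 * CD), by positivity, max (K + 4) (Λ + 1), le_max_of_le_left (by omega),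
    fun κ hκ ρ R hρ hLR m hm => ?_⟩
  have hLK : K + 4 ≤ max (K + 4) ((Λ : ℤ) + 1) := le_max_left _ _
  have hLΛ : (Λ : ℤ) + 1 ≤ max (K + 4) ((Λ : ℤ) + 1) := le_max_right _ _
  set L : ℤ := max (K + 4) ((Λ : ℤ) + 1) with hL
  have hKρ : (K + 3) * ρ < R := by nlinarith
  have hρR : ρ < R := by nlinarith
  have hR : 1 ≤ R := by omega
  have hρ' : (1 : ℝ) ≤ ρ := by exact_mod_cast hρ
  have hR' : (1 : ℝ) ≤ R := by exact_mod_cast hR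
  have hρR' : (ρ : ℝ) ≤ R := by exact_mod_cast hρR.le
  have ha1 := a1_pos (κ := κ) hκ hρ
  have hΛR : ((Λ : ℝ) + 1) ≤ L := by exact_mod_cast hLΛ
  have hm1 : ((Λ : ℝ) + 1) * (ρ * a1 κ ρ) ≤ m :=
    (mul_le_mul_of_nonneg_right hΛR (by positivity)).trans hm
  have hm0 : 0 < m := lt_of_lt_of_le (by positivity) hm1
  set D : ℤ := M * R with hD
  have hRD : R ≤ D := by nlinarith
  have hDρ : ρ ≤ D := by omega
  have hD0 : 0 ≤ D / ρ := Int.ediv_nonneg (by omega) (by omega)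
  have hD2 : 0 ≤ 2 * D / ρ := Int.ediv_nonneg (by omega) (by omega)
  have hdm1 := Int.mul_ediv_add_emod (2 * D) ρ
  have hdm2 := Int.mul_ediv_add_emod D ρ
  have hmo1 := Int.emod_nonneg (2 * D) (by omega : ρ ≠ 0)
  have hmo2 := Int.emod_nonneg D (by omega : ρ ≠ 0)
  have hmo3 := Int.emod_lt_of_pos (2 * D) (by omega : 0 < ρ)
  have hmo4 := Int.emod_lt_of_pos D (by omega : 0 < ρ)
  obtain ⟨Jn, hJn⟩ : ∃ Jn : ℕ, (Jn : ℤ) = 2 * D / ρ + 1 := ⟨(2 * D / ρ + 1).toNat, by omega⟩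
  have eJ : (Jn : ℤ) * ρ = ρ * (2 * D / ρ) + ρ := by rw [hJn]; ring
  have eI : (D / ρ + 2) * ρ = ρ * (D / ρ) + 2 * ρ := by ring
  have eN : (2 * D / ρ + 2) * ρ = ρ * (2 * D / ρ) + 2 * ρ := by ring
  have hun := union_le (κ := κ) (a := (0, 0)) (ρ := ρ) (R := R) (K := K) (D := D) (I := D / ρ + 2)
    (N := 2 * D / ρ + 2) (m := m) (Jn := Jn) hC (hu3 κ hκ) hκ hρ hK12 hKρ hRD hm0 (by omega)
    (by rw [eJ]; omega) (by rw [eI]; omega) (by rw [eN]; omega) (by rw [eJ]; omega)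
    (by rw [eI]; omega) (by rw [eN]; omega)
  have hlow := (hmac κ hκ (0, 0) R hR (30 * D) (by omega)).trans hun
  -- counting
  have hDR : (D : ℝ) = M * R := by rw [hD]; push_cast; ring
  have hDρR : (ρ : ℝ) ≤ D := by exact_mod_cast hDρ
  have hJb : (Jn : ℝ) ≤ 3 * (D / ρ) := by
    have h1 : (Jn : ℤ) * ρ ≤ 3 * D := by rw [eJ]; omega
    have h2 : (Jn : ℝ) * ρ ≤ 3 * D := by exact_mod_cast h1
    rw [← mul_div_assoc, le_div_iff₀ (by linarith)]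
    exact h2
  have hIb : 2 * ((D / ρ + 2 : ℤ) : ℝ) + 1 ≤ 7 * (D / ρ) := by
    have h1 : (2 * (D / ρ + 2) + 1) * ρ ≤ 7 * D := by
      have : (2 * (D / ρ + 2) + 1) * ρ = 2 * (ρ * (D / ρ)) + 5 * ρ := by ring
      rw [this]
      omega
    have h2 : (2 * ((D / ρ + 2 : ℤ) : ℝ) + 1) * ρ ≤ 7 * D := by exact_mod_cast h1
    rw [← mul_div_assoc, le_div_iff₀ (by linarith)]
    exact h2
  have hlmp0 : 0 ≤ lmp κ R m := lmp_nonneg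
  set T : ℝ := ρ * lmp κ R m +
        C * (((K : ℝ) + 3) * ρ / R) ^ 2 * ((2 * (K + 1) * ρ + 1) * a1 κ ρ / m) +
        C ^ 3 * 2 ^ 20 * ((ρ : ℝ) / R) ^ 2 * (2 / K) with hT
  have hT0 : 0 ≤ T := by positivity
  have hDp : 0 ≤ (D : ℝ) / ρ := by positivity
  have h1 : c1 ≤ CD * (R / ρ) ^ 2 * T := by
    refine hlow.trans ?_
    have h2 : (2 * ((D / ρ + 2 : ℤ) : ℝ) + 1) * T ≤ 7 * (D / ρ) * T :=
      mul_le_mul_of_nonneg_right hIb hT0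
    have h3 : (Jn : ℝ) * ((2 * ((D / ρ + 2 : ℤ) : ℝ) + 1) * T) ≤
        3 * (D / ρ) * (7 * (D / ρ) * T) :=
      mul_le_mul hJb h2 (mul_nonneg (by
        have : (0 : ℝ) ≤ ((D / ρ + 2 : ℤ) : ℝ) := by exact_mod_cast (by omega : (0 : ℤ) ≤ D / ρ + 2)
        linarith) hT0) (by positivity)
    refine h3.trans (le_of_eq ?_)
    rw [hCD, hDR]
    field_simp
    ring
  -- the three terms
  have t2 : CD * (R / ρ) ^ 2 * (C * (((K : ℝ) + 3) * ρ / R) ^ 2 *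
      ((2 * (K + 1) * ρ + 1) * a1 κ ρ / m)) ≤ c1 / 8 := by
    have e : CD * ((R : ℝ) / ρ) ^ 2 * (C * (((K : ℝ) + 3) * ρ / R) ^ 2 *
      ((2 * (K + 1) * ρ + 1) * a1 κ ρ / m)) =
      (CD * C * ((K : ℝ) + 3) ^ 2 * ((2 * (K + 1) * ρ + 1) * a1 κ ρ)) / m := by
      field_simp
    rw [e, div_le_iff₀ hm0]
    have h2 : (2 * ((K : ℝ) + 1) * ρ + 1) * a1 κ ρ ≤ (2 * K + 3) * (ρ * a1 κ ρ) := by
      have : 2 * ((K : ℝ) + 1) * ρ + 1 ≤ (2 * K + 3) * ρ := by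
        have e0 : (2 * (K : ℝ) + 3) * ρ - (2 * (K + 1) * ρ + 1) = ρ - 1 := by ring
        linarith
      calc _ ≤ (2 * (K : ℝ) + 3) * ρ * a1 κ ρ := mul_le_mul_of_nonneg_right this ha1.le
        _ = _ := by ring
    have h3 : 0 ≤ CD * C * ((K : ℝ) + 3) ^ 2 := by positivity
    calc CD * C * ((K : ℝ) + 3) ^ 2 * ((2 * (K + 1) * ρ + 1) * a1 κ ρ)
        ≤ CD * C * ((K : ℝ) + 3) ^ 2 * ((2 * K + 3) * (ρ * a1 κ ρ)) :=
          mul_le_mul_of_nonneg_left h2 h3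
      _ = (CD * C * ((K : ℝ) + 3) ^ 2 * (2 * K + 3)) * (ρ * a1 κ ρ) := by ring
      _ ≤ (c1 * (Λ + 1) / 8) * (ρ * a1 κ ρ) :=
          mul_le_mul_of_nonneg_right (by linarith) (by positivity)
      _ = c1 / 8 * ((Λ + 1) * (ρ * a1 κ ρ)) := by ring
      _ ≤ c1 / 8 * m := mul_le_mul_of_nonneg_left hm1 (by positivity)
  have t3 : CD * (R / ρ) ^ 2 * (C ^ 3 * 2 ^ 20 * ((ρ : ℝ) / R) ^ 2 * (2 / K)) ≤ c1 / 8 := by
    have e : CD * ((R : ℝ) / ρ) ^ 2 * (C ^ 3 * 2 ^ 20 * ((ρ : ℝ) / R) ^ 2 * (2 / K)) =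
        CD * (C ^ 3 * 2 ^ 20 * (2 / K)) := by
      field_simp
    rw [e]
    exact hKb
  have t1 : c1 / 2 ≤ CD * (R / ρ) ^ 2 * (ρ * lmp κ R m) := by
    rw [hT] at h1
    have e : CD * ((R : ℝ) / ρ) ^ 2 * (ρ * lmp κ R m +
        C * (((K : ℝ) + 3) * ρ / R) ^ 2 * ((2 * (K + 1) * ρ + 1) * a1 κ ρ / m) +
        C ^ 3 * 2 ^ 20 * ((ρ : ℝ) / R) ^ 2 * (2 / K)) =
        CD * (R / ρ) ^ 2 * (ρ * lmp κ R m) +
        CD * (R / ρ) ^ 2 * (C * (((K : ℝ) + 3) * ρ / R) ^ 2 *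
          ((2 * (K + 1) * ρ + 1) * a1 κ ρ / m)) +
        CD * (R / ρ) ^ 2 * (C ^ 3 * 2 ^ 20 * ((ρ : ℝ) / R) ^ 2 * (2 / K)) := by ring
    rw [e] at h1
    linarith
  have e2 : CD * ((R : ℝ) / ρ) ^ 2 * (ρ * lmp κ R m) = CD * R ^ 2 / ρ * lmp κ R m := by
    field_simp
  rw [e2] at t1
  rw [div_le_iff₀ (by positivity), div_mul_eq_mul_div, div_le_iff₀ (by positivity)]
  have h4 : CD * (R : ℝ) ^ 2 / ρ * lmp κ R m * ρ = CD * R ^ 2 * lmp κ R m := by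
    field_simp
  have h5 : c1 / 2 * ρ ≤ CD * R ^ 2 * lmp κ R m := by
    rw [← h4]
    exact mul_le_mul_of_nonneg_right t1 (by linarith)
  have h6 : lmp κ R m * (R : ℝ) ^ 2 * (2 * CD) = 2 * (CD * R ^ 2 * lmp κ R m) := by ring
  rw [mul_comm (lmp κ R m)] at h6
  linarith

end Pool.Agent.H59.Q1
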