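import Mathlib
import Pool.Agent.H59.Q1.LowShift
import Pool.Agent.H20.Q1.MxLoc

set_option autoImplicit false
open Finset

/-!
# Weighted mass of the clusters with an extreme contact at a given wall vertex

`gS σ κ s x R` : weight `σ ^ |S|` of the cluster of the wall vertex `x` in the half box of radius `R`
(`S` its set of wall vertices), if it reaches distance `R` and `x` is its leftmost (`s = 1`) or its
rightmost (`s = -1`) wall vertex. `pS σ κ s R` its expectation.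
-/

namespace Pool.Agent.H59.Q1

open Pool.Agent.H75.Perc Pool.Agent.H75.TwoArm Pool.Agent.H75.Four Pool.Agent.H49.Perc
open Pool.Agent.H99.NC Pool.Agent.H60.Q1 Pool.Agent.H20.Q1

/-- wall vertices of the cluster of `x` in the half box of radius `R` -/
def CC (κ : ℤ) (x : ℤ × ℤ) (R : ℤ) (ω : Finset (ℤ × ℤ)) : Set (ℤ × ℤ) :=
  CS (FW κ x) (ω ∩ HL κ x R) x

/-- the cluster of `x` reaches distance `R` and `x` is its extreme wall vertex -/
def Sd (κ s : ℤ) (x : ℤ × ℤ) (R : ℤ) (ω : Finset (ℤ × ℤ)) : Prop :=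
  W1 κ x R ω ∧ ∀ y ∈ CC κ x R ω, 0 ≤ s * (y.1 - x.1)

/-- weight -/
noncomputable def gS (σ : ℝ) (κ s : ℤ) (x : ℤ × ℤ) (R : ℤ) (ω : Finset (ℤ × ℤ)) : ℝ :=
  σ ^ (CC κ x R ω).ncard * ind (Sd κ s x R ω)

/-- mass -/
noncomputable def pS (σ : ℝ) (κ s : ℤ) (R : ℤ) : ℝ := Ex hf (HL κ 0 R) (gS σ κ s 0 R)

variable {σ : ℝ} {κ s ε : ℤ} {E ω ω' : Finset (ℤ × ℤ)} {x y z w u v : ℤ × ℤ} {R ρ a b m d : ℤ}

lemma mem_CC : y ∈ CC κ x R ω ↔ ht κ y = ht κ x ∧ Co (ω ∩ HL κ x R) x y := Iff.rfl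

lemma hf_pb : Pb hf := hf_Pb

/-- vertices of the cluster -/
lemma co_HL_reg (hκ : κ = 0 ∨ κ = 1) (hR : 0 ≤ R) (h : Co (ω ∩ HL κ x R) x y) :
    ht κ x ≤ ht κ y ∧ inR x R y := by
  by_cases hne : x = y
  · subst hne
    rw [inR_iff]
    omega
  · obtain ⟨p, h5, h6, -⟩ := end_in h hne
    have h7 := mem_HL'.1 (mem_inter.1 h6).2
    exact ⟨(above_ends hκ h5 h7.2).2, (BR_ends h5 h7.1).2⟩

lemma CC_fin (hκ : κ = 0 ∨ κ = 1) (hR : 0 ≤ R) : (CC κ x R ω).Finite := by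
  refine Set.Finite.subset (s := ((Icc (x.1 - R) (x.1 + R) ×ˢ Icc (x.2 - R) (x.2 + R) :
    Finset (ℤ × ℤ)) : Set (ℤ × ℤ))) (Finset.finite_toSet _) fun y hy => ?_
  have h1 := (co_HL_reg hκ hR hy.2).2
  rw [inR_iff] at h1
  rw [mem_coe, mem_product, mem_Icc, mem_Icc]
  omega

lemma CC_local : CC κ x R ω = CC κ x R (ω ∩ HL κ x R) := by
  unfold CC
  rw [inter_assoc, inter_self]

lemma gS_local : gS σ κ s x R ω = gS σ κ s x R (ω ∩ HL κ x R) := by
  unfold gS Sd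
  rw [← CC_local]
  congr 1
  exact ind_congr (and_congr W1_local Iff.rfl)

lemma gS_nonneg (h0 : 0 ≤ σ) : 0 ≤ gS σ κ s x R ω :=
  mul_nonneg (pow_nonneg h0 _) (ind_nonneg _)

lemma gS_le_ind (h0 : 0 ≤ σ) (h1 : σ ≤ 1) : gS σ κ s x R ω ≤ ind (Sd κ s x R ω) := by
  unfold gS
  calc _ ≤ 1 * ind (Sd κ s x R ω) :=
        mul_le_mul_of_nonneg_right (pow_le_one₀ h0 h1) (ind_nonneg _)
    _ = _ := one_mul _

lemma pS_nonneg (h0 : 0 ≤ σ) : 0 ≤ pS σ κ s R := Ex_nonneg hf_pb fun _ _ => gS_nonneg h0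

lemma pS_le_one (h0 : 0 ≤ σ) (h1 : σ ≤ 1) : pS σ κ s R ≤ 1 := by
  unfold pS
  rw [← Ex_const hf (HL κ 0 R) 1]
  exact Ex_mono hf_pb fun _ _ => (gS_le_ind h0 h1).trans (ind_le_one _)

/-! ### symmetries -/

lemma gS_sym (S : Sy) (hε : ε = 1 ∨ ε = -1) (hE : ∀ e, e ∈ HL κ (S.g x) R ↔ S.G' e ∈ HL κ x R)
    (hw : ∀ y, ht κ (S.g y) = ht κ (S.g x) ↔ ht κ y = ht κ x)
    (hs : ∀ y, ht κ y = ht κ x → (S.g y).1 - (S.g x).1 = ε * (y.1 - x.1))
    (hF : ∀ y, Far (S.g x) R (S.g y) ↔ Far x R y) :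
    gS σ κ s (S.g x) R (ω.map S.G) = gS σ κ (ε * s) x R ω := by
  have hC : CC κ (S.g x) R (ω.map S.G) = S.g '' CC κ x R ω := by
    ext y
    rw [mem_CC, Set.mem_image]
    rw [S.map_inter ω hE]
    constructor
    · rintro ⟨h1, h2⟩
      refine ⟨S.g' y, ⟨?_, ?_⟩, S.gg' y⟩
      · have := (hw (S.g' y)).1 (by rw [S.gg']; exact h1)
        exact this
      · rw [← S.co_iff, S.gg']; exact h2
    · rintro ⟨y', ⟨h1, h2⟩, rfl⟩
      exact ⟨(hw y').2 h1, (S.co_iff _ _ _).2 h2⟩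
  have hinj : Function.Injective S.g := fun p q h => by rw [← S.g'g p, ← S.g'g q, h]
  have hee : ε * ε = 1 := by rcases hε with rfl | rfl <;> norm_num
  unfold gS
  rw [hC, Set.ncard_image_of_injective _ hinj]
  congr 1
  apply ind_congr
  unfold Sd
  refine and_congr ?_ ?_
  · unfold W1
    rw [S.map_inter ω hE]
    constructor
    · rintro ⟨v, h1, h2⟩
      refine ⟨S.g' v, (hF _).1 (by rw [S.gg']; exact h1), ?_⟩
      rw [← S.co_iff, S.gg']; exact h2
    · rintro ⟨v, h1, h2⟩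
      exact ⟨S.g v, (hF _).2 h1, (S.co_iff _ _ _).2 h2⟩
  · rw [hC]
    constructor
    · intro h y hy
      have h1 := h (S.g y) ⟨y, hy, rfl⟩
      rw [hs y hy.1] at h1
      calc (0 : ℤ) ≤ s * (ε * (y.1 - x.1)) := h1
        _ = ε * s * (y.1 - x.1) := by ring
    · rintro h _ ⟨y, hy, rfl⟩
      rw [hs y hy.1]
      have h1 := h y hy
      calc (0 : ℤ) ≤ ε * s * (y.1 - x.1) := h1
        _ = s * (ε * (y.1 - x.1)) := by ring

lemma Ex_sym (S : Sy) {E1 E2 : Finset (ℤ × ℤ)} (hE : ∀ e, e ∈ E2 ↔ S.G' e ∈ E1)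
    (f : Finset (ℤ × ℤ) → ℝ) : Ex hf E2 f = Ex hf E1 (fun ω => f (ω.map S.G)) := by
  rw [← S.map_eq hE, Ex_map]

/-- translation -/
lemma Ex_gS (hE : HL κ x R ⊆ E) : Ex hf E (gS σ κ s x R) = pS σ κ s R := by
  have h0 : Ex hf E (gS σ κ s x R) = Ex hf (HL κ x R) (gS σ κ s x R) := by
    rw [← Ex_restrict hf hE]
    exact Ex_congr fun ω _ => gS_local
  rw [h0]
  unfold pS
  have hg : (syT x).g 0 = x := by simp [syT]
  have hH : ∀ e, e ∈ HL κ x R ↔ (syT x).G' e ∈ HL κ 0 R := by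
    have h := HL_shift (κ := κ) (z := 0) (R := R) x
    rwa [zero_add] at h
  rw [Ex_sym (syT x) hH]
  refine Ex_congr fun ω _ => ?_
  have h1 := gS_sym (σ := σ) (κ := κ) (s := s) (ε := 1) (x := 0) (R := R) (ω := ω) (syT x)
    (Or.inl rfl) (by rw [hg]; exact hH) (fun y => by
      rw [hg]
      unfold ht syT
      simp only [Prod.fst_add, Prod.snd_add, Prod.fst_zero, Prod.snd_zero, mul_add, mul_zero]
      omega) (fun y _ => by
      rw [hg]
      simp [syT]) (fun y => by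
      rw [hg]
      unfold Far syT
      simp)
  rw [hg, one_mul] at h1
  exact h1

/-- reflection -/
lemma pS_neg (hκ : κ = 0 ∨ κ = 1) : pS σ κ (-1) R = pS σ κ 1 R := by
  unfold pS
  rcases hκ with rfl | rfl
  · have hg : (syX 0).g 0 = 0 := by simp [syX]
    have hH : ∀ e, e ∈ HL 0 0 R ↔ (syX 0).G' e ∈ HL 0 0 R := by
      intro e
      rw [mem_HL, mem_HL]
      simp only [syX, Prod.fst_zero, Prod.snd_zero]
      omega
    rw [Ex_sym (syX 0) hH]
    refine Ex_congr fun ω _ => ?_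
    have h1 := gS_sym (σ := σ) (κ := 0) (s := -1) (ε := -1) (x := 0) (R := R) (ω := ω) (syX 0)
      (Or.inr rfl) (by rw [hg]; exact hH) (fun y => by
        rw [hg]
        unfold ht syX
        simp only [zero_mul, add_zero]) (fun y _ => by
        rw [hg]
        simp [syX]) (fun y => by
        rw [hg]
        unfold Far syX
        simp)
    rw [hg] at h1
    rw [h1]
    norm_num
  · have hg : syD.g 0 = 0 := by simp [syD]
    have hH : ∀ e, e ∈ HL 1 0 R ↔ syD.G' e ∈ HL 1 0 R := by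
      intro e
      rw [mem_HL, mem_HL]
      simp only [syD, Prod.fst_zero, Prod.snd_zero]
      omega
    rw [Ex_sym syD hH]
    refine Ex_congr fun ω _ => ?_
    have h1 := gS_sym (σ := σ) (κ := 1) (s := -1) (ε := -1) (x := 0) (R := R) (ω := ω) syD
      (Or.inr rfl) (by rw [hg]; exact hH) (fun y => by
        rw [hg]
        unfold ht syD
        simp only [one_mul]
        rw [add_comm y.1]) (fun y hy => by
        rw [hg]
        unfold ht at hy
        simp only [syD, Prod.fst_zero, Prod.snd_zero] at hy ⊢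
        omega) (fun y => by
        rw [hg]
        unfold Far syD
        simp only [Prod.fst_zero, Prod.snd_zero, sub_zero]
        rw [or_comm])
    rw [hg] at h1
    rw [h1]
    norm_num

end Pool.Agent.H59.Q1
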