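import Mathlib
import Pool.Agent.H60.Q1.TieP
import Pool.Agent.H49.Q1.Harnack
import Pool.Agent.H20.Q1.MxLoc

set_option autoImplicit false
open Finset

/-!
# Wall with ties: deterministic part of the recursion

`TS κ h s x t` : the cluster of `x` (height `h + 1`) in the box of radius `t` reaches distance `t`, is
untied, and `x` is its extreme contact on the side `s`.
-/

namespace Pool.Agent.H59.Q1

open Pool.Agent.H75.Perc Pool.Agent.H75.TwoArm Pool.Agent.H75.Four Pool.Agent.H49.Perc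
open Pool.Agent.H99.NC Pool.Agent.H60.Q1 Pool.Agent.H20.Q1

/-- `x` is the extreme contact of an untied cluster which reaches distance `t` -/
def TS (κ h s : ℤ) (x : ℤ × ℤ) (t : ℤ) (ω : Finset (ℤ × ℤ)) : Prop :=
  (∃ v, Far x t v ∧ Co (ω ∩ TL κ h x t) x v) ∧ (∀ y, Co (ω ∩ TL κ h x t) x y → h < ht κ y) ∧
  ∀ y, Co (ω ∩ TL κ h x t) x y → ht κ y = h + 1 → 0 ≤ s * (y.1 - x.1)

variable {κ h s : ℤ} {q : ℤ × ℤ → ℝ} {x y z w u v : ℤ × ℤ} {t a b j ρ R m : ℤ}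
  {E F ω : Finset (ℤ × ℤ)}

lemma TS_one : TS κ h 1 x t ω ↔ TA κ h x t ω := by
  unfold TS TA
  refine and_congr Iff.rfl (and_congr Iff.rfl ?_)
  constructor
  · intro h1 y hy hy1
    have := h1 y hy hy1
    omega
  · intro h1 y hy hy1
    have := h1 y hy hy1
    omega

lemma TS_local : TS κ h s x t ω ↔ TS κ h s x t (ω ∩ TL κ h x t) := by
  unfold TS
  rw [inter_assoc, inter_self]

lemma TL_mono (hab : a ≤ b) : TL κ h x a ⊆ TL κ h x b := by
  intro l hl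
  rw [mem_TL] at hl ⊢
  refine ⟨?_, hl.2⟩
  have := hl.1
  unfold BR at *
  rw [mem_Bx] at this ⊢
  omega

lemma inR_of_lt (h1 : |y.1 - x.1| < t) (h2 : |y.2 - x.2| < t) : inR x t y := by
  rw [inR_iff]
  rw [abs_lt] at h1 h2
  omega

/-- monotonicity in the radius, and change of the centre -/
lemma TS_sub (ht1 : 1 ≤ a) (hsub : TL κ h y a ⊆ F) (hfar : Far y a v) (hc : Co (ω ∩ F) y v)
    (hFh : ∀ l ∈ F, 2 * h ≤ ht κ l) (hun : ∀ w, Co (ω ∩ F) y w → h < ht κ w)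
    (hs : ∀ w, Co (ω ∩ F) y w → ht κ w = h + 1 → 0 ≤ s * (w.1 - y.1)) : TS κ h s y a ω := by
  obtain ⟨v', hv', h3⟩ := open_exit (o := y) (M := a) hc
    (by rw [sub_self, sub_self, abs_zero]; omega) hfar
  have hm : Co (ω ∩ TL κ h y a) y v' := by
    refine h3.mono fun l hl => ?_
    obtain ⟨g1, g2⟩ := mem_inter.1 hl
    obtain ⟨g3, g4⟩ := mem_inter.1 g1
    exact mem_inter.2 ⟨g3, mem_TL.2 ⟨g2, hFh l g4⟩⟩
  have hmono : ∀ w, Co (ω ∩ TL κ h y a) y w → Co (ω ∩ F) y w := fun w hw =>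
    hw.mono (inter_subset_inter_left hsub)
  exact ⟨⟨v', hv', hm⟩, fun w hw => hun w (hmono w hw), fun w hw => hs w (hmono w hw)⟩

lemma TS_mono (ha : 1 ≤ a) (hab : a ≤ b) (h0 : TS κ h s x b ω) : TS κ h s x a ω := by
  obtain ⟨⟨v, h1, h2⟩, h3, h4⟩ := h0
  refine TS_sub ha (TL_mono hab) ?_ h2 (fun l hl => (mem_TL.1 hl).2) h3 h4
  unfold Far at h1 ⊢
  omega

/-- the extreme contact on the other side -/
lemma TS_right (ha : 1 ≤ a) (h2a : a ≤ j) (hjR : j + a ≤ R) (hκ : κ = 0 ∨ κ = 1)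
    (h0 : TS κ h s x R ω) (hy : Co (ω ∩ TL κ h x R) x (wp κ x j))
    (hr : ∀ w, Co (ω ∩ TL κ h x R) x w → ht κ w = h + 1 → w.1 ≤ x.1 + j) :
    TS κ h (-1) (wp κ x j) a ω := by
  obtain ⟨-, h3, -⟩ := h0
  refine TS_sub (F := TL κ h x R) (v := x) ha ?_ ?_ hy.symm (fun l hl => (mem_TL.1 hl).2)
    (fun w hw => h3 w (hy.trans hw)) (fun w hw hw1 => ?_)
  · intro l hl
    rw [mem_TL] at hl ⊢
    refine ⟨?_, hl.2⟩
    have := hl.1
    unfold BR wp at *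
    rw [mem_Bx] at this ⊢
    rcases hκ with rfl | rfl <;> omega
  · left
    unfold wp
    simp only
    rw [le_abs]
    omega
  · have := hr w (hy.trans hw) hw1
    unfold wp
    simp only
    omega

/-- an untied cluster is a cluster above the wall -/
lemma untied_HL (hx : ht κ x = h + 1)
    (hun : ∀ w, Co (ω ∩ TL κ h x t) x w → h < ht κ w) (hy : Co (ω ∩ TL κ h x t) x y) :
    Co (ω ∩ HL κ x t) x y := by
  induction hy with
  | refl => exact Co.refl _ _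
  | @tail b c hb hbc ih =>
    refine ih.tail ⟨hbc.1, ?_⟩
    have h1 := hun b hb
    have h2 := hun c (hb.tail hbc)
    obtain ⟨h3, h4⟩ := mem_inter.1 hbc.2
    refine mem_inter.2 ⟨h3, mem_HL'.2 ⟨(mem_TL.1 h4).1, ?_⟩⟩
    have h5 : ht κ (b + c) = ht κ b + ht κ c := by
      unfold ht
      simp only [Prod.fst_add, Prod.snd_add]
      ring
    rw [h5]
    omega

lemma HL_TL (hx : ht κ x = h + 1) : HL κ x t ⊆ TL κ h x t := by
  intro l hl
  rw [mem_HL'] at hl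
  exact mem_TL.2 ⟨hl.1, by omega⟩

/-- crossing outside of the contacts -/
lemma TS_U3 (hκ : κ = 0 ∨ κ = 1) (hx : ht κ x = h + 1) (hρ : 1 ≤ ρ) (hρR : ρ < R)
    (h0 : TS κ h s x R ω)
    (hr : ∀ w, Co (ω ∩ TL κ h x R) x w → ht κ w = h + 1 → |w.1 - x.1| < ρ) :
    U3 κ x ρ R ω := by
  obtain ⟨⟨v, h1, h2⟩, h3, -⟩ := h0
  have h4 := untied_HL hx h3 h2
  have hv : R ≤ |v.1 - x.1| ∨ R ≤ |v.2 - x.2| := h1
  obtain ⟨u', hu', c2⟩ := last_exit (w := x) (c := ρ) h4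
    (by rw [inR_iff]; omega)
    (by rw [inR_iff]; rw [le_abs, le_abs] at hv; omega)
  have hsub : (ω ∩ HL κ x R) \ BR x ρ ⊆ ω ∩ AL κ x ρ R := by
    intro l hl
    obtain ⟨g1, g2⟩ := mem_sdiff.1 hl
    obtain ⟨g3, g4⟩ := mem_inter.1 g1
    exact mem_inter.2 ⟨g3, mem_AL'.2 ⟨(mem_HL'.1 g4).1, g2, (mem_HL'.1 g4).2⟩⟩
  have hsub2 : ω ∩ AL κ x ρ R ⊆ ω ∩ HL κ x R := inter_subset_inter_left AL_sub_HL
  have c3 : Co (ω ∩ AL κ x ρ R) u' v := c2.mono hsub
  have hxu : Co (ω ∩ HL κ x R) x u' := h4.trans (c3.mono hsub2).symm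
  have hne : u' ≠ v := by
    rintro rfl
    rw [inR_iff] at hu'
    rw [le_abs, le_abs] at hv
    omega
  refine ⟨u', v, ?_, h1, c3, ?_⟩
  · rw [inR_iff] at hu'
    unfold Near
    rw [abs_le, abs_le]
    omega
  · intro y hy hyt
    have h5 : Co (ω ∩ TL κ h x R) x y :=
      (hxu.trans (hy.mono hsub2)).mono (inter_subset_inter_left (HL_TL hx))
    have h6 := hr y h5 (by rw [hyt, hx])
    -- `y` is an end of a label outside the box of radius `ρ`
    have h7 : ∃ p, Ad (ω ∩ AL κ x ρ R) p y := by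
      by_cases huy : u' = y
      · subst huy
        rcases Relation.ReflTransGen.cases_head c3 with g | ⟨c, g, -⟩
        · exact absurd g hne
        · exact ⟨c, g.symm⟩
      · rcases Relation.ReflTransGen.cases_tail hy with g | ⟨c, -, g⟩
        · exact absurd g.symm huy
        · exact ⟨c, g⟩
    obtain ⟨p, hp⟩ := h7
    have h8 := (Pool.Agent.H60.Q1.Ad.reg hκ (inter_subset_right : ω ∩ AL κ x ρ R ⊆ AL κ x ρ R)
      hp).2.2.2
    unfold ht at hyt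
    rw [abs_lt] at h6
    rw [le_abs, le_abs] at h8
    rcases hκ with rfl | rfl <;> omega

/-- an untied cluster crosses a half annulus at the wall -/
lemma X3_gen (hF : AL κ z ρ R ⊆ F) (hFh : ∀ l ∈ F, 2 * ht κ z ≤ ht κ l) (hc : Co (ω ∩ F) y v)
    (hy : inR z ρ y) (hv : Far z R v) (hun : ∀ w, Co (ω ∩ F) y w → ht κ z < ht κ w)
    (hρR : ρ < R) : X3 κ z ρ R ω := by
  have hs : |y.1 - z.1| < R ∧ |y.2 - z.2| < R := by
    rw [inR_iff] at hy
    rw [abs_lt, abs_lt]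
    omega
  obtain ⟨v', hv', c1⟩ := open_exit (o := z) (M := R) hc hs hv
  obtain ⟨u', hu', c2⟩ := last_exit (w := z) (c := ρ) c1 hy
    (by rw [inR_iff]; rw [le_abs, le_abs] at hv'; omega)
  have hsub : (ω ∩ F ∩ Bx (z.1 - R) (z.1 + R) (z.2 - R) (z.2 + R)) \ BR z ρ ⊆
      ω ∩ AL κ z ρ R := by
    intro l hl
    obtain ⟨g1, g2⟩ := mem_sdiff.1 hl
    obtain ⟨g3, g4⟩ := mem_inter.1 g1
    obtain ⟨g5, g6⟩ := mem_inter.1 g3
    refine mem_inter.2 ⟨g5, ?_⟩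
    unfold AL
    refine mem_sdiff.2 ⟨?_, g2⟩
    unfold HL
    rw [mem_filter]
    exact ⟨g4, hFh l g6⟩
  have c3 : Co (ω ∩ AL κ z ρ R) u' v' := c2.mono hsub
  have c4 : Co (ω ∩ F) y u' :=
    (c1.mono inter_subset_left).trans (c3.mono (inter_subset_inter_left hF)).symm
  have hno : ∀ s : ℤ, ¬ Cl (Wr κ z ρ R s) (AL κ z ρ R) ω u' := by
    rintro s ⟨w0, g1, g2⟩
    have g3 := hun w0 (c4.trans (g2.mono (inter_subset_inter_left hF)).symm)
    have g4 := g1.1.1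
    omega
  refine ⟨u', v', ?_, hv', c3, hno 1, hno (-1)⟩
  unfold Near
  rw [inR_iff] at hu'
  rw [abs_le, abs_le]
  omega

end Pool.Agent.H59.Q1
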