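import Mathlib
import Pool.Agent.H59.Q1.TieDet

set_option autoImplicit false
open Finset

/-! Wall with ties: reflection, and the two product bounds of the recursion. -/

namespace Pool.Agent.H59.Q1

open Pool.Agent.H75.Perc Pool.Agent.H75.TwoArm Pool.Agent.H75.Four Pool.Agent.H49.Perc
open Pool.Agent.H99.NC Pool.Agent.H60.Q1 Pool.Agent.H20.Q1
open Pool.Agent.H49.Q1 (comp)

/-- the densities depend only on the height and are natural above the wall -/
def Qs (κ h : ℤ) (q : ℤ × ℤ → ℝ) : Prop :=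
  (∀ l, 2 * (h + 1) ≤ ht κ l → q l = 1 / 2) ∧ ∀ l l', ht κ l = ht κ l' → q l = q l'

variable {κ h s ε : ℤ} {q : ℤ × ℤ → ℝ} {x y z w u v : ℤ × ℤ} {t a b j ρ R m a0 : ℤ} {c : ℝ}
  {E F ω : Finset (ℤ × ℤ)}

lemma TS_sym (S : Sy) (hx : S.g x = x) (hE : ∀ e, e ∈ TL κ h x t ↔ S.G' e ∈ TL κ h x t)
    (hh : ∀ y, ht κ (S.g y) = ht κ y)
    (hs : ∀ y, ht κ y = h + 1 → (S.g y).1 - x.1 = ε * (y.1 - x.1))
    (hF : ∀ y, Far x t (S.g y) ↔ Far x t y) :
    TS κ h s x t (ω.map S.G) ↔ TS κ h (ε * s) x t ω := by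
  have hc : ∀ y, Co (ω.map S.G ∩ TL κ h x t) x (S.g y) ↔ Co (ω ∩ TL κ h x t) x y := fun y => by
    rw [S.map_inter ω hE]
    have := S.co_iff (ω ∩ TL κ h x t) x y
    rwa [hx] at this
  have hc' : ∀ y, Co (ω.map S.G ∩ TL κ h x t) x y ↔ Co (ω ∩ TL κ h x t) x (S.g' y) := fun y => by
    rw [← hc, S.gg']
  have hh' : ∀ y, ht κ (S.g' y) = ht κ y := fun y => by rw [← hh, S.gg']
  unfold TS
  refine and_congr ?_ (and_congr ?_ ?_)
  · constructor
    · rintro ⟨v, h1, h2⟩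
      exact ⟨S.g' v, (hF _).1 (by rw [S.gg']; exact h1), (hc' v).1 h2⟩
    · rintro ⟨v, h1, h2⟩
      exact ⟨S.g v, (hF v).2 h1, (hc v).2 h2⟩
  · constructor
    · intro h1 y hy
      have := h1 (S.g y) ((hc y).2 hy)
      rwa [hh] at this
    · intro h1 y hy
      have := h1 (S.g' y) ((hc' y).1 hy)
      rwa [hh'] at this
  · constructor
    · intro h1 y hy hy1
      have h2 := h1 (S.g y) ((hc y).2 hy) (by rw [hh]; exact hy1)
      rw [hs y hy1] at h2
      calc (0 : ℤ) ≤ s * (ε * (y.1 - x.1)) := h2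
        _ = ε * s * (y.1 - x.1) := by ring
    · intro h1 y hy hy1
      have h2 := h1 (S.g' y) ((hc' y).1 hy) (by rw [hh']; exact hy1)
      have h3 := hs (S.g' y) (by rw [hh']; exact hy1)
      rw [S.gg'] at h3
      rw [h3]
      calc (0 : ℤ) ≤ ε * s * ((S.g' y).1 - x.1) := h2
        _ = s * (ε * ((S.g' y).1 - x.1)) := by ring

lemma PrP_sy (S : Sy) (hq : ∀ l, q (S.G l) = q l) {E1 E2 : Finset (ℤ × ℤ)}
    (hE : ∀ e, e ∈ E2 ↔ S.G' e ∈ E1) (A : Finset (ℤ × ℤ) → Prop) :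
    PrP q E2 A = PrP q E1 (fun ω => A (ω.map S.G)) := by
  rw [← S.map_eq hE, PrP_map]
  have : (fun e => q (S.G e)) = q := funext hq
  rw [this]

/-- the reflection along the wall with centre `x` -/
lemma exists_refl (hκ : κ = 0 ∨ κ = 1) (h : ℤ) (x : ℤ × ℤ) (t : ℤ) (hx : ht κ x = h + 1) :
    ∃ S : Sy, S.g x = x ∧ (∀ e, e ∈ TL κ h x t ↔ S.G' e ∈ TL κ h x t) ∧
      (∀ l, ht κ (S.G l) = ht κ l) ∧ (∀ y, ht κ (S.g y) = ht κ y) ∧
      (∀ y, ht κ y = h + 1 → (S.g y).1 - x.1 = (-1) * (y.1 - x.1)) ∧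
      ∀ y, Far x t (S.g y) ↔ Far x t y := by
  rcases hκ with rfl | rfl
  · refine ⟨syX (2 * x.1), ?_, fun e => ?_, fun l => ?_, fun y => ?_, fun y _ => ?_, fun y => ?_⟩
    · unfold syX
      refine Prod.ext ?_ ?_ <;> simp only
      ring
    · rw [mem_TL, mem_TL]
      unfold BR ht
      rw [mem_Bx, mem_Bx]
      simp only [syX]
      omega
    · unfold ht syX
      simp
    · unfold ht syX
      simp
    · unfold syX
      simp only
      ring
    · unfold Far syX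
      simp only [le_abs]
      omega
  · refine ⟨comp (syT (x.1 - x.2, x.2 - x.1)) syD, ?_, fun e => ?_, fun l => ?_, fun y => ?_,
      fun y hy => ?_, fun y => ?_⟩
    · unfold comp syT syD
      refine Prod.ext ?_ ?_ <;> simp only [Prod.mk_add_mk] <;> ring
    · rw [mem_TL, mem_TL]
      unfold BR ht
      rw [mem_Bx, mem_Bx]
      simp only [comp, syT, syD]
      omega
    · unfold ht comp syT syD
      simp only [Function.Embedding.trans_apply, Function.Embedding.coeFn_mk]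
      ring
    · unfold ht comp syT syD
      simp only [Prod.fst_add, Prod.snd_add]
      ring
    · unfold ht at hx hy
      unfold comp syT syD
      simp only [Prod.fst_add]
      linarith
    · unfold Far comp syT syD
      simp only [Prod.fst_add, Prod.snd_add, le_abs]
      omega

/-- reflection -/
lemma pR_eq (hQ : Qs κ h q) (hκ : κ = 0 ∨ κ = 1) (hx : ht κ x = h + 1) :
    PrP q (TL κ h x t) (TS κ h (-1) x t) = pT κ h q x t := by
  obtain ⟨S, h1, h2, h3, h4, h5, h6⟩ := exists_refl hκ h x t hx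
  rw [PrP_sy S (fun l => hQ.2 _ _ (h3 l)) h2]
  unfold pT
  refine PrP_congr fun ω _ => ?_
  rw [TS_sym S h1 h2 h4 h5 h6, ← TS_one]
  norm_num

lemma PrP_TS (hQ : Qs κ h q) (hκ : κ = 0 ∨ κ = 1) (hx : ht κ x = h + 1) (hs : s = 1 ∨ s = -1)
    (hE : TL κ h x t ⊆ E) : PrP q E (TS κ h s x t) = pT κ h q x t := by
  have h0 : PrP q E (TS κ h s x t) = PrP q (TL κ h x t) (TS κ h s x t) := by
    rw [← PrP_restrict q hE]
    exact PrP_congr fun ω _ => TS_local
  rw [h0]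
  rcases hs with rfl | rfl
  · unfold pT
    exact PrP_congr fun ω _ => TS_one
  · exact pR_eq hQ hκ hx

lemma pT_wp (hQ : Qs κ h q) (j : ℤ) : pT κ h q (wp κ x j) t = pT κ h q x t := by
  rw [wp_eq]
  unfold pT
  have hg : ∀ l, q ((syT (j, -(κ * j))).G l) = q l := fun l => hQ.2 _ _ (by
    unfold ht syT
    simp only [Function.Embedding.coeFn_mk]
    ring)
  rw [PrP_sy (syT (j, -(κ * j))) hg (E1 := TL κ h x t) (E2 := TL κ h (x + (j, -(κ * j))) t)
    (TL_tr j)]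
  exact PrP_congr fun ω _ => TA_tr j

/-- `u3` in the tied environment -/
lemma PrP_U3 (hQ : Qs κ h q) (hx : ht κ x = h + 1) (hE : AL κ x ρ R ⊆ E) :
    PrP q E (U3 κ x ρ R) = u3 κ x ρ R := by
  have h0 : PrP q E (U3 κ x ρ R) = PrP q (AL κ x ρ R) (U3 κ x ρ R) := by
    rw [← PrP_restrict q hE]
    exact PrP_congr fun ω _ => U3_local
  rw [h0]
  unfold u3
  rw [← PrP_half]
  unfold PrP
  exact Ex_congr_q (fun e he => hQ.1 e (by
    have := (mem_AL'.1 he).2.2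
    rw [hx] at this
    exact this)) _

/-- independence of three disjoint sets of labels -/
lemma PrP_three (hq : Pb q) {E E1 E2 E3 : Finset (ℤ × ℤ)} {A B C : Finset (ℤ × ℤ) → Prop}
    (h1 : E1 ⊆ E) (h2 : E2 ⊆ E) (h3 : E3 ⊆ E) (d12 : Disjoint E1 E2) (d13 : Disjoint E1 E3)
    (d23 : Disjoint E2 E3) (hA : ∀ ω, A ω ↔ A (ω ∩ E1)) (hB : ∀ ω, B ω ↔ B (ω ∩ E2))
    (hC : ∀ ω, C ω ↔ C (ω ∩ E3)) {D : Finset (ℤ × ℤ) → Prop} (hD : ∀ ω, ω ⊆ E → D ω → A ω ∧ B ω ∧ C ω) :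
    PrP q E D ≤ PrP q E A * (PrP q E B * PrP q E C) := by
  have e1 : PrP q E A = PrP q E1 A := by
    rw [← PrP_restrict q h1]
    exact PrP_congr fun ω _ => hA ω
  have e2 : PrP q E B = PrP q E2 B := by
    rw [← PrP_restrict q h2]
    exact PrP_congr fun ω _ => hB ω
  have e3 : PrP q E C = PrP q E3 C := by
    rw [← PrP_restrict q h3]
    exact PrP_congr fun ω _ => hC ω
  have i1 := PrP_indep q h2 h3 d23 B C
  have i2 := PrP_indep q h1 (union_subset h2 h3) (disjoint_union_right.2 ⟨d12, d13⟩) A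
    (fun ω => B (ω ∩ E2) ∧ C (ω ∩ E3))
  have i3 : PrP q (E2 ∪ E3) (fun ω => B (ω ∩ E2) ∧ C (ω ∩ E3)) = PrP q E2 B * PrP q E3 C :=
    PrP_indep q subset_union_left subset_union_right d23 B C
  rw [e1, e2, e3, ← i3, ← i2]
  refine PrP_mono hq fun ω hω hd => ?_
  obtain ⟨g1, g2, g3⟩ := hD ω hω hd
  refine ⟨(hA ω).1 g1, ?_, ?_⟩
  · have : ω ∩ (E2 ∪ E3) ∩ E2 = ω ∩ E2 := by
      rw [inter_assoc, inter_eq_right.2 (subset_union_left : E2 ⊆ E2 ∪ E3)]
    rw [this]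
    exact (hB ω).1 g2
  · have : ω ∩ (E2 ∪ E3) ∩ E3 = ω ∩ E3 := by
      rw [inter_assoc, inter_eq_right.2 (subset_union_right : E3 ⊆ E2 ∪ E3)]
    rw [this]
    exact (hC ω).1 g3

end Pool.Agent.H59.Q1
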