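import Mathlib
import Pool.Agent.H59.Q1.Mass
import Pool.Agent.H59.Q1.TieSym

set_option autoImplicit false
open Finset

/-!
# Weighted mass and untied clusters

The weight `σ ^ |S|` of a cluster with contact set `S` is at most the probability that all its
contacts are untied.
-/

namespace Pool.Agent.H59.Q1

open Pool.Agent.H75.Perc Pool.Agent.H75.TwoArm Pool.Agent.H75.Four Pool.Agent.H49.Perc
open Pool.Agent.H99.NC Pool.Agent.H60.Q1 Pool.Agent.H20.Q1

variable {σ : ℝ} {κ h s ε : ℤ} {q : ℤ × ℤ → ℝ} {x y z w u v : ℤ × ℤ} {t a b j ρ R m a0 : ℤ} {c : ℝ}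
  {E F ω ω1 ω2 : Finset (ℤ × ℤ)}

/-- probability that no element of `B` is present -/
lemma PrP_avoid {α : Type*} [DecidableEq α] {q : α → ℝ} {E B : Finset α} (hB : B ⊆ E) :
    PrP q E (fun ω => ω ∩ B = ∅) = ∏ l ∈ B, (1 - q l) := by
  rw [PrP_restrict q hB (fun ω => ω = ∅)]
  unfold PrP Ex
  rw [sum_eq_single ∅]
  · simp only
    rw [ind_true trivial, mul_one]
    unfold wt
    simp
  · intro ω _ hne
    simp only
    rw [ind_false hne, mul_zero]
  · intro h1
    exact absurd (empty_mem_powerset B) h1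

lemma ht_step' (hκ : κ = 0 ∨ κ = 1) (h1 : IsUnit4 (v - u)) : ht κ v ≤ ht κ u + 1 ∧
    ht κ u ≤ ht κ v + 1 ∧ (ht κ v = ht κ u - 1 → (u + v = u + u - (0, 1) ∨
      (κ = 1 ∧ u + v = u + u - (1, 0)))) := by
  have h2 := unit_cases h1
  unfold ht
  obtain ⟨a, b⟩ := u
  obtain ⟨c, d⟩ := v
  simp only [Prod.mk_add_mk, Prod.mk_sub_mk, Prod.mk.injEq] at h2 ⊢
  rcases hκ with rfl | rfl
  · refine ⟨by omega, by omega, fun h3 => Or.inl (by omega)⟩
  · refine ⟨by omega, by omega, fun h3 => ?_⟩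
    rcases h2 with h2 | h2 | h2 | h2
    · exfalso; omega
    · exfalso; omega
    · right; omega
    · left; omega

/-- the ties of the contacts -/
def TB (κ : ℤ) (x : ℤ × ℤ) (R : ℤ) (ω : Finset (ℤ × ℤ)) (l : ℤ × ℤ) : Prop :=
  ∃ y ∈ CC κ x R ω, l = y + y - (0, 1) ∨ (κ = 1 ∧ l = y + y - (1, 0))

/-- without ties at its contacts the cluster does not grow -/
lemma grow (hκ : κ = 0 ∨ κ = 1) (hx : ht κ x = h + 1) (hR : 0 ≤ R) (h1 : ω1 ⊆ HL κ x R)
    (h2 : ∀ l ∈ ω2, l ∈ TL κ h x R ∧ l ∉ HL κ x R) (hB : ∀ l ∈ ω2, ¬ TB κ x R ω1 l)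
    (hy : Co ((ω1 ∪ ω2) ∩ TL κ h x R) x y) : Co (ω1 ∩ HL κ x R) x y := by
  induction hy with
  | refl => exact Co.refl _ _
  | @tail b c _ hbc ih =>
    have h3 := (co_HL_reg hκ hR ih).1
    rw [hx] at h3
    obtain ⟨h4, h5⟩ := mem_inter.1 hbc.2
    rcases mem_union.1 h4 with h6 | h6
    · exact ih.tail ⟨hbc.1, mem_inter.2 ⟨h6, h1 h6⟩⟩
    · exfalso
      have h7 := (h2 _ h6).2
      have h8 := (ht_step' hκ hbc.1)
      have h9 : ht κ (b + c) = ht κ b + ht κ c := by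
        unfold ht
        simp only [Prod.fst_add, Prod.snd_add]
        ring
      have h10 : ¬ 2 * ht κ x ≤ ht κ (b + c) := fun h => h7 (mem_HL'.2 ⟨(mem_TL.1 h5).1, h⟩)
      rw [h9, hx] at h10
      have h11 : ht κ b = h + 1 := by omega
      exact hB _ h6 ⟨b, ⟨by show ht κ b = ht κ x; omega, ih⟩, h8.2.2 (by omega)⟩

lemma TS_of (hκ : κ = 0 ∨ κ = 1) (hx : ht κ x = h + 1) (hR : 0 ≤ R) (h1 : ω1 ⊆ HL κ x R)
    (h2 : ∀ l ∈ ω2, l ∈ TL κ h x R ∧ l ∉ HL κ x R) (hB : ∀ l ∈ ω2, ¬ TB κ x R ω1 l)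
    (hS : Sd κ s x R ω1) : TS κ h s x R (ω1 ∪ ω2) := by
  obtain ⟨⟨v, g1, g2⟩, g3⟩ := hS
  refine ⟨⟨v, g1, g2.mono ?_⟩, fun y hy => ?_, fun y hy hy1 => ?_⟩
  · intro l hl
    obtain ⟨g4, g5⟩ := mem_inter.1 hl
    refine mem_inter.2 ⟨mem_union_left _ g4, mem_TL.2 ?_⟩
    rw [mem_HL'] at g5
    exact ⟨g5.1, by omega⟩
  · have g4 := (co_HL_reg hκ hR (grow hκ hx hR h1 h2 hB hy)).1
    omega
  · exact g3 y ⟨by show ht κ y = ht κ x; omega, grow hκ hx hR h1 h2 hB hy⟩

/-- number of the ties -/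
lemma TB_card (hκ : κ = 0 ∨ κ = 1) (hR : 0 ≤ R) {B : Finset (ℤ × ℤ)}
    (hB : ∀ l ∈ B, TB κ x R ω1 l) : B.card ≤ (κ.toNat + 1) * (CC κ x R ω1).ncard := by
  classical
  have hfin := CC_fin (x := x) (ω := ω1) hκ hR
  have e : (CC κ x R ω1).ncard = hfin.toFinset.card := Set.ncard_eq_toFinset_card _ hfin
  rw [e]
  rcases hκ with rfl | rfl
  · have h1 : B ⊆ hfin.toFinset.image (fun y => y + y - (0, 1)) := by
      intro l hl
      obtain ⟨y, hy, h2 | h2⟩ := hB l hl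
      · exact mem_image.2 ⟨y, hfin.mem_toFinset.2 hy, h2.symm⟩
      · exact absurd h2.1 (by norm_num)
    calc B.card ≤ (hfin.toFinset.image (fun y => y + y - (0, 1))).card := card_le_card h1
      _ ≤ hfin.toFinset.card := card_image_le
      _ = _ := by simp
  · have h1 : B ⊆ hfin.toFinset.image (fun y => y + y - (0, 1)) ∪
        hfin.toFinset.image (fun y => y + y - (1, 0)) := by
      intro l hl
      obtain ⟨y, hy, h2 | h2⟩ := hB l hl
      · exact mem_union_left _ (mem_image.2 ⟨y, hfin.mem_toFinset.2 hy, h2.symm⟩)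
      · exact mem_union_right _ (mem_image.2 ⟨y, hfin.mem_toFinset.2 hy, h2.2.symm⟩)
    have h2 := card_le_card h1
    have h3 := card_union_le (hfin.toFinset.image (fun y : ℤ × ℤ => y + y - (0, 1)))
      (hfin.toFinset.image (fun y : ℤ × ℤ => y + y - (1, 0)))
    have h4 : (hfin.toFinset.image (fun y : ℤ × ℤ => y + y - (0, 1))).card ≤ hfin.toFinset.card :=
      card_image_le
    have h5 : (hfin.toFinset.image (fun y : ℤ × ℤ => y + y - (1, 0))).card ≤ hfin.toFinset.card :=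
      card_image_le
    have h6 : (Int.toNat 1 + 1) * hfin.toFinset.card = 2 * hfin.toFinset.card := rfl
    omega

/-- **weights and ties** -/
theorem mass_link (hκ : κ = 0 ∨ κ = 1) (hQ : Qs κ h q) (hq : Pb q) (hx : ht κ x = h + 1)
    (hR : 0 ≤ R) (hσ0 : 0 ≤ σ) (hσ : ∀ l, ht κ l = 2 * h + 1 → σ ≤ (1 - q l) ^ (κ.toNat + 1))
    (A : Finset (ℤ × ℤ) → Prop) :
    Ex hf (HL κ x R) (fun ω => gS σ κ s x R ω * ind (A ω)) ≤
      PrP q (TL κ h x R) (fun ω => TS κ h s x R ω ∧ A (ω ∩ HL κ x R)) := by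
  classical
  have hsub : HL κ x R ⊆ TL κ h x R := HL_TL hx
  unfold PrP
  rw [Ex_split q hsub]
  have hcq : ∀ f, Ex q (HL κ x R) f = Ex hf (HL κ x R) f := fun f =>
    Ex_congr_q (fun e he => hQ.1 e (by
      have := (mem_HL'.1 he).2
      rw [hx] at this
      exact this)) f
  rw [hcq]
  refine Ex_mono hf_pb fun ω1 h1 => ?_
  by_cases hA : Sd κ s x R ω1 ∧ A ω1
  · -- the labels which have to be absent
    set B := (TL κ h x R \ HL κ x R).filter (fun l => TB κ x R ω1 l) with hB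
    have hBs : B ⊆ TL κ h x R \ HL κ x R := filter_subset _ _
    have h3 : ∏ l ∈ B, (1 - q l) ≤ Ex q (TL κ h x R \ HL κ x R) (fun ω2 =>
        ind (TS κ h s x R (ω1 ∪ ω2) ∧ A ((ω1 ∪ ω2) ∩ HL κ x R))) := by
      rw [← PrP_avoid hBs]
      unfold PrP
      refine Ex_mono hq fun ω2 h2 => ind_mono fun h4 => ?_
      have h2' : ∀ l ∈ ω2, l ∈ TL κ h x R ∧ l ∉ HL κ x R := fun l hl => mem_sdiff.1 (h2 hl)
      refine ⟨TS_of hκ hx hR h1 h2' (fun l hl hT => ?_) hA.1, ?_⟩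
      · have h5 : l ∈ ω2 ∩ B := mem_inter.2 ⟨hl, mem_filter.2 ⟨h2 hl, hT⟩⟩
        rw [h4] at h5
        exact absurd h5 (notMem_empty _)
      · have h5 : (ω1 ∪ ω2) ∩ HL κ x R = ω1 := by
          ext l
          rw [mem_inter, mem_union]
          constructor
          · rintro ⟨h6 | h6, h7⟩
            · exact h6
            · exact absurd h7 (h2' l h6).2
          · intro h6
            exact ⟨Or.inl h6, h1 h6⟩
        rw [h5]
        exact hA.2
    refine le_trans ?_ h3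
    unfold gS
    rw [ind_true hA.1, ind_true hA.2, mul_one, mul_one]
    -- the product
    have h4 : ∀ l ∈ B, ht κ l = 2 * h + 1 := by
      intro l hl
      obtain ⟨y, hy, h5 | h5⟩ := (mem_filter.1 hl).2
      · have h6 : ht κ y = h + 1 := by rw [← hx]; exact hy.1
        rw [h5]
        unfold ht at h6 ⊢
        simp only [Prod.fst_add, Prod.snd_add, Prod.fst_sub, Prod.snd_sub, sub_zero]
        have : κ * (y.1 + y.1) = κ * y.1 + κ * y.1 := by ring
        omega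
      · have h6 : ht κ y = h + 1 := by rw [← hx]; exact hy.1
        obtain ⟨h7, h8⟩ := h5
        rw [h8]
        unfold ht at h6 ⊢
        subst h7
        simp only [Prod.fst_add, Prod.snd_add, Prod.fst_sub, Prod.snd_sub, sub_zero, one_mul] at h6 ⊢
        omega
    rcases B.eq_empty_or_nonempty with hBe | ⟨l0, hl0⟩
    · rw [hBe, prod_empty]
      refine pow_le_one₀ hσ0 ((hσ (0, 2 * h + 1) (by unfold ht; simp)).trans ?_)
      refine pow_le_one₀ ?_ ?_
      · have := (hq (0, 2 * h + 1)).2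
        linarith
      · have := (hq (0, 2 * h + 1)).1
        linarith
    · have h5 : ∏ l ∈ B, (1 - q l) = (1 - q l0) ^ B.card := by
        rw [← prod_const]
        exact prod_congr rfl fun l hl => by rw [hQ.2 l l0 (by rw [h4 l hl, h4 l0 hl0])]
      have h6 := TB_card (B := B) hκ hR (fun l hl => (mem_filter.1 hl).2)
      have h7 : 0 ≤ 1 - q l0 := by have := (hq l0).2; linarith
      have h8 : 1 - q l0 ≤ 1 := by have := (hq l0).1; linarith
      rw [h5]
      calc σ ^ (CC κ x R ω1).ncard ≤ ((1 - q l0) ^ (κ.toNat + 1)) ^ (CC κ x R ω1).ncard :=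
            pow_le_pow_left₀ hσ0 (hσ l0 (h4 l0 hl0)) _
        _ = (1 - q l0) ^ ((κ.toNat + 1) * (CC κ x R ω1).ncard) := by rw [pow_mul]
        _ ≤ (1 - q l0) ^ B.card := pow_le_pow_of_le_one h7 h8 h6
  · have h3 : gS σ κ s x R ω1 * ind (A ω1) = 0 := by
      rw [not_and_or] at hA
      rcases hA with hA | hA
      · unfold gS
        rw [ind_false hA]
        ring
      · rw [ind_false hA]
        ring
    rw [h3]
    exact Ex_nonneg hq fun _ _ => ind_nonneg _

end Pool.Agent.H59.Q1
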