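import Mathlib

set_option autoImplicit false
open Finset

/-! Numeric lemmas for the recursion. -/

namespace Pool.Agent.H59.Q1

/-- numeric part: a block -/
lemma num_block {a C1 C2 P l u : ℝ} {k N : ℕ} (ha : 0 < a) (hC1 : 0 ≤ C1)
    (hP0 : 0 ≤ P) (hl : 0 ≤ l) (hP : P ≤ C1 / (2 ^ k * a) * l ^ k)
    (hu0 : 0 ≤ u) (hu : u ≤ C2 * (24 * (2 ^ k * a) / (48 * (2 ^ N * a))) ^ 2) :
    a * 4 ^ (N + 6) * (8 * (2 ^ k * a) * (P * (P * u))) ≤
      8192 * C1 * C2 * l ^ k * (a * 4 ^ k * P) := by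
  have h2k : (0 : ℝ) < 2 ^ k := by positivity
  have h2N : (0 : ℝ) < 2 ^ N := by positivity
  have e1 : (4 : ℝ) ^ k = 2 ^ k * 2 ^ k := by rw [← mul_pow]; norm_num
  have e2 : (4 : ℝ) ^ N = 2 ^ N * 2 ^ N := by rw [← mul_pow]; norm_num
  have h1 : 2 ^ k * a * P ≤ C1 * l ^ k := by
    calc 2 ^ k * a * P ≤ 2 ^ k * a * (C1 / (2 ^ k * a) * l ^ k) :=
          mul_le_mul_of_nonneg_left hP (by positivity)
      _ = C1 * l ^ k := by field_simp
  have h2 : 4 ^ N * u ≤ C2 * 4 ^ k / 4 := by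
    calc 4 ^ N * u ≤ 4 ^ N * (C2 * (24 * (2 ^ k * a) / (48 * (2 ^ N * a))) ^ 2) :=
          mul_le_mul_of_nonneg_left hu (by positivity)
      _ = C2 * 4 ^ k / 4 := by
          rw [e1, e2]
          field_simp
          ring
  calc a * 4 ^ (N + 6) * (8 * (2 ^ k * a) * (P * (P * u)))
      = 32768 * a * P * (2 ^ k * a * P) * (4 ^ N * u) := by rw [pow_add]; ring
    _ ≤ 32768 * a * P * (C1 * l ^ k) * (C2 * 4 ^ k / 4) := by
        refine mul_le_mul (mul_le_mul_of_nonneg_left h1 (by positivity)) h2 (by positivity)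
          (by positivity)
    _ = 8192 * C1 * C2 * l ^ k * (a * 4 ^ k * P) := by ring

/-- numeric part: the near contacts -/
lemma num_near {a C1 C2 P u : ℝ} {N : ℕ} (ha : 1 ≤ a) (hC1 : 0 ≤ C1) (hC2 : 0 ≤ C2)
    (hP0 : 0 ≤ P) (hP : P ≤ C1 / (8 * a))
    (hu0 : 0 ≤ u) (hu : u ≤ C2 * ((8 * a + 1) / (48 * (2 ^ N * a))) ^ 2) :
    a * 4 ^ (N + 6) * (P * u) ≤ 18 * C1 * C2 := by
  have h2N : (0 : ℝ) < 2 ^ N := by positivity
  have e2 : (4 : ℝ) ^ N = 2 ^ N * 2 ^ N := by rw [← mul_pow]; norm_num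
  have ha0 : 0 < a := by linarith
  have h1 : 8 * a * P ≤ C1 := by
    calc 8 * a * P ≤ 8 * a * (C1 / (8 * a)) := mul_le_mul_of_nonneg_left hP (by positivity)
      _ = C1 := by field_simp
  have h3 : (8 * a + 1) / (48 * (2 ^ N * a)) ≤ 9 * a / (48 * (2 ^ N * a)) :=
    div_le_div_of_nonneg_right (by linarith) (by positivity)
  have h2 : 4 ^ N * u ≤ C2 * (9 / 256) := by
    calc 4 ^ N * u ≤ 4 ^ N * (C2 * ((8 * a + 1) / (48 * (2 ^ N * a))) ^ 2) :=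
          mul_le_mul_of_nonneg_left hu (by positivity)
      _ ≤ 4 ^ N * (C2 * (9 * a / (48 * (2 ^ N * a))) ^ 2) := by
          refine mul_le_mul_of_nonneg_left (mul_le_mul_of_nonneg_left ?_ hC2) (by positivity)
          exact pow_le_pow_left₀ (by positivity) h3 2
      _ = C2 * (9 / 256) := by
          rw [e2]
          field_simp
          ring
  calc a * 4 ^ (N + 6) * (P * u) = 512 * (8 * a * P) * (4 ^ N * u) := by rw [pow_add]; ring
    _ ≤ 512 * C1 * (C2 * (9 / 256)) := by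
        refine mul_le_mul (mul_le_mul_of_nonneg_left h1 (by norm_num)) h2 (by positivity)
          (by positivity)
    _ = 18 * C1 * C2 := by ring

/-- numeric part: the top -/
lemma num_top {a C3 P l ε : ℝ} {N : ℕ} (ha : 0 < a)
    (hP0 : 0 ≤ P) (hε0 : 0 ≤ ε) (hε : ε ≤ C3 * ((1 / 2) ^ (N + 1) * l ^ (N + 1))) :
    a * 4 ^ (N + 6) * ((40 * 2 ^ N + 1) * (P * ε)) ≤
      20992 * C3 * l ^ (N + 1) * (a * 4 ^ (N + 1) * P) := by
  have h2N : (1 : ℝ) ≤ 2 ^ N := one_le_pow₀ (by norm_num)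
  have h1 : (40 * 2 ^ N + 1) * ε ≤ 41 / 2 * C3 * l ^ (N + 1) := by
    calc (40 * 2 ^ N + 1) * ε ≤ (41 * 2 ^ N) * (C3 * ((1 / 2) ^ (N + 1) * l ^ (N + 1))) :=
          mul_le_mul (by linarith) hε hε0 (by positivity)
      _ = 41 / 2 * C3 * l ^ (N + 1) * (2 ^ N * (1 / 2) ^ N) := by ring
      _ = 41 / 2 * C3 * l ^ (N + 1) := by
          rw [← mul_pow]
          norm_num
  calc a * 4 ^ (N + 6) * ((40 * 2 ^ N + 1) * (P * ε)) =
        a * 4 ^ (N + 6) * P * ((40 * 2 ^ N + 1) * ε) := by ring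
    _ ≤ a * 4 ^ (N + 6) * P * (41 / 2 * C3 * l ^ (N + 1)) :=
        mul_le_mul_of_nonneg_left h1 (by positivity)
    _ = 20992 * C3 * l ^ (N + 1) * (a * 4 ^ (N + 1) * P) := by
        rw [show N + 6 = (N + 1) + 5 by ring, pow_add]
        ring

lemma half_rpow (k : ℕ) {β : ℝ} : (((1 : ℝ) / 2) ^ k) ^ β = ((1 / 2) ^ β) ^ k := by
  rw [← Real.rpow_natCast, ← Real.rpow_mul (by norm_num), mul_comm, Real.rpow_mul (by norm_num),
    Real.rpow_natCast]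

lemma geo_le {r : ℝ} (h0 : 0 ≤ r) (h1 : r < 1) (n : ℕ) : ∑ k ∈ range n, r ^ k ≤ 1 / (1 - r) := by
  have h2 : (∑ k ∈ range n, r ^ k) * (1 - r) = 1 - r ^ n := by
    have := geom_sum_mul r n
    linarith
  rw [le_div_iff₀ (by linarith), h2]
  have := pow_nonneg h0 n
  linarith

lemma geo_tail_le {r : ℝ} (h0 : 0 ≤ r) (h1 : r < 1) (K N : ℕ) :
    ∑ k ∈ Ico K N, r ^ k ≤ r ^ K / (1 - r) := by
  rw [sum_Ico_eq_sum_range]
  have e : ∀ i ∈ range (N - K), r ^ (K + i) = r ^ K * r ^ i := fun i _ => pow_add _ _ _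
  rw [sum_congr rfl e, ← mul_sum]
  calc r ^ K * ∑ i ∈ range (N - K), r ^ i ≤ r ^ K * (1 / (1 - r)) :=
        mul_le_mul_of_nonneg_left (geo_le h0 h1 _) (pow_nonneg h0 _)
    _ = r ^ K / (1 - r) := by ring

end Pool.Agent.H59.Q1
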