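import Mathlib
import Pool.Agent.H59.Q1.TieSym

set_option autoImplicit false
open Finset

/-! Wall with ties: the three parts of the recursion. -/

namespace Pool.Agent.H59.Q1

open Pool.Agent.H75.Perc Pool.Agent.H75.TwoArm Pool.Agent.H75.Four Pool.Agent.H49.Perc
open Pool.Agent.H99.NC Pool.Agent.H60.Q1 Pool.Agent.H20.Q1

variable {κ h s ε : ℤ} {q : ℤ × ℤ → ℝ} {x y z w u v : ℤ × ℤ} {t a b j ρ R m a0 : ℤ} {c : ℝ}
  {E F ω : Finset (ℤ × ℤ)}

/-- discrete Gronwall inequality -/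
lemma gronwall {y b : ℕ → ℝ} {A : ℝ} (hA : 0 ≤ A) (hb : ∀ k, 0 ≤ b k)
    (hy : ∀ n, y n ≤ A + ∑ k ∈ range n, b k * y k) (n : ℕ) :
    y n ≤ A * Real.exp (∑ k ∈ range n, b k) := by
  have h1 : ∀ n, A + ∑ k ∈ range n, b k * (A * ∏ i ∈ range k, (1 + b i)) =
      A * ∏ i ∈ range n, (1 + b i) := by
    intro n
    induction n with
    | zero => simp
    | succ n ih =>
      rw [sum_range_succ, ← add_assoc, ih, prod_range_succ]
      ring
  have h2 : ∀ n, y n ≤ A * ∏ i ∈ range n, (1 + b i) := by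
    intro n
    induction n using Nat.strong_induction_on with
    | _ n ih =>
      rw [← h1]
      refine (hy n).trans (add_le_add le_rfl (sum_le_sum fun k hk => ?_))
      exact mul_le_mul_of_nonneg_left (ih k (mem_range.1 hk)) (hb k)
  refine (h2 n).trans (mul_le_mul_of_nonneg_left ?_ hA)
  rw [Real.exp_sum]
  refine prod_le_prod (fun i _ => by have := hb i; linarith) fun i _ => ?_
  have := Real.add_one_le_exp (b i)
  linarith

lemma U3_loc : U3 κ z ρ R ω ↔ U3 κ z ρ R (ω ∩ AL κ z ρ R) := U3_local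

lemma X3_loc : X3 κ z ρ R ω ↔ X3 κ z ρ R (ω ∩ AL κ z ρ R) := by
  unfold X3 Cl
  simp only [inter_assoc, inter_self]

lemma TL_sub_BR : TL κ h x t ⊆ BR x t := filter_subset _ _

lemma BR_mono' (h1 : |y.1 - x.1| + a ≤ b) (h2 : |y.2 - x.2| + a ≤ b) : BR y a ⊆ BR x b := by
  intro l hl
  unfold BR at *
  rw [mem_Bx] at *
  have := abs_le.1 (le_refl |y.1 - x.1|)
  have := abs_le.1 (le_refl |y.2 - x.2|)
  omega

/-- contacts close to `x` only -/
lemma near_bd (hQ : Qs κ h q) (hq : Pb q) (hκ : κ = 0 ∨ κ = 1) (hx : ht κ x = h + 1) (hm : 1 ≤ m)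
    (hmR : m + 1 < R) (hE : TL κ h x R ⊆ E) :
    PrP q E (fun ω => TS κ h 1 x R ω ∧
      ∀ w, Co (ω ∩ TL κ h x R) x w → ht κ w = h + 1 → w.1 ≤ x.1 + m) ≤
      pT κ h q x m * u3 κ x (m + 1) R := by
  have hAL : AL κ x (m + 1) R ⊆ E := (AL_sub_HL.trans (HL_TL hx)).trans hE
  have h1 := PrP_three (E1 := TL κ h x m) (E2 := ∅) (E3 := AL κ x (m + 1) R) hq
    (A := TS κ h 1 x m) (B := fun _ => True) (C := U3 κ x (m + 1) R)
    ((TL_mono (by omega)).trans hE) (empty_subset _) hAL (disjoint_empty_right _) (by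
      rw [disjoint_left]
      intro l h1 h2
      rw [mem_AL'] at h2
      exact h2.2.1 (BR_mono' (by simp) (by simp) (TL_sub_BR h1))) (disjoint_empty_left _)
    (fun ω => TS_local) (fun ω => Iff.rfl) (fun ω => U3_local)
    (D := fun ω => TS κ h 1 x R ω ∧
      ∀ w, Co (ω ∩ TL κ h x R) x w → ht κ w = h + 1 → w.1 ≤ x.1 + m)
    (fun ω _ hd => ⟨TS_mono hm (by omega) hd.1, trivial, TS_U3 hκ hx (by omega) hmR hd.1
      (fun w hw hw1 => by
        have e1 := hd.2 w hw hw1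
        have e2 := hd.1.2.2 w hw hw1
        rw [abs_lt]
        omega)⟩)
  rw [PrP_true, one_mul, PrP_TS hQ hκ hx (Or.inl rfl) ((TL_mono (by omega)).trans hE),
    PrP_U3 hQ hx hAL] at h1
  exact h1

/-- the extreme contact on the other side is at distance `j` -/
lemma far_bd (hQ : Qs κ h q) (hq : Pb q) (hκ : κ = 0 ∨ κ = 1) (hx : ht κ x = h + 1) (ha : 1 ≤ a)
    (hj : 2 * a < j) (hjρ : j + a ≤ ρ) (hρR : ρ < R) (hE : TL κ h x R ⊆ E) :
    PrP q E (fun ω => TS κ h 1 x R ω ∧ Co (ω ∩ TL κ h x R) x (wp κ x j) ∧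
      ∀ w, Co (ω ∩ TL κ h x R) x w → ht κ w = h + 1 → w.1 ≤ x.1 + j) ≤
      pT κ h q x a * (pT κ h q x a * u3 κ x ρ R) := by
  have hAL : AL κ x ρ R ⊆ E := (AL_sub_HL.trans (HL_TL hx)).trans hE
  have hB2 : BR (wp κ x j) a ⊆ BR x ρ := by
    refine BR_mono' ?_ ?_
    · unfold wp
      simp only
      rw [add_sub_cancel_left, abs_of_nonneg (by omega)]
      exact hjρ
    · unfold wp
      simp only
      rcases hκ with rfl | rfl
      · simp only [zero_mul, sub_zero, sub_self, abs_zero]; omega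
      · rw [one_mul, sub_sub_cancel_left, abs_neg, abs_of_nonneg (by omega)]
        exact hjρ
  have hT2 : TL κ h (wp κ x j) a ⊆ TL κ h x R := by
    intro l hl
    rw [mem_TL] at hl ⊢
    exact ⟨BR_mono' (by simp; omega) (by simp; omega) (hB2 hl.1), hl.2⟩
  have h1 := PrP_three (E1 := TL κ h x a) (E2 := TL κ h (wp κ x j) a) (E3 := AL κ x ρ R) hq
    (A := TS κ h 1 x a) (B := TS κ h (-1) (wp κ x j) a) (C := U3 κ x ρ R)
    ((TL_mono (by omega)).trans hE) (hT2.trans hE) hAL (by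
      rw [disjoint_left]
      intro l h1 h2
      have g1 := TL_sub_BR h1
      have g2 := TL_sub_BR h2
      unfold BR at g1 g2
      unfold wp at g2
      rw [mem_Bx] at g1 g2
      simp only at g1 g2
      omega) (by
      rw [disjoint_left]
      intro l h1 h2
      rw [mem_AL'] at h2
      exact h2.2.1 (BR_mono' (by simp; omega) (by simp; omega) (TL_sub_BR h1))) (by
      rw [disjoint_left]
      intro l h1 h2
      rw [mem_AL'] at h2
      exact h2.2.1 (hB2 (TL_sub_BR h1)))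
    (fun ω => TS_local) (fun ω => TS_local) (fun ω => U3_local)
    (D := fun ω => TS κ h 1 x R ω ∧ Co (ω ∩ TL κ h x R) x (wp κ x j) ∧
      ∀ w, Co (ω ∩ TL κ h x R) x w → ht κ w = h + 1 → w.1 ≤ x.1 + j)
    (fun ω _ hd => ⟨TS_mono ha (by omega) hd.1,
      TS_right ha (by omega) (by omega) hκ hd.1 hd.2.1 hd.2.2,
      TS_U3 hκ hx (by omega) hρR hd.1
      (fun w hw hw1 => by
        have e1 := hd.2.2 w hw hw1
        have e2 := hd.1.2.2 w hw hw1
        rw [abs_lt]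
        omega)⟩)
  rw [PrP_TS hQ hκ hx (Or.inl rfl) ((TL_mono (by omega)).trans hE),
    PrP_TS hQ hκ (by rw [ht_wp, hx]) (Or.inr rfl) (hT2.trans hE), pT_wp hQ,
    PrP_U3 hQ hx hAL] at h1
  exact h1

/-- a contact in a distant window -/
lemma win_bd (hQ : Qs κ h q) (hq : Pb q) (hκ : κ = 0 ∨ κ = 1) (hx : ht κ x = h + 1) (ha0 : 1 ≤ a0)
    (hb : 1 ≤ b) (hbr : b + ρ < j) (ha : 2 * a0 < ρ) (hjR : j + ρ + 1 ≤ R) (hE : TL κ h x R ⊆ E)
    {ε : ℝ} (hε : AL κ (x.1 + j, x.2 - κ * j - 1) (2 * a0) ρ ⊆ E →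
      PrP q E (X3 κ (x.1 + j, x.2 - κ * j - 1) (2 * a0) ρ) ≤ ε) :
    PrP q E (fun ω => TS κ h 1 x R ω ∧ ∃ r, (0 ≤ r ∧ r < a0) ∧
      Co (ω ∩ TL κ h x R) x (wp κ x (j + r))) ≤ pT κ h q x b * ε := by
  set z : ℤ × ℤ := (x.1 + j, x.2 - κ * j - 1) with hz
  have hzh : ht κ z = h := by
    unfold ht at hx ⊢
    rw [hz]
    simp only
    linarith
  have hAL : AL κ z (2 * a0) ρ ⊆ TL κ h x R := by
    intro l hl
    rw [mem_AL'] at hl
    rw [mem_TL]
    refine ⟨?_, by rw [← hzh]; exact hl.2.2⟩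
    have := hl.1
    unfold BR at *
    rw [mem_Bx] at *
    simp only [hz] at this
    rcases hκ with rfl | rfl <;> omega
  have h1 := PrP_three (E1 := TL κ h x b) (E2 := ∅) (E3 := AL κ z (2 * a0) ρ) hq
    (A := TS κ h 1 x b) (B := fun _ => True) (C := X3 κ z (2 * a0) ρ)
    ((TL_mono (by omega)).trans hE) (empty_subset _) (hAL.trans hE) (disjoint_empty_right _) (by
      rw [disjoint_left]
      intro l h1 h2
      rw [mem_AL'] at h2
      have g1 := TL_sub_BR h1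
      have g2 := h2.1
      unfold BR at g1 g2
      rw [mem_Bx] at g1 g2
      simp only [hz] at g2
      omega) (disjoint_empty_left _)
    (fun ω => TS_local) (fun ω => Iff.rfl) (fun ω => X3_loc)
    (D := fun ω => TS κ h 1 x R ω ∧ ∃ r, (0 ≤ r ∧ r < a0) ∧
      Co (ω ∩ TL κ h x R) x (wp κ x (j + r)))
    (fun ω _ hd => by
      obtain ⟨hd1, r, ⟨hr0, hr1⟩, hd2⟩ := hd
      refine ⟨TS_mono hb (by omega) hd1, trivial, ?_⟩
      refine X3_gen (F := TL κ h x R) (y := wp κ x (j + r)) (v := x) hAL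
        (fun l hl => by rw [hzh]; exact (mem_TL.1 hl).2) hd2.symm ?_ ?_
        (fun w hw => by rw [hzh]; exact hd1.2.1 w (hd2.trans hw)) ha
      · rw [inR_iff]
        unfold wp
        simp only [hz]
        rcases hκ with rfl | rfl <;> omega
      · left
        simp only [hz]
        rw [le_abs]
        omega)
  rw [PrP_true, one_mul, PrP_TS hQ hκ hx (Or.inl rfl) ((TL_mono (by omega)).trans hE)] at h1
  exact h1.trans (mul_le_mul_of_nonneg_left (hε (hAL.trans hE)) (PrP_nonneg hq _ _))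

end Pool.Agent.H59.Q1
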