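import Mathlib
import Pool.Agent.H59.Q1.TieBd

set_option autoImplicit false
open Finset

/-! Wall with ties: the recursion step. -/

namespace Pool.Agent.H59.Q1

open Pool.Agent.H75.Perc Pool.Agent.H75.TwoArm Pool.Agent.H75.Four Pool.Agent.H49.Perc
open Pool.Agent.H99.NC Pool.Agent.H60.Q1 Pool.Agent.H20.Q1

variable {κ h s ε : ℤ} {q : ℤ × ℤ → ℝ} {x y z w u v : ℤ × ℤ} {t a b j ρ R R' m a0 M : ℤ} {c : ℝ}
  {E F ω : Finset (ℤ × ℤ)}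

/-- contact of the cluster in the box of radius `t` -/
def Ct (κ h : ℤ) (x : ℤ × ℤ) (t : ℤ) (ω : Finset (ℤ × ℤ)) (w : ℤ × ℤ) : Prop :=
  Co (ω ∩ TL κ h x t) x w ∧ ht κ w = h + 1

/-- rightmost contact at distance `j` -/
def Rm (κ h : ℤ) (x : ℤ × ℤ) (t j : ℤ) (ω : Finset (ℤ × ℤ)) : Prop :=
  Co (ω ∩ TL κ h x t) x (wp κ x j) ∧ ∀ w, Ct κ h x t ω w → w.1 ≤ x.1 + j

lemma wp_of (hx : ht κ x = h + 1) (hw : ht κ w = h + 1) : wp κ x (w.1 - x.1) = w := by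
  unfold ht at hx hw
  unfold wp
  refine Prod.ext ?_ ?_
  · simp
  · simp only
    have : κ * (w.1 - x.1) = κ * w.1 - κ * x.1 := by ring
    omega

lemma Ct_in (ht0 : 0 ≤ t) (hw : Ct κ h x t ω w) : inR x t w := by
  by_cases hne : x = w
  · subst hne
    rw [inR_iff]
    omega
  · obtain ⟨p, h5, h6, -⟩ := end_in hw.1 hne
    exact (BR_ends h5 (mem_TL.1 (mem_inter.1 h6).2).1).2

lemma exists_Rm (hx : ht κ x = h + 1) (ht0 : 0 ≤ t) (h0 : TS κ h 1 x t ω) :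
    ∃ j, 0 ≤ j ∧ Rm κ h x t j ω := by
  classical
  set S := (Icc 0 t).filter (fun j => Co (ω ∩ TL κ h x t) x (wp κ x j)) with hS
  have hmem : ∀ w, Ct κ h x t ω w → w.1 - x.1 ∈ S := by
    intro w hw
    have h1 := h0.2.2 w hw.1 hw.2
    have h2 := Ct_in ht0 hw
    rw [inR_iff] at h2
    rw [hS, mem_filter, mem_Icc, wp_of hx hw.2]
    exact ⟨by omega, hw.1⟩
  have hne : S.Nonempty := ⟨_, hmem x ⟨Co.refl _ _, hx⟩⟩
  obtain ⟨j, hj1, hj2⟩ := exists_max_image S id hne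
  rw [hS, mem_filter, mem_Icc] at hj1
  refine ⟨j, hj1.1.1, hj1.2, fun w hw => ?_⟩
  have := hj2 _ (hmem w hw)
  simp only [id] at this
  omega

/-- the decomposition -/
lemma tcover (hx : ht κ x = h + 1) (hR' : 1 ≤ R') (hRR : R' ≤ R)
    (h0 : TS κ h 1 x R ω) :
    (∃ w, Ct κ h x R ω w ∧ M < w.1 - x.1 ∧ w.1 - x.1 ≤ R') ∨
      ∃ j, (0 ≤ j ∧ j ≤ M) ∧ TS κ h 1 x R' ω ∧ Rm κ h x R' j ω := by
  have h1 := TS_mono hR' hRR h0
  obtain ⟨j, hj0, hj⟩ := exists_Rm hx (by omega) h1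
  by_cases hjM : j ≤ M
  · exact Or.inr ⟨j, ⟨hj0, hjM⟩, h1, hj⟩
  · left
    have h2 : Ct κ h x R' ω (wp κ x j) := ⟨hj.1, by rw [ht_wp, hx]⟩
    have h3 := Ct_in (by omega) h2
    rw [inR_iff] at h3
    have e : (wp κ x j).1 = x.1 + j := rfl
    rw [e] at h3
    refine ⟨wp κ x j, ⟨h2.1.mono (inter_subset_inter_left (TL_mono hRR)), h2.2⟩, ?_, ?_⟩ <;>
      rw [e] <;> omega

lemma two_pow_split {M J : ℤ} (hM : 1 ≤ M) : ∀ N K : ℕ, 2 ^ K * M < J → J ≤ 2 ^ N * M →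
    ∃ k ∈ Ico K N, 2 ^ k * M < J ∧ J ≤ 2 ^ (k + 1) * M := by
  intro N
  induction N with
  | zero =>
    intro K h1 h2
    exfalso
    have h3 : (1 : ℤ) ≤ 2 ^ K := one_le_pow₀ (by norm_num)
    have h4 : 1 * M ≤ 2 ^ K * M := mul_le_mul_of_nonneg_right h3 (by omega)
    omega
  | succ N ih =>
    intro K h1 h2
    by_cases h3 : J ≤ 2 ^ N * M
    · obtain ⟨k, hk, h4⟩ := ih K h1 h3
      rw [mem_Ico] at hk
      exact ⟨k, mem_Ico.2 (by omega), h4⟩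
    · push Not at h3
      refine ⟨N, mem_Ico.2 ⟨?_, by omega⟩, h3, h2⟩
      by_contra h4
      push Not at h4
      have h5 : (2 : ℤ) ^ (N + 1) ≤ 2 ^ K := pow_le_pow_right₀ (by norm_num) (by omega)
      have h6 : (2 : ℤ) ^ (N + 1) * M ≤ 2 ^ K * M := mul_le_mul_of_nonneg_right h5 (by omega)
      omega

/-- a block of distances -/
lemma block_bd (hQ : Qs κ h q) (hq : Pb q) (hκ : κ = 0 ∨ κ = 1) (hx : ht κ x = h + 1) (ha : 1 ≤ a)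
    (hρR : 24 * a < R) (hE : TL κ h x R ⊆ E) :
    PrP q E (fun ω => ∃ j ∈ Ioc (8 * a) (16 * a), TS κ h 1 x R ω ∧ Rm κ h x R j ω) ≤
      8 * a * (pT κ h q x a * (pT κ h q x a * u3 κ x (24 * a) R)) := by
  refine (PrP_exists_le hq E (Ioc (8 * a) (16 * a)) (fun j ω => TS κ h 1 x R ω ∧
    Rm κ h x R j ω)).trans ?_
  have h1 : ∀ j ∈ Ioc (8 * a) (16 * a), PrP q E (fun ω => TS κ h 1 x R ω ∧ Rm κ h x R j ω) ≤
      pT κ h q x a * (pT κ h q x a * u3 κ x (24 * a) R) := by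
    intro j hj
    rw [mem_Ioc] at hj
    refine le_trans (PrP_mono hq fun ω _ hd => ?_) (far_bd (j := j) hQ hq hκ hx ha (by omega)
      (by omega) hρR hE)
    exact ⟨hd.1, hd.2.1, fun w hw hw1 => hd.2.2 w ⟨hw, hw1⟩⟩
  refine (sum_le_sum h1).trans (le_of_eq ?_)
  rw [sum_const, nsmul_eq_mul, Int.card_Ioc]
  congr 1
  rw [← Int.cast_natCast, Int.toNat_of_nonneg (by omega)]
  push_cast
  ring

/-- the distant windows -/
lemma top_bd (hQ : Qs κ h q) (hq : Pb q) (hκ : κ = 0 ∨ κ = 1) (hx : ht κ x = h + 1) (ha0 : 1 ≤ a0)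
    {A B : ℤ} (hAB : A ≤ B) (hb : 1 ≤ b)
    (hbr : b + ρ < A * a0) (ha : 2 * a0 < ρ) (hjR : B * a0 + ρ + 1 ≤ R) (hE : TL κ h x R ⊆ E)
    {ε : ℝ} (hε : ∀ z, ht κ z = h → AL κ z (2 * a0) ρ ⊆ E →
      PrP q E (X3 κ z (2 * a0) ρ) ≤ ε) :
    PrP q E (fun ω => TS κ h 1 x R ω ∧ ∃ w, Ct κ h x R ω w ∧ A * a0 ≤ w.1 - x.1 ∧
      w.1 - x.1 ≤ B * a0) ≤ (B - A + 1) * (pT κ h q x b * ε) := by
  have hcov : ∀ ω, (TS κ h 1 x R ω ∧ ∃ w, Ct κ h x R ω w ∧ A * a0 ≤ w.1 - x.1 ∧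
      w.1 - x.1 ≤ B * a0) → ∃ i ∈ Icc A B, TS κ h 1 x R ω ∧ ∃ r, (0 ≤ r ∧ r < a0) ∧
      Co (ω ∩ TL κ h x R) x (wp κ x (i * a0 + r)) := by
    rintro ω ⟨h1, w, hw, h2, h3⟩
    refine ⟨(w.1 - x.1) / a0, ?_, h1, (w.1 - x.1) % a0, ⟨Int.emod_nonneg _ (by omega),
      Int.emod_lt_of_pos _ (by omega)⟩, ?_⟩
    · rw [mem_Icc]
      constructor
      · exact (Int.le_ediv_iff_mul_le (by omega)).2 h2
      · have := Int.ediv_le_ediv (show 0 < a0 by omega) h3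
        rwa [Int.mul_ediv_cancel _ (by omega)] at this
    · rw [mul_comm, Int.mul_ediv_add_emod, wp_of hx hw.2]
      exact hw.1
  refine (PrP_mono hq fun ω _ hd => hcov ω hd).trans ((PrP_exists_le hq E (Icc A B)
    (fun i ω => TS κ h 1 x R ω ∧ ∃ r, (0 ≤ r ∧ r < a0) ∧
      Co (ω ∩ TL κ h x R) x (wp κ x (i * a0 + r)))).trans ?_)
  have h1 : ∀ i ∈ Icc A B, PrP q E (fun ω => TS κ h 1 x R ω ∧ ∃ r, (0 ≤ r ∧ r < a0) ∧
      Co (ω ∩ TL κ h x R) x (wp κ x (i * a0 + r))) ≤ pT κ h q x b * ε := by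
    intro i hi
    rw [mem_Icc] at hi
    have e1 : A * a0 ≤ i * a0 := mul_le_mul_of_nonneg_right hi.1 (by omega)
    have e2 : i * a0 ≤ B * a0 := mul_le_mul_of_nonneg_right hi.2 (by omega)
    refine win_bd hQ hq hκ hx ha0 hb (by omega) ha (by omega) hE (hε _ ?_)
    unfold ht at hx ⊢
    simp only
    have : κ * (x.1 + i * a0) = κ * x.1 + κ * (i * a0) := by ring
    omega
  refine (sum_le_sum h1).trans (le_of_eq ?_)
  rw [sum_const, nsmul_eq_mul, Int.card_Icc]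
  congr 1
  rw [← Int.cast_natCast, Int.toNat_of_nonneg (by omega)]
  push_cast
  ring

end Pool.Agent.H59.Q1
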