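import Mathlib
import Pool.Agent.H59.Q1.TieRec

set_option autoImplicit false
open Finset

/-!
# Wall with ties: sharp bound for the leftmost contact of an untied macroscopic cluster

`tie_sharp` : `pT κ h q x R ≤ C a0 / R²` for `R ≥ a0`, and the part of the clusters with a contact at
distance `> 8 · 2^K a0` is at most `C γ^K a0 / R²`.
-/

namespace Pool.Agent.H59.Q1

open Pool.Agent.H75.Perc Pool.Agent.H75.TwoArm Pool.Agent.H75.Four Pool.Agent.H49.Perc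
open Pool.Agent.H99.NC Pool.Agent.H60.Q1 Pool.Agent.H20.Q1

variable {κ h s ε : ℤ} {q : ℤ × ℤ → ℝ} {x y z w u v : ℤ × ℤ} {t a b j ρ R R' m a0 M : ℤ} {c : ℝ}
  {E F ω : Finset (ℤ × ℤ)}

/-- the blocks -/
lemma blocks_bd (hQ : Qs κ h q) (hq : Pb q) (hκ : κ = 0 ∨ κ = 1) (hx : ht κ x = h + 1)
    (ha0 : 1 ≤ a0) (K N : ℕ) (hE : TL κ h x (48 * (2 ^ N * a0)) ⊆ E) :
    PrP q E (fun ω => ∃ j, (2 ^ K * (8 * a0) < j ∧ j ≤ 2 ^ N * (8 * a0)) ∧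
      TS κ h 1 x (48 * (2 ^ N * a0)) ω ∧ Rm κ h x (48 * (2 ^ N * a0)) j ω) ≤
      ∑ k ∈ Ico K N, 8 * (2 ^ k * a0 : ℤ) * (pT κ h q x (2 ^ k * a0) *
        (pT κ h q x (2 ^ k * a0) * u3 κ x (24 * (2 ^ k * a0)) (48 * (2 ^ N * a0)))) := by
  refine le_trans (PrP_mono hq (B := fun ω => ∃ k ∈ Ico K N,
    ∃ j ∈ Ioc (8 * (2 ^ k * a0)) (16 * (2 ^ k * a0)), TS κ h 1 x (48 * (2 ^ N * a0)) ω ∧
      Rm κ h x (48 * (2 ^ N * a0)) j ω) fun ω _ hd => ?_)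
    ((PrP_exists_le hq E (Ico K N) (fun k ω => ∃ j ∈ Ioc (8 * (2 ^ k * a0)) (16 * (2 ^ k * a0)),
      TS κ h 1 x (48 * (2 ^ N * a0)) ω ∧ Rm κ h x (48 * (2 ^ N * a0)) j ω)).trans
      (sum_le_sum fun k hk => ?_))
  · obtain ⟨j, ⟨h1, h2⟩, h3⟩ := hd
    obtain ⟨k, hk, h4, h5⟩ := two_pow_split (by omega) N K h1 h2
    refine ⟨k, hk, j, mem_Ioc.2 ⟨?_, ?_⟩, h3⟩
    · calc 8 * (2 ^ k * a0) = 2 ^ k * (8 * a0) := by ring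
        _ < j := h4
    · calc j ≤ 2 ^ (k + 1) * (8 * a0) := h5
        _ = 16 * (2 ^ k * a0) := by ring
  · rw [mem_Ico] at hk
    have h1 : (1 : ℤ) ≤ 2 ^ k := one_le_pow₀ (by norm_num)
    have h2 : (2 : ℤ) ^ k ≤ 2 ^ N := pow_le_pow_right₀ (by norm_num) hk.2.le
    have h3 : 1 * 1 ≤ 2 ^ k * a0 := mul_le_mul h1 ha0 (by norm_num) (by positivity)
    have h4 : 2 ^ k * a0 ≤ 2 ^ N * a0 := mul_le_mul_of_nonneg_right h2 (by omega)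
    exact block_bd hQ hq hκ hx (by omega) (by omega) hE

/-- the top windows -/
lemma tops_bd (hQ : Qs κ h q) (hq : Pb q) (hκ : κ = 0 ∨ κ = 1) (hx : ht κ x = h + 1)
    (ha0 : 1 ≤ a0) (N : ℕ) (hE : TL κ h x (64 * (2 ^ N * a0)) ⊆ E) {ε : ℝ}
    (hε : ∀ z, ht κ z = h → AL κ z (2 * a0) (4 * (2 ^ N * a0)) ⊆ E →
      PrP q E (X3 κ z (2 * a0) (4 * (2 ^ N * a0))) ≤ ε) :
    PrP q E (fun ω => TS κ h 1 x (64 * (2 ^ N * a0)) ω ∧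
      ∃ w, Ct κ h x (64 * (2 ^ N * a0)) ω w ∧ 8 * (2 ^ N * a0) < w.1 - x.1 ∧
      w.1 - x.1 ≤ 48 * (2 ^ N * a0)) ≤
      (40 * 2 ^ N + 1) * (pT κ h q x (2 ^ (N + 1) * a0) * ε) := by
  have h1 : (1 : ℤ) ≤ 2 ^ N := one_le_pow₀ (by norm_num)
  have h3 : 1 * a0 ≤ 2 ^ N * a0 := mul_le_mul_of_nonneg_right h1 (by omega)
  have e1 : (8 * 2 ^ N) * a0 = 8 * (2 ^ N * a0) := by ring
  have e2 : (48 * 2 ^ N) * a0 = 48 * (2 ^ N * a0) := by ring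
  have e3 : 2 ^ (N + 1) * a0 = 2 * (2 ^ N * a0) := by ring
  have h5 := top_bd (A := 8 * 2 ^ N) (B := 48 * 2 ^ N) (R := 64 * (2 ^ N * a0))
    (b := 2 ^ (N + 1) * a0) (ρ := 4 * (2 ^ N * a0)) hQ hq hκ hx ha0 (by omega)
    (by rw [e3]; omega) (by rw [e1, e3]; omega) (by omega) (by rw [e2]; omega) hE hε
  rw [e1, e2] at h5
  have e4 : (((48 * 2 ^ N : ℤ) : ℝ) - ((8 * 2 ^ N : ℤ) : ℝ) + 1) = 40 * 2 ^ N + 1 := by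
    push_cast
    ring
  rw [e4] at h5
  refine le_trans (PrP_mono hq fun ω _ hd => ?_) h5
  obtain ⟨g1, w, g2, g3, g4⟩ := hd
  exact ⟨g1, w, g2, g3.le, g4⟩

/-- the recursion step for the whole mass -/
lemma full_step (hQ : Qs κ h q) (hq : Pb q) (hκ : κ = 0 ∨ κ = 1) (hx : ht κ x = h + 1)
    (ha0 : 1 ≤ a0) (N : ℕ) (hE : TL κ h x (64 * (2 ^ N * a0)) ⊆ E) {ε : ℝ}
    (hε : ∀ z, ht κ z = h → AL κ z (2 * a0) (4 * (2 ^ N * a0)) ⊆ E →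
      PrP q E (X3 κ z (2 * a0) (4 * (2 ^ N * a0))) ≤ ε) :
    pT κ h q x (64 * (2 ^ N * a0)) ≤
      (40 * 2 ^ N + 1) * (pT κ h q x (2 ^ (N + 1) * a0) * ε) +
      (pT κ h q x (8 * a0) * u3 κ x (8 * a0 + 1) (48 * (2 ^ N * a0)) +
      ∑ k ∈ Ico 0 N, 8 * (2 ^ k * a0 : ℤ) * (pT κ h q x (2 ^ k * a0) *
        (pT κ h q x (2 ^ k * a0) * u3 κ x (24 * (2 ^ k * a0)) (48 * (2 ^ N * a0))))) := by
  have h1 : (1 : ℤ) ≤ 2 ^ N := one_le_pow₀ (by norm_num)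
  have h3 : 1 * a0 ≤ 2 ^ N * a0 := mul_le_mul_of_nonneg_right h1 (by omega)
  have hE' : TL κ h x (48 * (2 ^ N * a0)) ⊆ E := (TL_mono (by omega)).trans hE
  have g1 := tops_bd hQ hq hκ hx ha0 N hE hε
  have g2 := near_bd (m := 8 * a0) (R := 48 * (2 ^ N * a0)) hQ hq hκ hx (by omega) (by omega) hE'
  have g3 := blocks_bd hQ hq hκ hx ha0 0 N hE'
  rw [← PrP_TA hE]
  refine le_trans (PrP_mono hq (B := fun ω => (TS κ h 1 x (64 * (2 ^ N * a0)) ω ∧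
      ∃ w, Ct κ h x (64 * (2 ^ N * a0)) ω w ∧ 8 * (2 ^ N * a0) < w.1 - x.1 ∧
      w.1 - x.1 ≤ 48 * (2 ^ N * a0)) ∨ ((TS κ h 1 x (48 * (2 ^ N * a0)) ω ∧
      ∀ w, Co (ω ∩ TL κ h x (48 * (2 ^ N * a0))) x w → ht κ w = h + 1 → w.1 ≤ x.1 + 8 * a0) ∨
      (∃ j, (2 ^ 0 * (8 * a0) < j ∧ j ≤ 2 ^ N * (8 * a0)) ∧
      TS κ h 1 x (48 * (2 ^ N * a0)) ω ∧ Rm κ h x (48 * (2 ^ N * a0)) j ω))) fun ω _ hd => ?_)
    ((PrP_or_le hq _ _ _).trans (add_le_add g1 ((PrP_or_le hq _ _ _).trans (add_le_add g2 g3))))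
  rw [← TS_one] at hd
  rcases tcover (M := 8 * (2 ^ N * a0)) (R' := 48 * (2 ^ N * a0)) hx (by omega) (by omega) hd with
    ⟨w, g4, g5, g6⟩ | ⟨j, ⟨g4, g5⟩, g6, g7⟩
  · exact Or.inl ⟨hd, w, g4, g5, g6⟩
  · right
    by_cases hj : j ≤ 8 * a0
    · left
      refine ⟨g6, fun w hw hw1 => ?_⟩
      have := g7.2 w ⟨hw, hw1⟩
      omega
    · right
      refine ⟨j, ⟨by rw [pow_zero, one_mul]; omega, ?_⟩, g6, g7⟩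
      calc j ≤ 8 * (2 ^ N * a0) := g5
        _ = 2 ^ N * (8 * a0) := by ring

/-- the recursion step for the tail -/
lemma tail_step (hQ : Qs κ h q) (hq : Pb q) (hκ : κ = 0 ∨ κ = 1) (hx : ht κ x = h + 1)
    (ha0 : 1 ≤ a0) (K N : ℕ) (hE : TL κ h x (64 * (2 ^ N * a0)) ⊆ E) {ε : ℝ}
    (hε : ∀ z, ht κ z = h → AL κ z (2 * a0) (4 * (2 ^ N * a0)) ⊆ E →
      PrP q E (X3 κ z (2 * a0) (4 * (2 ^ N * a0))) ≤ ε) :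
    PrP q E (fun ω => TS κ h 1 x (64 * (2 ^ N * a0)) ω ∧
      ∃ w, Ct κ h x (48 * (2 ^ N * a0)) ω w ∧ 8 * (2 ^ K * a0) < w.1 - x.1) ≤
      (40 * 2 ^ N + 1) * (pT κ h q x (2 ^ (N + 1) * a0) * ε) +
      ∑ k ∈ Ico K N, 8 * (2 ^ k * a0 : ℤ) * (pT κ h q x (2 ^ k * a0) *
        (pT κ h q x (2 ^ k * a0) * u3 κ x (24 * (2 ^ k * a0)) (48 * (2 ^ N * a0)))) := by
  have h1 : (1 : ℤ) ≤ 2 ^ N := one_le_pow₀ (by norm_num)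
  have h3 : 1 * a0 ≤ 2 ^ N * a0 := mul_le_mul_of_nonneg_right h1 (by omega)
  have hE' : TL κ h x (48 * (2 ^ N * a0)) ⊆ E := (TL_mono (by omega)).trans hE
  have g1 := tops_bd hQ hq hκ hx ha0 N hE hε
  have g3 := blocks_bd hQ hq hκ hx ha0 K N hE'
  refine le_trans (PrP_mono hq (B := fun ω => (TS κ h 1 x (64 * (2 ^ N * a0)) ω ∧
      ∃ w, Ct κ h x (64 * (2 ^ N * a0)) ω w ∧ 8 * (2 ^ N * a0) < w.1 - x.1 ∧
      w.1 - x.1 ≤ 48 * (2 ^ N * a0)) ∨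
      (∃ j, (2 ^ K * (8 * a0) < j ∧ j ≤ 2 ^ N * (8 * a0)) ∧
      TS κ h 1 x (48 * (2 ^ N * a0)) ω ∧ Rm κ h x (48 * (2 ^ N * a0)) j ω)) fun ω _ hd => ?_)
    ((PrP_or_le hq _ _ _).trans (add_le_add g1 g3))
  obtain ⟨hd, w', hw', hw1⟩ := hd
  rcases tcover (M := 8 * (2 ^ N * a0)) (R' := 48 * (2 ^ N * a0)) hx (by omega) (by omega) hd with
    ⟨w, g4, g5, g6⟩ | ⟨j, ⟨g4, g5⟩, g6, g7⟩
  · exact Or.inl ⟨hd, w, g4, g5, g6⟩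
  · right
    have g8 := g7.2 w' hw'
    refine ⟨j, ⟨?_, ?_⟩, g6, g7⟩
    · calc 2 ^ K * (8 * a0) = 8 * (2 ^ K * a0) := by ring
        _ < j := by omega
    · calc j ≤ 8 * (2 ^ N * a0) := g5
        _ = 2 ^ N * (8 * a0) := by ring

end Pool.Agent.H59.Q1
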