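import Mathlib
import Pool.Agent.H59.Q1.TieSharp
import Pool.Agent.H59.Q1.TieNum

set_option autoImplicit false
open Finset

/-! Wall with ties: the sharp bound. -/

namespace Pool.Agent.H59.Q1

open Pool.Agent.H75.Perc Pool.Agent.H75.TwoArm Pool.Agent.H75.Four Pool.Agent.H49.Perc
open Pool.Agent.H99.NC Pool.Agent.H60.Q1 Pool.Agent.H20.Q1

variable {κ h s ε : ℤ} {q : ℤ × ℤ → ℝ} {x y z w u v : ℤ × ℤ} {t b j ρ R R' m a0 M : ℤ} {c : ℝ}
  {E F ω : Finset (ℤ × ℤ)}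

/-- **sharp bound for the leftmost contact of an untied cluster** -/
theorem tie_sharp {c : ℝ} (hc0 : 0 < c) (hc1 : c < 1) : ∃ C γ : ℝ, 0 < C ∧ 0 < γ ∧ γ < 1 ∧
    ∀ (κ h : ℤ) (q : ℤ × ℤ → ℝ) (a0 : ℤ), (κ = 0 ∨ κ = 1) → TD κ h q c a0 → Qs κ h q →
    ∀ (x : ℤ × ℤ), ht κ x = h + 1 →
    (∀ R : ℤ, a0 ≤ R → pT κ h q x R ≤ C * a0 / (R : ℝ) ^ 2) ∧
    ∀ K N : ℕ, K ≤ N → ∀ E : Finset (ℤ × ℤ), TL κ h x (64 * (2 ^ N * a0)) ⊆ E →
      PrP q E (fun ω => TS κ h 1 x (64 * (2 ^ N * a0)) ω ∧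
        ∃ w, Ct κ h x (48 * (2 ^ N * a0)) ω w ∧ 8 * (2 ^ K * a0) < w.1 - x.1) ≤
        C * γ ^ K * a0 / ((64 * (2 ^ N * a0) : ℤ) : ℝ) ^ 2 := by
  obtain ⟨C1, β, hC1, hβ, hT⟩ := tie_pT hc0 hc1
  obtain ⟨C3, α, hC3, hα, hX⟩ := tie_X3 hc0 hc1
  obtain ⟨C2, hC2, hU⟩ := u3_le
  set l : ℝ := (1 / 2) ^ β with hl
  set μ : ℝ := (1 / 2) ^ α with hμ
  have hl0 : 0 < l := Real.rpow_pos_of_pos (by norm_num) _
  have hμ0 : 0 < μ := Real.rpow_pos_of_pos (by norm_num) _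
  have hl1 : l < 1 := Real.rpow_lt_one (by norm_num) (by norm_num) hβ
  have hμ1 : μ < 1 := Real.rpow_lt_one (by norm_num) (by norm_num) hα
  set B1 : ℝ := 8192 * C1 * C2 with hB1
  set B2 : ℝ := 20992 * C3 with hB2
  set A : ℝ := 18 * C1 * C2 + 32 * C1 with hA
  have hB10 : 0 < B1 := by positivity
  have hB20 : 0 < B2 := by positivity
  have hA0 : 0 < A := by positivity
  set bb : ℕ → ℝ := fun k => B1 * l ^ k + B2 * μ ^ k with hbb
  have hbb0 : ∀ k, 0 ≤ bb k := fun k => by rw [hbb]; positivity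
  set Y : ℝ := A * Real.exp (B1 / (1 - l) + B2 / (1 - μ)) with hY
  have hY0 : 0 < Y := by positivity
  have h1l : 0 < 1 - l := by linarith
  have h1μ : 0 < 1 - μ := by linarith
  set γ : ℝ := max l μ with hγ
  have hγ0 : 0 < γ := lt_of_lt_of_le hl0 (le_max_left _ _)
  have hγ1 : γ < 1 := max_lt hl1 hμ1
  have hlγ : l ≤ γ := le_max_left _ _
  have hμγ : μ ≤ γ := le_max_right _ _
  clear_value l μ B1 B2 A γ
  refine ⟨4 * Y + B1 * Y / (1 - l) + B2 * Y, γ, by positivity, hγ0, hγ1, ?_⟩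
  clear_value Y
  intro κ h q a0 hκ H hQ x hx
  obtain ⟨hT1, hT2⟩ := hT κ h q a0 hκ H x hx
  have ha2 := H.a2
  have haR : (2 : ℝ) ≤ a0 := by exact_mod_cast ha2
  have haR0 : (0 : ℝ) < a0 := by linarith
  obtain ⟨P, hP⟩ : ∃ P : ℕ → ℝ, ∀ k, pT κ h q x (2 ^ k * a0) = P k :=
    ⟨fun k => pT κ h q x (2 ^ k * a0), fun _ => rfl⟩
  have hP0 : ∀ k, 0 ≤ P k := fun k => by
    rw [← hP]
    exact PrP_nonneg H.pb _ _
  have hPb : ∀ k, P k ≤ C1 / (2 ^ k * a0) * l ^ k := by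
    intro k
    have h1 : (1 : ℤ) ≤ 2 ^ k := one_le_pow₀ (by norm_num)
    have h3 : 1 * a0 ≤ 2 ^ k * a0 := mul_le_mul_of_nonneg_right h1 (by omega)
    have h4 := hT2 (2 ^ k * a0) (by omega)
    push_cast at h4
    have e : (a0 : ℝ) / (2 ^ k * a0) = (1 / 2) ^ k := by
      rw [one_div, inv_pow]
      field_simp
    rw [e, half_rpow, ← hl, hP] at h4
    exact h4
  obtain ⟨y, hy⟩ : ∃ y : ℕ → ℝ, ∀ k, y k = a0 * 4 ^ k * P k := ⟨fun k => a0 * 4 ^ k * P k, fun _ => rfl⟩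
  have hy0 : ∀ k, 0 ≤ y k := fun k => by
    rw [hy]
    exact mul_nonneg (by positivity) (hP0 k)
  -- the bound for `X3`
  have hε : ∀ N : ℕ, ∀ E : Finset (ℤ × ℤ),
      ∀ z, ht κ z = h → AL κ z (2 * a0) (4 * (2 ^ N * a0)) ⊆ E →
      PrP q E (X3 κ z (2 * a0) (4 * (2 ^ N * a0))) ≤
      C3 * ((1 / 2) ^ (N + 1) * μ ^ (N + 1)) := by
    intro N E z hz hE
    have h1 : (1 : ℤ) ≤ 2 ^ N := one_le_pow₀ (by norm_num)
    have h3 : 1 * a0 ≤ 2 ^ N * a0 := mul_le_mul_of_nonneg_right h1 (by omega)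
    have h4 := hX κ h q a0 hκ H z hz (2 * a0) (4 * (2 ^ N * a0)) (by omega) (by omega) E hE
    push_cast at h4
    have e : (2 * (a0 : ℝ)) / (4 * (2 ^ N * a0)) = (1 / 2) ^ (N + 1) := by
      rw [one_div, inv_pow, pow_succ]
      field_simp
      norm_num
    rw [e, Real.rpow_add (by positivity), Real.rpow_one, half_rpow, ← hμ] at h4
    exact h4
  have hu : ∀ ρ R : ℤ, 1 ≤ ρ → 1 ≤ R → u3 κ x ρ R ≤ C2 * ((ρ : ℝ) / R) ^ 2 := hU κ hκ x
  -- the blocks
  have hblock : ∀ k N : ℕ, (a0 : ℝ) * 4 ^ (N + 6) * (8 * (2 ^ k * a0 : ℤ) *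
      (pT κ h q x (2 ^ k * a0) * (pT κ h q x (2 ^ k * a0) *
        u3 κ x (24 * (2 ^ k * a0)) (48 * (2 ^ N * a0))))) ≤ B1 * l ^ k * y k := by
    intro k N
    have h1 : (1 : ℤ) ≤ 2 ^ k := one_le_pow₀ (by norm_num)
    have h3 : 1 * a0 ≤ 2 ^ k * a0 := mul_le_mul_of_nonneg_right h1 (by omega)
    have h1' : (1 : ℤ) ≤ 2 ^ N := one_le_pow₀ (by norm_num)
    have h3' : 1 * a0 ≤ 2 ^ N * a0 := mul_le_mul_of_nonneg_right h1' (by omega)
    have h4 := hu (24 * (2 ^ k * a0)) (48 * (2 ^ N * a0)) (by omega) (by omega)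
    push_cast at h4
    have h5 := num_block (k := k) (N := N) haR0 hC1.le (hP0 k) hl0.le (hPb k) u3_nonneg h4
    push_cast
    rw [hB1, hy, hP]
    exact h5
  have htop : ∀ N : ℕ, (a0 : ℝ) * 4 ^ (N + 6) * ((40 * 2 ^ N + 1) *
      (pT κ h q x (2 ^ (N + 1) * a0) * (C3 * ((1 / 2) ^ (N + 1) * μ ^ (N + 1))))) ≤
      B2 * μ ^ (N + 1) * y (N + 1) := by
    intro N
    rw [hB2, hy, hP]
    exact num_top haR0 (hP0 (N + 1)) (by positivity) le_rfl
  have hyr : ∀ n, y n ≤ A + ∑ k ∈ range n, bb k * y k := by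
    intro n
    rcases Nat.lt_or_ge n 6 with hn | hn
    · have h1 : y n ≤ 32 * C1 := by
        have h2 := hPb n
        have h3 : l ^ n ≤ 1 := pow_le_one₀ hl0.le hl1.le
        have h4 : (2 : ℝ) ^ n ≤ 32 := by
          calc (2 : ℝ) ^ n ≤ 2 ^ 5 := pow_le_pow_right₀ (by norm_num) (by omega)
            _ = 32 := by norm_num
        have e4 : (4 : ℝ) ^ n = 2 ^ n * 2 ^ n := by rw [← mul_pow]; norm_num
        calc y n = a0 * 4 ^ n * P n := hy n
          _ ≤ a0 * 4 ^ n * (C1 / (2 ^ n * a0) * l ^ n) :=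
            mul_le_mul_of_nonneg_left h2 (by positivity)
          _ = 2 ^ n * C1 * l ^ n := by
            rw [e4]
            field_simp
          _ ≤ 32 * C1 * 1 :=
            mul_le_mul (mul_le_mul_of_nonneg_right h4 hC1.le) h3 (by positivity) (by positivity)
          _ = 32 * C1 := mul_one _
      have h5 : 0 ≤ ∑ k ∈ range n, bb k * y k :=
        sum_nonneg fun k _ => mul_nonneg (hbb0 k) (hy0 k)
      have h6 : 0 ≤ 18 * C1 * C2 := by positivity
      linarith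
    · obtain ⟨N, rfl⟩ : ∃ N, n = N + 6 := ⟨n - 6, by omega⟩
      have hst := full_step (E := TL κ h x (64 * (2 ^ N * a0))) hQ H.pb hκ hx (by omega) N
        (Finset.Subset.refl _) (hε N _)
      have e64 : (2 : ℤ) ^ (N + 6) * a0 = 64 * (2 ^ N * a0) := by ring
      have h1 : (a0 : ℝ) * 4 ^ (N + 6) * (pT κ h q x (8 * a0) *
          u3 κ x (8 * a0 + 1) (48 * (2 ^ N * a0))) ≤ 18 * C1 * C2 := by
        have h1' : (1 : ℤ) ≤ 2 ^ N := one_le_pow₀ (by norm_num)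
        have h3' : 1 * a0 ≤ 2 ^ N * a0 := mul_le_mul_of_nonneg_right h1' (by omega)
        have h4 := hu (8 * a0 + 1) (48 * (2 ^ N * a0)) (by omega) (by omega)
        push_cast at h4
        have h5 := hT1 (8 * a0) (by omega)
        push_cast at h5
        exact num_near (by linarith) hC1.le hC2.le (PrP_nonneg H.pb _ _) h5 u3_nonneg h4
      have h2 : (a0 : ℝ) * 4 ^ (N + 6) * (∑ k ∈ Ico 0 N, 8 * (2 ^ k * a0 : ℤ) *
          (pT κ h q x (2 ^ k * a0) * (pT κ h q x (2 ^ k * a0) *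
            u3 κ x (24 * (2 ^ k * a0)) (48 * (2 ^ N * a0))))) ≤
          ∑ k ∈ range (N + 6), B1 * l ^ k * y k := by
        rw [mul_sum]
        refine (sum_le_sum fun k _ => hblock k N).trans ?_
        rw [← Finset.range_eq_Ico]
        refine sum_le_sum_of_subset_of_nonneg (range_mono (by omega)) fun k _ _ => ?_
        exact mul_nonneg (by positivity) (hy0 k)
      have h3 : B2 * μ ^ (N + 1) * y (N + 1) ≤ ∑ k ∈ range (N + 6), B2 * μ ^ k * y k :=
        single_le_sum (f := fun k => B2 * μ ^ k * y k) (fun k _ => mul_nonneg (by positivity) (hy0 k)) (mem_range.2 (by omega))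
      have h4 : ∑ k ∈ range (N + 6), bb k * y k = ∑ k ∈ range (N + 6), B1 * l ^ k * y k +
          ∑ k ∈ range (N + 6), B2 * μ ^ k * y k := by
        rw [← sum_add_distrib]
        refine sum_congr rfl fun k _ => ?_
        rw [hbb]
        ring
      have h5 : y (N + 6) = a0 * 4 ^ (N + 6) * pT κ h q x (64 * (2 ^ N * a0)) := by
        rw [hy, ← hP, e64]
      have h6 := mul_le_mul_of_nonneg_left hst (show (0 : ℝ) ≤ a0 * 4 ^ (N + 6) by positivity)
      rw [mul_add, mul_add] at h6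
      have h7 := htop N
      rw [h5, h4]
      have h8 : 0 ≤ 32 * C1 := by positivity
      linarith
  have hyY : ∀ n, y n ≤ Y := by
    intro n
    rw [hY]
    refine (gronwall hA0.le hbb0 hyr n).trans (mul_le_mul_of_nonneg_left ?_ hA0.le)
    refine Real.exp_le_exp.2 ?_
    rw [hbb, sum_add_distrib, ← mul_sum, ← mul_sum]
    refine add_le_add ?_ ?_
    · calc B1 * ∑ k ∈ range n, l ^ k ≤ B1 * (1 / (1 - l)) :=
          mul_le_mul_of_nonneg_left (geo_le hl0.le hl1 n) hB10.le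
        _ = B1 / (1 - l) := by ring
    · calc B2 * ∑ k ∈ range n, μ ^ k ≤ B2 * (1 / (1 - μ)) :=
          mul_le_mul_of_nonneg_left (geo_le hμ0.le hμ1 n) hB20.le
        _ = B2 / (1 - μ) := by ring
  constructor
  · -- all radii
    intro R hR
    have hex : ∃ n : ℕ, 2 ^ n * a0 ≤ R ∧ R < 2 ^ (n + 1) * a0 := by
      classical
      have hbig : ∃ n : ℕ, R < 2 ^ n * a0 := by
        obtain ⟨n, hn⟩ := pow_unbounded_of_one_lt R (show (1 : ℤ) < 2 by norm_num)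
        refine ⟨n, hn.trans_le ?_⟩
        have : (0 : ℤ) < 2 ^ n := by positivity
        nlinarith
      have hn := Nat.find_spec hbig
      have hmin := fun k => Nat.find_min (H := hbig) (m := k)
      set n := Nat.find hbig with hnd
      have h2 : 1 ≤ n := by
        by_contra h3
        have h4 : n = 0 := by omega
        rw [h4] at hn
        simp only [pow_zero, one_mul] at hn
        omega
      refine ⟨n - 1, ?_, ?_⟩
      · have h3 := hmin (n - 1) (by omega)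
        omega
      · rw [show n - 1 + 1 = n by omega]
        exact hn
    obtain ⟨n, hn1, hn2⟩ := hex
    have h1 : (1 : ℤ) ≤ 2 ^ n := one_le_pow₀ (by norm_num)
    have h3 : 1 * a0 ≤ 2 ^ n * a0 := mul_le_mul_of_nonneg_right h1 (by omega)
    have hmono : pT κ h q x R ≤ P n := by
      rw [← hP, ← PrP_TA (TL_mono hn1), ← PrP_TA (E := TL κ h x R) (Finset.Subset.refl _)]
      refine PrP_mono H.pb fun ω _ hd => ?_
      rw [← TS_one] at hd ⊢
      exact TS_mono (by omega) hn1 hd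
    have hRR : (R : ℝ) < 2 * (2 ^ n * a0) := by
      have : (R : ℝ) < ((2 ^ (n + 1) * a0 : ℤ) : ℝ) := by exact_mod_cast hn2
      push_cast at this
      rw [pow_succ] at this
      linarith
    have hR0 : (0 : ℝ) < R := by exact_mod_cast (by omega : 0 < R)
    have e4 : (4 : ℝ) ^ n = 2 ^ n * 2 ^ n := by rw [← mul_pow]; norm_num
    rw [le_div_iff₀ (by positivity)]
    have h5 : (R : ℝ) ^ 2 ≤ 4 * (a0 * (a0 * 4 ^ n)) := by
      rw [e4]
      have : (R : ℝ) ^ 2 ≤ (2 * (2 ^ n * a0)) ^ 2 := pow_le_pow_left₀ hR0.le hRR.le 2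
      calc (R : ℝ) ^ 2 ≤ (2 * (2 ^ n * a0)) ^ 2 := this
        _ = _ := by ring
    calc pT κ h q x R * (R : ℝ) ^ 2 ≤ P n * (4 * (a0 * (a0 * 4 ^ n))) :=
          mul_le_mul hmono h5 (by positivity) (hP0 n)
      _ = 4 * a0 * y n := by
          rw [hy]
          ring
      _ ≤ 4 * a0 * Y := mul_le_mul_of_nonneg_left (hyY n) (by positivity)
      _ ≤ (4 * Y + B1 * Y / (1 - l) + B2 * Y) * a0 := by
          have h7 : 0 ≤ B1 * Y / (1 - l) := by positivity
          have h8 : 0 ≤ B2 * Y := by positivity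
          nlinarith
  · -- the tail
    intro K N hKN E hE
    have hst := tail_step hQ H.pb hκ hx (by omega) K N hE (hε N E)
    have h2N : (0 : ℝ) < 2 ^ N := by positivity
    have hsq : (((64 * (2 ^ N * a0) : ℤ)) : ℝ) ^ 2 = (a0 * 4 ^ (N + 6)) * a0 := by
      push_cast
      have e4 : (4 : ℝ) ^ N = 2 ^ N * 2 ^ N := by rw [← mul_pow]; norm_num
      rw [pow_add, e4]
      ring
    have hS : (0 : ℝ) < a0 * 4 ^ (N + 6) := by positivity
    rw [hsq, le_div_iff₀ (by positivity)]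
    have h1 := mul_le_mul_of_nonneg_left hst hS.le
    rw [mul_add] at h1
    have h2 := htop N
    have h3 : (a0 : ℝ) * 4 ^ (N + 6) * (∑ k ∈ Ico K N, 8 * (2 ^ k * a0 : ℤ) *
          (pT κ h q x (2 ^ k * a0) * (pT κ h q x (2 ^ k * a0) *
            u3 κ x (24 * (2 ^ k * a0)) (48 * (2 ^ N * a0))))) ≤ B1 * Y / (1 - l) * γ ^ K := by
      rw [mul_sum]
      calc _ ≤ ∑ k ∈ Ico K N, B1 * Y * l ^ k := by
            refine sum_le_sum fun k _ => (hblock k N).trans ?_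
            calc B1 * l ^ k * y k ≤ B1 * l ^ k * Y :=
                  mul_le_mul_of_nonneg_left (hyY k) (by positivity)
              _ = B1 * Y * l ^ k := by ring
        _ = B1 * Y * ∑ k ∈ Ico K N, l ^ k := by rw [mul_sum]
        _ ≤ B1 * Y * (l ^ K / (1 - l)) :=
            mul_le_mul_of_nonneg_left (geo_tail_le hl0.le hl1 K N) (by positivity)
        _ = B1 * Y / (1 - l) * l ^ K := by ring
        _ ≤ B1 * Y / (1 - l) * γ ^ K :=
            mul_le_mul_of_nonneg_left (pow_le_pow_left₀ hl0.le hlγ K)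
              (by positivity)
    have h4 : B2 * μ ^ (N + 1) * y (N + 1) ≤ B2 * Y * γ ^ K := by
      have h5 : μ ^ (N + 1) ≤ γ ^ K :=
        (pow_le_pow_left₀ hμ0.le hμγ _).trans
          (pow_le_pow_of_le_one hγ0.le hγ1.le (by omega))
      calc B2 * μ ^ (N + 1) * y (N + 1) ≤ B2 * γ ^ K * Y :=
            mul_le_mul (mul_le_mul_of_nonneg_left h5 hB20.le) (hyY _) (hy0 _) (by positivity)
        _ = B2 * Y * γ ^ K := by ring
    have h6 : 0 ≤ 4 * Y * γ ^ K := by positivity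
    set Q := PrP q E (fun ω => TS κ h 1 x (64 * (2 ^ N * a0)) ω ∧
        ∃ w, Ct κ h x (48 * (2 ^ N * a0)) ω w ∧ 8 * (2 ^ K * a0) < w.1 - x.1) with hQd
    have h7 : Q * (a0 * 4 ^ (N + 6)) ≤ (4 * Y + B1 * Y / (1 - l) + B2 * Y) * γ ^ K := by
      have h8 : Q * (a0 * 4 ^ (N + 6)) = a0 * 4 ^ (N + 6) * Q := by ring
      rw [h8]
      have h9 : (4 * Y + B1 * Y / (1 - l) + B2 * Y) * γ ^ K = 4 * Y * γ ^ K +
          B1 * Y / (1 - l) * γ ^ K + B2 * Y * γ ^ K := by ring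
      rw [h9]
      linarith
    calc Q * (a0 * 4 ^ (N + 6) * a0) = Q * (a0 * 4 ^ (N + 6)) * a0 := by ring
      _ ≤ _ := mul_le_mul_of_nonneg_right h7 haR0.le

end Pool.Agent.H59.Q1
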