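import Mathlib
import Pool.Agent.H59.Q1.MassLink
import Pool.Agent.H59.Q1.TieMain
import Pool.Agent.H59.Q1.LowMain
import Pool.Agent.H59.Q1.Arm1
import Pool.Agent.H20.Q1.MxCore

set_option autoImplicit false
open Finset

/-!
# The mass of the clusters with an extreme contact: both bounds

`mass_NB` : `NB` for the functional `a0⁻¹ σ ^ |S| 1(x leftmost, S close to x)`, `a0 ~ (1 - σ)^(-3/2)`.
-/

namespace Pool.Agent.H59.Q1

open Pool.Agent.H75.Perc Pool.Agent.H75.TwoArm Pool.Agent.H75.Four Pool.Agent.H49.Perc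
open Pool.Agent.H99.NC Pool.Agent.H60.Q1 Pool.Agent.H20.Q1

/-- densities: `τ` on the tie row, `1/2` above -/
noncomputable def qt (κ h : ℤ) (τ : ℝ) (l : ℤ × ℤ) : ℝ := if ht κ l ≤ 2 * h + 1 then τ else 1 / 2

/-- half rings at the tied wall -/
def TDall : Prop := ∃ c K : ℝ, 0 < c ∧ c < 1 ∧ 0 < K ∧ ∀ (κ h : ℤ) (τ : ℝ) (a0 : ℤ),
  (κ = 0 ∨ κ = 1) → 0 < τ → τ ≤ 1 / 2 → 2 ≤ a0 → K ≤ τ ^ ((3 : ℝ) / 2) * a0 →
  TD κ h (qt κ h τ) c a0

/-- the functional -/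
noncomputable def GmF (σ a : ℝ) (x : ℤ × ℤ) (m : ℤ) (S : Set (ℤ × ℤ)) : ℝ :=
  σ ^ S.ncard * ind (x ∈ S ∧ ∀ v ∈ S, inR x m v ∧ 0 ≤ v.1 - x.1) / a

variable {σ τ a : ℝ} {κ h s ε : ℤ} {q : ℤ × ℤ → ℝ} {x y z w u v : ℤ × ℤ} {t b j ρ R r r' m a0 M : ℤ}
  {c μ : ℝ} {E F ω ω1 ω2 : Finset (ℤ × ℤ)}

lemma Qs_qt : Qs κ h (qt κ h τ) := by
  constructor
  · intro l hl
    unfold qt
    rw [if_neg (by omega)]
  · intro l l' hl
    unfold qt
    rw [hl]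

lemma Dcr_GmF (h0 : 0 ≤ σ) (h1 : σ ≤ 1) (ha : 0 < a) : Dcr x (GmF σ a x m) := by
  constructor
  · intro S
    unfold GmF
    exact div_nonneg (mul_nonneg (pow_nonneg h0 _) (ind_nonneg _)) ha.le
  · intro S S' hS hx
    unfold GmF
    refine div_le_div_of_nonneg_right ?_ ha.le
    by_cases h2 : x ∈ S' ∧ ∀ v ∈ S', inR x m v ∧ 0 ≤ v.1 - x.1
    · rw [ind_true h2, ind_true ⟨hx, fun v hv => h2.2 v (hS hv)⟩, mul_one, mul_one]
      have hfin : S'.Finite := by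
        refine Set.Finite.subset (s := ((Icc (x.1 - m) (x.1 + m) ×ˢ Icc (x.2 - m) (x.2 + m) :
          Finset (ℤ × ℤ)) : Set (ℤ × ℤ))) (Finset.finite_toSet _) fun y hy => ?_
        have h3 := (h2.2 y hy).1
        rw [inR_iff] at h3
        rw [mem_coe, mem_product, mem_Icc, mem_Icc]
        omega
      exact pow_le_pow_of_le_one h0 h1 (Set.ncard_le_ncard hS hfin)
    · rw [ind_false h2, mul_zero]
      exact mul_nonneg (pow_nonneg h0 _) (ind_nonneg _)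

lemma Sup_GmF : Sup x m x (GmF σ a x m) := by
  intro S hS
  by_cases h2 : x ∈ S ∧ ∀ v ∈ S, inR x m v ∧ 0 ≤ v.1 - x.1
  · exact ⟨h2.1, fun v hv => (h2.2 v hv).1⟩
  · exfalso
    apply hS
    unfold GmF
    rw [ind_false h2]
    ring

/-- the mass of helper20's mixing theorem -/
lemma NN_GmF : NN κ x x (GmF σ a x m) r =
    Ex hf (HL κ x r) (fun ω => gS σ κ 1 x r ω * ind (∀ y ∈ CC κ x r ω, inR x m y)) / a := by
  unfold NN
  rw [div_eq_mul_inv, ← Ex_smul']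
  refine Ex_congr fun ω hω => ?_
  have e1 : ω ∩ HL κ x r = ω := inter_eq_left.2 hω
  have e2 : CS (FW κ x) ω x = CC κ x r ω := by
    unfold CC
    rw [e1]
  have e3 : (∃ v, Far x r v ∧ Co ω x v) ↔ W1 κ x r ω := by
    unfold W1
    rw [e1]
  rw [e2]
  unfold GmF gS
  have hx : x ∈ CC κ x r ω := ⟨rfl, Co.refl _ _⟩
  have e4 : ind (x ∈ CC κ x r ω ∧ ∀ v ∈ CC κ x r ω, inR x m v ∧ 0 ≤ v.1 - x.1) *
      ind (∃ v, Far x r v ∧ Co ω x v) = ind (Sd κ 1 x r ω) * ind (∀ y ∈ CC κ x r ω, inR x m y) := by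
    rw [← ind_and, ← ind_and]
    apply ind_congr
    rw [e3]
    unfold Sd
    constructor
    · rintro ⟨⟨h1, h2⟩, h3⟩
      exact ⟨⟨h3, fun y hy => by have := (h2 y hy).2; omega⟩, fun y hy => (h2 y hy).1⟩
    · rintro ⟨⟨h3, h4⟩, h5⟩
      exact ⟨⟨hx, fun v hv => ⟨h5 v hv, by have := h4 v hv; omega⟩⟩, h3⟩
  calc σ ^ (CC κ x r ω).ncard *
        ind (x ∈ CC κ x r ω ∧ ∀ v ∈ CC κ x r ω, inR x m v ∧ 0 ≤ v.1 - x.1) / a *
        ind (∃ v, Far x r v ∧ Co ω x v)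
      = σ ^ (CC κ x r ω).ncard * (ind (x ∈ CC κ x r ω ∧ ∀ v ∈ CC κ x r ω,
        inR x m v ∧ 0 ≤ v.1 - x.1) * ind (∃ v, Far x r v ∧ Co ω x v)) * a⁻¹ := by ring
    _ = _ := by rw [e4]; ring

lemma CC_mono (h1 : r ≤ r') : CC κ x r ω ⊆ CC κ x r' ω := by
  intro y hy
  refine ⟨hy.1, hy.2.mono (inter_subset_inter_left ?_)⟩
  intro l hl
  rw [mem_HL'] at hl ⊢
  exact ⟨BR_mono' (by simp; exact h1) (by simp; exact h1) hl.1, hl.2⟩

lemma W1_mono (hr : 1 ≤ r) (h1 : r ≤ R) (h : W1 κ x R ω) : W1 κ x r ω := by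
  obtain ⟨v, h2, h3⟩ := h
  refine W1_of hr (h3.mono HL_sub_Ab) ?_
  unfold Far at h2 ⊢
  omega

/-- the comparison -/
lemma low_point (hκ : κ = 0 ∨ κ = 1) (h0 : 0 < σ) (h1 : σ ≤ 1) (hr : 1 ≤ r) (hrr : r ≤ r')
    (hR : r' ≤ R) (hM : M ≤ m) (hm0 : 0 ≤ m) :
    σ ^ μ * ind (Lm κ x R μ ω) - gS σ κ 1 x R ω * ind (∃ w ∈ CC κ x r' ω, M < w.1 - x.1) ≤
      gS σ κ 1 x r ω * ind (∀ y ∈ CC κ x r ω, inR x m y) := by
  have hR0 : 0 ≤ R := by omega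
  have hn1 : 0 ≤ gS σ κ 1 x R ω * ind (∃ w ∈ CC κ x r' ω, M < w.1 - x.1) :=
    mul_nonneg (gS_nonneg h0.le) (ind_nonneg _)
  have hn2 : 0 ≤ gS σ κ 1 x r ω * ind (∀ y ∈ CC κ x r ω, inR x m y) :=
    mul_nonneg (gS_nonneg h0.le) (ind_nonneg _)
  by_cases hL : Lm κ x R μ ω
  · obtain ⟨g1, g2, g3⟩ := hL
    have hSd : Sd κ 1 x R ω := ⟨g1, fun y hy => by have := g2 y hy.2 hy.1; omega⟩
    have hfin := CC_fin (x := x) (R := R) (ω := ω) hκ hR0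
    have hcard : ((CC κ x R ω).ncard : ℝ) ≤ μ := by
      rw [Set.ncard_eq_toFinset_card _ hfin]
      exact g3 _ fun y hy => (hfin.mem_toFinset.1 hy)
    have hpow : σ ^ μ ≤ σ ^ (CC κ x R ω).ncard := by
      rw [← Real.rpow_natCast]
      exact Real.rpow_le_rpow_of_exponent_ge h0 h1 hcard
    rw [ind_true (show Lm κ x R μ ω from ⟨g1, g2, g3⟩), mul_one]
    by_cases hA : ∃ w ∈ CC κ x r' ω, M < w.1 - x.1
    · rw [ind_true hA, mul_one]
      unfold gS at hn2 ⊢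
      rw [ind_true hSd, mul_one]
      linarith
    · rw [ind_false hA, mul_zero, sub_zero]
      have hin : ∀ y ∈ CC κ x r ω, inR x m y := by
        intro y hy
        have g4 := g2 y (CC_mono (hrr.trans hR) hy).2 hy.1
        have g5 : y.1 - x.1 ≤ M := by
          by_contra hcon
          exact hA ⟨y, CC_mono hrr hy, by omega⟩
        have g6 : ht κ y = ht κ x := hy.1
        unfold ht at g6
        rw [inR_iff]
        rcases hκ with rfl | rfl <;> omega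
      have hSr : Sd κ 1 x r ω := ⟨W1_mono hr (hrr.trans hR) g1, fun y hy =>
        hSd.2 y (CC_mono (hrr.trans hR) hy)⟩
      unfold gS
      rw [ind_true hin, ind_true hSr, mul_one, mul_one]
      refine hpow.trans (pow_le_pow_of_le_one h0.le h1 (Set.ncard_le_ncard
        (CC_mono (hrr.trans hR)) hfin))
  · rw [ind_false hL, mul_zero]
    linarith

end Pool.Agent.H59.Q1
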