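import Mathlib
import Pool.Agent.H59.Q1.MassFin

set_option autoImplicit false
open Finset

/-! `NB` for the weighted mass. -/

namespace Pool.Agent.H59.Q1

open Pool.Agent.H75.Perc Pool.Agent.H75.TwoArm Pool.Agent.H75.Four Pool.Agent.H49.Perc
open Pool.Agent.H99.NC Pool.Agent.H60.Q1 Pool.Agent.H20.Q1

/-- the weight of a cluster with few contacts -/
lemma weight_ge {σ a D C μ : ℝ} (h1 : 1 / 4 ≤ σ) (h2 : σ < 1) (ha : 0 < a) (hC : 0 ≤ C)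
    (hD : (1 - σ) ^ ((3 : ℝ) / 2) * a ≤ D) (hμ : μ ≤ C * a ^ ((2 : ℝ) / 3)) :
    Real.exp (-(4 * C * D ^ ((2 : ℝ) / 3))) ≤ σ ^ μ := by
  have hσ0 : 0 < σ := by linarith
  have hs : 0 < 1 - σ := by linarith
  have h3 : (1 - σ) * a ^ ((2 : ℝ) / 3) ≤ D ^ ((2 : ℝ) / 3) := by
    have h4 : ((1 - σ) ^ ((3 : ℝ) / 2) * a) ^ ((2 : ℝ) / 3) = (1 - σ) * a ^ ((2 : ℝ) / 3) := by
      rw [Real.mul_rpow (Real.rpow_nonneg hs.le _) ha.le, ← Real.rpow_mul hs.le]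
      norm_num
    rw [← h4]
    exact Real.rpow_le_rpow (mul_nonneg (Real.rpow_nonneg hs.le _) ha.le) hD (by norm_num)
  have hlog : -(4 * (1 - σ)) ≤ Real.log σ := by
    have h5 := Real.one_sub_inv_le_log_of_pos hσ0
    have h6 : -(4 * (1 - σ)) ≤ 1 - σ⁻¹ := by
      have h7 : σ⁻¹ ≤ 4 := by
        rw [inv_le_comm₀ hσ0 (by norm_num)]
        linarith
      have h8 : 1 - σ⁻¹ = -(σ⁻¹ * (1 - σ)) := by
        field_simp
        ring
      rw [h8]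
      have := mul_le_mul_of_nonneg_right h7 hs.le
      linarith
    linarith
  have h9 : σ ^ (C * a ^ ((2 : ℝ) / 3)) ≤ σ ^ μ :=
    Real.rpow_le_rpow_of_exponent_ge hσ0 h2.le hμ
  refine le_trans ?_ h9
  rw [Real.rpow_def_of_pos hσ0]
  refine Real.exp_le_exp.2 ?_
  have h10 : 0 ≤ C * a ^ ((2 : ℝ) / 3) := mul_nonneg hC (Real.rpow_nonneg ha.le _)
  calc -(4 * C * D ^ ((2 : ℝ) / 3)) ≤ -(4 * C * ((1 - σ) * a ^ ((2 : ℝ) / 3))) :=
        neg_le_neg (mul_le_mul_of_nonneg_left h3 (by positivity))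
    _ = -(4 * (1 - σ)) * (C * a ^ ((2 : ℝ) / 3)) := by ring
    _ ≤ Real.log σ * (C * a ^ ((2 : ℝ) / 3)) := mul_le_mul_of_nonneg_right hlog h10

lemma exists_scale {a0 r : ℤ} {K : ℕ} (ha0 : 1 ≤ a0) (hr : 64 * (2 ^ K * a0) < r) :
    ∃ N : ℕ, K ≤ N ∧ r ≤ 48 * (2 ^ N * a0) ∧ 24 * (2 ^ N * a0) < r := by
  classical
  have hbig : ∃ n : ℕ, r ≤ 48 * (2 ^ n * a0) := by
    obtain ⟨n, hn⟩ := pow_unbounded_of_one_lt r (show (1 : ℤ) < 2 by norm_num)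
    refine ⟨n, ?_⟩
    have : (0 : ℤ) < 2 ^ n := by positivity
    nlinarith
  have hn := Nat.find_spec hbig
  have hmin := fun k => Nat.find_min (H := hbig) (m := k)
  set n := Nat.find hbig with hnd
  have hKn : K < n := by
    by_contra hcon
    push Not at hcon
    have h1 : (2 : ℤ) ^ n ≤ 2 ^ K := pow_le_pow_right₀ (by norm_num) hcon
    have h2 : 2 ^ n * a0 ≤ 2 ^ K * a0 := mul_le_mul_of_nonneg_right h1 (by omega)
    have h3 : 0 ≤ 2 ^ K * a0 := by positivity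
    omega
  refine ⟨n, hKn.le, hn, ?_⟩
  have h1 := hmin (n - 1) (by omega)
  have e : 2 ^ n * a0 = 2 * (2 ^ (n - 1) * a0) := by
    have : (2 : ℤ) ^ n = 2 * 2 ^ (n - 1) := by
      rw [← pow_succ']
      congr 1
      omega
    rw [this]
    ring
  rw [e]
  omega

/-- **both bounds for the mass, in the form used by the mixing theorem** -/
theorem mass_NB (hT : TDall) : ∃ K1 : ℝ, 0 < K1 ∧ ∀ K2 : ℝ, ∃ (k0 : ℕ) (cN CN : ℝ), 0 < cN ∧
    0 < CN ∧ ∀ κ : ℤ, (κ = 0 ∨ κ = 1) → ∀ σ : ℝ, 1 / 4 ≤ σ → σ < 1 → ∀ a0 : ℤ, 2 ≤ a0 →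
    K1 ≤ (1 - σ) ^ ((3 : ℝ) / 2) * a0 → (1 - σ) ^ ((3 : ℝ) / 2) * a0 ≤ K2 →
    ∀ (x : ℤ × ℤ) (m R : ℤ), 64 * (2 ^ k0 * a0) ≤ m → NB κ x x (GmF σ a0 x m) cN CN m R := by
  obtain ⟨c, K, hc0, hc1, hK, hTD⟩ := hT
  obtain ⟨C, γ, hC, hγ0, hγ1, hsharp⟩ := tie_sharp hc0 hc1
  obtain ⟨cL, hcL, L, hL, hlmp⟩ := lmp_ge
  obtain ⟨c1, C1, -, -, hC1, ha1⟩ := a1_bd
  refine ⟨4 * K, by linarith, fun K2 => ?_⟩
  have hLR : (1 : ℝ) ≤ L := by exact_mod_cast hL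
  set Bc : ℝ := Real.exp (-(4 * (L * C1) * K2 ^ ((2 : ℝ) / 3))) with hBc
  have hBc0 : 0 < Bc := Real.exp_pos _
  obtain ⟨k1, hk1⟩ := exists_pow_lt_of_lt_one (show 0 < cL * Bc / (2 * C) by positivity) hγ1
  set k0 : ℕ := max k1 L.toNat with hk0
  have hγk : C * γ ^ k0 ≤ cL * Bc / 2 := by
    have h1 : γ ^ k0 ≤ γ ^ k1 := pow_le_pow_of_le_one hγ0.le hγ1.le (le_max_left _ _)
    calc C * γ ^ k0 ≤ C * (cL * Bc / (2 * C)) :=
          mul_le_mul_of_nonneg_left (h1.trans hk1.le) hC.le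
      _ = cL * Bc / 2 := by field_simp
  have hLk : L ≤ 2 ^ k0 := by
    have h1 : L.toNat < 2 ^ L.toNat := Nat.lt_two_pow_self
    have h2 : (2 : ℤ) ^ L.toNat ≤ 2 ^ k0 := pow_le_pow_right₀ (by norm_num) (le_max_right _ _)
    have h3 : ((L.toNat : ℕ) : ℤ) < ((2 ^ L.toNat : ℕ) : ℤ) := by exact_mod_cast h1
    push_cast at h3
    omega
  clear_value Bc k0
  refine ⟨k0, cL * Bc / 2 * (3 / 8) ^ 2, C, by positivity, hC, ?_⟩
  intro κ hκ σ hσ1 hσ2 a0 ha0 hK1 hK2 x m R hm r hmr hrR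
  have haR : (2 : ℝ) ≤ a0 := by exact_mod_cast ha0
  have haR0 : (0 : ℝ) < a0 := by linarith
  have hσ0 : 0 < σ := by linarith
  have hs : 0 < 1 - σ := by linarith
  have h2k : (1 : ℤ) ≤ 2 ^ k0 := one_le_pow₀ (by norm_num)
  have h2ka : 1 * a0 ≤ 2 ^ k0 * a0 := mul_le_mul_of_nonneg_right h2k (by omega)
  have har : a0 ≤ r := by omega
  have hr0 : (0 : ℝ) < r := by exact_mod_cast (by omega : 0 < r)
  -- the environment
  set τ : ℝ := (1 - σ) / 2 with hτ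
  have hτ0 : 0 < τ := by rw [hτ]; linarith
  have hτ2 : τ ≤ 1 / 2 := by rw [hτ]; linarith
  have hKτ : K ≤ τ ^ ((3 : ℝ) / 2) * a0 := by
    have e : τ ^ ((3 : ℝ) / 2) = (1 - σ) ^ ((3 : ℝ) / 2) * (1 / 2) ^ ((3 : ℝ) / 2) := by
      rw [hτ, div_eq_mul_one_div, Real.mul_rpow hs.le (by norm_num)]
    have h4 : (1 / 4 : ℝ) ≤ (1 / 2) ^ ((3 : ℝ) / 2) := by
      have h5 : ((1 : ℝ) / 2) ^ (2 : ℝ) ≤ (1 / 2) ^ ((3 : ℝ) / 2) :=
        Real.rpow_le_rpow_of_exponent_ge (by norm_num) (by norm_num) (by norm_num)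
      have h6 : ((1 : ℝ) / 2) ^ (2 : ℝ) = 1 / 4 := by norm_num
      rwa [h6] at h5
    rw [e]
    have h7 : 0 ≤ (1 - σ) ^ ((3 : ℝ) / 2) * a0 := by positivity
    nlinarith
  set h : ℤ := ht κ x - 1 with hh
  have hx : ht κ x = h + 1 := by omega
  have H := hTD κ h τ a0 hκ hτ0 hτ2 ha0 hKτ
  have hQ : Qs κ h (qt κ h τ) := Qs_qt
  have hσq : ∀ l, ht κ l = 2 * h + 1 → σ ≤ (1 - qt κ h τ l) ^ (κ.toNat + 1) := by
    intro l hl
    unfold qt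
    rw [if_pos (by omega), hτ]
    rcases hκ with rfl | rfl
    · simp only [Int.toNat_zero, zero_add, pow_one]
      linarith
    · rw [show Int.toNat 1 + 1 = 2 from rfl]
      nlinarith
  obtain ⟨hs1, hs2⟩ := hsharp κ h (qt κ h τ) a0 hκ H hQ x hx
  clear_value τ
  constructor
  · -- lower bound
    obtain ⟨N, hKN, hN1, hN2⟩ := exists_scale (K := k0) (by omega) (lt_of_le_of_lt hm hmr)
    have h2N : (1 : ℤ) ≤ 2 ^ N := one_le_pow₀ (by norm_num)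
    have h2kN : (2 : ℤ) ^ k0 ≤ 2 ^ N := pow_le_pow_right₀ (by norm_num) hKN
    have h2Na : 2 ^ k0 * a0 ≤ 2 ^ N * a0 := mul_le_mul_of_nonneg_right h2kN (by omega)
    have hLa : L * a0 ≤ 2 ^ k0 * a0 := mul_le_mul_of_nonneg_right hLk (by omega)
    set RR : ℤ := 64 * (2 ^ N * a0) with hRR
    have hRR0 : (0 : ℝ) < RR := by exact_mod_cast (by omega : 0 < RR)
    set μ : ℝ := L * (a0 * a1 κ a0) with hμ
    have hl := hlmp κ hκ a0 RR (by omega) (by omega) μ le_rfl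
    have hμb : μ ≤ L * C1 * (a0 : ℝ) ^ ((2 : ℝ) / 3) := by
      have h3 := (ha1 κ hκ a0 (by omega)).2
      have e : (a0 : ℝ) * (a0 : ℝ) ^ (-(1 / 3) : ℝ) = (a0 : ℝ) ^ ((2 : ℝ) / 3) := by
        have := Real.rpow_add haR0 1 (-(1 / 3))
        rw [Real.rpow_one] at this
        rw [← this]
        norm_num
      calc μ ≤ L * (a0 * (C1 * (a0 : ℝ) ^ (-(1 / 3) : ℝ))) := by
            rw [hμ]
            exact mul_le_mul_of_nonneg_left (mul_le_mul_of_nonneg_left h3 haR0.le) (by linarith)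
        _ = L * C1 * ((a0 : ℝ) * (a0 : ℝ) ^ (-(1 / 3) : ℝ)) := by ring
        _ = _ := by rw [e]
    have hw : Bc ≤ σ ^ μ := by
      rw [hBc]
      exact weight_ge hσ1 hσ2 haR0 (by positivity) hK2 hμb
    have htail := hs2 k0 N hKN (TL κ h x RR) (by rw [hRR])
    rw [← hRR] at htail
    have hlink := mass_link (q := qt κ h τ) (σ := σ) (s := 1) (R := RR) hκ hQ H.pb hx (by omega)
      hσ0.le hσq (fun ω => ∃ w ∈ CC κ x (48 * (2 ^ N * a0)) ω, 8 * (2 ^ k0 * a0) < w.1 - x.1)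
    have hle : PrP (qt κ h τ) (TL κ h x RR) (fun ω => TS κ h 1 x RR ω ∧
        ∃ w ∈ CC κ x (48 * (2 ^ N * a0)) (ω ∩ HL κ x RR), 8 * (2 ^ k0 * a0) < w.1 - x.1) ≤
        PrP (qt κ h τ) (TL κ h x RR) (fun ω => TS κ h 1 x RR ω ∧
        ∃ w, Ct κ h x (48 * (2 ^ N * a0)) ω w ∧ 8 * (2 ^ k0 * a0) < w.1 - x.1) := by
      refine PrP_mono H.pb fun ω _ hd => ?_
      obtain ⟨g1, w, g2, g3⟩ := hd
      refine ⟨g1, w, ⟨g2.2.mono ?_, by rw [← hx]; exact g2.1⟩, g3⟩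
      intro l hl
      obtain ⟨g4, g5⟩ := mem_inter.1 hl
      exact mem_inter.2 ⟨(mem_inter.1 g4).1, HL_TL hx g5⟩
    have hT2 := hlink.trans (hle.trans htail)
    -- the comparison
    have hpt : ∀ ω, σ ^ μ * ind (Lm κ x RR μ ω) - gS σ κ 1 x RR ω *
        ind (∃ w ∈ CC κ x (48 * (2 ^ N * a0)) ω, 8 * (2 ^ k0 * a0) < w.1 - x.1) ≤
        gS σ κ 1 x r ω * ind (∀ y ∈ CC κ x r ω, inR x m y) := fun ω =>
      low_point (r := r) (r' := 48 * (2 ^ N * a0)) (R := RR) (M := 8 * (2 ^ k0 * a0)) hκ hσ0 hσ2.le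
        (by omega) hN1 (by omega) (by omega) (by omega)
    have hEx := Ex_mono (q := hf) (E := HL κ x RR) hf_pb (fun ω _ => hpt ω)
    rw [Ex_sub, Ex_smul] at hEx
    have hloc : Ex hf (HL κ x RR) (fun ω => gS σ κ 1 x r ω * ind (∀ y ∈ CC κ x r ω, inR x m y)) =
        Ex hf (HL κ x r) (fun ω => gS σ κ 1 x r ω * ind (∀ y ∈ CC κ x r ω, inR x m y)) := by
      have hsub : HL κ x r ⊆ HL κ x RR := by
        intro l hl
        rw [mem_HL'] at hl ⊢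
        exact ⟨BR_mono' (by simp; omega) (by simp; omega) hl.1, hl.2⟩
      rw [← Ex_restrict hf hsub]
      refine Ex_congr fun ω _ => ?_
      rw [gS_local, CC_local]
    have hlm : Ex hf (HL κ x RR) (fun ω => ind (Lm κ x RR μ ω)) = lmp κ RR μ := by
      have h3 := Pr_Lm (κ := κ) (z := x) (R := RR) (m := μ) (E := HL κ x RR) (Finset.Subset.refl _)
      rw [← h3, ← hf_Pr]
      rfl
    rw [hloc, hlm] at hEx
    have hmain : cL * Bc / 2 * a0 / (RR : ℝ) ^ 2 ≤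
        Ex hf (HL κ x r) (fun ω => gS σ κ 1 x r ω * ind (∀ y ∈ CC κ x r ω, inR x m y)) := by
      have g1 : Bc * (cL * a0 / (RR : ℝ) ^ 2) ≤ σ ^ μ * lmp κ RR μ :=
        mul_le_mul hw hl (by positivity) (Real.rpow_nonneg hσ0.le _)
      have g2 : C * γ ^ k0 * a0 / (RR : ℝ) ^ 2 ≤ cL * Bc / 2 * a0 / (RR : ℝ) ^ 2 :=
        div_le_div_of_nonneg_right (mul_le_mul_of_nonneg_right hγk haR0.le) (by positivity)
      have g3 : Bc * (cL * a0 / (RR : ℝ) ^ 2) = cL * Bc / 2 * a0 / (RR : ℝ) ^ 2 +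
          cL * Bc / 2 * a0 / (RR : ℝ) ^ 2 := by ring
      linarith
    rw [NN_GmF, le_div_iff₀ haR0]
    refine le_trans ?_ hmain
    have hrr : (RR : ℝ) * (3 / 8) ≤ r := by
      have h4 : (24 : ℝ) * (2 ^ N * a0) < r := by exact_mod_cast hN2
      rw [hRR]
      push_cast
      linarith
    rw [div_mul_eq_mul_div, div_le_div_iff₀ (by positivity) (by positivity)]
    have h5 : ((RR : ℝ) * (3 / 8)) ^ 2 ≤ (r : ℝ) ^ 2 := pow_le_pow_left₀ (by positivity) hrr 2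
    calc cL * Bc / 2 * (3 / 8) ^ 2 * a0 * (RR : ℝ) ^ 2 =
          cL * Bc / 2 * a0 * ((RR : ℝ) * (3 / 8)) ^ 2 := by ring
      _ ≤ cL * Bc / 2 * a0 * (r : ℝ) ^ 2 := mul_le_mul_of_nonneg_left h5 (by positivity)
  · -- upper bound
    have hlink := mass_link (q := qt κ h τ) (σ := σ) (s := 1) (R := r) hκ hQ H.pb hx (by omega)
      hσ0.le hσq (fun _ => True)
    have h1 : Ex hf (HL κ x r) (fun ω => gS σ κ 1 x r ω * ind (∀ y ∈ CC κ x r ω, inR x m y)) ≤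
        Ex hf (HL κ x r) (fun ω => gS σ κ 1 x r ω * ind True) := by
      refine Ex_mono hf_pb fun ω _ => ?_
      rw [ind_true trivial]
      exact mul_le_mul_of_nonneg_left (ind_le_one _) (gS_nonneg hσ0.le)
    have h2 : PrP (qt κ h τ) (TL κ h x r) (fun ω => TS κ h 1 x r ω ∧ True) ≤
        pT κ h (qt κ h τ) x r := by
      rw [← PrP_TS hQ hκ hx (Or.inl rfl) (Finset.Subset.refl _)]
      exact PrP_mono H.pb fun ω _ hd => hd.1
    have h3 := (h1.trans hlink).trans (h2.trans (hs1 r har))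
    rw [NN_GmF, div_le_iff₀ haR0]
    calc _ ≤ C * a0 / (r : ℝ) ^ 2 := h3
      _ = C / (r : ℝ) ^ 2 * a0 := by ring

end Pool.Agent.H59.Q1
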