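import Mathlib
import Pool.Agent.H59.Q1.MassNB
import Pool.Agent.Q1.M6e.RingT

set_option autoImplicit false
open Finset

/-! The mass bounds without hypotheses. -/

namespace Pool.Agent.H59.Q1

open Pool.Agent.H75.Perc Pool.Agent.H75.TwoArm Pool.Agent.H75.Four Pool.Agent.H49.Perc
open Pool.Agent.H99.NC Pool.Agent.H60.Q1 Pool.Agent.H20.Q1

/-- half rings at the tied wall (helper15) -/
theorem tdall : TDall := by
  obtain ⟨c, K, h0, h1, hK, h⟩ := Pool.Agent.Q1.M6e.td_tau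
  refine ⟨c, K, h0, h1, hK, fun κ h' τ a0 hκ hτ0 hτ1 ha0 hKa => ?_⟩
  refine h κ hκ h' τ hτ0 hτ1 a0 ha0 ?_
  have h3 : τ ^ (-((3 : ℝ) / 2)) * τ ^ ((3 : ℝ) / 2) = 1 := by
    rw [← Real.rpow_add hτ0]
    norm_num
  have h4 : 0 < τ ^ (-((3 : ℝ) / 2)) := Real.rpow_pos_of_pos hτ0 _
  calc K * τ ^ (-((3 : ℝ) / 2)) ≤ τ ^ ((3 : ℝ) / 2) * a0 * τ ^ (-((3 : ℝ) / 2)) :=
        mul_le_mul_of_nonneg_right hKa h4.le
    _ = τ ^ (-((3 : ℝ) / 2)) * τ ^ ((3 : ℝ) / 2) * a0 := by ring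
    _ = a0 := by rw [h3, one_mul]

end Pool.Agent.H59.Q1
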