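import Mathlib
import Pool.Agent.H59.Q1.MassAll

set_option autoImplicit false
open Finset

/-!
# Plain forms of the mass bounds

`mass_le` : upper bound for the weighted mass. `mass_tail` : part of the clusters with a distant
contact.
-/

namespace Pool.Agent.H59.Q1

open Pool.Agent.H75.Perc Pool.Agent.H75.TwoArm Pool.Agent.H75.Four Pool.Agent.H49.Perc
open Pool.Agent.H99.NC Pool.Agent.H60.Q1 Pool.Agent.H20.Q1

variable {σ τ a : ℝ} {κ h s ε : ℤ} {q : ℤ × ℤ → ℝ} {x y z w u v : ℤ × ℤ} {t b j ρ R r r' m a0 M : ℤ}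
  {c μ : ℝ} {E F ω ω1 ω2 : Finset (ℤ × ℤ)}

lemma HL_mono (h1 : r ≤ R) : HL κ x r ⊆ HL κ x R := by
  intro l hl
  rw [mem_HL'] at hl ⊢
  exact ⟨BR_mono' (by simp; exact h1) (by simp; exact h1) hl.1, hl.2⟩

/-- the weight decreases with the radius -/
lemma gS_mono (hκ : κ = 0 ∨ κ = 1) (h0 : 0 ≤ σ) (h1 : σ ≤ 1) (hr : 1 ≤ r) (hrR : r ≤ R) :
    gS σ κ s x R ω ≤ gS σ κ s x r ω := by
  unfold gS
  by_cases hS : Sd κ s x R ω
  · have hSr : Sd κ s x r ω := ⟨W1_mono hr hrR hS.1, fun y hy => hS.2 y (CC_mono hrR hy)⟩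
    rw [ind_true hS, ind_true hSr, mul_one, mul_one]
    exact pow_le_pow_of_le_one h0 h1 (Set.ncard_le_ncard (CC_mono hrR)
      (CC_fin hκ (by omega)))
  · rw [ind_false hS, mul_zero]
    exact mul_nonneg (pow_nonneg h0 _) (ind_nonneg _)

/-- parameters of the tied environment for the weight `σ` -/
lemma env (hσ1 : 1 / 4 ≤ σ) (hσ2 : σ < 1) {c K : ℝ}
    (hTD : ∀ (κ h : ℤ) (τ : ℝ) (a0 : ℤ),
      (κ = 0 ∨ κ = 1) → 0 < τ → τ ≤ 1 / 2 → 2 ≤ a0 → K ≤ τ ^ ((3 : ℝ) / 2) * a0 →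
      TD κ h (qt κ h τ) c a0) (hκ : κ = 0 ∨ κ = 1) (ha0 : 2 ≤ a0)
    (hK1 : 4 * K ≤ (1 - σ) ^ ((3 : ℝ) / 2) * a0) (h : ℤ) :
    TD κ h (qt κ h ((1 - σ) / 2)) c a0 ∧
      ∀ l, ht κ l = 2 * h + 1 → σ ≤ (1 - qt κ h ((1 - σ) / 2) l) ^ (κ.toNat + 1) := by
  have haR : (2 : ℝ) ≤ a0 := by exact_mod_cast ha0
  have hs : 0 < 1 - σ := by linarith
  constructor
  · refine hTD κ h _ a0 hκ (by linarith) (by linarith) ha0 ?_
    have e : ((1 - σ) / 2) ^ ((3 : ℝ) / 2) = (1 - σ) ^ ((3 : ℝ) / 2) * (1 / 2) ^ ((3 : ℝ) / 2) := by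
      rw [div_eq_mul_one_div, Real.mul_rpow hs.le (by norm_num)]
    have h4 : (1 / 4 : ℝ) ≤ (1 / 2) ^ ((3 : ℝ) / 2) := by
      have h5 : ((1 : ℝ) / 2) ^ (2 : ℝ) ≤ (1 / 2) ^ ((3 : ℝ) / 2) :=
        Real.rpow_le_rpow_of_exponent_ge (by norm_num) (by norm_num) (by norm_num)
      have h6 : ((1 : ℝ) / 2) ^ (2 : ℝ) = 1 / 4 := by norm_num
      rwa [h6] at h5
    rw [e]
    have h7 : 0 ≤ (1 - σ) ^ ((3 : ℝ) / 2) * a0 := by positivity
    nlinarith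
  · intro l hl
    unfold qt
    rw [if_pos (by omega)]
    rcases hκ with rfl | rfl
    · simp only [Int.toNat_zero, zero_add, pow_one]
      linarith
    · rw [show Int.toNat 1 + 1 = 2 from rfl]
      nlinarith

/-- **upper bound for the weighted mass** -/
theorem mass_le : ∃ K C : ℝ, 0 < K ∧ 0 < C ∧ ∀ κ : ℤ, (κ = 0 ∨ κ = 1) → ∀ s : ℤ, (s = 1 ∨ s = -1) →
    ∀ σ : ℝ, 1 / 4 ≤ σ → σ < 1 → ∀ a0 : ℤ, 2 ≤ a0 → K ≤ (1 - σ) ^ ((3 : ℝ) / 2) * a0 →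
    ∀ R : ℤ, a0 ≤ R → pS σ κ s R ≤ C * a0 / (R : ℝ) ^ 2 := by
  obtain ⟨c, K, hc0, hc1, hK, hTD⟩ := tdall
  obtain ⟨C, γ, hC, hγ0, hγ1, hsharp⟩ := tie_sharp hc0 hc1
  refine ⟨4 * K, C, by linarith, hC, fun κ hκ s hs σ hσ1 hσ2 a0 ha0 hK1 R hR => ?_⟩
  obtain ⟨H, hσq⟩ := env hσ1 hσ2 hTD hκ ha0 hK1 (-1)
  have hx : ht κ (0 : ℤ × ℤ) = -1 + 1 := by unfold ht; simp
  obtain ⟨hs1, -⟩ := hsharp κ (-1) _ a0 hκ H Qs_qt 0 hx
  have hlink := mass_link (q := qt κ (-1) ((1 - σ) / 2)) (σ := σ) (s := s) (R := R) hκ Qs_qt H.pb hx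
    (by omega) (by linarith) hσq (fun _ => True)
  have h2 : PrP (qt κ (-1) ((1 - σ) / 2)) (TL κ (-1) 0 R) (fun ω => TS κ (-1) s 0 R ω ∧ True) ≤
      pT κ (-1) (qt κ (-1) ((1 - σ) / 2)) 0 R := by
    rw [← PrP_TS Qs_qt hκ hx hs (Finset.Subset.refl _)]
    exact PrP_mono H.pb fun ω _ hd => hd.1
  have h3 : pS σ κ s R = Ex hf (HL κ 0 R) (fun ω => gS σ κ s 0 R ω * ind True) := by
    unfold pS
    refine Ex_congr fun ω _ => ?_
    rw [ind_true trivial, mul_one]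
  rw [h3]
  exact hlink.trans (h2.trans (hs1 R hR))

lemma exists_dyadic {a0 R : ℤ} (ha : 1 ≤ a0) (hR : a0 ≤ R) :
    ∃ n : ℕ, 2 ^ n * a0 ≤ R ∧ R < 2 * (2 ^ n * a0) := by
  classical
  have hbig : ∃ n : ℕ, R < 2 ^ n * a0 := by
    obtain ⟨n, hn⟩ := pow_unbounded_of_one_lt R (show (1 : ℤ) < 2 by norm_num)
    refine ⟨n, hn.trans_le ?_⟩
    have : (0 : ℤ) < 2 ^ n := by positivity
    nlinarith
  have hn := Nat.find_spec hbig
  have hmin := fun k => Nat.find_min (H := hbig) (m := k)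
  set n := Nat.find hbig with hnd
  have h2 : 1 ≤ n := by
    by_contra h3
    have h4 : n = 0 := by omega
    rw [h4] at hn
    simp only [pow_zero, one_mul] at hn
    omega
  refine ⟨n - 1, ?_, ?_⟩
  · have h3 := hmin (n - 1) (by omega)
    omega
  · have e : 2 ^ n * a0 = 2 * (2 ^ (n - 1) * a0) := by
      have : (2 : ℤ) ^ n = 2 * 2 ^ (n - 1) := by
        rw [← pow_succ']
        congr 1
        omega
      rw [this]
      ring
    rw [← e]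
    exact hn

/-- **the clusters with a distant contact** -/
theorem mass_tail : ∃ K C β : ℝ, 0 < K ∧ 0 < C ∧ 0 < β ∧ ∀ κ : ℤ, (κ = 0 ∨ κ = 1) →
    ∀ σ : ℝ, 1 / 4 ≤ σ → σ < 1 → ∀ a0 : ℤ, 2 ≤ a0 → K ≤ (1 - σ) ^ ((3 : ℝ) / 2) * a0 →
    ∀ (x : ℤ × ℤ) (m r R : ℤ), a0 ≤ m → a0 ≤ R → 8 * r ≤ 3 * R →
    Ex hf (HL κ x R) (fun ω => gS σ κ 1 x R ω * ind (∃ w ∈ CC κ x r ω, m < w.1 - x.1)) ≤
      C * ((a0 : ℝ) / m) ^ β * a0 / (R : ℝ) ^ 2 := by
  obtain ⟨c, K, hc0, hc1, hK, hTD⟩ := tdall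
  obtain ⟨C, γ, hC, hγ0, hγ1, hsharp⟩ := tie_sharp hc0 hc1
  set β : ℝ := -Real.log γ / Real.log 2 with hβ
  have hlog2 : 0 < Real.log 2 := Real.log_pos (by norm_num)
  have hβ0 : 0 < β := div_pos (neg_pos.2 (Real.log_neg hγ0 hγ1)) hlog2
  have hγβ : ((1 : ℝ) / 2) ^ β = γ := by
    rw [Real.rpow_def_of_pos (by norm_num), one_div, Real.log_inv, hβ]
    have : -Real.log 2 * (-Real.log γ / Real.log 2) = Real.log γ := by field_simp
    rw [this, Real.exp_log hγ0]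
  clear_value β
  refine ⟨4 * K, C * 32 ^ β * (1 + 4 * (γ ^ 2)⁻¹), β, by linarith, by positivity, hβ0,
    fun κ hκ σ hσ1 hσ2 a0 ha0 hK1 x m r R ham haR hrR => ?_⟩
  have haRR : (2 : ℝ) ≤ a0 := by exact_mod_cast ha0
  have haR0 : (0 : ℝ) < a0 := by linarith
  have hR0 : (0 : ℝ) < R := by exact_mod_cast (by omega : 0 < R)
  have hm0 : (0 : ℝ) < m := by exact_mod_cast (by omega : 0 < m)
  have hσ0 : 0 < σ := by linarith
  obtain ⟨H, hσq⟩ := env hσ1 hσ2 hTD hκ ha0 hK1 (ht κ x - 1)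
  have hx : ht κ x = (ht κ x - 1) + 1 := by omega
  set h : ℤ := ht κ x - 1 with hh
  obtain ⟨hs1, hs2⟩ := hsharp κ h _ a0 hκ H Qs_qt x hx
  have h32 : (1 : ℝ) ≤ 32 ^ β := Real.one_le_rpow (by norm_num) hβ0.le
  have h32' : 0 ≤ 4 * (γ ^ 2)⁻¹ := by positivity
  by_cases hmr : r ≤ m
  · -- no such contact
    have h1 : Ex hf (HL κ x R) (fun ω => gS σ κ 1 x R ω *
        ind (∃ w ∈ CC κ x r ω, m < w.1 - x.1)) = Ex hf (HL κ x R) (fun _ => 0) := by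
      refine Ex_congr fun ω _ => ?_
      rw [ind_false, mul_zero]
      rintro ⟨w, hw, h2⟩
      by_cases hr0 : 0 ≤ r
      · have h3 := (co_HL_reg hκ hr0 hw.2).2
        rw [inR_iff] at h3
        omega
      · have h3 := (co_HL_reg hκ (le_refl 0) (hw.2.mono (inter_subset_inter_left
          (HL_mono (by omega))))).2
        rw [inR_iff] at h3
        omega
    rw [h1, Ex_const]
    positivity
  push Not at hmr
  by_cases hm32 : m < 32 * a0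
  · -- trivial bound
    have hlink := mass_link (q := qt κ h ((1 - σ) / 2)) (σ := σ) (s := 1) (R := R) hκ Qs_qt H.pb hx
      (by omega) hσ0.le hσq (fun ω => ∃ w ∈ CC κ x r ω, m < w.1 - x.1)
    have h2 : PrP (qt κ h ((1 - σ) / 2)) (TL κ h x R) (fun ω => TS κ h 1 x R ω ∧
        ∃ w ∈ CC κ x r (ω ∩ HL κ x R), m < w.1 - x.1) ≤ pT κ h (qt κ h ((1 - σ) / 2)) x R := by
      rw [← PrP_TS Qs_qt hκ hx (Or.inl rfl) (Finset.Subset.refl _)]
      exact PrP_mono H.pb fun ω _ hd => hd.1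
    refine (hlink.trans (h2.trans (hs1 R haR))).trans
      (div_le_div_of_nonneg_right (mul_le_mul_of_nonneg_right ?_ haR0.le) (by positivity))
    have h3 : (1 : ℝ) ≤ (32 * ((a0 : ℝ) / m)) ^ β := by
      refine Real.one_le_rpow ?_ hβ0.le
      rw [← mul_div_assoc, le_div_iff₀ hm0, one_mul]
      exact_mod_cast hm32.le
    rw [Real.mul_rpow (by norm_num) (by positivity)] at h3
    calc C = C * 1 * 1 := by ring
      _ ≤ C * (32 ^ β * ((a0 : ℝ) / m) ^ β) * (1 + 4 * (γ ^ 2)⁻¹) :=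
        mul_le_mul (mul_le_mul_of_nonneg_left h3 hC.le) (by linarith) (by norm_num) (by positivity)
      _ = _ := by ring
  · push Not at hm32
    obtain ⟨N, hN1, hN2⟩ := exists_dyadic (a0 := 64 * a0) (R := R) (by omega) (by omega)
    obtain ⟨k, hk1, hk2⟩ := exists_dyadic (a0 := 8 * a0) (R := m) (by omega) (by omega)
    have eN : 2 ^ N * (64 * a0) = 64 * (2 ^ N * a0) := by ring
    have ek : 2 ^ k * (8 * a0) = 8 * (2 ^ k * a0) := by ring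
    rw [eN] at hN1 hN2
    rw [ek] at hk1 hk2
    have hkN : k ≤ N + 2 := by
      by_contra hcon
      push Not at hcon
      have h1 : (2 : ℤ) ^ (N + 3) ≤ 2 ^ k := pow_le_pow_right₀ (by norm_num) (by omega)
      have h2 : 2 ^ (N + 3) * a0 ≤ 2 ^ k * a0 := mul_le_mul_of_nonneg_right h1 (by omega)
      have h3 : 2 ^ (N + 3) * a0 = 8 * (2 ^ N * a0) := by ring
      omega
    set k' : ℕ := min k N with hk'
    have hk'N : k' ≤ N := min_le_right _ _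
    have hk'k : k' ≤ k := min_le_left _ _
    have hk'2 : k ≤ k' + 2 := by omega
    have h2N : (1 : ℤ) ≤ 2 ^ N := one_le_pow₀ (by norm_num)
    have h2Na : 1 * a0 ≤ 2 ^ N * a0 := mul_le_mul_of_nonneg_right h2N (by omega)
    have hpk : 2 ^ k' * a0 ≤ 2 ^ k * a0 :=
      mul_le_mul_of_nonneg_right (pow_le_pow_right₀ (by norm_num) hk'k) (by omega)
    set RR : ℤ := 64 * (2 ^ N * a0) with hRR
    have hRR0 : (0 : ℝ) < RR := by exact_mod_cast (by omega : 0 < RR)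
    have htail := hs2 k' N hk'N (TL κ h x RR) (by rw [hRR])
    rw [← hRR] at htail
    have hlink := mass_link (q := qt κ h ((1 - σ) / 2)) (σ := σ) (s := 1) (R := RR) hκ Qs_qt H.pb hx
      (by omega) hσ0.le hσq (fun ω => ∃ w ∈ CC κ x (48 * (2 ^ N * a0)) ω,
        8 * (2 ^ k' * a0) < w.1 - x.1)
    have hle : PrP (qt κ h ((1 - σ) / 2)) (TL κ h x RR) (fun ω => TS κ h 1 x RR ω ∧
        ∃ w ∈ CC κ x (48 * (2 ^ N * a0)) (ω ∩ HL κ x RR), 8 * (2 ^ k' * a0) < w.1 - x.1) ≤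
        PrP (qt κ h ((1 - σ) / 2)) (TL κ h x RR) (fun ω => TS κ h 1 x RR ω ∧
        ∃ w, Ct κ h x (48 * (2 ^ N * a0)) ω w ∧ 8 * (2 ^ k' * a0) < w.1 - x.1) := by
      refine PrP_mono H.pb fun ω _ hd => ?_
      obtain ⟨g1, w, g2, g3⟩ := hd
      refine ⟨g1, w, ⟨g2.2.mono ?_, by rw [← hx]; exact g2.1⟩, g3⟩
      intro l hl
      obtain ⟨g4, g5⟩ := mem_inter.1 hl
      exact mem_inter.2 ⟨(mem_inter.1 g4).1, HL_TL hx g5⟩
    have hT2 := hlink.trans (hle.trans htail)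
    have hpt : Ex hf (HL κ x R) (fun ω => gS σ κ 1 x R ω * ind (∃ w ∈ CC κ x r ω, m < w.1 - x.1)) ≤
        Ex hf (HL κ x RR) (fun ω => gS σ κ 1 x RR ω *
          ind (∃ w ∈ CC κ x (48 * (2 ^ N * a0)) ω, 8 * (2 ^ k' * a0) < w.1 - x.1)) := by
      rw [← Ex_restrict hf (HL_mono (κ := κ) (x := x) hN1)]
      refine Ex_mono hf_pb fun ω _ => ?_
      refine mul_le_mul ?_ (ind_mono ?_) (ind_nonneg _) (gS_nonneg hσ0.le)
      · rw [← gS_local]
        exact gS_mono hκ hσ0.le hσ2.le (by omega) hN1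
      · rintro ⟨w, hw, hw1⟩
        refine ⟨w, ?_, by omega⟩
        have h48 : 48 * (2 ^ N * a0) ≤ RR := by omega
        have h5 : CC κ x (48 * (2 ^ N * a0)) (ω ∩ HL κ x RR) = CC κ x (48 * (2 ^ N * a0)) ω := by
          unfold CC
          rw [inter_assoc, inter_eq_right.2 (HL_mono h48)]
        rw [h5]
        exact CC_mono (by omega) hw
    refine (hpt.trans hT2).trans ?_
    have hγk : γ ^ k' ≤ (γ ^ 2)⁻¹ * (16 ^ β * ((a0 : ℝ) / m) ^ β) := by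
      have h6 : γ ^ (k' + 2) ≤ γ ^ k := pow_le_pow_of_le_one hγ0.le hγ1.le hk'2
      have h7 : γ ^ k ≤ 16 ^ β * ((a0 : ℝ) / m) ^ β := by
        rw [← hγβ, ← half_rpow, ← Real.mul_rpow (by norm_num) (by positivity)]
        refine Real.rpow_le_rpow (by positivity) ?_ hβ0.le
        rw [one_div, inv_pow, ← mul_div_assoc, inv_le_comm₀ (by positivity) (by positivity),
          inv_div, div_le_iff₀ (by positivity)]
        have h8 : (m : ℝ) < 2 * (8 * (2 ^ k * a0)) := by exact_mod_cast hk2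
        linarith
      rw [pow_add] at h6
      calc γ ^ k' = (γ ^ 2)⁻¹ * (γ ^ k' * γ ^ 2) := by field_simp
        _ ≤ _ := mul_le_mul_of_nonneg_left (h6.trans h7) (by positivity)
    have hRb : (R : ℝ) ^ 2 ≤ 4 * (RR : ℝ) ^ 2 := by
      have h8 : (R : ℝ) ≤ 2 * RR := by exact_mod_cast hN2.le
      calc (R : ℝ) ^ 2 ≤ (2 * RR) ^ 2 := pow_le_pow_left₀ hR0.le h8 2
        _ = _ := by ring
    have h16 : (16 : ℝ) ^ β ≤ 32 ^ β := Real.rpow_le_rpow (by norm_num) (by norm_num) hβ0.le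
    rw [div_le_div_iff₀ (by positivity) (by positivity)]
    calc C * γ ^ k' * a0 * (R : ℝ) ^ 2 ≤ C * ((γ ^ 2)⁻¹ * (16 ^ β * ((a0 : ℝ) / m) ^ β)) * a0 *
          (4 * (RR : ℝ) ^ 2) :=
          mul_le_mul (mul_le_mul_of_nonneg_right (mul_le_mul_of_nonneg_left hγk hC.le) haR0.le)
            hRb (by positivity) (by positivity)
      _ = C * 16 ^ β * (4 * (γ ^ 2)⁻¹) * ((a0 : ℝ) / m) ^ β * a0 * (RR : ℝ) ^ 2 := by ring
      _ ≤ C * 32 ^ β * (1 + 4 * (γ ^ 2)⁻¹) * ((a0 : ℝ) / m) ^ β * a0 * (RR : ℝ) ^ 2 := by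
          refine mul_le_mul_of_nonneg_right (mul_le_mul_of_nonneg_right
            (mul_le_mul_of_nonneg_right ?_ (by positivity)) haR0.le) (by positivity)
          exact mul_le_mul (mul_le_mul_of_nonneg_left h16 hC.le) (by linarith) h32' (by positivity)

end Pool.Agent.H59.Q1
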