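import Mathlib
import Pool.Agent.H59.Q1.MassLink

set_option autoImplicit false
open Finset

/-!
# Clusters at a wall with random ties

Bulk labels are odd (density `1/2`), the tie of the wall vertex `y` is the even label `y + y` (density
`1 - σ`). `Lo κ s x r` : the local cluster of `x` reaches distance `r`, `x` is its extreme contact and
no contact is tied; its probability is the mass `pS σ κ s r`.
-/

namespace Pool.Agent.H59.Q1

open Pool.Agent.H75.Perc Pool.Agent.H75.TwoArm Pool.Agent.H75.Four Pool.Agent.H49.Perc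
open Pool.Agent.H99.NC Pool.Agent.H60.Q1 Pool.Agent.H20.Q1

/-- densities: bulk labels `1/2`, ties `1 - σ` -/
noncomputable def qb (σ : ℝ) (l : ℤ × ℤ) : ℝ := if (l.1 + l.2) % 2 = 1 then 1 / 2 else 1 - σ

/-- the full box: labels of both kinds -/
noncomputable def Fb (x : ℤ × ℤ) (r : ℤ) : Finset (ℤ × ℤ) :=
  Finset.Icc (2 * (x.1 - r)) (2 * (x.1 + r)) ×ˢ Finset.Icc (2 * (x.2 - r)) (2 * (x.2 + r))

/-- the local event -/
def Lo (κ s : ℤ) (x : ℤ × ℤ) (r : ℤ) (ζ : Finset (ℤ × ℤ)) : Prop :=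
  Sd κ s x r ζ ∧ ∀ y ∈ CC κ x r ζ, y + y ∉ ζ

/-- the event `A` depends only on the labels of `F` -/
def Loc (E F : Finset (ℤ × ℤ)) (A : Finset (ℤ × ℤ) → Prop) : Prop := ∀ ω, ω ⊆ E → (A ω ↔ A (ω ∩ F))

variable {σ : ℝ} {κ h s ε : ℤ} {q : ℤ × ℤ → ℝ} {x y z w u v : ℤ × ℤ} {t a b j ρ R r m a0 D N : ℤ}
  {E F G ω ω1 ω2 ζ : Finset (ℤ × ℤ)} {A B : Finset (ℤ × ℤ) → Prop}

lemma qb_pb (h0 : 0 ≤ σ) (h1 : σ ≤ 1) : Pb (qb σ) := by
  intro l
  unfold qb
  split_ifs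
  · norm_num
  · constructor <;> linarith

lemma mem_Fb {l : ℤ × ℤ} : l ∈ Fb x r ↔ (2 * (x.1 - r) ≤ l.1 ∧ l.1 ≤ 2 * (x.1 + r)) ∧
    (2 * (x.2 - r) ≤ l.2 ∧ l.2 ≤ 2 * (x.2 + r)) := by
  unfold Fb
  rw [mem_product, mem_Icc, mem_Icc]

lemma dd_mem_Fb (h : inR x r y) : y + y ∈ Fb x r := by
  rw [inR_iff] at h
  rw [mem_Fb]
  simp only [Prod.fst_add, Prod.snd_add]
  omega

lemma HL_sub_Fb : HL κ x r ⊆ Fb x r := by
  intro l hl
  rw [mem_HL] at hl
  rw [mem_Fb]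
  omega

lemma AL_sub_Fb : AL κ x ρ r ⊆ Fb x r := AL_sub_HL.trans HL_sub_Fb

lemma BR_sub_Fb : BR x r ⊆ Fb x r := by
  intro l hl
  unfold BR at hl
  rw [mem_Bx] at hl
  rw [mem_Fb]
  omega

lemma Fb_disj (h : r + R < |x.1 - y.1| ∨ r + R < |x.2 - y.2|) : Disjoint (Fb x r) (Fb y R) := by
  rw [disjoint_left]
  intro l h1 h2
  rw [mem_Fb] at h1 h2
  rw [lt_abs, lt_abs] at h
  omega

/-! ### independence -/

lemma Loc.mono (h : Loc E F A) (hFG : E ∩ F ⊆ G) : Loc E G A := by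
  intro ω hω
  rw [h ω hω, h (ω ∩ G) (inter_subset_left.trans hω)]
  have : ω ∩ G ∩ F = ω ∩ F := by
    ext l
    simp only [mem_inter]
    have h1 : l ∈ ω → l ∈ E := fun h2 => hω h2
    have h2 : l ∈ E → l ∈ F → l ∈ G := fun h3 h4 => hFG (mem_inter.2 ⟨h3, h4⟩)
    tauto
  rw [this]

lemma Loc.and (h1 : Loc E F A) (h2 : Loc E G B) : Loc E (F ∪ G) (fun ω => A ω ∧ B ω) := by
  intro ω hω
  have h3 := (h1.mono (G := F ∪ G) (inter_subset_right.trans subset_union_left)) ω hω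
  have h4 := (h2.mono (G := F ∪ G) (inter_subset_right.trans subset_union_right)) ω hω
  exact and_congr h3 h4

lemma Loc.ex {ι : Type*} {P : ι → Prop} {A : ι → Finset (ℤ × ℤ) → Prop}
    (h : ∀ i, P i → Loc E F (A i)) : Loc E F (fun ω => ∃ i, P i ∧ A i ω) := by
  intro ω hω
  constructor
  · rintro ⟨i, h1, h2⟩
    exact ⟨i, h1, (h i h1 ω hω).1 h2⟩
  · rintro ⟨i, h1, h2⟩
    exact ⟨i, h1, (h i h1 ω hω).2 h2⟩

/-- an event of the labels of `F` -/
lemma PrP_loc (q : ℤ × ℤ → ℝ) (hA : Loc E F A) : PrP q E A = PrP q (E ∩ F) A := by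
  rw [← PrP_restrict q (inter_subset_left : E ∩ F ⊆ E)]
  refine PrP_congr fun ω hω => ?_
  rw [hA ω hω, ← inter_assoc, inter_eq_left.2 hω]

/-- independent events -/
lemma PrP_ind (q : ℤ × ℤ → ℝ) (hA : Loc E F A) (hB : Loc E G B) (hd : Disjoint (E ∩ F) (E ∩ G)) :
    PrP q E (fun ω => A ω ∧ B ω) = PrP q E A * PrP q E B := by
  rw [PrP_loc q hA, PrP_loc q hB, ← PrP_indep q (inter_subset_left : E ∩ F ⊆ E)
    (inter_subset_left : E ∩ G ⊆ E) hd]
  refine PrP_congr fun ω hω => ?_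
  have e1 : ω ∩ (E ∩ F) = ω ∩ F := by rw [← inter_assoc, inter_eq_left.2 hω]
  have e2 : ω ∩ (E ∩ G) = ω ∩ G := by rw [← inter_assoc, inter_eq_left.2 hω]
  rw [e1, e2, hA ω hω, hB ω hω]

/-! ### the local event -/

lemma odd_HL {l : ℤ × ℤ} (h : l ∈ HL κ x r) : (l.1 + l.2) % 2 = 1 := (mem_HL.1 h).1.2.2

lemma dd_inj {x y : ℤ × ℤ} (h : x + x = y + y) : x = y := by
  have h1 := congrArg Prod.fst h
  have h2 := congrArg Prod.snd h
  simp only [Prod.fst_add, Prod.snd_add] at h1 h2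
  exact Prod.ext (by omega) (by omega)

lemma CC_inter (h : HL κ x r ⊆ F) : CC κ x r (ω ∩ F) = CC κ x r ω := by
  unfold CC
  rw [inter_assoc, inter_eq_right.2 h]

lemma W1_inter (h : HL κ x r ⊆ F) : W1 κ x r (ω ∩ F) ↔ W1 κ x r ω := by
  unfold W1
  rw [inter_assoc, inter_eq_right.2 h]

lemma Sd_inter (h : HL κ x r ⊆ F) : Sd κ s x r (ω ∩ F) ↔ Sd κ s x r ω := by
  unfold Sd
  rw [CC_inter h, W1_inter h]

lemma Lo_loc (hκ : κ = 0 ∨ κ = 1) (hr : 0 ≤ r) : Loc E (Fb x r) (Lo κ s x r) := by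
  intro ω _
  unfold Lo
  rw [CC_inter HL_sub_Fb, Sd_inter HL_sub_Fb]
  refine and_congr Iff.rfl (forall₂_congr fun y hy => ?_)
  rw [mem_inter]
  have h1 := dd_mem_Fb (co_HL_reg hκ hr hy.2).2
  tauto

/-- **probability of the local event** -/
theorem PrP_Lo (hκ : κ = 0 ∨ κ = 1) (hr : 0 ≤ r) (h1 : HL κ x r ⊆ E)
    (h2 : ∀ y, ht κ y = ht κ x → inR x r y → y + y ∈ E) :
    PrP (qb σ) E (Lo κ s x r) = pS σ κ s r := by
  classical
  set H := HL κ x r with hH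
  set V : Finset (ℤ × ℤ) := ((Finset.Icc (x.1 - r) (x.1 + r) ×ˢ Finset.Icc (x.2 - r) (x.2 + r)).filter
    (fun y => ht κ y = ht κ x)) with hV
  have hmV : ∀ y, y ∈ V ↔ ht κ y = ht κ x ∧ inR x r y := by
    intro y
    rw [hV, mem_filter, mem_product, mem_Icc, mem_Icc, inR_iff]
    tauto
  set T : Finset (ℤ × ℤ) := V.image (fun y => y + y) with hT
  have hTE : T ⊆ E := by
    intro l hl
    obtain ⟨y, hy, rfl⟩ := mem_image.1 hl
    have := (hmV y).1 hy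
    exact h2 y this.1 this.2
  have hTeven : ∀ l ∈ T, (l.1 + l.2) % 2 = 0 := by
    intro l hl
    obtain ⟨y, -, rfl⟩ := mem_image.1 hl
    simp only [Prod.fst_add, Prod.snd_add]
    omega
  have hd : Disjoint H T := by
    rw [disjoint_left]
    intro l h3 h4
    have := odd_HL h3
    have := hTeven l h4
    omega
  have hCV : ∀ ω, CC κ x r ω ⊆ (V : Set (ℤ × ℤ)) := by
    intro ω y hy
    rw [mem_coe, hmV]
    exact ⟨hy.1, (co_HL_reg hκ hr hy.2).2⟩
  have hloc : Loc E (H ∪ T) (Lo κ s x r) := by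
    intro ω _
    unfold Lo
    rw [CC_inter subset_union_left, Sd_inter subset_union_left]
    refine and_congr Iff.rfl (forall₂_congr fun y hy => ?_)
    rw [mem_inter]
    have h3 : y + y ∈ H ∪ T := mem_union_right _ (mem_image_of_mem _ (hCV ω hy))
    tauto
  have e1 : E ∩ (H ∪ T) = H ∪ T := inter_eq_right.2 (union_subset h1 hTE)
  rw [PrP_loc _ hloc, e1]
  unfold PrP
  rw [Ex_union _ hd]
  unfold pS
  have e2 : Ex hf (HL κ 0 r) (gS σ κ s 0 r) = Ex hf H (gS σ κ s x r) :=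
    (Ex_gS (Subset.refl _)).symm
  rw [e2, Ex_congr_q (q := qb σ) (q' := hf) (E := H) (fun l hl => by
    unfold qb
    rw [if_pos (odd_HL hl)])]
  refine Ex_congr fun ω1 hω1 => ?_
  -- the ties
  have hfin : (CC κ x r ω1).Finite := CC_fin hκ hr
  set K : Finset (ℤ × ℤ) := hfin.toFinset with hK
  have hmK : ∀ y, y ∈ K ↔ y ∈ CC κ x r ω1 := fun y => hfin.mem_toFinset
  set B : Finset (ℤ × ℤ) := K.image (fun y => y + y) with hB
  have hBT : B ⊆ T := by
    intro l hl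
    obtain ⟨y, hy, rfl⟩ := mem_image.1 hl
    exact mem_image_of_mem _ (hCV ω1 ((hmK y).1 hy))
  have hcardB : B.card = (CC κ x r ω1).ncard := by
    rw [hB, card_image_of_injective _ (fun x y h => dd_inj h), Set.ncard_eq_toFinset_card _ hfin]
  have key : ∀ ω2, ω2 ⊆ T → (Lo κ s x r (ω1 ∪ ω2) ↔ Sd κ s x r ω1 ∧ ω2 ∩ B = ∅) := by
    intro ω2 hω2
    have e3 : (ω1 ∪ ω2) ∩ H = ω1 := by
      ext l
      rw [mem_inter, mem_union]
      constructor
      · rintro ⟨h3 | h3, h4⟩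
        · exact h3
        · exact absurd h4 fun h5 => disjoint_left.1 hd h5 (hω2 h3)
      · intro h3
        exact ⟨Or.inl h3, hω1 h3⟩
    have e4 : CC κ x r (ω1 ∪ ω2) = CC κ x r ω1 := by
      rw [← CC_inter (F := H) (ω := ω1 ∪ ω2) (Subset.refl _), e3]
    have e5 : Sd κ s x r (ω1 ∪ ω2) ↔ Sd κ s x r ω1 := by
      rw [← Sd_inter (F := H) (ω := ω1 ∪ ω2) (Subset.refl _), e3]
    unfold Lo
    rw [e4, e5]
    refine and_congr Iff.rfl ?_
    constructor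
    · intro h3
      rw [eq_empty_iff_forall_notMem]
      intro l hl
      obtain ⟨h4, h5⟩ := mem_inter.1 hl
      obtain ⟨y, hy, rfl⟩ := mem_image.1 h5
      exact h3 y ((hmK y).1 hy) (mem_union_right _ h4)
    · intro h3 y hy h4
      have h5 : y + y ∈ B := mem_image_of_mem _ ((hmK y).2 hy)
      rcases mem_union.1 h4 with h6 | h6
      · exact disjoint_left.1 hd (hω1 h6) (hBT h5)
      · have : y + y ∈ ω2 ∩ B := mem_inter.2 ⟨h6, h5⟩
        rw [h3] at this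
        exact notMem_empty _ this
  rw [Ex_congr (g := fun ω2 => ind (Sd κ s x r ω1) * ind (ω2 ∩ B = ∅)) fun ω2 hω2 => by
    rw [← ind_and]
    exact ind_congr (key ω2 hω2)]
  rw [Ex_smul]
  have e6 : Ex (qb σ) T (fun ω2 => ind (ω2 ∩ B = ∅)) = σ ^ B.card := by
    have h3 := PrP_avoid (q := qb σ) hBT
    unfold PrP at h3
    rw [h3, prod_congr rfl (g := fun _ => σ) fun l hl => by
      unfold qb
      have := hTeven l (hBT hl)
      rw [if_neg (by omega)]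
      ring]
    rw [prod_const]
  rw [e6, hcardB]
  unfold gS
  ring

end Pool.Agent.H59.Q1
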