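import Mathlib
import Pool.Agent.Q1.M6e.OneArm
import Pool.Agent.H20.Q1.MxTC
import Pool.Agent.H60.Q1.X3S

set_option autoImplicit false
open Finset

/-!
# Two distinct crossing clusters which do not meet the left wall

`twoC_of` : one of them does not meet the wall. `twoC_pow` : probability `≤ C (ρ/R)^(2+c)`.
-/

namespace Pool.Agent.H59.Q1

open Pool.Agent.H75.Perc Pool.Agent.H75.TwoArm Pool.Agent.H75.Four Pool.Agent.H49.Perc
open Pool.Agent.H99.NC Pool.Agent.H60.Q1 Pool.Agent.H20.Q1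

variable {κ : ℤ} {z u v u' v' w p q : ℤ × ℤ} {ρ R r : ℤ} {E ω : Finset (ℤ × ℤ)}

/-- a ring of vertices -/
lemma ring_pth (hκ : κ = 0 ∨ κ = 1) (hρ : 1 ≤ ρ) (hρR : ρ ≤ R) :
    ∃ p p', WS κ z (-1) p ∧ WS κ z 1 p' ∧ Reg κ z ρ R p ∧ Pth (Reg κ z ρ R) p p' := by
  refine ⟨(z.1 - R, z.2 + κ * R), (z.1 + R, z.2 - κ * R), ?_, ?_, ?_, ?_⟩
  · unfold WS ht
    simp only
    constructor
    · ring
    · omega
  · unfold WS ht
    simp only
    constructor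
    · ring
    · omega
  · unfold Reg ht
    simp only [abs_le, le_abs]
    rcases hκ with rfl | rfl <;> omega
  · have s1 : Pth (Reg κ z ρ R) (z.1 - R, z.2 + κ * R) (z.1 - R, z.2 + R) := by
      refine line_v (by rcases hκ with rfl | rfl <;> omega) fun t h1 h2 => ?_
      unfold Reg ht
      simp only [abs_le, le_abs]
      rcases hκ with rfl | rfl <;> omega
    have s2 : Pth (Reg κ z ρ R) (z.1 - R, z.2 + R) (z.1 + R, z.2 + R) := by
      refine line_h (by omega) fun t h1 h2 => ?_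
      unfold Reg ht
      simp only [abs_le, le_abs]
      rcases hκ with rfl | rfl <;> omega
    have s3 : Pth (Reg κ z ρ R) (z.1 + R, z.2 + R) (z.1 + R, z.2 - κ * R) := by
      refine line_v' fun t h1 h2 => ?_
      unfold Reg ht
      simp only [abs_le, le_abs]
      rcases hκ with rfl | rfl <;> omega
    exact (s1.trans s2).trans s3

/-- two disjoint crossing sets which do not meet the left wall: one of them does not meet the right
wall -/
lemma two_sets (hκ : κ = 0 ∨ κ = 1) (hρ : 1 ≤ ρ) (hρR : ρ ≤ R) {T1 T2 : ℤ × ℤ → Prop}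
    (h1 : Pth T1 u v) (h1u : T1 u) (h2 : Pth T2 u' v') (h2u : T2 u')
    (r1 : ∀ w, T1 w → Reg κ z ρ R w) (r2 : ∀ w, T2 w → Reg κ z ρ R w)
    (c1 : ∀ w w', T1 w → T1 w' → Pth T1 w w') (c2 : ∀ w w', T2 w → T2 w' → Pth T2 w w')
    (hu : Near z ρ u) (hv : Far z R v) (hu' : Near z ρ u') (hv' : Far z R v')
    (hd : ∀ w, T1 w → ¬ T2 w) (l1 : ∀ w, T1 w → ¬ WS κ z (-1) w)
    (l2 : ∀ w, T2 w → ¬ WS κ z (-1) w) :
    (∀ w, T1 w → ¬ WS κ z 1 w) ∨ ∀ w, T2 w → ¬ WS κ z 1 w := by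
  by_contra hcon
  push Not at hcon
  obtain ⟨⟨b1, hb1, hb1w⟩, ⟨b2, hb2, hb2w⟩⟩ := hcon
  obtain ⟨p, p', hp, hp', hpr, hpp⟩ := ring_pth (z := z) hκ hρ hρR
  -- the ring meets the first set
  obtain ⟨m, hm1, hm2⟩ := PL hκ hρ (A := fun w => Reg κ z ρ R w ∧ Pth (Reg κ z ρ R) p w)
    (p := p) (p' := p') (B := T1) (u := u) (v := v) (by
      have key : ∀ w, Pth (Reg κ z ρ R) p w →
          Pth (fun w => Reg κ z ρ R w ∧ Pth (Reg κ z ρ R) p w) p w := by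
        intro w hw
        induction hw with
        | refl => exact Relation.ReflTransGen.refl
        | @tail a b hab hbc ih => exact ih.tail ⟨hbc.1, hbc.2, hab.tail hbc⟩
      exact key p' hpp) ⟨hpr, Relation.ReflTransGen.refl⟩ h1 h1u (fun w hw => hw.1) r1 hp hp' hu hv
  obtain ⟨x, x', hx, hx', hxx, hpx⟩ := exit_rel (X := fun w => ¬ T1 w ∧ ¬ T2 w) hm1.2
    ⟨fun h => l1 p h hp, fun h => l2 p h hp⟩ (fun h => h.1 hm2)
  have hXreg : ∀ w, Relation.ReflTransGen (fun a b => (IsUnit4 (b - a) ∧ Reg κ z ρ R b) ∧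
      (¬ T1 a ∧ ¬ T2 a) ∧ (¬ T1 b ∧ ¬ T2 b)) p w →
      Pth (fun w => Reg κ z ρ R w ∧ ¬ T1 w ∧ ¬ T2 w) p w := by
    intro w hw
    induction hw with
    | refl => exact Relation.ReflTransGen.refl
    | tail _ hbc ih => exact ih.tail ⟨hbc.1.1, hbc.1.2, hbc.2.2⟩
  have hpx' := hXreg x hpx
  have hcase : T1 x' ∨ T2 x' := by
    by_contra h
    push Not at h
    exact hx' h
  rcases hcase with h3 | h3
  · obtain ⟨w, hw1, hw2⟩ := PL hκ hρ (A := fun w => (Reg κ z ρ R w ∧ ¬ T1 w ∧ ¬ T2 w) ∨ T1 w)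
      (p := p) (p' := b1) (B := T2) (u := u') (v := v')
      (((hpx'.mono fun w hw => Or.inl hw).tail ⟨hxx.1, Or.inr h3⟩).trans
        ((c1 x' b1 h3 hb1).mono fun w hw => Or.inr hw))
      (Or.inl ⟨hpr, fun h => l1 p h hp, fun h => l2 p h hp⟩) h2 h2u
      (fun w hw => hw.elim (fun h => h.1) (fun h => r1 w h)) r2 hp hb1w hu' hv'
    rcases hw1 with h4 | h4
    · exact h4.2.2 hw2
    · exact hd w h4 hw2
  · obtain ⟨w, hw1, hw2⟩ := PL hκ hρ (A := fun w => (Reg κ z ρ R w ∧ ¬ T1 w ∧ ¬ T2 w) ∨ T2 w)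
      (p := p) (p' := b2) (B := T1) (u := u) (v := v)
      (((hpx'.mono fun w hw => Or.inl hw).tail ⟨hxx.1, Or.inr h3⟩).trans
        ((c2 x' b2 h3 hb2).mono fun w hw => Or.inr hw))
      (Or.inl ⟨hpr, fun h => l1 p h hp, fun h => l2 p h hp⟩) h1 h1u
      (fun w hw => hw.elim (fun h => h.1) (fun h => r2 w h)) r1 hp hb2w hu hv
    rcases hw1 with h4 | h4
    · exact h4.2.1 hw2
    · exact hd w hw2 h4

lemma co_conn {η : Finset (ℤ × ℤ)} (h1 : Co η u v) (h2 : Co η u w) : Pth (fun y => Co η u y) v w :=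
  (Co.pth (h1.symm.trans h2)).mono fun _ hy => h1.trans hy

/-- **two distinct crossing clusters off the left wall** -/
theorem twoC_of (hκ : κ = 0 ∨ κ = 1) (hρ : 1 ≤ ρ) (hρR : ρ < R) (hu : Near z ρ u) (hv : Far z R v)
    (h1 : Co (ω ∩ AL κ z ρ R) u v) (hu' : Near z ρ u') (hv' : Far z R v')
    (h2 : Co (ω ∩ AL κ z ρ R) u' v') (hne : ¬ Co (ω ∩ AL κ z ρ R) u u')
    (l1 : ∀ w, Co (ω ∩ AL κ z ρ R) u w → ¬ WS κ z (-1) w)
    (l2 : ∀ w, Co (ω ∩ AL κ z ρ R) u' w → ¬ WS κ z (-1) w) : TwoC κ z ρ R ω := by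
  have n1 : u ≠ v := near_ne_far hρR hu hv
  have n2 : u' ≠ v' := near_ne_far hρR hu' hv'
  have g1 := Co.reg hκ inter_subset_right h1 n1
  have g2 := Co.reg hκ inter_subset_right h2 n2
  have key := two_sets (z := z) (T1 := fun y => Co (ω ∩ AL κ z ρ R) u y)
    (T2 := fun y => Co (ω ∩ AL κ z ρ R) u' y) hκ hρ hρR.le (Co.pth h1) (Co.refl _ _) (Co.pth h2)
    (Co.refl _ _) g1.2 g2.2 (fun w w' h3 h4 => co_conn h3 h4) (fun w w' h3 h4 => co_conn h3 h4)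
    hu hv hu' hv' (fun w h3 h4 => hne (h3.trans h4.symm)) l1 l2
  have hwall : ∀ y, Reg κ z ρ R y → ht κ y = ht κ z → WS κ z (-1) y ∨ WS κ z 1 y := by
    intro y h3 h4
    unfold WS
    unfold Reg at h3
    simp only [le_abs] at h3
    unfold ht at h3 h4 ⊢
    rcases hκ with rfl | rfl <;> omega
  rcases key with h3 | h3
  · refine ⟨u, u', v, v', hu, hv, h1, hu', hv', h2, hne, fun y hy hyz => ?_⟩
    rcases hwall y (g1.2 y hy) hyz with h4 | h4
    · exact l1 y hy h4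
    · exact h3 y hy h4
  · refine ⟨u', u, v', v, hu', hv', h2, hu, hv, h1, fun h => hne h.symm, fun y hy hyz => ?_⟩
    rcases hwall y (g2.2 y hy) hyz with h4 | h4
    · exact l2 y hy h4
    · exact h3 y hy h4

lemma TwoC_local : TwoC κ z ρ R ω ↔ TwoC κ z ρ R (ω ∩ AL κ z ρ R) := by
  unfold TwoC
  rw [inter_assoc, inter_self]

lemma exists_dyadic4 {a0 R : ℤ} (ha : 1 ≤ a0) (hR : a0 ≤ R) :
    ∃ n : ℕ, 4 ^ n * a0 ≤ R ∧ R < 4 * (4 ^ n * a0) := by
  classical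
  have hbig : ∃ n : ℕ, R < 4 ^ n * a0 := by
    obtain ⟨n, hn⟩ := pow_unbounded_of_one_lt R (show (1 : ℤ) < 4 by norm_num)
    refine ⟨n, hn.trans_le ?_⟩
    have : (0 : ℤ) < 4 ^ n := by positivity
    nlinarith
  have hn := Nat.find_spec hbig
  have hmin := fun k => Nat.find_min (H := hbig) (m := k)
  set n := Nat.find hbig with hnd
  have h2 : 1 ≤ n := by
    by_contra h3
    have h4 : n = 0 := by omega
    rw [h4] at hn
    simp only [pow_zero, one_mul] at hn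
    omega
  refine ⟨n - 1, ?_, ?_⟩
  · have h3 := hmin (n - 1) (by omega)
    omega
  · have e : 4 ^ n * a0 = 4 * (4 ^ (n - 1) * a0) := by
      have : (4 : ℤ) ^ n = 4 * 4 ^ (n - 1) := by
        rw [← pow_succ']
        congr 1
        omega
      rw [this]
      ring
    rw [← e]
    exact hn

/-- smaller outer radius -/
lemma TwoC_mono (hρ : ρ < r) (hr : r ≤ R) (h : TwoC κ z ρ R ω) : TwoC κ z ρ r ω := by
  obtain ⟨u, u', v, v', h1, h2, h3, h4, h5, h6, h7, h8⟩ := h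
  obtain ⟨w, h9, h10⟩ := Pool.Agent.Q1.M6e.Cr_cut hρ hr h1 h2 h3
  obtain ⟨w', h9', h10'⟩ := Pool.Agent.Q1.M6e.Cr_cut hρ hr h4 h5 h6
  have hs : ω ∩ AL κ z ρ r ⊆ ω ∩ AL κ z ρ R := by
    refine inter_subset_inter_left fun l hl => ?_
    rw [mem_AL] at hl ⊢
    omega
  exact ⟨u, u', w, w', h1, h9, h10, h4, h9', h10', fun h => h7 (h.mono hs),
    fun y hy => h8 y (hy.mono hs)⟩

/-- **probability of two crossing clusters one of which does not meet the wall** -/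
theorem twoC_pow : ∃ C c : ℝ, 0 < C ∧ 0 < c ∧ c ≤ 1 ∧ ∀ κ : ℤ, (κ = 0 ∨ κ = 1) → ∀ (z : ℤ × ℤ) (ρ R : ℤ),
    1 ≤ ρ → 1 ≤ R → ∀ E : Finset (ℤ × ℤ), AL κ z ρ R ⊆ E →
    PrP hf E (TwoC κ z ρ R) ≤ C * ((ρ : ℝ) / R) ^ (2 + c) := by
  obtain ⟨δ, hδ0, hδ1, hTC⟩ := two_cross
  obtain ⟨C3, hC3, hu3⟩ := u3_le
  obtain ⟨α, hα, hpow⟩ := pow_le_rpow (δ := 1 - δ) (by linarith) (by linarith)
  obtain ⟨k0, hk0⟩ := exists_pow_lt_of_lt_one (show (0 : ℝ) < 1 / 2 by norm_num)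
    (show 1 - δ < 1 by linarith)
  have h4k : (1 : ℝ) ≤ 4 ^ k0 := one_le_pow₀ (by norm_num)
  have hinv : 0 < (1 - δ)⁻¹ := inv_pos.2 (by linarith)
  set c : ℝ := min α 1 with hc
  have hc0 : 0 < c := lt_min hα one_pos
  have hc1 : c ≤ 1 := min_le_right _ _
  have hcα : c ≤ α := min_le_left _ _
  refine ⟨32 * C3 * (1 - δ)⁻¹ + (4 ^ k0) ^ (2 + c), c, by positivity, hc0, hc1,
    fun κ hκ z ρ R hρ hR E hE => ?_⟩
  have hρ' : (1 : ℝ) ≤ ρ := by exact_mod_cast hρ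
  have hR' : (1 : ℝ) ≤ R := by exact_mod_cast hR
  have hx0 : 0 < (ρ : ℝ) / R := by positivity
  have hA : 0 ≤ 32 * C3 * (1 - δ)⁻¹ := by positivity
  have hB : 0 ≤ ((4 : ℝ) ^ k0) ^ (2 + c) := by positivity
  have hpw : 0 ≤ ((ρ : ℝ) / R) ^ (2 + c) := by positivity
  by_cases hcase : R < 4 ^ k0 * ρ
  · refine (PrP_le_one hf_Pb _ _).trans ?_
    have h1 : (1 : ℝ) ≤ 4 ^ k0 * ((ρ : ℝ) / R) := by
      rw [← mul_div_assoc, le_div_iff₀ (by linarith), one_mul]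
      exact_mod_cast hcase.le
    have h2 := Real.one_le_rpow h1 (by linarith : (0 : ℝ) ≤ 2 + c)
    rw [Real.mul_rpow (by positivity) hx0.le] at h2
    nlinarith [mul_nonneg hA hpw]
  · push Not at hcase
    obtain ⟨k, hk1, hk2⟩ := exists_dyadic4 hρ (by
      have : (1 : ℤ) ≤ 4 ^ k0 := one_le_pow₀ (by norm_num)
      nlinarith : ρ ≤ R)
    have hk0k : k0 ≤ k := by
      by_contra hlt
      push Not at hlt
      have h1 : (4 : ℤ) ^ (k + 1) ≤ 4 ^ k0 := pow_le_pow_right₀ (by norm_num) (by omega)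
      have h2 : (4 : ℤ) ^ (k + 1) * ρ ≤ 4 ^ k0 * ρ := mul_le_mul_of_nonneg_right h1 (by omega)
      rw [pow_succ] at h2
      nlinarith
    have hhalf : (1 - δ) ^ k ≤ 1 / 2 :=
      (pow_le_pow_of_le_one (by linarith) (by linarith) hk0k).trans hk0.le
    have h4 := hTC κ hκ z ρ hρ k hhalf
    have hρ4 : (1 : ℤ) ≤ 4 ^ k := one_le_pow₀ (by norm_num)
    have h5 := hu3 κ hκ z ρ (4 ^ k * ρ) hρ (by nlinarith)
    have hstep : PrP hf E (TwoC κ z ρ R) ≤ PrP hf (AL κ z ρ (4 ^ k * ρ)) (TwoC κ z ρ (4 ^ k * ρ)) := by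
      by_cases hk : k = 0
      · subst hk
        have : 1 ≤ k0 := by
          by_contra h0
          have h00 : k0 = 0 := by omega
          rw [h00, pow_zero] at hk0
          norm_num at hk0
        omega
      · have h16 : (4 : ℤ) ≤ 4 ^ k := by
          calc (4 : ℤ) = 4 ^ 1 := (pow_one _).symm
            _ ≤ 4 ^ k := pow_le_pow_right₀ (by norm_num) (by omega)
        have hsub : AL κ z ρ (4 ^ k * ρ) ⊆ AL κ z ρ R := by
          intro l hl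
          rw [mem_AL] at hl ⊢
          omega
        rw [← PrP_restrict hf (hsub.trans hE)]
        refine PrP_mono hf_Pb fun ω _ h => ?_
        rw [← TwoC_local]
        exact TwoC_mono (by nlinarith) hk1 h
    have e1 : (ρ : ℝ) / ((4 ^ k * ρ : ℤ) : ℝ) ≤ 4 * ((ρ : ℝ) / R) := by
      push_cast
      rw [← mul_div_assoc, div_le_div_iff₀ (by positivity) (by positivity)]
      have : (R : ℝ) ≤ 4 * 4 ^ k * ρ := by
        have h6 : (R : ℤ) ≤ 4 * (4 ^ k * ρ) := hk2.le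
        have h7 : (R : ℝ) ≤ 4 * (4 ^ k * ρ) := by exact_mod_cast h6
        linarith
      nlinarith
    have e2 : (1 - δ) ^ k ≤ (1 - δ)⁻¹ * ((ρ : ℝ) / R) ^ c := by
      have h6 := hpow ((R : ℝ) / ρ) k (by positivity) (by
        rw [div_lt_iff₀ (by positivity)]
        have h7 : (R : ℝ) < 4 * (4 ^ k * ρ) := by exact_mod_cast hk2
        calc (R : ℝ) < 4 * (4 ^ k * ρ) := h7
          _ = 4 ^ (k + 1) * ρ := by ring)
      refine h6.trans (mul_le_mul_of_nonneg_left ?_ hinv.le)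
      rw [Real.rpow_neg (by positivity), ← Real.inv_rpow (by positivity), inv_div]
      refine Real.rpow_le_rpow_of_exponent_ge hx0 ?_ hcα
      rw [div_le_one (by positivity)]
      have h8 : (ρ : ℤ) ≤ R := by nlinarith
      exact_mod_cast h8
    have e3 : ((ρ : ℝ) / ((4 ^ k * ρ : ℤ) : ℝ)) ^ 2 ≤ (4 * ((ρ : ℝ) / R)) ^ 2 :=
      pow_le_pow_left₀ (by positivity) e1 2
    have e4 : ((ρ : ℝ) / R) ^ (2 + c) = ((ρ : ℝ) / R) ^ 2 * ((ρ : ℝ) / R) ^ c := by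
      rw [Real.rpow_add hx0, Real.rpow_two]
    calc PrP hf E (TwoC κ z ρ R) ≤ 2 * (1 - δ) ^ k * u3 κ z ρ (4 ^ k * ρ) := hstep.trans h4
      _ ≤ 2 * ((1 - δ)⁻¹ * ((ρ : ℝ) / R) ^ c) * (C3 * (4 * ((ρ : ℝ) / R)) ^ 2) := by
          refine mul_le_mul (mul_le_mul_of_nonneg_left e2 (by norm_num))
            (h5.trans (mul_le_mul_of_nonneg_left e3 hC3.le)) u3_nonneg (by positivity)
      _ = 32 * C3 * (1 - δ)⁻¹ * ((ρ : ℝ) / R) ^ (2 + c) := by rw [e4]; ring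
      _ ≤ _ := by nlinarith [mul_nonneg hB hpw]

end Pool.Agent.H59.Q1
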