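import Mathlib
import Pool.Agent.H59.Q1.Bits
import Pool.Agent.H59.Q1.Pair

set_option autoImplicit false
open Finset

/-!
# A straight wall with ties: from global classes to local events

`Wall κ L x0 N D` : labels `L` of the layer, wall vertices `wp κ x0 t`, `0 ≤ t ≤ N`; boxes around wall
vertices of radius `≤ D` which contain only points `0 ≤ t ≤ N` are half boxes.
-/

namespace Pool.Agent.H59.Q1

open Pool.Agent.H75.Perc Pool.Agent.H75.TwoArm Pool.Agent.H75.Four Pool.Agent.H49.Perc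
open Pool.Agent.H99.NC Pool.Agent.H60.Q1 Pool.Agent.H20.Q1

/-- a straight wall -/
structure Wall (κ : ℤ) (L : Finset (ℤ × ℤ)) (x0 : ℤ × ℤ) (N D : ℤ) : Prop where
  hκ : κ = 0 ∨ κ = 1
  odd : ∀ l ∈ L, (l.1 + l.2) % 2 = 1
  flat : ∀ t r : ℤ, 0 ≤ r → r ≤ t → t + r ≤ N → r ≤ D → ∀ l ∈ BR (wp κ x0 t) r,
    (l ∈ L ↔ 2 * ht κ x0 ≤ ht κ l)

/-- the ties -/
noncomputable def Tt (κ : ℤ) (x0 : ℤ × ℤ) (N : ℤ) : Finset (ℤ × ℤ) :=
  (Finset.Icc 0 N).image (fun t => wp κ x0 t + wp κ x0 t)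

/-- all labels -/
noncomputable def EE (κ : ℤ) (L : Finset (ℤ × ℤ)) (x0 : ℤ × ℤ) (N : ℤ) : Finset (ℤ × ℤ) :=
  L ∪ Tt κ x0 N

/-- no contact of the class is tied -/
def Un (κ : ℤ) (L : Finset (ℤ × ℤ)) (x0 : ℤ × ℤ) (N : ℤ) (x : ℤ × ℤ) (ζ : Finset (ℤ × ℤ)) : Prop :=
  ∀ t : ℤ, 0 ≤ t → t ≤ N → Co (ζ ∩ L) x (wp κ x0 t) → wp κ x0 t + wp κ x0 t ∉ ζ

/-- the class reaches distance `R` -/
def Mc (L : Finset (ℤ × ℤ)) (R : ℤ) (x : ℤ × ℤ) (ζ : Finset (ℤ × ℤ)) : Prop :=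
  ∃ v, Far x R v ∧ Co (ζ ∩ L) x v

/-- `wp κ x0 t` is the first (`s = 1`) or last (`s = -1`) contact of its class -/
def Rep (κ : ℤ) (L : Finset (ℤ × ℤ)) (x0 : ℤ × ℤ) (N s t : ℤ) (ζ : Finset (ℤ × ℤ)) : Prop :=
  ∀ t' : ℤ, 0 ≤ t' → t' ≤ N → Co (ζ ∩ L) (wp κ x0 t) (wp κ x0 t') → 0 ≤ s * (t' - t)

variable {σ : ℝ} {κ s ε : ℤ} {q : ℤ × ℤ → ℝ} {x y z w u v x0 : ℤ × ℤ}
  {t t' a b j ρ R r m a0 D N n : ℤ} {E F G L ω ω1 ω2 ζ : Finset (ℤ × ℤ)}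
  {A B : Finset (ℤ × ℤ) → Prop}

lemma wp_fst : (wp κ x0 t).1 = x0.1 + t := rfl
lemma wp_snd : (wp κ x0 t).2 = x0.2 - κ * t := rfl

lemma htw : ht κ (wp κ x0 t) = ht κ x0 := by
  unfold ht wp
  simp only
  ring

lemma of_ht (h : ht κ y = ht κ x0) : y = wp κ x0 (y.1 - x0.1) := by
  unfold ht at h
  refine Prod.ext ?_ ?_
  · rw [wp_fst]; ring
  · rw [wp_snd]; linarith

lemma wp_dist (hκ : κ = 0 ∨ κ = 1) : inR (wp κ x0 t) r (wp κ x0 t') ↔ |t' - t| ≤ r := by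
  rw [inR_iff, abs_le]
  unfold wp
  rcases hκ with rfl | rfl <;> simp only <;> omega

lemma mem_tt (ht' : 0 ≤ t) (htN : t ≤ N) : wp κ x0 t + wp κ x0 t ∈ EE κ L x0 N :=
  mem_union_right _ (mem_image_of_mem _ (mem_Icc.2 ⟨ht', htN⟩))

namespace Wall

variable (h : Wall κ L x0 N D)

include h

lemma HLsub (h0 : 0 ≤ r) (h1 : r ≤ t) (h2 : t + r ≤ N) (h3 : r ≤ D) :
    HL κ (wp κ x0 t) r ⊆ L := by
  intro l hl
  rw [mem_HL'] at hl
  rw [h.flat t r h0 h1 h2 h3 l hl.1, ← htw (κ := κ) (x0 := x0) (t := t)]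
  exact hl.2

lemma capsub (h0 : 0 ≤ r) (h1 : r ≤ t) (h2 : t + r ≤ N) (h3 : r ≤ D) :
    ζ ∩ L ∩ BR (wp κ x0 t) r ⊆ ζ ∩ HL κ (wp κ x0 t) r := by
  intro l hl
  obtain ⟨g1, g2⟩ := mem_inter.1 hl
  obtain ⟨g3, g4⟩ := mem_inter.1 g1
  refine mem_inter.2 ⟨g3, mem_HL'.2 ⟨g2, ?_⟩⟩
  rw [htw]
  exact (h.flat t r h0 h1 h2 h3 l g2).1 g4

/-- ties in the box -/
lemma tie_mem (h1 : r ≤ t) (h2 : t + r ≤ N) (hy : ht κ y = ht κ (wp κ x0 t))
    (hr : inR (wp κ x0 t) r y) : y + y ∈ EE κ L x0 N := by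
  rw [htw] at hy
  have e := of_ht hy
  rw [e, wp_dist h.hκ, abs_le] at hr
  rw [e]
  exact mem_tt (by omega) (by omega)

/-- **probability of the local event at a flat point** -/
lemma prob_Lo (h0 : 0 ≤ r) (h1 : r ≤ t) (h2 : t + r ≤ N) (h3 : r ≤ D) :
    PrP (qb σ) (EE κ L x0 N) (Lo κ s (wp κ x0 t) r) = pS σ κ s r :=
  PrP_Lo h.hκ h0 ((h.HLsub h0 h1 h2 h3).trans subset_union_left)
    fun _ hy hr => h.tie_mem h1 h2 hy hr

/-- the class of a local cluster -/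
lemma co_of_local (h0 : 0 ≤ r) (h1 : r ≤ t) (h2 : t + r ≤ N) (h3 : r ≤ D)
    (hc : Co (ζ ∩ HL κ (wp κ x0 t) r) u v) : Co (ζ ∩ L) u v :=
  hc.mono (inter_subset_inter_left (h.HLsub h0 h1 h2 h3))

/-- **from a global class to the local event** -/
theorem lo_of (h0 : 0 ≤ r) (h1 : r ≤ t) (h2 : t + r ≤ N) (h3 : r ≤ D) (hrR : r ≤ R)
    (hM : Mc L R (wp κ x0 t) ζ) (hrep : Rep κ L x0 N s t ζ) (hU : Un κ L x0 N (wp κ x0 t) ζ) :
    Lo κ s (wp κ x0 t) r ζ := by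
  set x := wp κ x0 t with hx
  have hW : W1 κ x r ζ := by
    by_cases hr : r = 0
    · subst hr
      exact ⟨x, by unfold Far; simp, Co.refl _ _⟩
    obtain ⟨v, hv, hc⟩ := hM
    obtain ⟨v', hv', hc'⟩ := open_exit (o := x) (M := r) hc
      (by rw [sub_self, sub_self, abs_zero]; omega) (by unfold Far at hv; omega)
    exact ⟨v', hv', hc'.mono (h.capsub h0 h1 h2 h3)⟩
  have hcont : ∀ y ∈ CC κ x r ζ, ∃ t', 0 ≤ t' ∧ t' ≤ N ∧ y = wp κ x0 t' ∧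
      Co (ζ ∩ L) x (wp κ x0 t') := by
    intro y hy
    have g1 : ht κ y = ht κ x0 := by rw [hy.1, hx, htw]
    have g2 := (co_HL_reg h.hκ h0 hy.2).2
    have e := of_ht g1
    have g3 := g2
    rw [e, hx, wp_dist h.hκ, abs_le] at g3
    refine ⟨y.1 - x0.1, by omega, by omega, e, ?_⟩
    rw [← e]
    exact h.co_of_local h0 h1 h2 h3 hy.2
  refine ⟨⟨hW, fun y hy => ?_⟩, fun y hy => ?_⟩
  · obtain ⟨t', g1, g2, g3, g4⟩ := hcont y hy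
    have g5 := hrep t' g1 g2 g4
    rw [g3, hx, wp_fst, wp_fst]
    have : x0.1 + t' - (x0.1 + t) = t' - t := by ring
    rw [this]; exact g5
  · obtain ⟨t', g1, g2, g3, g4⟩ := hcont y hy
    rw [g3]
    exact hU t' g1 g2 g4

/-- **two classes with near first contacts** -/
theorem two_of (hj0 : 1 ≤ j) (hjD : 2 * j < n) (h1 : n ≤ t) (h2 : t + n ≤ N) (h3 : n ≤ D)
    (hnR : n + j ≤ R) (hM1 : Mc L R (wp κ x0 t) ζ) (hM2 : Mc L R (wp κ x0 (t + j)) ζ)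
    (hr1 : Rep κ L x0 N 1 t ζ) (hr2 : Rep κ L x0 N 1 (t + j) ζ)
    (hd : ¬ Co (ζ ∩ L) (wp κ x0 t) (wp κ x0 (t + j))) : TwoC κ (wp κ x0 t) (2 * j) n ζ := by
  set x := wp κ x0 t with hx
  set y := wp κ x0 (t + j) with hy
  have hκ := h.hκ
  have habv : Abv κ x n (ζ ∩ L) := by
    intro l hl hb
    rw [hx, htw]
    exact (h.flat t n (by omega) h1 h2 h3 l hb).1 (mem_inter.1 hl).2
  have hAL : ∀ r, r ≤ n → AL κ x (2 * j) r ⊆ L := by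
    intro r hr l hl
    rw [mem_AL'] at hl
    rw [h.flat t n (by omega) h1 h2 h3 l (BR_mono hr hl.1), ← htw (κ := κ) (x0 := x0) (t := t)]
    exact hl.2.2
  have hcap : ζ ∩ L ∩ AL κ x (2 * j) n = ζ ∩ AL κ x (2 * j) n := by
    rw [inter_assoc, inter_eq_right.2 (hAL n le_rfl)]
  obtain ⟨v1, hv1, hc1⟩ := hM1
  obtain ⟨v2, hv2, hc2⟩ := hM2
  have hxx : inR x (2 * j) x := by rw [inR_iff]; omega
  have hyx : inR x (2 * j) y := by
    rw [hx, hy, wp_dist hκ, abs_le]; omega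
  have hf1 : Far x n v1 := by unfold Far at hv1 ⊢; omega
  have hf2 : Far x n v2 := by
    have hyx' : inR x j y := by
      rw [hx, hy, wp_dist hκ, abs_le]; omega
    rw [inR_iff] at hyx'
    unfold Far at hv2 ⊢
    rw [le_abs, le_abs] at hv2 ⊢
    omega
  obtain ⟨u1, w1, a1, a2, a3, a4⟩ := cross_of hc1 hxx hf1 hjD le_rfl habv
  obtain ⟨u2, w2, b1, b2, b3, b4⟩ := cross_of hc2 hyx hf2 hjD le_rfl habv
  rw [hcap] at a3 b3
  have hsub : ζ ∩ AL κ x (2 * j) n ⊆ ζ ∩ L := inter_subset_inter_left (hAL n le_rfl)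
  have hleft : ∀ (p q : ℤ × ℤ) (tp : ℤ), Co (ζ ∩ L) (wp κ x0 tp) p → t ≤ tp →
      Rep κ L x0 N 1 tp ζ → Co (ζ ∩ AL κ x (2 * j) n) p q → Reg κ x (2 * j) n q →
      ¬ WS κ x (-1) q := by
    intro p q tp g1 g2 g3 g4 g5 g6
    have g7 : ht κ q = ht κ x0 := by rw [g6.1, hx, htw]
    have g8 := of_ht g7
    have g9 := g5.2.1
    have g10 : inR x n q := by
      rw [inR_iff]
      rw [abs_le, abs_le] at g9
      omega
    rw [g8, hx, wp_dist hκ, abs_le] at g10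
    have g11 := g3 (q.1 - x0.1) (by omega) (by omega) (by
      rw [← g8]
      exact g1.trans (g4.mono hsub))
    have g12 := g6.2
    rw [hx, wp_fst] at g12
    omega
  have n1 : u1 ≠ w1 := near_ne_far hjD a1 a2
  have n2 : u2 ≠ w2 := near_ne_far hjD b1 b2
  have r1 := Co.reg hκ inter_subset_right a3 n1
  have r2 := Co.reg hκ inter_subset_right b3 n2
  refine twoC_of hκ (by omega) hjD a1 a2 a3 b1 b2 b3 ?_ ?_ ?_
  · intro g1
    exact hd ((a4.trans (g1.mono hsub)).trans b4.symm)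
  · intro q hq
    exact hleft u1 q t a4 le_rfl hr1 hq (r1.2 q hq)
  · intro q hq
    exact hleft u2 q (t + j) b4 (by omega) hr2 hq (r2.2 q hq)

end Wall

lemma TwoC_loc : Loc E (AL κ x ρ R) (TwoC κ x ρ R) := fun _ _ => TwoC_local

/-- **probability of a near pair** -/
theorem prob_pair {Ct c : ℝ} (hT : ∀ κ : ℤ, (κ = 0 ∨ κ = 1) → ∀ (z : ℤ × ℤ) (ρ R : ℤ),
    1 ≤ ρ → 1 ≤ R → ∀ E : Finset (ℤ × ℤ), AL κ z ρ R ⊆ E →
    PrP hf E (TwoC κ z ρ R) ≤ Ct * ((ρ : ℝ) / R) ^ (2 + c)) (h : Wall κ L x0 N D)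
    (hσ0 : 0 ≤ σ)
    (ha0 : 0 ≤ a) (hj0 : 1 ≤ j) (haj : 4 * a ≤ j) (hjD : 2 * j < n) (h1 : n ≤ t)
    (h2 : t + n ≤ N) (h3 : n ≤ D) :
    PrP (qb σ) (EE κ L x0 N) (fun ζ => Lo κ 1 (wp κ x0 t) a ζ ∧ Lo κ 1 (wp κ x0 (t + j)) a ζ ∧
      TwoC κ (wp κ x0 t) (2 * j) n ζ) ≤
      pS σ κ 1 a * (pS σ κ 1 a * (Ct * (((2 * j : ℤ) : ℝ) / n) ^ (2 + c))) := by
  have hκ := h.hκ
  set x := wp κ x0 t with hx
  set y := wp κ x0 (t + j) with hy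
  have hL1 : Loc (EE κ L x0 N) (Fb x a) (Lo κ 1 x a) := Lo_loc hκ ha0
  have hL2 : Loc (EE κ L x0 N) (Fb y a) (Lo κ 1 y a) := Lo_loc hκ ha0
  have hL3 : Loc (EE κ L x0 N) (AL κ x (2 * j) n) (TwoC κ x (2 * j) n) := TwoC_loc
  have d12 : Disjoint (Fb x a) (Fb y a) := Fb_disj (by
    left
    rw [hx, hy, wp_fst, wp_fst, lt_abs]
    omega)
  have hodd : ∀ l ∈ AL κ x (2 * j) n, (l.1 + l.2) % 2 = 1 ∧ l ∉ BR x (2 * j) := by
    intro l hl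
    exact ⟨H60.Q1.AL_odd l hl, (mem_AL'.1 hl).2.1⟩
  have d3 : ∀ w : ℤ × ℤ, inR x j w → Disjoint (Fb w a) (AL κ x (2 * j) n) := by
    intro w hw
    rw [disjoint_left]
    intro l g1 g2
    obtain ⟨g3, g4⟩ := hodd l g2
    apply g4
    unfold BR
    rw [mem_Bx]
    rw [mem_Fb] at g1
    rw [inR_iff] at hw
    omega
  have d13 : Disjoint (Fb x a) (AL κ x (2 * j) n) := d3 x (by rw [inR_iff]; omega)
  have d23 : Disjoint (Fb y a) (AL κ x (2 * j) n) := d3 y (by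
    rw [hx, hy, wp_dist hκ, abs_le]; omega)
  have i1 := PrP_ind (qb σ) hL1 (hL2.and hL3) (by
    refine Disjoint.mono inter_subset_right inter_subset_right ?_
    rw [disjoint_union_right]
    exact ⟨d12, d13⟩)
  have i2 := PrP_ind (qb σ) hL2 hL3 (Disjoint.mono inter_subset_right inter_subset_right d23)
  rw [i1, i2, h.prob_Lo ha0 (by omega) (by omega) (by omega),
    h.prob_Lo (t := t + j) ha0 (by omega) (by omega) (by omega)]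
  have hALL : AL κ x (2 * j) n ⊆ L := by
    intro l hl
    rw [mem_AL'] at hl
    rw [h.flat t n (by omega) h1 h2 h3 l hl.1, ← htw (κ := κ) (x0 := x0) (t := t)]
    exact hl.2.2
  have hT1 : PrP (qb σ) (EE κ L x0 N) (TwoC κ x (2 * j) n) ≤
      Ct * (((2 * j : ℤ) : ℝ) / n) ^ (2 + c) := by
    have e0 : EE κ L x0 N ∩ AL κ x (2 * j) n = AL κ x (2 * j) n :=
      inter_eq_right.2 (hALL.trans subset_union_left)
    rw [PrP_loc _ hL3, e0]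
    have : PrP (qb σ) (AL κ x (2 * j) n) (TwoC κ x (2 * j) n) =
        PrP hf (AL κ x (2 * j) n) (TwoC κ x (2 * j) n) := by
      unfold PrP
      exact Ex_congr_q (fun l hl => by
        unfold qb
        rw [if_pos (H60.Q1.AL_odd l hl)]) _
    rw [this]
    exact hT κ hκ x (2 * j) n (by omega) (by omega) _ (Subset.refl _)
  have hp := pS_nonneg (κ := κ) (s := 1) (R := a) hσ0
  exact mul_le_mul_of_nonneg_left (mul_le_mul_of_nonneg_left hT1 hp) hp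

end Pool.Agent.H59.Q1
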