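import Mathlib
import Pool.Agent.H59.Q1.WallP

set_option autoImplicit false
open Finset

/-!
# The corner zone: events

`ARg` : open crossing of an annulus by the labels of the layer; `UTg` : untied open crossing.
`corner_of` : a class whose nearest contact to the end `τ` of the wall is at distance `u`.
-/

namespace Pool.Agent.H59.Q1

open Pool.Agent.H75.Perc Pool.Agent.H75.TwoArm Pool.Agent.H75.Four Pool.Agent.H49.Perc
open Pool.Agent.H99.NC Pool.Agent.H60.Q1 Pool.Agent.H20.Q1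

/-- labels of an annulus -/
noncomputable def Ar (c : ℤ × ℤ) (ρ M : ℤ) : Finset (ℤ × ℤ) := BR c M \ BR c ρ

/-- open crossing of an annulus -/
def ARg (L : Finset (ℤ × ℤ)) (c : ℤ × ℤ) (ρ M : ℤ) (ζ : Finset (ℤ × ℤ)) : Prop :=
  ∃ p v, Near c ρ p ∧ Far c M v ∧ Co (ζ ∩ (L ∩ Ar c ρ M)) p v

/-- untied open crossing of an annulus -/
def UTg (κ : ℤ) (L : Finset (ℤ × ℤ)) (x0 : ℤ × ℤ) (N : ℤ) (c : ℤ × ℤ) (ρ M : ℤ)
    (ζ : Finset (ℤ × ℤ)) : Prop :=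
  ∃ p v, Near c ρ p ∧ Far c M v ∧ Co (ζ ∩ (L ∩ Ar c ρ M)) p v ∧
    ∀ t : ℤ, 0 ≤ t → t ≤ N → Co (ζ ∩ (L ∩ Ar c ρ M)) p (wp κ x0 t) → wp κ x0 t + wp κ x0 t ∉ ζ

/-- ties at distance `≥ ρ` from `c` -/
noncomputable def TF4 (κ : ℤ) (x0 : ℤ × ℤ) (N : ℤ) (c : ℤ × ℤ) (ρ : ℤ) : Finset (ℤ × ℤ) :=
  (Tt κ x0 N).filter (fun l => 2 * ρ ≤ |l.1 - 2 * c.1| ∨ 2 * ρ ≤ |l.2 - 2 * c.2|)

variable {σ : ℝ} {κ s ε : ℤ} {q : ℤ × ℤ → ℝ} {x y z w u v x0 c p : ℤ × ℤ}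
  {t t' a b j ρ ρ1 R r m a0 D N n M τ k : ℤ} {E F G L ω ω1 ω2 ζ η : Finset (ℤ × ℤ)}

lemma Ar_sub : Ar c ρ M ⊆ BR c M := sdiff_subset

lemma cap_eq : ζ ∩ L ∩ Ar c ρ M = ζ ∩ (L ∩ Ar c ρ M) := inter_assoc _ _ _

/-- a path which crosses an annulus, general labels -/
lemma cross_gen (h : Co η x v) (hx : inR c ρ x) (hv : Far c M v) (hρM : ρ < M) :
    ∃ p v', Near c ρ p ∧ Far c M v' ∧ Co (η ∩ Ar c ρ M) p v' ∧ Co η x p := by
  have hx' := hx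
  rw [inR_iff] at hx'
  obtain ⟨v', h1, h2⟩ := open_exit h (by rw [abs_lt, abs_lt]; omega : |x.1 - c.1| < M ∧ |x.2 - c.2| < M) hv
  have hv' : ¬ inR c ρ v' := by
    rw [inR_iff]
    rw [le_abs, le_abs] at h1
    omega
  obtain ⟨u', h3, h4⟩ := last_exit h2 hx hv'
  refine ⟨u', v', near_iff.2 h3, h1, h4.mono ?_, ?_⟩
  · intro l hl
    obtain ⟨h5, h6⟩ := mem_sdiff.1 hl
    obtain ⟨h7, h8⟩ := mem_inter.1 h5
    exact mem_inter.2 ⟨h7, mem_sdiff.2 ⟨h8, h6⟩⟩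
  · have h5 : Co η x v' := h2.mono inter_subset_left
    have h6 : Co η u' v' := h4.mono (sdiff_subset.trans inter_subset_left)
    exact h5.trans h6.symm

/-- trivial crossing -/
lemma ARg_triv (h0 : 0 ≤ ρ) (h : M ≤ ρ) : ARg L c ρ M ζ := by
  refine ⟨(c.1 + ρ, c.2), (c.1 + ρ, c.2), ?_, ?_, Co.refl _ _⟩
  · unfold Near; simp only [abs_le]; omega
  · unfold Far; simp only [le_abs]; omega

/-- crossing of an annulus by a class, the path starts inside -/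
lemma ARg_of (h : Co (ζ ∩ L) x v) (h0 : 0 ≤ ρ) (hx : inR c ρ x) (hv : Far c M v) : ARg L c ρ M ζ := by
  by_cases hρM : ρ < M
  · obtain ⟨p, v', h1, h2, h3, -⟩ := cross_gen h hx hv hρM
    rw [cap_eq] at h3
    exact ⟨p, v', h1, h2, h3⟩
  · exact ARg_triv h0 (by omega)

lemma UTg_of (h : Co (ζ ∩ L) x v) (hx : inR c ρ x) (hv : Far c M v) (hρM : ρ < M)
    (hU : Un κ L x0 N x ζ) : UTg κ L x0 N c ρ M ζ := by
  obtain ⟨p, v', h1, h2, h3, h4⟩ := cross_gen h hx hv hρM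
  rw [cap_eq] at h3
  refine ⟨p, v', h1, h2, h3, fun t g1 g2 g3 => hU t g1 g2 ?_⟩
  refine h4.trans (g3.mono ?_)
  rw [← cap_eq]
  exact inter_subset_left

/-! ### locality -/

lemma ARg_loc : Loc E (Ar c ρ M) (ARg L c ρ M) := by
  intro ω _
  unfold ARg
  have : ω ∩ Ar c ρ M ∩ (L ∩ Ar c ρ M) = ω ∩ (L ∩ Ar c ρ M) := by
    ext l; simp only [mem_inter]; tauto
  rw [this]

/-- the vertices of a crossing cluster are at distance `≥ ρ` -/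
lemma far_ver (hρM : ρ < M) (hp : Near c ρ p) (hv : Far c M v) (h : Co (ζ ∩ (L ∩ Ar c ρ M)) p v)
    (hy : Co (ζ ∩ (L ∩ Ar c ρ M)) p y) : ρ ≤ |y.1 - c.1| ∨ ρ ≤ |y.2 - c.2| := by
  have key : ∀ z z', IsUnit4 (z' - z) → z + z' ∈ ζ ∩ (L ∩ Ar c ρ M) →
      (ρ ≤ |z.1 - c.1| ∨ ρ ≤ |z.2 - c.2|) ∧ (ρ ≤ |z'.1 - c.1| ∨ ρ ≤ |z'.2 - c.2|) := by
    intro z z' h1 h2
    obtain ⟨-, h3⟩ := mem_inter.1 h2
    obtain ⟨-, h4⟩ := mem_inter.1 h3
    obtain ⟨-, h5⟩ := mem_sdiff.1 h4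
    have h6 : ¬ (inR c ρ z ∧ inR c ρ z') := fun h7 => h5 (BR_of_ends h1 h7.1 h7.2)
    have h7 := unit_cases h1
    rw [inR_iff, inR_iff] at h6
    simp only [le_abs]
    omega
  have hne : p ≠ v := near_ne_far hρM hp hv
  by_cases hpy : p = y
  · subst hpy
    rcases Relation.ReflTransGen.cases_head h with h1 | ⟨z, h1, -⟩
    · exact absurd h1 hne
    · exact (key p z h1.1 h1.2).1
  · obtain ⟨z, h1, h2, -⟩ := end_in hy hpy
    exact (key z y h1 h2).2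

lemma UTg_loc (hρM : ρ < M) :
    Loc E (Ar c ρ M ∪ TF4 κ x0 N c ρ) (UTg κ L x0 N c ρ M) := by
  intro ω _
  have e1 : ω ∩ (Ar c ρ M ∪ TF4 κ x0 N c ρ) ∩ (L ∩ Ar c ρ M) = ω ∩ (L ∩ Ar c ρ M) := by
    ext l; simp only [mem_inter, mem_union]; tauto
  unfold UTg
  rw [e1]
  refine exists_congr fun p => exists_congr fun v => ?_
  refine and_congr_right fun h1 => and_congr_right fun h2 => and_congr_right fun h3 => ?_
  refine forall_congr' fun t => forall_congr' fun g1 => forall_congr' fun g2 =>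
    forall_congr' fun g3 => ?_
  have h4 := far_ver hρM h1 h2 h3 g3
  have h5 : wp κ x0 t + wp κ x0 t ∈ Ar c ρ M ∪ TF4 κ x0 N c ρ := by
    refine mem_union_right _ (mem_filter.2 ⟨mem_image_of_mem _ (mem_Icc.2 ⟨g1, g2⟩), ?_⟩)
    simp only [Prod.fst_add, Prod.snd_add, le_abs] at h4 ⊢
    omega
  rw [mem_inter]
  tauto

/-! ### probabilities of arms -/

lemma even_Tt {l : ℤ × ℤ} (h : l ∈ Tt κ x0 N) : (l.1 + l.2) % 2 = 0 := by
  unfold Tt at h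
  obtain ⟨t, -, rfl⟩ := mem_image.1 h
  simp only [Prod.fst_add, Prod.snd_add]
  omega

lemma odd_BR {l : ℤ × ℤ} (h : l ∈ BR c ρ) : (l.1 + l.2) % 2 = 1 := by
  unfold BR at h
  exact (mem_Bx.1 h).2.2

/-- one arm, all exponents below `e3` -/
theorem arm_all : ∃ C3 e3 : ℝ, 1 ≤ C3 ∧ 0 < e3 ∧ e3 ≤ 1 ∧ ∀ (κ : ℤ) (L : Finset (ℤ × ℤ)) (x0 : ℤ × ℤ)
    (N : ℤ) (σ : ℝ), 0 ≤ σ → σ ≤ 1 → (∀ l ∈ L, (l.1 + l.2) % 2 = 1) → ∀ e : ℝ, 0 ≤ e → e ≤ e3 →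
    ∀ (c : ℤ × ℤ) (ρ M : ℤ), 1 ≤ ρ → 1 ≤ M →
    PrP (qb σ) (EE κ L x0 N) (ARg L c ρ M) ≤ C3 * ((ρ : ℝ) / M) ^ e := by
  obtain ⟨δ, hδ0, hδ1, hdec⟩ := open_arm_decay
  obtain ⟨α, hα, hpow⟩ := pow_le_rpow (δ := 1 - δ) (by linarith) (by linarith)
  have hinv : 1 ≤ (1 - δ)⁻¹ := by
    rw [one_le_inv₀ (by linarith)]; linarith
  refine ⟨(1 - δ)⁻¹, min α 1, hinv, lt_min hα one_pos, min_le_right _ _, ?_⟩
  intro κ L x0 N σ hσ0 hσ1 hodd e he0 he c ρ M hρ hM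
  have hρ' : (1 : ℝ) ≤ ρ := by exact_mod_cast hρ
  have hM' : (1 : ℝ) ≤ M := by exact_mod_cast hM
  have hpb := qb_pb hσ0 hσ1
  have hx0 : 0 < (ρ : ℝ) / M := by positivity
  by_cases hcase : M ≤ ρ
  · refine (PrP_le_one hpb _ _).trans ?_
    have h1 : (1 : ℝ) ≤ (ρ : ℝ) / M := by
      rw [le_div_iff₀ (by linarith), one_mul]; exact_mod_cast hcase
    have h2 := Real.one_le_rpow h1 he0
    nlinarith
  push Not at hcase
  obtain ⟨k, hk1, hk2⟩ := exists_dyadic4 hρ hcase.le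
  have h1 : PrP (qb σ) (EE κ L x0 N) (ARg L c ρ M) ≤ (1 - δ) ^ k := by
    rw [PrP_loc _ ARg_loc]
    set F : Finset (ℤ × ℤ) := EE κ L x0 N ∩ Ar c ρ M with hF
    have hFodd : ∀ l ∈ F, (l.1 + l.2) % 2 = 1 := fun l hl => odd_BR (Ar_sub (mem_inter.1 hl).2)
    have e1 : PrP (qb σ) F (ARg L c ρ M) = Pr F (ARg L c ρ M) := by
      rw [← PrP_half]
      unfold PrP
      exact Ex_congr_q (fun l hl => by
        unfold qb
        rw [if_pos (hFodd l hl)]) _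
    rw [e1]
    refine le_trans ?_ (hdec F hFodd c ρ hρ k)
    rw [← PrP_half, ← PrP_half]
    refine PrP_mono (fun _ => by norm_num) fun ω _ hω => ?_
    obtain ⟨p, v, g1, g2, g3⟩ := hω
    unfold Near at g1
    unfold Far at g2
    exact ⟨p, v, g1.1, g1.2, by omega, g3.mono inter_subset_left⟩
  have h2 := hpow ((M : ℝ) / ρ) k (by positivity) (by
    rw [div_lt_iff₀ (by positivity)]
    have h7 : (M : ℝ) < 4 * (4 ^ k * ρ) := by exact_mod_cast hk2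
    calc (M : ℝ) < 4 * (4 ^ k * ρ) := h7
      _ = 4 ^ (k + 1) * ρ := by ring)
  refine h1.trans (h2.trans (mul_le_mul_of_nonneg_left ?_ (by linarith)))
  rw [Real.rpow_neg (by positivity), ← Real.inv_rpow (by positivity), inv_div]
  refine Real.rpow_le_rpow_of_exponent_ge hx0 ?_ (he.trans (min_le_left _ _))
  rw [div_le_one (by positivity)]
  exact_mod_cast hcase.le

end Pool.Agent.H59.Q1
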