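import Mathlib
import Pool.Agent.H59.Q1.CornA

set_option autoImplicit false
open Finset

/-!
# The corner zone: probability that an untied macroscopic class enters a small box around an end of the
wall
-/

namespace Pool.Agent.H59.Q1

open Pool.Agent.H75.Perc Pool.Agent.H75.TwoArm Pool.Agent.H75.Four Pool.Agent.H49.Perc
open Pool.Agent.H99.NC Pool.Agent.H60.Q1 Pool.Agent.H20.Q1

/-- an untied class of radius `≥ R` enters the box of radius `ρ1` around the wall point `τ` -/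
def CZ (κ : ℤ) (L : Finset (ℤ × ℤ)) (x0 : ℤ × ℤ) (N τ ρ1 R : ℤ) (ζ : Finset (ℤ × ℤ)) : Prop :=
  ∃ t : ℤ, (0 ≤ t ∧ t ≤ N) ∧ Mc L R (wp κ x0 t) ζ ∧ Un κ L x0 N (wp κ x0 t) ζ ∧
    ∃ p, inR (wp κ x0 τ) ρ1 p ∧ Co (ζ ∩ L) (wp κ x0 t) p

variable {σ : ℝ} {κ s ε : ℤ} {q : ℤ × ℤ → ℝ} {x y z w u v x0 c p : ℤ × ℤ}
  {t t' a b j ρ ρ1 R r m a0 D N n M τ k : ℤ} {E F G L ω ω1 ω2 ζ η : Finset (ℤ × ℤ)}

/-! ### classes -/

lemma Un.trans (h : Un κ L x0 N x ζ) (h' : Co (ζ ∩ L) x y) : Un κ L x0 N y ζ :=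
  fun t g1 g2 g3 => h t g1 g2 (h'.trans g3)

lemma Mc.half (h : Mc L (2 * R) x ζ) (h' : Co (ζ ∩ L) x y) : Mc L R y ζ := by
  obtain ⟨v, h1, h2⟩ := h
  by_cases h3 : Far y R v
  · exact ⟨v, h3, h'.symm.trans h2⟩
  · refine ⟨x, ?_, h'.symm⟩
    unfold Far at h1 h3 ⊢
    rw [le_abs, le_abs] at h1 h3 ⊢
    omega

/-- the extreme contact of a class -/
lemma exists_rep (s : ℤ) (ht : 0 ≤ t ∧ t ≤ N) : ∃ t1, (0 ≤ t1 ∧ t1 ≤ N) ∧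
    Co (ζ ∩ L) (wp κ x0 t) (wp κ x0 t1) ∧ Rep κ L x0 N s t1 ζ := by
  classical
  obtain ⟨t1, h1, h2⟩ := exists_min_image ((Finset.Icc 0 N).filter
    (fun t' => Co (ζ ∩ L) (wp κ x0 t) (wp κ x0 t'))) (fun t' => s * t')
    ⟨t, mem_filter.2 ⟨mem_Icc.2 ht, Co.refl _ _⟩⟩
  rw [mem_filter, mem_Icc] at h1
  refine ⟨t1, h1.1, h1.2, fun t' g1 g2 g3 => ?_⟩
  have h3 := h2 t' (mem_filter.2 ⟨mem_Icc.2 ⟨g1, g2⟩, h1.2.trans g3⟩)
  have : s * (t' - t1) = s * t' - s * t1 := by ring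
  rw [this]
  linarith

/-! ### the three kinds of events -/

/-- first contact near the corner -/
def Ea (κ : ℤ) (L : Finset (ℤ × ℤ)) (x0 : ℤ × ℤ) (N τ s a0 ρ1 D u : ℤ) (ζ : Finset (ℤ × ℤ)) : Prop :=
  Lo κ s (wp κ x0 (τ + s * u)) (u / 8) ζ ∧ (ARg L (wp κ x0 τ) ρ1 (u - u / 8 - 1) ζ ∧
    (ARg L (wp κ x0 τ) (2 * u + 2) (max (2 * u + 2) a0) ζ ∧
      UTg κ L x0 N (wp κ x0 τ) (max (2 * u + 2) a0) (D / 2) ζ))

/-- first contact in the middle -/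
def Eb (κ : ℤ) (L : Finset (ℤ × ℤ)) (x0 : ℤ × ℤ) (τ s ρ1 D t : ℤ) (ζ : Finset (ℤ × ℤ)) : Prop :=
  Lo κ s (wp κ x0 t) (D / 64) ζ ∧ ARg L (wp κ x0 τ) ρ1 (D / 16 - D / 64 - 1) ζ

/-- all contacts near the other corner -/
def Ec (κ : ℤ) (L : Finset (ℤ × ℤ)) (x0 : ℤ × ℤ) (N τ s a0 ρ1 D u : ℤ) (ζ : Finset (ℤ × ℤ)) : Prop :=
  ARg L (wp κ x0 τ) ρ1 (D / 4) ζ ∧ (Lo κ (-s) (wp κ x0 (N - τ - s * u)) (u / 8) ζ ∧
    (ARg L (wp κ x0 (N - τ)) (2 * u + 2) (max (2 * u + 2) a0) ζ ∧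
      UTg κ L x0 N (wp κ x0 (N - τ)) (max (2 * u + 2) a0) (D / 2) ζ))

lemma far_wp (h : k ≤ |t - τ|) : Far (wp κ x0 τ) k (wp κ x0 t) := by
  left
  rw [wp_fst, wp_fst]
  have : x0.1 + t - (x0.1 + τ) = t - τ := by ring
  rw [this]
  exact h

/-- **deterministic part** -/
theorem cz_split (h : Wall κ L x0 N R) (hsτ : (s = 1 ∧ τ = 0) ∨ (s = -1 ∧ τ = N))
    (ha0 : 1 ≤ a0) (hρ : 1 ≤ ρ1) (haρ : a0 ≤ ρ1) (hρD : 16 * ρ1 ≤ D) (hDR : D ≤ R) (hDN : D ≤ N)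
    (hD : 32 ≤ D) (hcz : CZ κ L x0 N τ ρ1 (2 * D) ζ) :
    (∃ u ∈ Finset.Icc 0 (D / 16), Ea κ L x0 N τ s a0 ρ1 D u ζ) ∨
    (∃ t ∈ (Finset.Icc 0 N).filter (fun t => D / 16 < s * (t - τ) ∧ s * (t - τ) ≤ N - D / 16),
      Eb κ L x0 τ s ρ1 D t ζ) ∨
    ∃ u ∈ Finset.Icc 0 (D / 16), Ec κ L x0 N τ s a0 ρ1 D u ζ := by
  have hκ := h.hκ
  obtain ⟨t0, ht0, hM0, hU0, p, hp1, hp2⟩ := hcz
  obtain ⟨t, ht, hc, hrep⟩ := exists_rep (κ := κ) (L := L) (x0 := x0) (ζ := ζ) s ht0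
  have hM := hM0.half hc
  have hU := hU0.trans hc
  have hpx : Co (ζ ∩ L) p (wp κ x0 t) := hp2.symm.trans hc
  have hτ : 0 ≤ τ ∧ τ ≤ N := by omega
  -- reaching far
  have hfar : ∀ {t' τ' : ℤ} {v : ℤ × ℤ}, Far (wp κ x0 t') D v → |t' - τ'| ≤ D / 16 → ∀ M, M ≤ D / 2 →
      Far (wp κ x0 τ') M v := by
    intro t' τ' v h1 h2 M hM'
    have h3 := (wp_dist (κ := κ) (x0 := x0) (t := τ') (t' := t') (r := D / 16) hκ).2 h2
    rw [inR_iff] at h3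
    unfold Far at h1 ⊢
    rw [le_abs, le_abs] at h1 ⊢
    omega
  by_cases h1 : s * (t - τ) ≤ D / 16
  · left
    set u : ℤ := s * (t - τ) with hu
    have hu0 : 0 ≤ u := by
      rw [hu]; rcases hsτ with ⟨rfl, rfl⟩ | ⟨rfl, rfl⟩ <;> omega
    have htu : τ + s * u = t := by
      rw [hu]; rcases hsτ with ⟨rfl, rfl⟩ | ⟨rfl, rfl⟩ <;> ring
    have habs : |t - τ| = u := by
      rw [hu]
      rcases hsτ with ⟨rfl, rfl⟩ | ⟨rfl, rfl⟩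
      · rw [abs_of_nonneg (by omega)]; ring
      · rw [abs_of_nonpos (by omega)]; ring
    clear_value u
    refine ⟨u, mem_Icc.2 ⟨hu0, h1⟩, ?_⟩
    obtain ⟨v, hv1, hv2⟩ := hM
    have hin : ∀ k : ℤ, u ≤ k → inR (wp κ x0 τ) k (wp κ x0 t) := fun k hk => by
      rw [wp_dist hκ, habs]; exact hk
    have hmax : max (2 * u + 2) a0 < D / 2 := by
      rw [max_lt_iff]; omega
    unfold Ea
    rw [htu]
    refine ⟨?_, ?_, ?_, ?_⟩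
    · refine h.lo_of (R := D) (by omega) ?_ ?_ (by omega) (by omega) ⟨v, hv1, hv2⟩ hrep hU
      · rw [← htu]; rcases hsτ with ⟨rfl, rfl⟩ | ⟨rfl, rfl⟩ <;> omega
      · rw [← htu]; rcases hsτ with ⟨rfl, rfl⟩ | ⟨rfl, rfl⟩ <;> omega
    · exact ARg_of hpx (by omega) hp1 (far_wp (by rw [habs]; omega))
    · exact ARg_of hv2 (by omega) (hin _ (by omega)) (hfar hv1 (by rw [habs]; exact h1) _ hmax.le)
    · exact UTg_of hv2 (hin _ (le_trans (by omega) (le_max_left _ _)))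
        (hfar hv1 (by rw [habs]; exact h1) _ le_rfl) hmax hU
  push Not at h1
  right
  by_cases h2 : s * (t - τ) ≤ N - D / 16
  · left
    have ht1 : D / 16 ≤ t ∧ t + D / 16 ≤ N := by
      rcases hsτ with ⟨rfl, rfl⟩ | ⟨rfl, rfl⟩ <;> omega
    refine ⟨t, mem_filter.2 ⟨mem_Icc.2 ht, h1, h2⟩, ?_⟩
    refine ⟨h.lo_of (R := D) (by omega) (by omega) (by omega) (by omega) (by omega) hM hrep hU, ?_⟩
    refine ARg_of hpx (by omega) hp1 (far_wp ?_)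
    rcases hsτ with ⟨rfl, rfl⟩ | ⟨rfl, rfl⟩
    · rw [le_abs]; omega
    · rw [le_abs]; omega
  · right
    push Not at h2
    obtain ⟨t2, ht2, hc2, hrep2⟩ := exists_rep (κ := κ) (L := L) (x0 := x0) (ζ := ζ) (-s) ht0
    have hM2 := hM0.half hc2
    have hU2 := hU0.trans hc2
    have hpx2 : Co (ζ ∩ L) p (wp κ x0 t2) := hp2.symm.trans hc2
    have h3 := hrep t2 ht2.1 ht2.2 (hc.symm.trans hc2)
    set u : ℤ := s * (N - τ - t2) with hu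
    have hu0 : 0 ≤ u := by
      rw [hu]; rcases hsτ with ⟨rfl, rfl⟩ | ⟨rfl, rfl⟩ <;> omega
    have hu1 : u ≤ D / 16 := by
      rw [hu]; rcases hsτ with ⟨rfl, rfl⟩ | ⟨rfl, rfl⟩ <;> omega
    have htu : N - τ - s * u = t2 := by
      rw [hu]; rcases hsτ with ⟨rfl, rfl⟩ | ⟨rfl, rfl⟩ <;> ring
    have habs : |t2 - (N - τ)| = u := by
      rw [hu]
      rcases hsτ with ⟨rfl, rfl⟩ | ⟨rfl, rfl⟩
      · rw [abs_of_nonpos (by omega)]; ring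
      · rw [abs_of_nonneg (by omega)]; ring
    clear_value u
    refine ⟨u, mem_Icc.2 ⟨hu0, hu1⟩, ?_⟩
    obtain ⟨v, hv1, hv2⟩ := hM2
    have hin : ∀ k : ℤ, u ≤ k → inR (wp κ x0 (N - τ)) k (wp κ x0 t2) := fun k hk => by
      rw [wp_dist hκ, habs]; exact hk
    have hmax : max (2 * u + 2) a0 < D / 2 := by
      rw [max_lt_iff]; omega
    unfold Ec
    rw [htu]
    refine ⟨?_, ?_, ?_, ?_⟩
    · refine ARg_of hpx2 (by omega) hp1 (far_wp ?_)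
      rcases hsτ with ⟨rfl, rfl⟩ | ⟨rfl, rfl⟩
      · rw [le_abs]; omega
      · rw [le_abs]; omega
    · refine h.lo_of (R := D) (by omega) ?_ ?_ (by omega) (by omega) ⟨v, hv1, hv2⟩ hrep2 hU2
      · rw [← htu]; rcases hsτ with ⟨rfl, rfl⟩ | ⟨rfl, rfl⟩ <;> omega
      · rw [← htu]; rcases hsτ with ⟨rfl, rfl⟩ | ⟨rfl, rfl⟩ <;> omega
    · exact ARg_of hv2 (by omega) (hin _ (by omega)) (hfar hv1 (by rw [habs]; exact hu1) _ hmax.le)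
    · exact UTg_of hv2 (hin _ (le_trans (by omega) (le_max_left _ _)))
        (hfar hv1 (by rw [habs]; exact hu1) _ le_rfl) hmax hU2

end Pool.Agent.H59.Q1
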