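import Mathlib
import Pool.Agent.H59.Q1.WallP
import Pool.Agent.H59.Q1.MassPlain

set_option autoImplicit false
open Finset

/-!
# Two untied classes whose first contacts are flat points: sums

`pS_bd` : `pS r ≤ C / (r+1)` and `≤ C a0 / (r+1)^2`. `flat_pairs` : probability that there are two distinct
untied classes with flat first contacts.
-/

namespace Pool.Agent.H59.Q1

open Pool.Agent.H75.Perc Pool.Agent.H75.TwoArm Pool.Agent.H75.Four Pool.Agent.H49.Perc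
open Pool.Agent.H99.NC Pool.Agent.H60.Q1 Pool.Agent.H20.Q1

variable {σ : ℝ} {κ s ε : ℤ} {q : ℤ × ℤ → ℝ} {x y z w u v x0 : ℤ × ℤ}
  {t t' a b j ρ R r m a0 D N n : ℤ} {E F G L ω ω1 ω2 ζ : Finset (ℤ × ℤ)}
  {A B : Finset (ℤ × ℤ) → Prop}

/-! ### elementary sums -/

lemma rpow_step {β : ℝ} (h0 : 0 < β) (h1 : β ≤ 1) (n : ℕ) :
    ((n : ℝ) + 1) ^ (β - 1) ≤ (((n : ℝ) + 1) ^ β - (n : ℝ) ^ β) / β := by
  have hn : (0 : ℝ) < (n : ℝ) + 1 := by positivity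
  rw [le_div_iff₀ h0]
  have h2 : (-1 : ℝ) ≤ -(1 / ((n : ℝ) + 1)) := by
    rw [neg_le_neg_iff, div_le_one hn]
    have : (0 : ℝ) ≤ n := Nat.cast_nonneg n
    linarith
  have h3 := rpow_one_add_le_one_add_mul_self h2 h0.le h1
  have h4 : 1 + -(1 / ((n : ℝ) + 1)) = (n : ℝ) / (n + 1) := by field_simp; ring
  rw [h4, Real.div_rpow (Nat.cast_nonneg n) hn.le] at h3
  have h5 : 0 < ((n : ℝ) + 1) ^ β := Real.rpow_pos_of_pos hn _
  rw [div_le_iff₀ h5] at h3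
  rw [Real.rpow_sub_one hn.ne']
  have e : (1 + β * -(1 / ((n : ℝ) + 1))) * ((n : ℝ) + 1) ^ β =
      ((n : ℝ) + 1) ^ β - ((n : ℝ) + 1) ^ β / (n + 1) * β := by field_simp; ring
  rw [e] at h3
  linarith

lemma sum_rpow {β : ℝ} (h0 : 0 < β) (h1 : β ≤ 1) (n : ℕ) :
    ∑ j ∈ range n, ((j : ℝ) + 1) ^ (β - 1) ≤ (n : ℝ) ^ β / β := by
  induction n with
  | zero => simp [Real.zero_rpow h0.ne']
  | succ n ih =>
    rw [sum_range_succ]
    have h2 := rpow_step h0 h1 n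
    push_cast
    calc _ ≤ (n : ℝ) ^ β / β + (((n : ℝ) + 1) ^ β - (n : ℝ) ^ β) / β := add_le_add ih h2
      _ = _ := by ring

lemma sum_rpow_Icc {β : ℝ} (h0 : 0 < β) (h1 : β ≤ 1) (hn : 0 ≤ n) :
    ∑ j ∈ Finset.Icc 1 n, (j : ℝ) ^ (β - 1) ≤ (n : ℝ) ^ β / β := by
  have h2 := sum_rpow h0 h1 n.toNat
  have e1 : ((n.toNat : ℕ) : ℝ) = (n : ℝ) := by
    have : ((n.toNat : ℕ) : ℤ) = n := Int.toNat_of_nonneg hn
    exact_mod_cast this
  rw [e1] at h2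
  refine le_trans (le_of_eq ?_) h2
  refine sum_bij' (fun j _ => (j - 1).toNat) (fun k _ => (k : ℤ) + 1) ?_ ?_ ?_ ?_ ?_
  · intro j hj
    rw [mem_Icc] at hj
    rw [mem_range]
    omega
  · intro k hk
    rw [mem_range] at hk
    rw [mem_Icc]
    omega
  · intro j hj
    rw [mem_Icc] at hj
    omega
  · intro k _
    omega
  · intro j hj
    rw [mem_Icc] at hj
    congr 1
    have h3 : (((j - 1).toNat : ℕ) : ℤ) = j - 1 := Int.toNat_of_nonneg (by omega)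
    have h4 : (((j - 1).toNat : ℕ) : ℝ) = (j : ℝ) - 1 := by
      have : ((((j - 1).toNat : ℕ) : ℤ) : ℝ) = ((j - 1 : ℤ) : ℝ) := by rw [h3]
      push_cast at this
      exact this
    rw [h4]
    ring

/-! ### the mass -/

/-- the extreme contact gives two arms -/
lemma X2_of_Sd (hr : 2 ≤ r) (h : Sd κ 1 x r ω) : X2 κ x 1 r (-1) ω := by
  obtain ⟨u, v, h1, h2, h3, h4⟩ := Pool.Agent.Q1.M6e.arm_split (ρ := 1) (by omega) (by omega) h.1
  refine ⟨u, v, h1, h2, h3, ?_⟩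
  rintro ⟨w, h5, h6⟩
  have h7 : w ∈ CC κ x r ω := by
    refine ⟨h5.1.1, h4.trans (h6.symm.mono ?_)⟩
    exact inter_subset_inter_left AL_sub_HL
  have h8 := h.2 w h7
  have h9 := h5.1.2
  omega

/-- **uniform bounds for the mass** -/
theorem pS_bd : ∃ K C : ℝ, 0 < K ∧ 1 ≤ C ∧ ∀ κ : ℤ, (κ = 0 ∨ κ = 1) → ∀ s : ℤ, (s = 1 ∨ s = -1) →
    ∀ σ : ℝ, 1 / 4 ≤ σ → σ < 1 → ∀ a0 : ℤ, 2 ≤ a0 → K ≤ (1 - σ) ^ ((3 : ℝ) / 2) * a0 →
    ∀ r : ℤ, 0 ≤ r → pS σ κ s r * (r + 1) ≤ C ∧ pS σ κ s r * ((r : ℝ) + 1) ^ 2 ≤ C * a0 := by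
  obtain ⟨K, C1, hK, hC1, hmass⟩ := mass_le
  obtain ⟨C2, hC2, hX2⟩ := half_X2
  refine ⟨K, 4 * C1 + 2 * C2 + 2, hK, by linarith, fun κ hκ s hs σ hσ1 hσ2 a0 ha0 hK1 r hr => ?_⟩
  have hr' : (0 : ℝ) ≤ r := by exact_mod_cast hr
  have ha0' : (2 : ℝ) ≤ a0 := by exact_mod_cast ha0
  have hp0 : 0 ≤ pS σ κ s r := pS_nonneg (by linarith)
  have hone : pS σ κ s r * (r + 1) ≤ 2 * C2 + 2 := by
    by_cases h2 : r < 2
    · have h3 : (r : ℝ) + 1 ≤ 2 := by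
        have : r ≤ 1 := by omega
        have : (r : ℝ) ≤ 1 := by exact_mod_cast this
        linarith
      have h4 := pS_le_one (κ := κ) (s := s) (R := r) (by linarith : 0 ≤ σ) hσ2.le
      nlinarith
    · push Not at h2
      have h2' : (2 : ℝ) ≤ r := by exact_mod_cast h2
      have e : pS σ κ s r = pS σ κ 1 r := by
        rcases hs with rfl | rfl
        · rfl
        · exact pS_neg hκ
      rw [e]
      have h3 : pS σ κ 1 r ≤ C2 * ((1 : ℤ) : ℝ) / r := by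
        have h4 := hX2 κ hκ (-1) (Or.inr rfl) 0 1 r le_rfl (by omega) (HL κ 0 r) AL_sub_HL
        refine le_trans ?_ h4
        unfold pS
        rw [← PrP_half]
        refine Ex_mono hf_pb fun ω _ => ?_
        exact (gS_le_ind (by linarith) hσ2.le).trans (ind_mono fun h => X2_of_Sd h2 h)
      rw [Int.cast_one, mul_one] at h3
      have h5 : pS σ κ 1 r * (r + 1) ≤ C2 / r * (r + 1) :=
        mul_le_mul_of_nonneg_right h3 (by linarith)
      refine h5.trans ?_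
      rw [div_mul_eq_mul_div, div_le_iff₀ (by linarith)]
      nlinarith
  refine ⟨by linarith, ?_⟩
  by_cases hra : r < a0
  · have h3 : (r : ℝ) + 1 ≤ a0 := by exact_mod_cast hra
    calc pS σ κ s r * ((r : ℝ) + 1) ^ 2 = pS σ κ s r * (r + 1) * (r + 1) := by ring
      _ ≤ (2 * C2 + 2) * a0 := mul_le_mul hone h3 (by linarith) (by linarith)
      _ ≤ _ := mul_le_mul_of_nonneg_right (by linarith) (by linarith)
  · push Not at hra
    have h3 := hmass κ hκ s hs σ hσ1 hσ2 a0 ha0 hK1 r hra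
    have hr2 : (2 : ℝ) ≤ r := by
      have : (a0 : ℝ) ≤ r := by exact_mod_cast hra
      linarith
    have h4 : ((r : ℝ) + 1) ^ 2 ≤ 4 * (r : ℝ) ^ 2 := by nlinarith
    have h5 : 0 < (r : ℝ) ^ 2 := by positivity
    calc pS σ κ s r * ((r : ℝ) + 1) ^ 2 ≤ C1 * a0 / (r : ℝ) ^ 2 * (4 * (r : ℝ) ^ 2) :=
          mul_le_mul h3 h4 (by positivity) (by positivity)
      _ = 4 * C1 * a0 := by field_simp
      _ ≤ _ := mul_le_mul_of_nonneg_right (by linarith) (by linarith)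

/-- interpolation -/
lemma pS_theta {C θ : ℝ} {p : ℝ} {α r1 : ℝ} (hC : 0 ≤ C) (hr : 0 < r1) (hα : 0 < α)
    (h1 : p * r1 ≤ C) (h2 : p * r1 ^ 2 ≤ C * α) (hθ0 : 0 ≤ θ) (hθ1 : θ ≤ 1) :
    p ≤ C * r1⁻¹ * (α / r1) ^ θ := by
  by_cases hcase : r1 ≤ α
  · have h3 : 1 ≤ (α / r1) ^ θ := Real.one_le_rpow (by rw [le_div_iff₀ hr]; linarith) hθ0
    have h4 : p ≤ C * r1⁻¹ := by
      rw [← div_eq_mul_inv, le_div_iff₀ hr]; exact h1
    have h5 : 0 ≤ C * r1⁻¹ := by positivity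
    nlinarith
  · push Not at hcase
    have h3 : α / r1 ≤ (α / r1) ^ θ := by
      have := Real.rpow_le_rpow_of_exponent_ge (by positivity : 0 < α / r1)
        ((div_le_one hr).2 hcase.le) hθ1
      rwa [Real.rpow_one] at this
    have h4 : p ≤ C * r1⁻¹ * (α / r1) := by
      have e : C * r1⁻¹ * (α / r1) = C * α / r1 ^ 2 := by field_simp
      rw [e, le_div_iff₀ (by positivity)]
      exact h2
    exact h4.trans (mul_le_mul_of_nonneg_left h3 (by positivity))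

end Pool.Agent.H59.Q1
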