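import Mathlib
import Pool.Agent.H59.Q1.CornZ
import Pool.Agent.H59.Q1.PairS

set_option autoImplicit false
open Finset

/-!
# The corner zone: probability
-/

namespace Pool.Agent.H59.Q1

open Pool.Agent.H75.Perc Pool.Agent.H75.TwoArm Pool.Agent.H75.Four Pool.Agent.H49.Perc
open Pool.Agent.H99.NC Pool.Agent.H60.Q1 Pool.Agent.H20.Q1

variable {σ : ℝ} {κ s ε : ℤ} {q : ℤ × ℤ → ℝ} {x y z w v x0 c p : ℤ × ℤ}
  {t t' a b j ρ ρ1 R r m a0 D N n M τ k u : ℤ} {E F G L ω ω1 ω2 ζ η : Finset (ℤ × ℤ)}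

/-! ### disjoint regions -/

lemma Fb_Ar_in (h : M + r < |x.1 - c.1| ∨ M + r < |x.2 - c.2|) : Disjoint (Fb x r) (Ar c ρ M) := by
  rw [disjoint_left]
  intro l h1 h2
  have h3 := Ar_sub h2
  unfold BR at h3
  rw [mem_Bx] at h3
  rw [mem_Fb] at h1
  rw [lt_abs, lt_abs] at h
  omega

lemma Fb_Ar_out (h : inR c (ρ - r) x) : Disjoint (Fb x r) (Ar c ρ M) := by
  rw [disjoint_left]
  intro l h1 h2
  have h3 := odd_BR (Ar_sub h2)
  apply (mem_sdiff.1 h2).2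
  unfold BR
  rw [mem_Bx]
  rw [mem_Fb] at h1
  rw [inR_iff] at h
  omega

lemma Fb_TF (h : inR c (ρ - r - 1) x) : Disjoint (Fb x r) (TF4 κ x0 N c ρ) := by
  rw [disjoint_left]
  intro l h1 h2
  have h3 := (mem_filter.1 h2).2
  rw [mem_Fb] at h1
  rw [inR_iff] at h
  rw [le_abs, le_abs] at h3
  omega

lemma Ar_TF : Disjoint (Ar c ρ M) (TF4 κ x0 N y R) := by
  rw [disjoint_left]
  intro l h1 h2
  have h3 := odd_BR (Ar_sub h1)
  have h4 := even_Tt (mem_filter.1 h2).1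
  omega

lemma Ar_Ar (h : M ≤ ρ) : Disjoint (Ar c j M) (Ar c ρ R) := by
  rw [disjoint_left]
  intro l h1 h2
  exact (mem_sdiff.1 h2).2 (BR_mono h (Ar_sub h1))

lemma Ar_Ar2 (h : M + R < |c.1 - x.1| ∨ M + R < |c.2 - x.2|) : Disjoint (Ar c j M) (Ar x ρ R) := by
  rw [disjoint_left]
  intro l h1 h2
  have h3 := Ar_sub h1
  have h4 := Ar_sub h2
  unfold BR at h3 h4
  rw [mem_Bx] at h3 h4
  rw [lt_abs, lt_abs] at h
  omega

lemma dis {E A B : Finset (ℤ × ℤ)} (h : Disjoint A B) : Disjoint (E ∩ A) (E ∩ B) :=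
  Disjoint.mono inter_subset_right inter_subset_right h

/-! ### real bounds -/

/-- the three factors of `Ea`, without the arm towards the corner -/
lemma q_alg {C0 C3 A α κ0 p1 p3 p4 u1 a d : ℝ} (hC0 : 1 ≤ C0) (hC3 : 1 ≤ C3) (hA : 0 < A)
    (hκ0 : 0 < κ0) (hκ1 : κ0 ≤ 1) (hκα : κ0 ≤ α) (hu1 : 1 ≤ u1) (ha : 2 ≤ a) (hd : a ≤ d) (hud : u1 ≤ d)
    (hp1 : 0 ≤ p1) (hp3 : 0 ≤ p3) (hp4 : 0 ≤ p4)
    (h1 : p1 * u1 ≤ 8 * C0) (h2 : p1 * u1 ^ 2 ≤ 64 * C0 * a) (hp31 : p3 ≤ 1)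
    (h3 : a ≤ 2 * u1 ∨ p3 ≤ C3 * (2 * u1 / a) ^ κ0)
    (h4 : (a ≤ 2 * u1 → p4 ≤ A * (8 * u1 / d) ^ (1 + α)) ∧
      (2 * u1 < a → p4 ≤ A * (4 * a / d) ^ (1 + α))) :
    p1 * (p3 * p4) ≤ 512 * C0 * C3 * A * 8 ^ (1 + α) * ((a / d) * (d ^ κ0)⁻¹ * u1 ^ (κ0 - 1)) := by
  have hα : 0 < α := lt_of_lt_of_le hκ0 hκα
  have hd0 : 0 < d := by linarith
  have hu0 : 0 < u1 := by linarith
  have ha0 : 0 < a := by linarith
  have e0 : u1 ^ (κ0 - 1) = u1 ^ κ0 / u1 := Real.rpow_sub_one hu0.ne' _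
  have h8 : (4 : ℝ) ^ (1 + α) ≤ 8 ^ (1 + α) := Real.rpow_le_rpow (by norm_num) (by norm_num) (by linarith)
  have h8' : (0 : ℝ) < 8 ^ (1 + α) := by positivity
  have hX : 0 < u1 ^ κ0 := Real.rpow_pos_of_pos hu0 _
  have hY : 0 < d ^ κ0 := Real.rpow_pos_of_pos hd0 _
  by_cases hcase : a ≤ 2 * u1
  · have g4 := h4.1 hcase
    have g1 : p1 ≤ 64 * C0 * a / u1 ^ 2 := by
      rw [le_div_iff₀ (by positivity)]; exact h2
    have g5 : (8 * u1 / d) ^ (1 + α) ≤ 8 ^ (1 + α) * ((u1 / d) * (u1 ^ κ0 / d ^ κ0)) := by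
      have e1 : 8 * u1 / d = 8 * (u1 / d) := by ring
      rw [e1, Real.mul_rpow (by norm_num) (by positivity)]
      refine mul_le_mul_of_nonneg_left ?_ h8'.le
      rw [Real.rpow_add (by positivity), Real.rpow_one, ← Real.div_rpow hu0.le hd0.le]
      refine mul_le_mul_of_nonneg_left ?_ (by positivity)
      exact Real.rpow_le_rpow_of_exponent_ge (by positivity) ((div_le_one hd0).2 hud) hκα
    have g6 : p3 * p4 ≤ A * (8 ^ (1 + α) * ((u1 / d) * (u1 ^ κ0 / d ^ κ0))) := by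
      calc p3 * p4 ≤ 1 * p4 := mul_le_mul_of_nonneg_right hp31 hp4
        _ = p4 := one_mul _
        _ ≤ _ := g4.trans (mul_le_mul_of_nonneg_left g5 hA.le)
    calc p1 * (p3 * p4) ≤ (64 * C0 * a / u1 ^ 2) * (A * (8 ^ (1 + α) * ((u1 / d) * (u1 ^ κ0 / d ^ κ0)))) :=
          mul_le_mul g1 g6 (by positivity) (by positivity)
      _ = 64 * C0 * 1 * A * 8 ^ (1 + α) * ((a / d) * (d ^ κ0)⁻¹ * (u1 ^ κ0 / u1)) := by
          field_simp
      _ ≤ 512 * C0 * C3 * A * 8 ^ (1 + α) * ((a / d) * (d ^ κ0)⁻¹ * (u1 ^ κ0 / u1)) := by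
          refine mul_le_mul_of_nonneg_right ?_ (by positivity)
          refine mul_le_mul_of_nonneg_right ?_ (by positivity)
          refine mul_le_mul_of_nonneg_right ?_ hA.le
          exact mul_le_mul (by linarith) hC3 (by norm_num) (by positivity)
      _ = _ := by rw [e0]
  · push Not at hcase
    have g4 := h4.2 hcase
    have g3 : p3 ≤ C3 * (2 * u1 / a) ^ κ0 := by
      rcases h3 with h3 | h3
      · linarith
      · exact h3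
    have g1 : p1 ≤ 8 * C0 / u1 := by
      rw [le_div_iff₀ (by positivity)]; exact h1
    have g5 : (4 * a / d) ^ (1 + α) ≤ 8 ^ (1 + α) * ((a / d) * (a ^ κ0 / d ^ κ0)) := by
      have e1 : 4 * a / d = 4 * (a / d) := by ring
      rw [e1, Real.mul_rpow (by norm_num) (by positivity)]
      refine mul_le_mul h8 ?_ (by positivity) h8'.le
      rw [Real.rpow_add (by positivity), Real.rpow_one, ← Real.div_rpow ha0.le hd0.le]
      refine mul_le_mul_of_nonneg_left ?_ (by positivity)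
      exact Real.rpow_le_rpow_of_exponent_ge (by positivity) ((div_le_one hd0).2 hd) hκα
    have hZ : 0 < a ^ κ0 := Real.rpow_pos_of_pos ha0 _
    have h22 : (2 : ℝ) ^ κ0 ≤ 2 := by
      calc (2 : ℝ) ^ κ0 ≤ 2 ^ (1 : ℝ) := Real.rpow_le_rpow_of_exponent_le (by norm_num) hκ1
        _ = 2 := Real.rpow_one 2
    have g7 : (2 * u1 / a) ^ κ0 ≤ 2 * (u1 ^ κ0 / a ^ κ0) := by
      rw [Real.div_rpow (by positivity) ha0.le, Real.mul_rpow (by norm_num) hu0.le, mul_div_assoc]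
      exact mul_le_mul_of_nonneg_right h22 (by positivity)
    have g8 : p3 * p4 ≤ (C3 * (2 * (u1 ^ κ0 / a ^ κ0))) *
        (A * (8 ^ (1 + α) * ((a / d) * (a ^ κ0 / d ^ κ0)))) :=
      mul_le_mul (g3.trans (mul_le_mul_of_nonneg_left g7 (by linarith)))
        (g4.trans (mul_le_mul_of_nonneg_left g5 hA.le)) hp4 (by positivity)
    calc p1 * (p3 * p4) ≤ (8 * C0 / u1) * ((C3 * (2 * (u1 ^ κ0 / a ^ κ0))) *
        (A * (8 ^ (1 + α) * ((a / d) * (a ^ κ0 / d ^ κ0))))) :=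
          mul_le_mul g1 g8 (by positivity) (by positivity)
      _ = 16 * C0 * C3 * A * 8 ^ (1 + α) * ((a / d) * (d ^ κ0)⁻¹ * (u1 ^ κ0 / u1)) := by
          field_simp
          ring
      _ ≤ 512 * C0 * C3 * A * 8 ^ (1 + α) * ((a / d) * (d ^ κ0)⁻¹ * (u1 ^ κ0 / u1)) := by
          refine mul_le_mul_of_nonneg_right ?_ (by positivity)
          refine mul_le_mul_of_nonneg_right ?_ (by positivity)
          refine mul_le_mul_of_nonneg_right ?_ hA.le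
          exact mul_le_mul_of_nonneg_right (by linarith) (by linarith)
      _ = _ := by rw [e0]

/-! ### products -/

/-- last factors -/
lemma prob_tail (hκ : κ = 0 ∨ κ = 1) (hsx : ∃ t', x = wp κ x0 t' ∧ |t' - τ| = u) (hu : 0 ≤ u)
    (hM : max (2 * u + 2) a0 < M) :
    PrP (qb σ) (EE κ L x0 N) (fun ζ => Lo κ s x (u / 8) ζ ∧
      (ARg L (wp κ x0 τ) (2 * u + 2) (max (2 * u + 2) a0) ζ ∧
        UTg κ L x0 N (wp κ x0 τ) (max (2 * u + 2) a0) M ζ)) =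
      PrP (qb σ) (EE κ L x0 N) (Lo κ s x (u / 8)) *
      (PrP (qb σ) (EE κ L x0 N) (ARg L (wp κ x0 τ) (2 * u + 2) (max (2 * u + 2) a0)) *
        PrP (qb σ) (EE κ L x0 N) (UTg κ L x0 N (wp κ x0 τ) (max (2 * u + 2) a0) M)) := by
  obtain ⟨t', rfl, ht'⟩ := hsx
  set c := wp κ x0 τ with hc
  set s0 := max (2 * u + 2) a0 with hs0
  have hs : 2 * u + 2 ≤ s0 := le_max_left _ _
  have hin : ∀ k : ℤ, u ≤ k → inR c k (wp κ x0 t') := fun k hk => by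
    rw [hc, wp_dist hκ, ht']; exact hk
  have hL1 : Loc (EE κ L x0 N) (Fb (wp κ x0 t') (u / 8)) (Lo κ s (wp κ x0 t') (u / 8)) :=
    Lo_loc hκ (by omega)
  have hL2 : Loc (EE κ L x0 N) (Ar c (2 * u + 2) s0) (ARg L c (2 * u + 2) s0) := ARg_loc
  have hL3 : Loc (EE κ L x0 N) (Ar c s0 M ∪ TF4 κ x0 N c s0) (UTg κ L x0 N c s0 M) :=
    UTg_loc hM
  rw [PrP_ind (qb σ) hL1 (hL2.and hL3) (dis ?_), PrP_ind (qb σ) hL2 hL3 (dis ?_)]
  · rw [disjoint_union_right]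
    exact ⟨Ar_Ar le_rfl, Ar_TF⟩
  · rw [disjoint_union_right, disjoint_union_right]
    exact ⟨Fb_Ar_out (hin _ (by omega)), Fb_Ar_out (hin _ (by omega)), Fb_TF (hin _ (by omega))⟩

lemma prob_Ea (h : Wall κ L x0 N R) (hsτ : (s = 1 ∧ τ = 0) ∨ (s = -1 ∧ τ = N))
    (hu : 0 ≤ u) (huN : 2 * u ≤ N) (huR : u ≤ R) (hM : max (2 * u + 2) a0 < D / 2) :
    PrP (qb σ) (EE κ L x0 N) (Ea κ L x0 N τ s a0 ρ1 D u) =
      PrP (qb σ) (EE κ L x0 N) (ARg L (wp κ x0 τ) ρ1 (u - u / 8 - 1)) * (pS σ κ s (u / 8) *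
      (PrP (qb σ) (EE κ L x0 N) (ARg L (wp κ x0 τ) (2 * u + 2) (max (2 * u + 2) a0)) *
        PrP (qb σ) (EE κ L x0 N) (UTg κ L x0 N (wp κ x0 τ) (max (2 * u + 2) a0) (D / 2)))) := by
  have hκ := h.hκ
  set t' := τ + s * u with ht'
  have habs : |t' - τ| = u := by
    rw [ht']
    rcases hsτ with ⟨g1, g2⟩ | ⟨g1, g2⟩ <;> rw [g1, g2]
    · rw [show (0 : ℤ) + 1 * u - 0 = u by ring, abs_of_nonneg hu]
    · rw [show N + -1 * u - N = -u by ring, abs_neg, abs_of_nonneg hu]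
  have ht1 : u ≤ t' ∧ t' + u ≤ N := by
    rw [ht']
    rcases hsτ with ⟨g1, g2⟩ | ⟨g1, g2⟩ <;> rw [g1, g2] <;> omega
  set c := wp κ x0 τ with hc
  set s0 := max (2 * u + 2) a0 with hs0
  have hs : 2 * u + 2 ≤ s0 := le_max_left _ _
  have hin : ∀ k : ℤ, u ≤ k → inR c k (wp κ x0 t') := fun k hk => by
    rw [hc, wp_dist hκ, habs]; exact hk
  have hL1 : Loc (EE κ L x0 N) (Fb (wp κ x0 t') (u / 8)) (Lo κ s (wp κ x0 t') (u / 8)) :=
    Lo_loc hκ (by omega)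
  have hL0 : Loc (EE κ L x0 N) (Ar c ρ1 (u - u / 8 - 1)) (ARg L c ρ1 (u - u / 8 - 1)) := ARg_loc
  have hL2 : Loc (EE κ L x0 N) (Ar c (2 * u + 2) s0) (ARg L c (2 * u + 2) s0) := ARg_loc
  have hL3 : Loc (EE κ L x0 N) (Ar c s0 (D / 2) ∪ TF4 κ x0 N c s0) (UTg κ L x0 N c s0 (D / 2)) :=
    UTg_loc hM
  have e : PrP (qb σ) (EE κ L x0 N) (Ea κ L x0 N τ s a0 ρ1 D u) =
      PrP (qb σ) (EE κ L x0 N) (fun ζ => ARg L c ρ1 (u - u / 8 - 1) ζ ∧
        (Lo κ s (wp κ x0 t') (u / 8) ζ ∧ (ARg L c (2 * u + 2) s0 ζ ∧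
          UTg κ L x0 N c s0 (D / 2) ζ))) := by
    refine PrP_congr fun ω _ => ?_
    unfold Ea
    tauto
  rw [e, PrP_ind (qb σ) hL0 (hL1.and (hL2.and hL3)) (dis ?_),
    prob_tail hκ ⟨t', rfl, habs⟩ hu hM, h.prob_Lo (by omega) (by omega) (by omega) (by omega)]
  rw [disjoint_union_right, disjoint_union_right, disjoint_union_right]
  refine ⟨?_, Ar_Ar (by omega), Ar_Ar (by omega), Ar_TF⟩
  refine (Fb_Ar_in ?_).symm
  left
  rw [hc, wp_fst, wp_fst, show x0.1 + t' - (x0.1 + τ) = t' - τ by ring, habs]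
  omega

lemma prob_Ec (h : Wall κ L x0 N R) (hsτ : (s = 1 ∧ τ = 0) ∨ (s = -1 ∧ τ = N))
    (hu : 0 ≤ u) (huN : 2 * u ≤ N) (huR : u ≤ R) (hM : max (2 * u + 2) a0 < D / 2) (hDN : D ≤ N) :
    PrP (qb σ) (EE κ L x0 N) (Ec κ L x0 N τ s a0 ρ1 D u) =
      PrP (qb σ) (EE κ L x0 N) (ARg L (wp κ x0 τ) ρ1 (D / 4)) * (pS σ κ (-s) (u / 8) *
      (PrP (qb σ) (EE κ L x0 N) (ARg L (wp κ x0 (N - τ)) (2 * u + 2) (max (2 * u + 2) a0)) *
        PrP (qb σ) (EE κ L x0 N)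
          (UTg κ L x0 N (wp κ x0 (N - τ)) (max (2 * u + 2) a0) (D / 2)))) := by
  have hκ := h.hκ
  set t' := N - τ - s * u with ht'
  have habs : |t' - (N - τ)| = u := by
    rw [ht']
    rcases hsτ with ⟨g1, g2⟩ | ⟨g1, g2⟩ <;> rw [g1, g2]
    · rw [show N - 0 - 1 * u - (N - 0) = -u by ring, abs_neg, abs_of_nonneg hu]
    · rw [show N - N - -1 * u - (N - N) = u by ring, abs_of_nonneg hu]
  have ht1 : u ≤ t' ∧ t' + u ≤ N := by
    rw [ht']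
    rcases hsτ with ⟨g1, g2⟩ | ⟨g1, g2⟩ <;> rw [g1, g2] <;> omega
  set c := wp κ x0 τ with hc
  set c' := wp κ x0 (N - τ) with hc'
  set s0 := max (2 * u + 2) a0 with hs0
  have hs : 2 * u + 2 ≤ s0 := le_max_left _ _
  have hcc : |c.1 - c'.1| = N := by
    rw [hc, hc', wp_fst, wp_fst]
    rcases hsτ with ⟨g1, g2⟩ | ⟨g1, g2⟩ <;> rw [g2]
    · rw [show x0.1 + 0 - (x0.1 + (N - 0)) = -N by ring, abs_neg, abs_of_nonneg (by omega)]
    · rw [show x0.1 + N - (x0.1 + (N - N)) = N by ring, abs_of_nonneg (by omega)]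
  have htc : |(wp κ x0 t').1 - c.1| = N - u := by
    rw [hc, wp_fst, wp_fst, ht']
    rcases hsτ with ⟨g1, g2⟩ | ⟨g1, g2⟩ <;> rw [g1, g2]
    · rw [show x0.1 + (N - 0 - 1 * u) - (x0.1 + 0) = N - u by ring, abs_of_nonneg (by omega)]
    · rw [show x0.1 + (N - N - -1 * u) - (x0.1 + N) = -(N - u) by ring, abs_neg,
        abs_of_nonneg (by omega)]
  have hL1 : Loc (EE κ L x0 N) (Fb (wp κ x0 t') (u / 8)) (Lo κ (-s) (wp κ x0 t') (u / 8)) :=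
    Lo_loc hκ (by omega)
  have hL0 : Loc (EE κ L x0 N) (Ar c ρ1 (D / 4)) (ARg L c ρ1 (D / 4)) := ARg_loc
  have hL2 : Loc (EE κ L x0 N) (Ar c' (2 * u + 2) s0) (ARg L c' (2 * u + 2) s0) := ARg_loc
  have hL3 : Loc (EE κ L x0 N) (Ar c' s0 (D / 2) ∪ TF4 κ x0 N c' s0) (UTg κ L x0 N c' s0 (D / 2)) :=
    UTg_loc hM
  have e : PrP (qb σ) (EE κ L x0 N) (Ec κ L x0 N τ s a0 ρ1 D u) =
      PrP (qb σ) (EE κ L x0 N) (fun ζ => ARg L c ρ1 (D / 4) ζ ∧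
        (Lo κ (-s) (wp κ x0 t') (u / 8) ζ ∧ (ARg L c' (2 * u + 2) s0 ζ ∧
          UTg κ L x0 N c' s0 (D / 2) ζ))) := PrP_congr fun ω _ => Iff.rfl
  rw [e, PrP_ind (qb σ) hL0 (hL1.and (hL2.and hL3)) (dis ?_),
    prob_tail hκ ⟨t', rfl, habs⟩ hu hM, h.prob_Lo (by omega) (by omega) (by omega) (by omega)]
  rw [disjoint_union_right, disjoint_union_right, disjoint_union_right]
  refine ⟨?_, Ar_Ar2 ?_, Ar_Ar2 ?_, Ar_TF⟩
  · refine (Fb_Ar_in ?_).symm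
    left
    rw [htc]
    omega
  · left
    rw [hcc]
    omega
  · left
    rw [hcc]
    omega

/-! ### sums -/

lemma sum_rpow_Icc0 {β : ℝ} (h0 : 0 < β) (h1 : β ≤ 1) (hn : 0 ≤ n) :
    ∑ u ∈ Finset.Icc 0 n, ((u : ℝ) + 1) ^ (β - 1) ≤ ((n : ℝ) + 1) ^ β / β := by
  have h2 := sum_rpow_Icc (n := n + 1) h0 h1 (by omega)
  push_cast at h2
  refine le_trans (le_of_eq ?_) h2
  refine sum_bij (fun j _ => j + 1) ?_ ?_ ?_ ?_
  · intro j hj
    rw [mem_Icc] at hj ⊢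
    omega
  · intro a _ b _ hab
    omega
  · intro b hb
    rw [mem_Icc] at hb
    exact ⟨b - 1, by rw [mem_Icc]; omega, by omega⟩
  · intro j _
    push_cast
    rfl

/-- **the corner zone** -/
theorem corner_zone (A α : ℝ) (hA : 0 < A) (hα : 0 < α) : ∃ K C c : ℝ, 0 < K ∧ 0 < C ∧ 0 < c ∧ c ≤ 1 ∧
    ∀ (κ : ℤ) (L : Finset (ℤ × ℤ)) (x0 : ℤ × ℤ) (N Dw : ℤ), Wall κ L x0 N Dw →
    ∀ σ : ℝ, 1 / 4 ≤ σ → σ < 1 → ∀ a0 : ℤ, 2 ≤ a0 → K ≤ (1 - σ) ^ ((3 : ℝ) / 2) * a0 →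
    ∀ ρ1 D : ℤ, a0 ≤ ρ1 → 16 * ρ1 ≤ D → D ≤ Dw → D ≤ N →
    (∀ τ : ℤ, (τ = 0 ∨ τ = N) → ∀ ρ M : ℤ, a0 ≤ ρ → ρ < M → M ≤ D →
      PrP (qb σ) (EE κ L x0 N) (UTg κ L x0 N (wp κ x0 τ) ρ M) ≤ A * ((ρ : ℝ) / M) ^ (1 + α)) →
    ∀ τ : ℤ, (τ = 0 ∨ τ = N) →
    PrP (qb σ) (EE κ L x0 N) (CZ κ L x0 N τ ρ1 (2 * D)) ≤
      C * ((N : ℝ) / D) * ((a0 : ℝ) / D) * ((ρ1 : ℝ) / D) ^ c := by
  obtain ⟨K, C0, hK, hC0, hpS⟩ := pS_bd
  obtain ⟨C3, e3, hC3, he0, he1, harm⟩ := arm_all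
  set κ0 : ℝ := min e3 α with hκ0
  have hκ0p : 0 < κ0 := lt_min he0 hα
  have hκe : κ0 ≤ e3 := min_le_left _ _
  have hκα : κ0 ≤ α := min_le_right _ _
  have hκ1 : κ0 ≤ 1 := hκe.trans he1
  set c : ℝ := κ0 / 2 with hc
  have hc0 : 0 < c := by rw [hc]; linarith
  have hce : c ≤ e3 := by rw [hc]; linarith
  have hc1 : c ≤ 1 := hce.trans he1
  clear_value κ0
  set B : ℝ := 512 * C0 * C3 * A * 8 ^ (1 + α) with hB
  have hBp : 0 < B := by rw [hB]; positivity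
  set Ca : ℝ := C3 * 4 ^ c * B / c with hCa
  set Cb : ℝ := 2 * 4096 * C0 * C3 * 64 ^ c with hCb
  set Cc : ℝ := C3 * 8 ^ c * B / κ0 with hCc
  have hCap : 0 < Ca := by rw [hCa]; positivity
  have hCbp : 0 < Cb := by rw [hCb]; positivity
  have hCcp : 0 < Cc := by rw [hCc]; positivity
  refine ⟨K, Ca + Cb + Cc, c, hK, by positivity, hc0, hc1, ?_⟩
  intro κ L x0 N Dw h σ hσ1 hσ2 a0 ha0 hK1 ρ1 D haρ hρD hDD hDN hUT τ hτ
  have hκ := h.hκ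
  have hσ0 : 0 ≤ σ := by linarith
  have hpb := qb_pb hσ0 hσ2.le
  obtain ⟨s, hsτ⟩ : ∃ s : ℤ, (s = 1 ∧ τ = 0) ∨ (s = -1 ∧ τ = N) := by
    rcases hτ with h1 | h1
    · exact ⟨1, Or.inl ⟨rfl, h1⟩⟩
    · exact ⟨-1, Or.inr ⟨rfl, h1⟩⟩
  have ha0' : (2 : ℝ) ≤ a0 := by exact_mod_cast ha0
  have haρ' : (a0 : ℝ) ≤ ρ1 := by exact_mod_cast haρ
  have hρD' : 16 * (ρ1 : ℝ) ≤ D := by exact_mod_cast hρD
  have hDN' : (D : ℝ) ≤ N := by exact_mod_cast hDN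
  have hD0 : (0 : ℝ) < D := by linarith
  have hρ0 : (0 : ℝ) < ρ1 := by linarith
  set EL := EE κ L x0 N with hEL
  have harm' := harm κ L x0 N σ hσ0 hσ2.le h.odd
  -- the three factors
  have hq : ∀ τ' : ℤ, (τ' = 0 ∨ τ' = N) → ∀ s' : ℤ, (s' = 1 ∨ s' = -1) → ∀ u ∈ Finset.Icc 0 (D / 16),
      pS σ κ s' (u / 8) * (PrP (qb σ) EL (ARg L (wp κ x0 τ') (2 * u + 2) (max (2 * u + 2) a0)) *
        PrP (qb σ) EL (UTg κ L x0 N (wp κ x0 τ') (max (2 * u + 2) a0) (D / 2))) ≤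
      B * (((a0 : ℝ) / D) * ((D : ℝ) ^ κ0)⁻¹ * ((u : ℝ) + 1) ^ (κ0 - 1)) := by
    intro τ' hτ' s' hs' u hu
    rw [mem_Icc] at hu
    have hu0 : (0 : ℝ) ≤ u := by exact_mod_cast hu.1
    have huD : u + 1 ≤ D := by omega
    have huD' : (u : ℝ) + 1 ≤ D := by exact_mod_cast huD
    obtain ⟨g1, g2⟩ := hpS κ hκ s' hs' σ hσ1 hσ2 a0 ha0 hK1 (u / 8) (by omega)
    have hr1 : (u : ℝ) + 1 ≤ 8 * (((u / 8 : ℤ) : ℝ) + 1) := by
      have : u + 1 ≤ 8 * (u / 8 + 1) := by omega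
      exact_mod_cast this
    have hp0 : 0 ≤ pS σ κ s' (u / 8) := pS_nonneg hσ0
    have hmax : max (2 * u + 2) a0 < D / 2 := by rw [max_lt_iff]; omega
    have hD2 : (D : ℝ) ≤ 4 * ((D / 2 : ℤ) : ℝ) := by
      have : D ≤ 4 * (D / 2) := by omega
      exact_mod_cast this
    have hD20 : (0 : ℝ) < ((D / 2 : ℤ) : ℝ) := by linarith
    have hUTu := hUT τ' hτ' (max (2 * u + 2) a0) (D / 2) (le_max_right _ _) hmax (by omega)
    refine q_alg hC0 hC3 hA hκ0p hκ1 hκα (by linarith) ha0' (by linarith) huD' hp0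
      (PrP_nonneg hpb _ _) (PrP_nonneg hpb _ _) ?_ ?_ (PrP_le_one hpb _ _) ?_ ⟨?_, ?_⟩
    · calc pS σ κ s' (u / 8) * ((u : ℝ) + 1) ≤ pS σ κ s' (u / 8) * (8 * (((u / 8 : ℤ) : ℝ) + 1)) :=
            mul_le_mul_of_nonneg_left hr1 hp0
        _ = 8 * (pS σ κ s' (u / 8) * (((u / 8 : ℤ) : ℝ) + 1)) := by ring
        _ ≤ 8 * C0 := by linarith only [g1]
    · have h5 : ((u : ℝ) + 1) ^ 2 ≤ 64 * (((u / 8 : ℤ) : ℝ) + 1) ^ 2 := by
        nlinarith only [hr1, hu0]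
      calc pS σ κ s' (u / 8) * ((u : ℝ) + 1) ^ 2 ≤
            pS σ κ s' (u / 8) * (64 * (((u / 8 : ℤ) : ℝ) + 1) ^ 2) := mul_le_mul_of_nonneg_left h5 hp0
        _ = 64 * (pS σ κ s' (u / 8) * (((u / 8 : ℤ) : ℝ) + 1) ^ 2) := by ring
        _ ≤ 64 * (C0 * a0) := by linarith only [g2]
        _ = _ := by ring
    · by_cases hcase : (a0 : ℝ) ≤ 2 * ((u : ℝ) + 1)
      · exact Or.inl hcase
      · right
        push Not at hcase
        have h6 : 2 * u + 2 < a0 := by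
          have : 2 * ((u : ℝ) + 1) < a0 := hcase
          have h7 : ((2 * u + 2 : ℤ) : ℝ) < a0 := by push_cast; linarith
          exact_mod_cast h7
        rw [max_eq_right h6.le]
        have h7 := harm' κ0 hκ0p.le hκe (wp κ x0 τ') (2 * u + 2) a0 (by omega) (by omega)
        have e : ((2 * u + 2 : ℤ) : ℝ) = 2 * ((u : ℝ) + 1) := by push_cast; ring
        rw [e] at h7
        exact h7
    · intro hcase
      have h6 : a0 ≤ 2 * u + 2 := by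
        have h7 : (a0 : ℝ) ≤ ((2 * u + 2 : ℤ) : ℝ) := by push_cast; linarith
        exact_mod_cast h7
      rw [max_eq_left h6] at hUTu ⊢
      refine hUTu.trans (mul_le_mul_of_nonneg_left (Real.rpow_le_rpow ?_ ?_ (by linarith)) hA.le)
      · push_cast
        exact div_nonneg (by linarith) hD20.le
      · rw [div_le_div_iff₀ hD20 hD0]
        push_cast
        nlinarith only [hD2, hu0]
    · intro hcase
      have h6 : 2 * u + 2 < a0 := by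
        have h7 : ((2 * u + 2 : ℤ) : ℝ) < a0 := by push_cast; linarith
        exact_mod_cast h7
      rw [max_eq_right h6.le] at hUTu ⊢
      refine hUTu.trans (mul_le_mul_of_nonneg_left (Real.rpow_le_rpow ?_ ?_ (by linarith)) hA.le)
      · exact div_nonneg (by linarith) hD20.le
      · rw [div_le_div_iff₀ hD20 hD0]
        nlinarith only [hD2, ha0']
  have hmaxu : ∀ u ∈ Finset.Icc 0 (D / 16), max (2 * u + 2) a0 < D / 2 := fun u hu => by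
    rw [mem_Icc] at hu
    rw [max_lt_iff]; omega
  have hX : 0 < (a0 : ℝ) / D := by positivity
  have hDκ : 0 < (D : ℝ) ^ κ0 := Real.rpow_pos_of_pos hD0 _
  have hDc : 0 < (D : ℝ) ^ c := Real.rpow_pos_of_pos hD0 _
  have hDκc : (D : ℝ) ^ κ0 = (D : ℝ) ^ c * (D : ℝ) ^ c := by
    rw [← Real.rpow_add hD0]
    congr 1
    rw [hc]; ring
  have hρc : 0 < (ρ1 : ℝ) ^ c := Real.rpow_pos_of_pos hρ0 _
  have hZ : ((ρ1 : ℝ) / D) ^ c = (ρ1 : ℝ) ^ c / (D : ℝ) ^ c := Real.div_rpow hρ0.le hD0.le _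
  -- sum over Ea
  have hSa : ∑ u ∈ Finset.Icc 0 (D / 16), PrP (qb σ) EL (Ea κ L x0 N τ s a0 ρ1 D u) ≤
      Ca * (((a0 : ℝ) / D) * ((ρ1 : ℝ) / D) ^ c) := by
    have hterm : ∀ u ∈ Finset.Icc 0 (D / 16), PrP (qb σ) EL (Ea κ L x0 N τ s a0 ρ1 D u) ≤
        C3 * 4 ^ c * B * ((a0 : ℝ) / D) * (ρ1 : ℝ) ^ c * ((D : ℝ) ^ κ0)⁻¹ *
          ((u : ℝ) + 1) ^ (c - 1) := by
      intro u hu
      have hqu := hq τ hτ s (by rcases hsτ with g | g <;> omega) u hu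
      have hu' := hu
      rw [mem_Icc] at hu'
      have hu0 : (0 : ℝ) ≤ u := by exact_mod_cast hu'.1
      have hu1 : (0 : ℝ) < (u : ℝ) + 1 := by linarith
      rw [prob_Ea h hsτ (by omega) (by omega) (by omega) (hmaxu u hu)]
      have hp2 : PrP (qb σ) EL (ARg L (wp κ x0 τ) ρ1 (u - u / 8 - 1)) ≤
          C3 * (4 ^ c * ((ρ1 : ℝ) ^ c / ((u : ℝ) + 1) ^ c)) := by
        have e : (4 * (ρ1 : ℝ) / ((u : ℝ) + 1)) ^ c = 4 ^ c * ((ρ1 : ℝ) ^ c / ((u : ℝ) + 1) ^ c) := by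
          rw [Real.div_rpow (by positivity) hu1.le, Real.mul_rpow (by norm_num) hρ0.le]
          ring
        rw [← e]
        by_cases hu2 : u ≤ 1
        · refine (PrP_le_one hpb _ _).trans ?_
          have h6 : (u : ℝ) ≤ 1 := by exact_mod_cast hu2
          have h7 : 1 ≤ (4 * (ρ1 : ℝ) / ((u : ℝ) + 1)) ^ c :=
            Real.one_le_rpow (by rw [le_div_iff₀ hu1]; linarith only [h6, haρ', ha0']) hc0.le
          nlinarith only [h7, hC3]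
        · have h6 := harm' c hc0.le hce (wp κ x0 τ) ρ1 (u - u / 8 - 1) (by omega) (by omega)
          refine h6.trans (mul_le_mul_of_nonneg_left (Real.rpow_le_rpow ?_ ?_ hc0.le) (by linarith))
          · have : (0 : ℝ) ≤ ((u - u / 8 - 1 : ℤ) : ℝ) := by exact_mod_cast (by omega : 0 ≤ u - u / 8 - 1)
            positivity
          · have h7 : (0 : ℝ) < ((u - u / 8 - 1 : ℤ) : ℝ) := by
              exact_mod_cast (by omega : 0 < u - u / 8 - 1)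
            rw [div_le_div_iff₀ h7 hu1]
            have h8 : (u : ℝ) + 1 ≤ 4 * ((u - u / 8 - 1 : ℤ) : ℝ) := by
              exact_mod_cast (by omega : u + 1 ≤ 4 * (u - u / 8 - 1))
            nlinarith only [h8, hρ0]
      have hp20 : 0 ≤ PrP (qb σ) EL (ARg L (wp κ x0 τ) ρ1 (u - u / 8 - 1)) := PrP_nonneg hpb _ _
      have hq0 : 0 ≤ pS σ κ s (u / 8) *
          (PrP (qb σ) EL (ARg L (wp κ x0 τ) (2 * u + 2) (max (2 * u + 2) a0)) *
          PrP (qb σ) EL (UTg κ L x0 N (wp κ x0 τ) (max (2 * u + 2) a0) (D / 2))) :=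
        mul_nonneg (pS_nonneg hσ0) (mul_nonneg (PrP_nonneg hpb _ _) (PrP_nonneg hpb _ _))
      refine (mul_le_mul hp2 hqu hq0 (hp20.trans hp2)).trans (le_of_eq ?_)
      have hY : 0 < ((u : ℝ) + 1) ^ c := Real.rpow_pos_of_pos hu1 _
      have e2 : ((u : ℝ) + 1) ^ (κ0 - 1) = ((u : ℝ) + 1) ^ c * ((u : ℝ) + 1) ^ (c - 1) := by
        rw [← Real.rpow_add hu1]
        congr 1
        rw [hc]; ring
      rw [e2]
      field_simp
    refine (sum_le_sum hterm).trans ?_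
    rw [← mul_sum]
    have h4 := sum_rpow_Icc0 (β := c) (n := D / 16) hc0 hc1 (by omega)
    have h5 : (((D / 16 : ℤ) : ℝ) + 1) ^ c ≤ (D : ℝ) ^ c := by
      refine Real.rpow_le_rpow ?_ ?_ hc0.le
      · have : (0 : ℝ) ≤ ((D / 16 : ℤ) : ℝ) := by exact_mod_cast (by omega : 0 ≤ D / 16)
        linarith only [this]
      · exact_mod_cast (by omega : D / 16 + 1 ≤ D)
    have h6 : ∑ u ∈ Finset.Icc 0 (D / 16), ((u : ℝ) + 1) ^ (c - 1) ≤ (D : ℝ) ^ c / c :=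
      h4.trans (div_le_div_of_nonneg_right h5 hc0.le)
    refine (mul_le_mul_of_nonneg_left h6 (by positivity)).trans (le_of_eq ?_)
    rw [hCa, hZ, hDκc]
    field_simp
  -- sum over Ec
  have hSc : ∑ u ∈ Finset.Icc 0 (D / 16), PrP (qb σ) EL (Ec κ L x0 N τ s a0 ρ1 D u) ≤
      Cc * (((a0 : ℝ) / D) * ((ρ1 : ℝ) / D) ^ c) := by
    have hterm : ∀ u ∈ Finset.Icc 0 (D / 16), PrP (qb σ) EL (Ec κ L x0 N τ s a0 ρ1 D u) ≤
        C3 * 8 ^ c * B * ((a0 : ℝ) / D) * ((ρ1 : ℝ) / D) ^ c * ((D : ℝ) ^ κ0)⁻¹ *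
          ((u : ℝ) + 1) ^ (κ0 - 1) := by
      intro u hu
      have hqu := hq (N - τ) (by rcases hτ with g | g <;> omega) (-s)
        (by rcases hsτ with g | g <;> omega) u hu
      have hu' := hu
      rw [mem_Icc] at hu'
      rw [prob_Ec h hsτ (by omega) (by omega) (by omega) (hmaxu u hu) hDN]
      have hp2 : PrP (qb σ) EL (ARg L (wp κ x0 τ) ρ1 (D / 4)) ≤
          C3 * (8 ^ c * ((ρ1 : ℝ) / D) ^ c) := by
        have e : (8 * ((ρ1 : ℝ) / D)) ^ c = 8 ^ c * ((ρ1 : ℝ) / D) ^ c :=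
          Real.mul_rpow (by norm_num) (by positivity)
        rw [← e]
        have h6 := harm' c hc0.le hce (wp κ x0 τ) ρ1 (D / 4) (by omega) (by omega)
        have h7 : (0 : ℝ) < ((D / 4 : ℤ) : ℝ) := by
          exact_mod_cast (by omega : 0 < D / 4)
        refine h6.trans (mul_le_mul_of_nonneg_left (Real.rpow_le_rpow ?_ ?_ hc0.le) (by linarith))
        · exact div_nonneg hρ0.le h7.le
        · rw [← mul_div_assoc, div_le_div_iff₀ h7 hD0]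
          have h8 : (D : ℝ) ≤ 8 * ((D / 4 : ℤ) : ℝ) := by
            exact_mod_cast (by omega : D ≤ 8 * (D / 4))
          nlinarith only [h8, hρ0]
      have hp20 : 0 ≤ PrP (qb σ) EL (ARg L (wp κ x0 τ) ρ1 (D / 4)) := PrP_nonneg hpb _ _
      have hq0 : 0 ≤ pS σ κ (-s) (u / 8) *
          (PrP (qb σ) EL (ARg L (wp κ x0 (N - τ)) (2 * u + 2) (max (2 * u + 2) a0)) *
          PrP (qb σ) EL (UTg κ L x0 N (wp κ x0 (N - τ)) (max (2 * u + 2) a0) (D / 2))) :=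
        mul_nonneg (pS_nonneg hσ0) (mul_nonneg (PrP_nonneg hpb _ _) (PrP_nonneg hpb _ _))
      refine (mul_le_mul hp2 hqu hq0 (hp20.trans hp2)).trans (le_of_eq ?_)
      ring
    refine (sum_le_sum hterm).trans ?_
    rw [← mul_sum]
    have h4 := sum_rpow_Icc0 (β := κ0) (n := D / 16) hκ0p hκ1 (by omega)
    have h5 : (((D / 16 : ℤ) : ℝ) + 1) ^ κ0 ≤ (D : ℝ) ^ κ0 := by
      refine Real.rpow_le_rpow ?_ ?_ hκ0p.le
      · have : (0 : ℝ) ≤ ((D / 16 : ℤ) : ℝ) := by exact_mod_cast (by omega : 0 ≤ D / 16)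
        linarith only [this]
      · exact_mod_cast (by omega : D / 16 + 1 ≤ D)
    have h6 : ∑ u ∈ Finset.Icc 0 (D / 16), ((u : ℝ) + 1) ^ (κ0 - 1) ≤ (D : ℝ) ^ κ0 / κ0 :=
      h4.trans (div_le_div_of_nonneg_right h5 hκ0p.le)
    refine (mul_le_mul_of_nonneg_left h6 (by positivity)).trans (le_of_eq ?_)
    rw [hCc]
    field_simp
  -- sum over Eb
  set T : Finset ℤ := (Finset.Icc 0 N).filter
    (fun t => D / 16 < s * (t - τ) ∧ s * (t - τ) ≤ N - D / 16) with hT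
  have hcardT : ((T.card : ℕ) : ℝ) ≤ 2 * N := by
    have h1 : T.card ≤ (Finset.Icc 0 N).card := card_filter_le _ _
    rw [Int.card_Icc] at h1
    have h2 : (((N + 1 - 0).toNat : ℕ) : ℤ) = N + 1 := by
      rw [Int.toNat_of_nonneg] <;> omega
    have h3 : ((T.card : ℕ) : ℤ) ≤ N + 1 := by rw [← h2]; exact_mod_cast h1
    have h4 : ((T.card : ℕ) : ℝ) ≤ (N : ℝ) + 1 := by exact_mod_cast h3
    linarith
  have hSb : ∑ t ∈ T, PrP (qb σ) EL (Eb κ L x0 τ s ρ1 D t) ≤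
      Cb * (((N : ℝ) / D) * ((a0 : ℝ) / D) * ((ρ1 : ℝ) / D) ^ c) := by
    have hterm : ∀ t ∈ T, PrP (qb σ) EL (Eb κ L x0 τ s ρ1 D t) ≤
        (4096 * C0 * a0 / (D : ℝ) ^ 2) * (C3 * (64 ^ c * ((ρ1 : ℝ) / D) ^ c)) := by
      intro t ht
      rw [hT, mem_filter, mem_Icc] at ht
      have ht1 : D / 16 ≤ t ∧ t + D / 16 ≤ N := by
        rcases hsτ with ⟨g1, g2⟩ | ⟨g1, g2⟩ <;> rw [g1, g2] at ht <;> omega
      have hab : D / 16 < |t - τ| := by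
        rw [lt_abs]
        rcases hsτ with ⟨g1, g2⟩ | ⟨g1, g2⟩ <;> rw [g1, g2] at ht <;> omega
      have hL1 : Loc EL (Fb (wp κ x0 t) (D / 64)) (Lo κ s (wp κ x0 t) (D / 64)) :=
        Lo_loc hκ (by omega)
      have hL2 : Loc EL (Ar (wp κ x0 τ) ρ1 (D / 16 - D / 64 - 1))
          (ARg L (wp κ x0 τ) ρ1 (D / 16 - D / 64 - 1)) := ARg_loc
      have hd : Disjoint (Fb (wp κ x0 t) (D / 64)) (Ar (wp κ x0 τ) ρ1 (D / 16 - D / 64 - 1)) := by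
        refine Fb_Ar_in ?_
        left
        rw [wp_fst, wp_fst, show x0.1 + t - (x0.1 + τ) = t - τ by ring]
        omega
      have e : PrP (qb σ) EL (Eb κ L x0 τ s ρ1 D t) = pS σ κ s (D / 64) *
          PrP (qb σ) EL (ARg L (wp κ x0 τ) ρ1 (D / 16 - D / 64 - 1)) := by
        unfold Eb
        rw [PrP_ind (qb σ) hL1 hL2 (dis hd),
          h.prob_Lo (by omega) (by omega) (by omega) (by omega)]
      rw [e]
      have hp0 : 0 ≤ pS σ κ s (D / 64) := pS_nonneg hσ0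
      obtain ⟨-, g2⟩ := hpS κ hκ s (by rcases hsτ with g | g <;> omega) σ hσ1 hσ2 a0 ha0 hK1
        (D / 64) (by omega)
      have h5 : (D : ℝ) ≤ 64 * (((D / 64 : ℤ) : ℝ) + 1) := by
        exact_mod_cast (by omega : D ≤ 64 * (D / 64 + 1))
      have h6 : (D : ℝ) ^ 2 ≤ 4096 * (((D / 64 : ℤ) : ℝ) + 1) ^ 2 := by
        nlinarith only [h5, hD0]
      have hpa : pS σ κ s (D / 64) ≤ 4096 * C0 * a0 / (D : ℝ) ^ 2 := by
        rw [le_div_iff₀ (by positivity)]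
        calc pS σ κ s (D / 64) * (D : ℝ) ^ 2 ≤
              pS σ κ s (D / 64) * (4096 * (((D / 64 : ℤ) : ℝ) + 1) ^ 2) :=
              mul_le_mul_of_nonneg_left h6 hp0
          _ = 4096 * (pS σ κ s (D / 64) * (((D / 64 : ℤ) : ℝ) + 1) ^ 2) := by ring
          _ ≤ 4096 * (C0 * a0) := by linarith only [g2]
          _ = _ := by ring
      have hpb2 : PrP (qb σ) EL (ARg L (wp κ x0 τ) ρ1 (D / 16 - D / 64 - 1)) ≤
          C3 * (64 ^ c * ((ρ1 : ℝ) / D) ^ c) := by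
        have e : (64 * ((ρ1 : ℝ) / D)) ^ c = 64 ^ c * ((ρ1 : ℝ) / D) ^ c :=
          Real.mul_rpow (by norm_num) (by positivity)
        rw [← e]
        have h6 := harm' c hc0.le hce (wp κ x0 τ) ρ1 (D / 16 - D / 64 - 1) (by omega) (by omega)
        have h7 : (0 : ℝ) < ((D / 16 - D / 64 - 1 : ℤ) : ℝ) := by
          exact_mod_cast (by omega : 0 < D / 16 - D / 64 - 1)
        refine h6.trans (mul_le_mul_of_nonneg_left (Real.rpow_le_rpow ?_ ?_ hc0.le) (by linarith))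
        · exact div_nonneg hρ0.le h7.le
        · rw [← mul_div_assoc, div_le_div_iff₀ h7 hD0]
          have h8 : (D : ℝ) ≤ 64 * ((D / 16 - D / 64 - 1 : ℤ) : ℝ) := by
            exact_mod_cast (by omega : D ≤ 64 * (D / 16 - D / 64 - 1))
          nlinarith only [h8, hρ0]
      exact mul_le_mul hpa hpb2 (PrP_nonneg hpb _ _) (hp0.trans hpa)
    refine (sum_le_sum hterm).trans ?_
    rw [sum_const, nsmul_eq_mul]
    refine (mul_le_mul_of_nonneg_right hcardT (by positivity)).trans (le_of_eq ?_)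
    rw [hCb]
    field_simp
  -- total
  have hP : PrP (qb σ) EL (CZ κ L x0 N τ ρ1 (2 * D)) ≤
      ∑ u ∈ Finset.Icc 0 (D / 16), PrP (qb σ) EL (Ea κ L x0 N τ s a0 ρ1 D u) +
      (∑ t ∈ T, PrP (qb σ) EL (Eb κ L x0 τ s ρ1 D t) +
      ∑ u ∈ Finset.Icc 0 (D / 16), PrP (qb σ) EL (Ec κ L x0 N τ s a0 ρ1 D u)) := by
    refine (PrP_mono hpb fun ω _ hω => cz_split h hsτ (by omega) (by omega) haρ hρD hDD hDN
      (by omega) hω).trans ((PrP_or_le hpb _ _ _).trans ?_)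
    refine add_le_add (PrP_exists_le hpb _ _ _) ((PrP_or_le hpb _ _ _).trans ?_)
    exact add_le_add (PrP_exists_le hpb _ _ _) (PrP_exists_le hpb _ _ _)
  refine hP.trans ((add_le_add hSa (add_le_add hSb hSc)).trans ?_)
  have hy1 : 1 ≤ (N : ℝ) / D := by rw [le_div_iff₀ hD0]; linarith
  have f1 : 0 ≤ ((a0 : ℝ) / D) * ((ρ1 : ℝ) / D) ^ c := by positivity
  have f2 : ((a0 : ℝ) / D) * ((ρ1 : ℝ) / D) ^ c ≤
      ((N : ℝ) / D) * ((a0 : ℝ) / D) * ((ρ1 : ℝ) / D) ^ c := by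
    rw [mul_assoc]; exact le_mul_of_one_le_left f1 hy1
  calc _ ≤ Ca * (((N : ℝ) / D) * ((a0 : ℝ) / D) * ((ρ1 : ℝ) / D) ^ c) +
        (Cb * (((N : ℝ) / D) * ((a0 : ℝ) / D) * ((ρ1 : ℝ) / D) ^ c) +
        Cc * (((N : ℝ) / D) * ((a0 : ℝ) / D) * ((ρ1 : ℝ) / D) ^ c)) :=
        add_le_add (mul_le_mul_of_nonneg_left f2 hCap.le)
          (add_le_add le_rfl (mul_le_mul_of_nonneg_left f2 hCcp.le))
    _ = _ := by ring

end Pool.Agent.H59.Q1
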