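import Mathlib
import Pool.Agent.H49.Perc.KArms

set_option autoImplicit false
open Finset

/-!
# Many disjoint arms of several types, exponential moments

`multi_arms` : if every event `A j`, `j ∈ J`, has probability at most `ε`, the probability of `n` disjoint
occurrences of events of the family is at most `2 ^ |J| (2 ε) ^ n`. `exp_mom` : exponential moments.
-/

namespace Pool.Agent.H59.Q1

open Pool.Agent.H75.Perc Pool.Agent.H99.NC Pool.Agent.H49.Perc

variable {α ι : Type*} [DecidableEq α] [DecidableEq ι]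

omit [DecidableEq α] in
lemma Arms_congr {n : ℕ} {A B : Finset α → Prop} {ω : Finset α} (h : ∀ S, A S → B S)
    (hA : Arms n A ω) : Arms n B ω := by
  obtain ⟨S, h1, h2, h3⟩ := hA
  exact ⟨S, h1, h2, fun i => h _ (h3 i)⟩

omit [DecidableEq α] in
lemma Arms_le {m n : ℕ} {A : Finset α → Prop} {ω : Finset α} (hmn : m ≤ n) (hA : Arms n A ω) :
    Arms m A ω := by
  obtain ⟨S, h1, h2, h3⟩ := hA
  exact ⟨fun i => S (Fin.castLE hmn i), fun i => h1 _, fun i j hij => h2 _ _ fun h =>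
    hij (Fin.castLE_injective hmn h), fun i => h3 _⟩

omit [DecidableEq ι] [DecidableEq α] in
/-- witnesses indexed by a finset -/
lemma Arms_of {s : Finset ι} {A : Finset α → Prop} {ω : Finset α} (S : ι → Finset α)
    (h1 : ∀ i ∈ s, S i ⊆ ω) (h2 : ∀ i ∈ s, ∀ j ∈ s, i ≠ j → Disjoint (S i) (S j))
    (h3 : ∀ i ∈ s, A (S i)) : Arms s.card A ω := by
  refine ⟨fun i => S (s.equivFin.symm i), fun i => h1 _ (s.equivFin.symm i).2, ?_,
    fun i => h3 _ (s.equivFin.symm i).2⟩
  intro i j hij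
  refine h2 _ (s.equivFin.symm i).2 _ (s.equivFin.symm j).2 fun h => hij ?_
  exact s.equivFin.symm.injective (Subtype.ext h)

/-- splitting by type -/
lemma Arms_or {n : ℕ} {A B : Finset α → Prop} {ω : Finset α} (h : Arms n (fun S => A S ∨ B S) ω) :
    ∃ k ∈ range (n + 1), ∃ S T, S ⊆ ω ∧ T ⊆ ω ∧ Disjoint S T ∧ Arms k A S ∧ Arms (n - k) B T := by
  classical
  obtain ⟨S, h1, h2, h3⟩ := h
  set I : Finset (Fin n) := univ.filter (fun i => A (S i)) with hI
  have hIn : I.card ≤ n := by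
    have := card_le_univ I
    rwa [Fintype.card_fin] at this
  have hIc : Iᶜ.card = n - I.card := by rw [card_compl, Fintype.card_fin]
  refine ⟨I.card, mem_range.2 (by omega), I.biUnion S, Iᶜ.biUnion S, ?_, ?_, ?_, ?_, ?_⟩
  · exact biUnion_subset.2 fun i _ => h1 i
  · exact biUnion_subset.2 fun i _ => h1 i
  · rw [disjoint_biUnion_left]
    intro i hi
    rw [disjoint_biUnion_right]
    intro j hj
    refine h2 i j fun hij => ?_
    rw [hij] at hi
    exact (mem_compl.1 hj) hi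
  · refine Arms_of S (fun i hi => subset_biUnion_of_mem S hi) (fun i _ j _ hij => h2 i j hij)
      fun i hi => ?_
    exact (mem_filter.1 hi).2
  · rw [← hIc]
    refine Arms_of S (fun i hi => subset_biUnion_of_mem S hi) (fun i _ j _ hij => h2 i j hij)
      fun i hi => ?_
    have hi' : i ∉ I := mem_compl.1 hi
    rcases h3 i with h4 | h4
    · exact absurd (by rw [hI, mem_filter]; exact ⟨mem_univ _, h4⟩) hi'
    · exact h4

/-- **disjoint occurrences of events of several types** -/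
theorem multi_arms {q : α → ℝ} (hq : Pb q) (E : Finset α) {ε : ℝ} (hε : 0 ≤ ε) (J : Finset ι)
    {A : ι → Finset α → Prop} (hA : ∀ j ∈ J, Inc (A j)) (hp : ∀ j ∈ J, PrP q E (A j) ≤ ε) (n : ℕ) :
    PrP q E (Arms n (fun S => ∃ j ∈ J, A j S)) ≤ 2 ^ J.card * (2 * ε) ^ n := by
  induction J using Finset.induction_on generalizing n with
  | empty =>
    rcases Nat.eq_zero_or_pos n with h | h
    · subst h
      simpa using PrP_le_one hq E (Arms 0 (fun S => ∃ j ∈ (∅ : Finset ι), A j S))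
    · have h0 : PrP q E (Arms n (fun S => ∃ j ∈ (∅ : Finset ι), A j S)) = 0 := by
        unfold PrP
        rw [Ex_congr (g := fun _ => 0) fun ω _ => ind_false ?_, Ex_const]
        rintro ⟨S, -, -, h3⟩
        obtain ⟨j, hj, -⟩ := h3 ⟨0, h⟩
        exact notMem_empty _ hj
      rw [h0]
      positivity
  | insert a J ha ih =>
    have ih' := ih (fun j hj => hA j (mem_insert_of_mem hj)) (fun j hj => hp j (mem_insert_of_mem hj))
    have hBi : Inc (fun S => ∃ j ∈ J, A j S) := by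
      rintro S T hST ⟨j, hj, h1⟩
      exact ⟨j, hj, hA j (mem_insert_of_mem hj) _ _ hST h1⟩
    have h1 : PrP q E (Arms n (fun S => ∃ j ∈ insert a J, A j S)) ≤
        ∑ k ∈ range (n + 1), PrP q E (fun ω => ∃ S T, S ⊆ ω ∧ T ⊆ ω ∧ Disjoint S T ∧
          Arms k (A a) S ∧ Arms (n - k) (fun S => ∃ j ∈ J, A j S) T) := by
      refine (PrP_mono hq (B := fun ω => ∃ k ∈ range (n + 1), ∃ S T, S ⊆ ω ∧ T ⊆ ω ∧
        Disjoint S T ∧ Arms k (A a) S ∧ Arms (n - k) (fun S => ∃ j ∈ J, A j S) T)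
        fun ω _ hω => ?_).trans (PrP_exists_le hq _ _ _)
      refine Arms_or (Arms_congr (fun S hS => ?_) hω)
      obtain ⟨j, hj, h2⟩ := hS
      rcases mem_insert.1 hj with rfl | h3
      · exact Or.inl h2
      · exact Or.inr ⟨j, h3, h2⟩
    have h2 : ∀ k ∈ range (n + 1), PrP q E (fun ω => ∃ S T, S ⊆ ω ∧ T ⊆ ω ∧ Disjoint S T ∧
        Arms k (A a) S ∧ Arms (n - k) (fun S => ∃ j ∈ J, A j S) T) ≤
        2 ^ J.card * ε ^ n * 2 ^ (n - k) := by
      intro k hk
      rw [mem_range] at hk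
      refine (bk hq E (Arms_inc k (A a)) (Arms_inc (n - k) _)).trans ?_
      have h3 := PrP_Arms_le hq E (hA a (mem_insert_self _ _)) k
      have h4 : PrP q E (Arms k (A a)) ≤ ε ^ k :=
        h3.trans (pow_le_pow_left₀ (PrP_nonneg hq _ _) (hp a (mem_insert_self _ _)) k)
      refine (mul_le_mul h4 (ih' (n - k)) (PrP_nonneg hq _ _) (by positivity)).trans (le_of_eq ?_)
      have e1 : ε ^ n = ε ^ k * ε ^ (n - k) := by
        rw [← pow_add]; congr 1; omega
      rw [mul_pow, e1]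
      ring
    refine (h1.trans (sum_le_sum h2)).trans ?_
    rw [← mul_sum, card_insert_of_notMem ha]
    have h5 : ∑ k ∈ range (n + 1), (2 : ℝ) ^ (n - k) ≤ 2 * 2 ^ n := by
      have e2 : ∑ k ∈ range (n + 1), (2 : ℝ) ^ (n - k) = ∑ k ∈ range (n + 1), (2 : ℝ) ^ k := by
        have := sum_range_reflect (fun k => (2 : ℝ) ^ k) (n + 1)
        rw [← this]
        refine sum_congr rfl fun k hk => ?_
        congr 1
      rw [e2, geom_sum_eq (by norm_num)]
      norm_num
      rw [pow_succ]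
      linarith
    calc 2 ^ J.card * ε ^ n * ∑ k ∈ range (n + 1), (2 : ℝ) ^ (n - k) ≤
          2 ^ J.card * ε ^ n * (2 * 2 ^ n) := mul_le_mul_of_nonneg_left h5 (by positivity)
      _ = 2 ^ (J.card + 1) * (2 * ε) ^ n := by rw [mul_pow, pow_succ]; ring

/-- **exponential moments** -/
theorem exp_mom {q : α → ℝ} (hq : Pb q) (E : Finset α) {Nc : Finset α → ℕ} {l θ K : ℝ}
    (hK : 0 ≤ K) (hl : 1 ≤ l) (hθ0 : 0 ≤ θ) (hθ : l * θ ≤ 1 / 2)
    (h : ∀ n : ℕ, PrP q E (fun ω => n ≤ Nc ω) ≤ K * θ ^ n) :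
    Ex q E (fun ω => l ^ Nc ω) ≤ 2 * K := by
  set m : ℕ := E.powerset.sup Nc with hm
  have hle : ∀ ω, ω ⊆ E → Nc ω ≤ m := fun ω hω => le_sup (f := Nc) (mem_powerset.2 hω)
  have h1 : Ex q E (fun ω => l ^ Nc ω) ≤
      Ex q E (fun ω => ∑ n ∈ range (m + 1), l ^ n * ind (n ≤ Nc ω)) := by
    refine Ex_mono hq fun ω hω => ?_
    have h2 : Nc ω ∈ range (m + 1) := mem_range.2 (by have := hle ω hω; omega)
    refine le_trans (le_of_eq ?_) (single_le_sum (f := fun n => l ^ n * ind (n ≤ Nc ω))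
      (fun n _ => mul_nonneg (by positivity) (ind_nonneg _)) h2)
    rw [ind_true le_rfl, mul_one]
  refine h1.trans ?_
  rw [Ex_sum]
  have h3 : ∀ n ∈ range (m + 1), Ex q E (fun ω => l ^ n * ind (n ≤ Nc ω)) ≤ K * (1 / 2) ^ n := by
    intro n _
    rw [Ex_smul]
    have h4 := h n
    unfold PrP at h4
    calc l ^ n * Ex q E (fun ω => ind (n ≤ Nc ω)) ≤ l ^ n * (K * θ ^ n) :=
          mul_le_mul_of_nonneg_left h4 (by positivity)
      _ = K * (l * θ) ^ n := by rw [mul_pow]; ring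
      _ ≤ K * (1 / 2) ^ n := mul_le_mul_of_nonneg_left
          (pow_le_pow_left₀ (by positivity) hθ n) hK
  refine (sum_le_sum h3).trans ?_
  rw [← mul_sum]
  have h5 : ∑ n ∈ range (m + 1), ((1 : ℝ) / 2) ^ n ≤ 2 := by
    rw [geom_sum_eq (by norm_num)]
    have : (0 : ℝ) ≤ (1 / 2) ^ (m + 1) := by positivity
    have e : ((1 / 2 : ℝ) ^ (m + 1) - 1) / (1 / 2 - 1) = 2 * (1 - (1 / 2) ^ (m + 1)) := by
      field_simp
      ring
    rw [e]
    linarith
  nlinarith

end Pool.Agent.H59.Q1
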