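import Mathlib
import Pool.Agent.H59.Q1.MArms
import Pool.Agent.H59.Q1.CornP

set_option autoImplicit false
open Finset

/-!
# The number of macroscopic classes at a wall: exponential tails of every order
-/

namespace Pool.Agent.H59.Q1

open Pool.Agent.H75.Perc Pool.Agent.H75.TwoArm Pool.Agent.H75.Four Pool.Agent.H49.Perc
open Pool.Agent.H99.NC Pool.Agent.H60.Q1 Pool.Agent.H20.Q1

/-- the arm from one of the windows -/
def WA (κ : ℤ) (x0 : ℤ × ℤ) (δ R : ℤ) (J : Finset ℤ) (η : Finset (ℤ × ℤ)) : Prop :=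
  ∃ j ∈ J, Arm1 (wp κ x0 (j * δ)) δ (R - δ) η

/-- the labels of the cluster of `x` -/
noncomputable def CLx (η : Finset (ℤ × ℤ)) (x : ℤ × ℤ) : Finset (ℤ × ℤ) := by
  classical
  exact η.filter (fun l => ∃ z z', IsUnit4 (z' - z) ∧ z + z' = l ∧ Co η x z)

variable {σ : ℝ} {κ s ε : ℤ} {q : ℤ × ℤ → ℝ} {x y z w v x0 c p l : ℤ × ℤ}
  {t t' a b j ρ ρ1 R r m a0 D N n M τ k u δ : ℤ} {E F G L ω ω1 ω2 ζ η : Finset (ℤ × ℤ)} {J S : Finset ℤ}

lemma mem_CLx : l ∈ CLx η x ↔ l ∈ η ∧ ∃ z z', IsUnit4 (z' - z) ∧ z + z' = l ∧ Co η x z := by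
  classical
  unfold CLx
  rw [mem_filter]

lemma co_CLx (h : Co η x v) : Co (CLx η x) x v := by
  induction h with
  | refl => exact Co.refl _ _
  | @tail a b hab h1 ih =>
    refine ih.trans (Relation.ReflTransGen.single ⟨h1.1, mem_CLx.2 ⟨h1.2, a, b, h1.1, rfl, hab⟩⟩)

/-- the ends of an odd label -/
lemma ends_odd {z z' w w' : ℤ × ℤ} (h1 : IsUnit4 (z' - z))
    (h2 : IsUnit4 (w' - w)) (h : z + z' = w + w') : z = w ∨ z = w' := by
  have g1 := unit_cases h1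
  have g2 := unit_cases h2
  have g3 := congrArg Prod.fst h
  have g4 := congrArg Prod.snd h
  simp only [Prod.fst_add, Prod.snd_add] at g3 g4
  simp only [Prod.ext_iff]
  omega

lemma CLx_disj (h : ¬ Co η x y) :
    Disjoint (CLx η x) (CLx η y) := by
  rw [disjoint_left]
  intro l h1 h2
  obtain ⟨h3, z, z', g1, g2, g3⟩ := mem_CLx.1 h1
  obtain ⟨-, w, w', k1, k2, k3⟩ := mem_CLx.1 h2
  apply h
  have hw : Co η y w' := k3.trans (Relation.ReflTransGen.single ⟨k1, by rw [k2]; exact h3⟩)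
  rcases ends_odd g1 k1 (g2.trans k2.symm) with h4 | h4
  · rw [h4] at g3
    exact g3.trans k3.symm
  · rw [h4] at g3
    exact g3.trans hw.symm

/-- **distinct macroscopic classes give disjoint arms** -/
theorem arms_of_classes (hκ : κ = 0 ∨ κ = 1) (hδ : 1 ≤ δ)
    (hS : ∀ t ∈ S, (0 ≤ t ∧ t ≤ N) ∧ Mc L R (wp κ x0 t) ζ)
    (hd : ∀ t ∈ S, ∀ t' ∈ S, t ≠ t' → ¬ Co (ζ ∩ L) (wp κ x0 t) (wp κ x0 t')) :
    Arms S.card (WA κ x0 δ R (Finset.Icc 0 (N / δ))) (ζ ∩ L) := by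
  refine Arms_of (fun t => CLx (ζ ∩ L) (wp κ x0 t)) (fun t _ => ?_) (fun t ht t' ht' hne => ?_)
    fun t ht => ?_
  · intro l hl
    exact (mem_CLx.1 hl).1
  · exact CLx_disj (hd t ht t' ht' hne)
  · obtain ⟨⟨h1, h2⟩, v, h3, h4⟩ := hS t ht
    have hdiv := Int.emod_add_mul_ediv t δ
    have hm0 := Int.emod_nonneg t (by omega : δ ≠ 0)
    have hm1 := Int.emod_lt_of_pos t (by omega : 0 < δ)
    have hq0 : 0 ≤ t / δ := Int.ediv_nonneg h1 (by omega)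
    have hq1 : t / δ ≤ N / δ := Int.ediv_le_ediv (by omega) h2
    refine ⟨t / δ, mem_Icc.2 ⟨hq0, hq1⟩, wp κ x0 t, v, ?_, ?_, ?_, co_CLx h4⟩
    · have := (wp_dist (κ := κ) (x0 := x0) (t := t / δ * δ) (t' := t) (r := δ) hκ).2 (by
        rw [abs_le, mul_comm]; omega)
      rw [inR_iff] at this
      rw [abs_le]; omega
    · have := (wp_dist (κ := κ) (x0 := x0) (t := t / δ * δ) (t' := t) (r := δ) hκ).2 (by
        rw [abs_le, mul_comm]; omega)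
      rw [inR_iff] at this
      rw [abs_le]; omega
    · have := (wp_dist (κ := κ) (x0 := x0) (t := t / δ * δ) (t' := t) (r := δ) hκ).2 (by
        rw [abs_le, mul_comm]; omega)
      rw [inR_iff] at this
      unfold Far at h3
      rw [le_abs, le_abs] at h3 ⊢
      omega

/-- **tails of every order**: `l` is arbitrary -/
theorem cls_tail (Q l : ℝ) (hQ : 1 ≤ Q) (hl : 1 ≤ l) : ∃ (K : ℝ) (D0 : ℤ), 0 ≤ K ∧ 1 ≤ D0 ∧
    ∀ (κ : ℤ) (L : Finset (ℤ × ℤ)) (x0 : ℤ × ℤ) (N D : ℤ), (κ = 0 ∨ κ = 1) →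
    (∀ l ∈ L, (l.1 + l.2) % 2 = 1) → 0 ≤ N → D0 ≤ D → (N : ℝ) ≤ Q * D → ∀ σ : ℝ, 0 ≤ σ → σ ≤ 1 →
    ∃ δ : ℤ, 1 ≤ δ ∧ ∀ n : ℕ, PrP (qb σ) (EE κ L x0 N)
      (fun ζ => Arms n (WA κ x0 δ D (Finset.Icc 0 (N / δ))) (ζ ∩ L)) ≤ K * (1 / (2 * l)) ^ n := by
  obtain ⟨C3, e3, hC3, he0, he1, harm⟩ := arm_all
  -- the ratio `θ = 1 / m`
  obtain ⟨m, hm⟩ : ∃ m : ℕ, 1 ≤ m ∧ C3 * (2 * ((m : ℝ) + 1)⁻¹) ^ e3 ≤ 1 / (4 * l) := by
    have h1 : (1 : ℝ) ≤ (4 * l * C3) ^ (1 / e3) := Real.one_le_rpow (by nlinarith) (by positivity)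
    obtain ⟨m, hm⟩ := exists_nat_ge (2 * (4 * l * C3) ^ (1 / e3))
    refine ⟨m, ?_, ?_⟩
    · have : (1 : ℝ) ≤ m := by linarith
      exact_mod_cast this
    · have hm0 : (0 : ℝ) < (m : ℝ) + 1 := by positivity
      have h2 : 2 * ((m : ℝ) + 1)⁻¹ ≤ ((4 * l * C3) ^ (1 / e3))⁻¹ := by
        rw [← div_eq_mul_inv, div_le_iff₀ hm0, inv_mul_eq_div, le_div_iff₀ (by positivity)]
        linarith
      calc C3 * (2 * ((m : ℝ) + 1)⁻¹) ^ e3 ≤ C3 * (((4 * l * C3) ^ (1 / e3))⁻¹) ^ e3 :=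
            mul_le_mul_of_nonneg_left (Real.rpow_le_rpow (by positivity) h2 he0.le) (by linarith)
        _ = C3 * (4 * l * C3)⁻¹ := by
            rw [Real.inv_rpow (by positivity), ← Real.rpow_mul (by positivity),
              one_div_mul_cancel he0.ne', Real.rpow_one]
        _ = 1 / (4 * l) := by field_simp
  obtain ⟨hm1, hm2⟩ := hm
  refine ⟨2 ^ (⌈2 * Q * ((m : ℝ) + 2) + 1⌉₊), 2 * (m + 2), by positivity, by omega, ?_⟩
  intro κ L x0 N D hκ hodd hN hD hNQ σ hσ0 hσ1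
  have hpb := qb_pb hσ0 hσ1
  set δ : ℤ := D / (m + 2) with hδ
  have hδ1 : 1 ≤ δ := by
    rw [hδ, Int.le_ediv_iff_mul_le (by positivity)]
    omega
  have hδ2 : δ * (m + 2) ≤ D := Int.ediv_mul_le D (by positivity)
  have hδ3 : D < (δ + 1) * (m + 2) := by
    have := Int.lt_ediv_add_one_mul_self D (by positivity : (0 : ℤ) < m + 2)
    exact this
  have hδr : (1 : ℝ) ≤ δ := by exact_mod_cast hδ1
  have hD' : (D : ℝ) ≤ 2 * δ * ((m : ℝ) + 2) := by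
    have h1 : (D : ℝ) < ((δ : ℝ) + 1) * ((m : ℝ) + 2) := by exact_mod_cast hδ3
    nlinarith
  refine ⟨δ, hδ1, fun n => ?_⟩
  have hMD : δ * (m + 1) ≤ D - δ := by
    have : δ * (m + 2) = δ * (m + 1) + δ := by ring
    omega
  have hm1' : (1 : ℤ) ≤ m := by exact_mod_cast hm1
  have hMD2 : δ < D - δ := by nlinarith
  -- restriction to the layer
  have e1 : PrP (qb σ) (EE κ L x0 N) (fun ζ => Arms n (WA κ x0 δ D (Finset.Icc 0 (N / δ))) (ζ ∩ L)) =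
      PrP (qb σ) L (Arms n (WA κ x0 δ D (Finset.Icc 0 (N / δ)))) :=
    PrP_restrict (qb σ) (subset_union_left : L ⊆ EE κ L x0 N) _
  rw [e1]
  have hinc : ∀ j ∈ Finset.Icc 0 (N / δ), Inc (Arm1 (wp κ x0 (j * δ)) δ (D - δ)) :=
    fun j _ => Arm1_inc _ _ _
  have hp : ∀ j ∈ Finset.Icc 0 (N / δ), PrP (qb σ) L (Arm1 (wp κ x0 (j * δ)) δ (D - δ)) ≤
      1 / (4 * l) := by
    intro j _
    have e2 : PrP (qb σ) L (Arm1 (wp κ x0 (j * δ)) δ (D - δ)) =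
        PrP (qb σ) (EE κ L x0 N) (fun ζ => Arm1 (wp κ x0 (j * δ)) δ (D - δ) (ζ ∩ L)) :=
      (PrP_restrict (qb σ) (subset_union_left : L ⊆ EE κ L x0 N) _).symm
    rw [e2]
    have h1 : PrP (qb σ) (EE κ L x0 N) (fun ζ => Arm1 (wp κ x0 (j * δ)) δ (D - δ) (ζ ∩ L)) ≤
        PrP (qb σ) (EE κ L x0 N) (ARg L (wp κ x0 (j * δ)) δ (D - δ)) := by
      refine PrP_mono hpb fun ζ _ hζ => ?_
      obtain ⟨u, v, g1, g2, g3, g4⟩ := hζ
      refine ARg_of g4 (by omega) ?_ g3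
      rw [abs_le] at g1 g2
      rw [inR_iff]; omega
    refine h1.trans ((harm κ L x0 N σ hσ0 hσ1 hodd e3 he0.le le_rfl _ _ _ hδ1 (by omega)).trans
      (le_trans (mul_le_mul_of_nonneg_left (Real.rpow_le_rpow ?_ ?_ he0.le) (by linarith)) hm2))
    · have : (0 : ℝ) < ((D - δ : ℤ) : ℝ) := by exact_mod_cast (by omega : 0 < D - δ)
      positivity
    · have h3 : (0 : ℝ) < ((D - δ : ℤ) : ℝ) := by exact_mod_cast (by omega : 0 < D - δ)
      have h4 : (δ : ℝ) * ((m : ℝ) + 1) ≤ ((D - δ : ℤ) : ℝ) := by exact_mod_cast hMD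
      rw [div_le_iff₀ h3]
      have h5 : (0 : ℝ) < (m : ℝ) + 1 := by positivity
      calc (δ : ℝ) = ((m : ℝ) + 1)⁻¹ * (δ * ((m : ℝ) + 1)) := by field_simp
        _ ≤ ((m : ℝ) + 1)⁻¹ * ((D - δ : ℤ) : ℝ) := mul_le_mul_of_nonneg_left h4 (by positivity)
        _ ≤ 2 * ((m : ℝ) + 1)⁻¹ * ((D - δ : ℤ) : ℝ) := by
            have : 0 ≤ ((m : ℝ) + 1)⁻¹ * ((D - δ : ℤ) : ℝ) := by positivity
            linarith
  have h6 := multi_arms hpb L (by positivity : (0 : ℝ) ≤ 1 / (4 * l)) _ hinc hp n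
  refine h6.trans ?_
  have e3 : 2 * (1 / (4 * l)) = 1 / (2 * l) := by field_simp; norm_num
  rw [e3]
  refine mul_le_mul_of_nonneg_right ?_ (by positivity)
  refine pow_le_pow_right₀ (by norm_num) ?_
  rw [Int.card_Icc]
  have h7 : (((N / δ + 1 - 0).toNat : ℕ) : ℤ) = N / δ + 1 := by
    rw [Int.toNat_of_nonneg]
    · ring
    · have := Int.ediv_nonneg hN (by omega : 0 ≤ δ)
      omega
  have h8 : ((N / δ : ℤ) : ℝ) ≤ 2 * Q * ((m : ℝ) + 2) := by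
    have h9 : ((N / δ : ℤ) : ℝ) * δ ≤ N := by exact_mod_cast Int.ediv_mul_le N (by omega : δ ≠ 0)
    have h10 : ((N / δ : ℤ) : ℝ) * δ ≤ 2 * Q * ((m : ℝ) + 2) * δ := by
      calc ((N / δ : ℤ) : ℝ) * δ ≤ N := h9
        _ ≤ Q * D := hNQ
        _ ≤ Q * (2 * δ * ((m : ℝ) + 2)) := mul_le_mul_of_nonneg_left hD' (by linarith)
        _ = _ := by ring
    exact le_of_mul_le_mul_right h10 (by linarith)
  have h11 : (((N / δ + 1 - 0).toNat : ℕ) : ℝ) ≤ 2 * Q * ((m : ℝ) + 2) + 1 := by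
    have : (((N / δ + 1 - 0).toNat : ℕ) : ℝ) = ((N / δ : ℤ) : ℝ) + 1 := by exact_mod_cast h7
    rw [this]; linarith
  have h12 := h11.trans (Nat.le_ceil _)
  exact_mod_cast h12

end Pool.Agent.H59.Q1
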