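import Mathlib
import Pool.Agent.H59.Q1.Bits

set_option autoImplicit false
open Finset

/-!
# Views of a configuration

`pull π fl E' ω` : the labels `l` of `E'` whose original `π l` is present (absent if `fl l`). `Ex_pull` : law
of a view. `loc_pull` : locality.
-/

namespace Pool.Agent.H59.Q1

open Pool.Agent.H75.Perc Pool.Agent.H99.NC

section gen

variable {α β : Type*} [DecidableEq α] [DecidableEq β]

/-- a view -/
noncomputable def pull (π : β → α) (fl : β → Prop) (E' : Finset β) (ω : Finset α) : Finset β := by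
  classical
  exact E'.filter (fun l => (fl l ∧ π l ∉ ω) ∨ (¬ fl l ∧ π l ∈ ω))

variable {π : β → α} {fl : β → Prop} {q : α → ℝ} {q' : β → ℝ} {E ω ω' : Finset α} {E' : Finset β} {l : β}

omit [DecidableEq β] in
lemma mem_pull : l ∈ pull π fl E' ω ↔ l ∈ E' ∧ ((fl l ∧ π l ∉ ω) ∨ (¬ fl l ∧ π l ∈ ω)) := by
  classical
  unfold pull
  rw [mem_filter]

omit [DecidableEq β] in
lemma pull_sub : pull π fl E' ω ⊆ E' := fun _ hl => (mem_pull.1 hl).1

/-- **law of a view** -/
theorem Ex_pull (hinj : ∀ l ∈ E', ∀ l' ∈ E', π l = π l' → l = l') (hm : ∀ l ∈ E', π l ∈ E)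
    (h1 : ∀ l ∈ E', fl l → q' l = 1 - q (π l)) (h0 : ∀ l ∈ E', ¬ fl l → q' l = q (π l))
    (f : Finset β → ℝ) : Ex q E (fun ω => f (pull π fl E' ω)) = Ex q' E' f := by
  induction E' using Finset.induction_on generalizing E f with
  | empty =>
    have e : ∀ ω : Finset α, pull π fl (∅ : Finset β) ω = ∅ := fun ω => by
      unfold pull; simp
    simp only [e]
    rw [Ex_const, Ex_empty]
  | insert e E' he ih =>
    have hne : ∀ l ∈ E', π l ≠ π e := fun l hl h => by
      have := hinj l (mem_insert_of_mem hl) e (mem_insert_self _ _) h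
      exact he (this ▸ hl)
    have ih' : ∀ f : Finset β → ℝ, Ex q (E.erase (π e)) (fun ω => f (pull π fl E' ω)) = Ex q' E' f :=
      fun f => ih (E := E.erase (π e))
        (fun l hl l' hl' => hinj l (mem_insert_of_mem hl) l' (mem_insert_of_mem hl'))
        (fun l hl => mem_erase.2 ⟨hne l hl, hm l (mem_insert_of_mem hl)⟩)
        (fun l hl => h1 l (mem_insert_of_mem hl)) (fun l hl => h0 l (mem_insert_of_mem hl)) f
    have hE : insert (π e) (E.erase (π e)) = E := insert_erase (hm e (mem_insert_self _ _))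
    have e1 : Ex q E (fun ω => f (pull π fl (insert e E') ω)) =
        Ex q (insert (π e) (E.erase (π e))) (fun ω => f (pull π fl (insert e E') ω)) := by rw [hE]
    rw [e1, Ex_insert q (notMem_erase _ _), Ex_insert q' he]
    have hins : ∀ ω, pull π fl E' (insert (π e) ω) = pull π fl E' ω := by
      intro ω
      ext l
      rw [mem_pull, mem_pull]
      refine and_congr_right fun hl => ?_
      rw [mem_insert]
      have := hne l hl
      tauto
    by_cases hfl : fl e
    · have a0 : ∀ ω, ω ⊆ E.erase (π e) → f (pull π fl (insert e E') ω) =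
          f (insert e (pull π fl E' ω)) := by
        intro ω hω
        congr 1
        ext l
        rw [mem_pull, mem_insert, mem_insert, mem_pull]
        constructor
        · rintro ⟨rfl | h3, h4⟩
          · exact Or.inl rfl
          · exact Or.inr ⟨h3, h4⟩
        · rintro (rfl | ⟨h3, h4⟩)
          · exact ⟨Or.inl rfl, Or.inl ⟨hfl, fun h5 => notMem_erase _ _ (hω h5)⟩⟩
          · exact ⟨Or.inr h3, h4⟩
      have a1 : ∀ ω, ω ⊆ E.erase (π e) → f (pull π fl (insert e E') (insert (π e) ω)) =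
          f (pull π fl E' ω) := by
        intro ω _
        congr 1
        ext l
        rw [← hins ω, mem_pull, mem_insert, mem_pull]
        constructor
        · rintro ⟨rfl | h3, h4⟩
          · rcases h4 with h4 | h4
            · exact absurd (mem_insert_self _ _) h4.2
            · exact absurd hfl h4.1
          · exact ⟨h3, h4⟩
        · rintro ⟨h3, h4⟩
          exact ⟨Or.inr h3, h4⟩
      rw [Ex_congr a0, Ex_congr a1, ih' (fun S => f (insert e S)), ih' f,
        h1 e (mem_insert_self _ _) hfl]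
      ring
    · have a0 : ∀ ω, ω ⊆ E.erase (π e) → f (pull π fl (insert e E') ω) = f (pull π fl E' ω) := by
        intro ω hω
        congr 1
        ext l
        rw [mem_pull, mem_insert, mem_pull]
        constructor
        · rintro ⟨rfl | h3, h4⟩
          · rcases h4 with h4 | h4
            · exact absurd h4.1 hfl
            · exact absurd (hω h4.2) (notMem_erase _ _)
          · exact ⟨h3, h4⟩
        · rintro ⟨h3, h4⟩
          exact ⟨Or.inr h3, h4⟩
      have a1 : ∀ ω, ω ⊆ E.erase (π e) → f (pull π fl (insert e E') (insert (π e) ω)) =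
          f (insert e (pull π fl E' ω)) := by
        intro ω _
        congr 1
        ext l
        rw [← hins ω]
        simp only [mem_pull, mem_insert]
        constructor
        · rintro ⟨rfl | h3, h4⟩
          · exact Or.inl rfl
          · exact Or.inr ⟨h3, h4⟩
        · rintro (rfl | ⟨h3, h4⟩)
          · exact ⟨Or.inl rfl, Or.inr ⟨hfl, Or.inl rfl⟩⟩
          · exact ⟨Or.inr h3, h4⟩
      rw [Ex_congr a0, Ex_congr a1, ih' (fun S => f (insert e S)), ih' f,
        h0 e (mem_insert_self _ _) hfl]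

theorem PrP_pull (hinj : ∀ l ∈ E', ∀ l' ∈ E', π l = π l' → l = l') (hm : ∀ l ∈ E', π l ∈ E)
    (h1 : ∀ l ∈ E', fl l → q' l = 1 - q (π l)) (h0 : ∀ l ∈ E', ¬ fl l → q' l = q (π l))
    (A : Finset β → Prop) : PrP q E (fun ω => A (pull π fl E' ω)) = PrP q' E' A :=
  Ex_pull hinj hm h1 h0 (fun S => ind (A S))

end gen

variable {π : ℤ × ℤ → ℤ × ℤ} {fl : ℤ × ℤ → Prop} {q q' : ℤ × ℤ → ℝ} {E E' F ω : Finset (ℤ × ℤ)}
  {A : Finset (ℤ × ℤ) → Prop}

/-- **locality of a view** -/
theorem loc_pull (h : Loc E' F A) : Loc E ((E' ∩ F).image π) (fun ω => A (pull π fl E' ω)) := by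
  intro ω _
  simp only
  rw [h _ pull_sub, h (pull π fl E' (ω ∩ (E' ∩ F).image π)) pull_sub]
  have e : pull π fl E' ω ∩ F = pull π fl E' (ω ∩ (E' ∩ F).image π) ∩ F := by
    ext l
    rw [mem_inter, mem_inter, mem_pull, mem_pull, mem_inter]
    constructor
    · rintro ⟨⟨h1, h2⟩, h3⟩
      have h4 : π l ∈ (E' ∩ F).image π := mem_image_of_mem _ (mem_inter.2 ⟨h1, h3⟩)
      exact ⟨⟨h1, by tauto⟩, h3⟩
    · rintro ⟨⟨h1, h2⟩, h3⟩
      have h4 : π l ∈ (E' ∩ F).image π := mem_image_of_mem _ (mem_inter.2 ⟨h1, h3⟩)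
      exact ⟨⟨h1, by tauto⟩, h3⟩
  rw [e]

end Pool.Agent.H59.Q1
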