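import Mathlib
import Pool.Agent.H59.Q1.CornP
import Pool.Agent.H59.Q1.View
import Pool.Agent.H23.TC.BitsMain

set_option autoImplicit false
open Finset

/-!
# The corner hypothesis from helper23's theorem

`CQ L x0 N τ f g D` : near the end `τ` of the wall the layer is a quadrant. `utg_corner` : an untied
crossing of an annulus around this end has probability at most `C (ρ / M) ^ (1 + α)`.
-/

namespace Pool.Agent.H59.Q1

open Pool.Agent.H75.Perc Pool.Agent.H75.TwoArm Pool.Agent.H75.Four Pool.Agent.H49.Perc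
open Pool.Agent.H99.NC Pool.Agent.H60.Q1 Pool.Agent.H20.Q1
open Pool.Agent.H23.TC (UT AA bt bits_corner B2 mem_AA dG)

/-- the layer near an end of the wall (`κ = 1`) -/
structure CQ (L : Finset (ℤ × ℤ)) (x0 : ℤ × ℤ) (N τ f g D : ℤ) : Prop where
  side : (f = -1 ∧ τ = 0) ∨ (f = 1 ∧ τ = N)
  quad : ∀ l ∈ BR (wp 1 x0 τ) D, (l ∈ L ↔ 2 * ht 1 x0 ≤ ht 1 l ∧ 2 * g ≤ f * (l.2 - l.1))
  off : 0 ≤ f * ((wp 1 x0 τ).2 - (wp 1 x0 τ).1) - g ∧ f * ((wp 1 x0 τ).2 - (wp 1 x0 τ).1) - g ≤ 3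

variable {σ : ℝ} {κ s ε : ℤ} {q : ℤ × ℤ → ℝ} {x y z w v x0 c p l : ℤ × ℤ}
  {t t' a b j ρ ρ1 R r m a0 D N n M τ k u δ f g : ℤ} {E F G L V ω ω1 ω2 ζ η : Finset (ℤ × ℤ)}

/-- ties of a set of vertices -/
noncomputable def Td (V : Finset (ℤ × ℤ)) : Finset (ℤ × ℤ) := V.image (fun y => y + y)

lemma mem_Td : y + y ∈ Td V ↔ y ∈ V := by
  unfold Td
  rw [mem_image]
  exact ⟨fun ⟨z, h1, h2⟩ => dd_inj h2 ▸ h1, fun h => ⟨y, h, rfl⟩⟩

lemma even_Td (h : l ∈ Td V) : (l.1 + l.2) % 2 = 0 := by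
  unfold Td at h
  obtain ⟨t, -, rfl⟩ := mem_image.1 h
  simp only [Prod.fst_add, Prod.snd_add]
  omega

/-- the iterated mean as one probability -/
lemma bt_eq (hodd : ∀ l ∈ E, (l.1 + l.2) % 2 = 1) {A : Finset (ℤ × ℤ) → Finset (ℤ × ℤ) → Prop} :
    PrP (qb σ) (E ∪ Td V) (fun ζ => A (ζ ∩ E) (V.filter (fun y => y + y ∈ ζ))) =
      Ex hf E (fun ω => Ex (fun _ => 1 - σ) V (fun T => ind (A ω T))) := by
  classical
  have hd : Disjoint E (Td V) := by
    rw [disjoint_left]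
    intro l h1 h2
    have := hodd l h1
    have := even_Td h2
    omega
  unfold PrP
  rw [Ex_union _ hd, Ex_congr_q (q := qb σ) (q' := hf) (E := E) (fun l hl => by
    unfold qb
    rw [if_pos (hodd l hl)])]
  refine Ex_congr fun ω1 h1 => ?_
  have e : Td V = V.map ⟨fun y => y + y, fun x y h => dd_inj h⟩ := by
    unfold Td
    rw [map_eq_image]
    rfl
  have key : ∀ ω2, ω2 ⊆ Td V → (fun ω2 => ind (A ((ω1 ∪ ω2) ∩ E)
      (V.filter (fun y => y + y ∈ ω1 ∪ ω2)))) ω2 =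
      (fun ω2 => ind (A ω1 (V.filter (fun y => y + y ∈ ω2)))) ω2 := by
    intro ω2 h2
    simp only
    have e1 : (ω1 ∪ ω2) ∩ E = ω1 := by
      ext l
      rw [mem_inter, mem_union]
      constructor
      · rintro ⟨h3 | h3, h4⟩
        · exact h3
        · exact absurd (h2 h3) (disjoint_left.1 hd h4)
      · intro h3
        exact ⟨Or.inl h3, h1 h3⟩
    have e2 : V.filter (fun y => y + y ∈ ω1 ∪ ω2) = V.filter (fun y => y + y ∈ ω2) := by
      refine filter_congr fun y hy => ?_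
      rw [mem_union]
      have : y + y ∉ ω1 := fun h3 => disjoint_left.1 hd (h1 h3) (mem_Td.2 hy)
      tauto
    rw [e1, e2]
  rw [Ex_congr key, e, Ex_map]
  have e3 : Ex (fun y => qb σ ((⟨fun y => y + y, fun x y h => dd_inj h⟩ : ℤ × ℤ ↪ ℤ × ℤ) y)) V
      (fun T => ind (A ω1 (V.filter (fun y => y + y ∈
        T.map ⟨fun y => y + y, fun x y h => dd_inj h⟩)))) =
      Ex (fun _ => 1 - σ) V (fun T => ind (A ω1 (V.filter (fun y => y + y ∈
        T.map ⟨fun y => y + y, fun x y h => dd_inj h⟩)))) := by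
    refine Ex_congr_q (fun y _ => ?_) _
    unfold qb
    simp only [Function.Embedding.coeFn_mk, Prod.fst_add, Prod.snd_add]
    rw [if_neg (by omega)]
  rw [e3]
  refine Ex_congr fun T hT => ?_
  congr 2
  ext y
  rw [mem_filter, mem_map]
  simp only [Function.Embedding.coeFn_mk]
  constructor
  · rintro ⟨-, z, h2, h3⟩
    exact dd_inj h3 ▸ h2
  · intro h2
    exact ⟨hT h2, y, h2, rfl⟩

/-- **untied crossings at an end of the wall** -/
theorem utg_corner : ∃ K A α : ℝ, 0 < K ∧ 0 < A ∧ 0 < α ∧ ∀ (L : Finset (ℤ × ℤ)) (x0 : ℤ × ℤ)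
    (N τ f g D : ℤ), (∀ l ∈ L, (l.1 + l.2) % 2 = 1) → CQ L x0 N τ f g D → D ≤ N →
    ∀ σ : ℝ, 1 / 4 ≤ σ → σ < 1 → ∀ a0 : ℤ, 2 ≤ a0 → K ≤ (1 - σ) ^ ((3 : ℝ) / 2) * a0 →
    ∀ ρ M : ℤ, a0 ≤ ρ → ρ < M → M ≤ D →
      PrP (qb σ) (EE 1 L x0 N) (UTg 1 L x0 N (wp 1 x0 τ) ρ M) ≤ A * ((ρ : ℝ) / M) ^ (1 + α) := by
  obtain ⟨C, α, K, hC, hα, hK, hb⟩ := bits_corner
  refine ⟨K, 4 * C, α, by linarith, by positivity, hα, ?_⟩
  intro L x0 N τ f g D hodd hq hDN σ hσ1 hσ2 a0 ha0 hK1 ρ M haρ hρM hMD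
  have hσ0 : 0 ≤ σ := by linarith
  have hpb := qb_pb hσ0 hσ2.le
  have hκ : (1 : ℤ) = 0 ∨ (1 : ℤ) = 1 := Or.inr rfl
  set w := wp 1 x0 τ with hw
  set g1 : ℤ := ht 1 x0 with hg1
  have hwh : ht 1 w = g1 := htw
  set a := AA 1 f g1 g w ρ M with ha
  have hρ : 1 ≤ ρ := by omega
  -- the labels
  have hla : L ∩ Ar w ρ M = a := by
    ext l
    rw [mem_inter, ha, mem_AA]
    unfold Ar
    rw [mem_sdiff]
    constructor
    · rintro ⟨h1, h2, h3⟩
      have h4 := (hq.quad l (BR_mono hMD h2)).1 h1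
      refine ⟨⟨h2, h3⟩, ?_, h4.2⟩
      have h5 := h4.1
      rw [← hg1] at h5
      unfold ht at h5
      linarith
    · rintro ⟨⟨h2, h3⟩, h4, h5⟩
      refine ⟨(hq.quad l (BR_mono hMD h2)).2 ⟨?_, h5⟩, h2, h3⟩
      rw [← hg1]
      unfold ht
      linarith
  have hao : ∀ l ∈ a, (l.1 + l.2) % 2 = 1 := fun l hl => by
    rw [← hla] at hl
    exact hodd l (mem_inter.1 hl).1
  -- the wall vertices in the box
  set V : Finset (ℤ × ℤ) := (Finset.Icc (-M) M).image (fun i => wp 1 w i) with hV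
  have hmV : ∀ y, y ∈ V ↔ ht 1 y = g1 ∧ inR w M y := by
    intro y
    rw [hV, mem_image]
    constructor
    · rintro ⟨i, hi, rfl⟩
      rw [mem_Icc] at hi
      refine ⟨by rw [htw, hwh], ?_⟩
      have e1 := wp_fst (κ := 1) (x0 := w) (t := i)
      have e2 := wp_snd (κ := 1) (x0 := w) (t := i)
      rw [inR_iff, e1, e2]
      omega
    · rintro ⟨h1, h2⟩
      rw [inR_iff] at h2
      have h3 := of_ht (h1.trans hwh.symm)
      exact ⟨y.1 - w.1, mem_Icc.2 (by omega), h3.symm⟩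
  set X0 : Finset (ℤ × ℤ) := V.filter (fun y => y + y ∉ Tt 1 x0 N ∧ g ≤ f * (y.2 - y.1)) with hX0
  have hX1 : X0.card ≤ 1 := by
    have hoff := hq.off
    rw [← hw] at hoff
    have : X0 ⊆ {wp 1 x0 (τ + f)} := by
      intro y hy
      rw [hX0, mem_filter, hmV] at hy
      obtain ⟨⟨h1, h2⟩, h3, h4⟩ := hy
      have h5 := of_ht (h1.trans hg1)
      set i := y.1 - x0.1 with hi
      have h6 : ¬ (0 ≤ i ∧ i ≤ N) := fun h7 => h3 (by
        rw [h5]
        exact mem_image_of_mem _ (mem_Icc.2 h7))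
      have h7 : wp 1 x0 i ∈ V := by rw [← h5, hmV]; exact ⟨h1, h2⟩
      rw [inR_iff] at h2
      rw [h5] at h2 h4
      rw [hw] at h2 hoff
      simp only [wp_fst, wp_snd] at h2 h4 hoff
      rw [mem_singleton, h5]
      congr 1
      rcases hq.side with ⟨e1, e2⟩ | ⟨e1, e2⟩ <;> rw [e1] at h4 hoff ⊢ <;> rw [e2] at h2 hoff ⊢ <;>
        omega
    exact (card_le_card this).trans (card_singleton _).le
  -- the big space
  set E2 : Finset (ℤ × ℤ) := EE 1 L x0 N ∪ Td V with hE2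
  have hLE : L ⊆ E2 := subset_union_left.trans subset_union_left
  have hsub : Td V ⊆ E2 := subset_union_right
  have hF : E2 ∩ (Ar w ρ M ∪ TF4 1 x0 N w ρ) = EE 1 L x0 N ∩ (Ar w ρ M ∪ TF4 1 x0 N w ρ) := by
    ext l
    rw [mem_inter, mem_inter]
    refine and_congr_left fun h1 => ?_
    rw [hE2, mem_union]
    constructor
    · rintro (h2 | h2)
      · exact h2
      · rcases mem_union.1 h1 with h3 | h3
        · have h4 := odd_BR (Ar_sub h3)
          have h5 := even_Td h2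
          omega
        · exact mem_union_right _ (mem_filter.1 h3).1
    · exact Or.inl
  have e1 : PrP (qb σ) (EE 1 L x0 N) (UTg 1 L x0 N w ρ M) = PrP (qb σ) E2 (UTg 1 L x0 N w ρ M) := by
    rw [PrP_loc (qb σ) (UTg_loc (κ := 1) (x0 := x0) (N := N) (L := L) (c := w)
      (E := EE 1 L x0 N) hρM), PrP_loc (qb σ) (UTg_loc (κ := 1) (x0 := x0) (N := N) (L := L)
      (c := w) (E := E2) hρM), hF]
  -- no tie on `X0`
  have hav : PrP (qb σ) E2 (fun ζ => ζ ∩ Td X0 = ∅) = σ ^ X0.card := by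
    have h1 : Td X0 ⊆ E2 := (image_subset_image (filter_subset _ _)).trans hsub
    rw [PrP_avoid h1, prod_congr rfl (g := fun _ => σ) fun l hl => by
      unfold qb
      have := even_Td hl
      rw [if_neg (by omega)]
      ring, prod_const]
    congr 1
    exact card_image_of_injective _ (fun x y h => dd_inj h)
  have hL2 : Loc E2 (Td X0) (fun ζ => ζ ∩ Td X0 = ∅) := by
    intro ω _
    simp only
    rw [inter_assoc, inter_self]
  have hdis : Disjoint (Ar w ρ M ∪ TF4 1 x0 N w ρ) (Td X0) := by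
    rw [disjoint_left]
    intro l h1 h2
    rcases mem_union.1 h1 with h3 | h3
    · have h4 := odd_BR (Ar_sub h3)
      have h5 := even_Td h2
      omega
    · obtain ⟨y, hy, rfl⟩ := mem_image.1 h2
      exact (mem_filter.1 hy).2.1 (mem_filter.1 h3).1
  have hind := PrP_ind (qb σ) (UTg_loc (κ := 1) (x0 := x0) (N := N) (L := L) (c := w) (E := E2) hρM)
    hL2 (dis hdis)
  -- comparison
  have hcmp : PrP (qb σ) E2 (fun ζ => UTg 1 L x0 N w ρ M ζ ∧ ζ ∩ Td X0 = ∅) ≤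
      PrP (qb σ) E2 (fun ζ => UT a w ρ M (ζ ∩ a) (V.filter (fun y => y + y ∈ ζ))) := by
    refine PrP_mono hpb fun ζ _ hζ => ?_
    obtain ⟨⟨p, v, h1, h2, h3, h4⟩, h5⟩ := hζ
    have e : ζ ∩ a ∩ a = ζ ∩ (L ∩ Ar w ρ M) := by rw [inter_assoc, inter_self, hla]
    refine ⟨p, v, h1, h2, ?_, ?_⟩
    · rw [e]; exact h3
    · intro y hy hc
      rw [e] at hc
      obtain ⟨h6, h7⟩ := mem_filter.1 hy
      obtain ⟨h8, h9⟩ := (hmV y).1 h6
      by_cases h10 : y + y ∈ Tt 1 x0 N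
      · obtain ⟨t, ht, hty⟩ := mem_image.1 h10
        rw [mem_Icc] at ht
        have h11 := dd_inj hty
        rw [← h11] at hc h7
        exact h4 t ht.1 ht.2 hc h7
      · -- the vertex is in the quadrant
        have hne : p ≠ v := near_ne_far hρM h1 h2
        have hlab : ∃ z', IsUnit4 (y - z') ∧ z' + y ∈ ζ ∩ (L ∩ Ar w ρ M) := by
          by_cases hpy : p = y
          · subst hpy
            rcases Relation.ReflTransGen.cases_head h3 with h11 | ⟨z', h11, -⟩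
            · exact absurd h11 hne
            · refine ⟨z', ?_, by rw [add_comm]; exact h11.2⟩
              have := isUnit4_neg h11.1
              rwa [neg_sub] at this
          · obtain ⟨z', h11, h12, -⟩ := end_in hc hpy
            exact ⟨z', h11, h12⟩
        obtain ⟨z', h11, h12⟩ := hlab
        rw [hla, ha] at h12
        have h13 := (mem_AA.1 (mem_inter.1 h12).2).2
        unfold dG at h13
        simp only [Prod.fst_add, Prod.snd_add] at h13
        have h14 := unit_cases h11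
        have h15 : y ∈ X0 := by
          rw [hX0, mem_filter]
          refine ⟨h6, h10, ?_⟩
          rcases hq.side with ⟨e1, -⟩ | ⟨e1, -⟩ <;> rw [e1] at h13 ⊢ <;> omega
        have h16 : y + y ∈ ζ ∩ Td X0 := mem_inter.2 ⟨h7, mem_Td.2 h15⟩
        rw [h5] at h16
        exact notMem_empty _ h16
  -- the iterated form
  have hbt : PrP (qb σ) E2 (fun ζ => UT a w ρ M (ζ ∩ a) (V.filter (fun y => y + y ∈ ζ))) =
      bt σ a V a w ρ M := by
    have hL3 : Loc E2 (a ∪ Td V) (fun ζ => UT a w ρ M (ζ ∩ a) (V.filter (fun y => y + y ∈ ζ))) := by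
      intro ω _
      simp only
      have e3 : ω ∩ (a ∪ Td V) ∩ a = ω ∩ a := by
        rw [inter_assoc, inter_eq_right.2 subset_union_left]
      have e4 : V.filter (fun y => y + y ∈ ω ∩ (a ∪ Td V)) = V.filter (fun y => y + y ∈ ω) := by
        refine filter_congr fun y hy => ?_
        rw [mem_inter]
        have : y + y ∈ a ∪ Td V := mem_union_right _ (mem_Td.2 hy)
        tauto
      rw [e3, e4]
    have haE : a ⊆ E2 := by
      rw [← hla]
      exact inter_subset_left.trans hLE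
    rw [PrP_loc _ hL3, inter_eq_right.2 (union_subset haE hsub), bt_eq hao]
    rfl
  have hfin : bt σ a V a w ρ M ≤ C * ((ρ : ℝ) / M) ^ (1 + α) := by
    refine (hb 1 (Or.inl rfl)).2 f g1 g w σ a0 ?_ ?_ ?_ hσ0 hσ2 hK1 ρ M haρ hρM.le a V
      (Subset.refl _) ?_
    · rcases hq.side with h | h
      · exact Or.inr h.1
      · exact Or.inl h.1
    · have : 1 * (w.1 + w.2) - g1 = 0 := by
        rw [← hwh]; unfold ht; ring
      rw [this]; norm_num
    · have hoff := hq.off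
      rw [← hw] at hoff
      rw [abs_le]; omega
    · intro y hy1 hy2
      rw [hmV]
      refine ⟨?_, hy1⟩
      rw [← hy2]; unfold ht; ring
  have hσc : (1 : ℝ) / 4 ≤ σ ^ X0.card := by
    rcases Nat.le_one_iff_eq_zero_or_eq_one.1 hX1 with h | h
    · rw [h, pow_zero]; norm_num
    · rw [h, pow_one]; exact hσ1
  have hp0 : 0 ≤ PrP (qb σ) E2 (UTg 1 L x0 N w ρ M) := PrP_nonneg hpb _ _
  have h1 : PrP (qb σ) E2 (UTg 1 L x0 N w ρ M) * (1 / 4) ≤ C * ((ρ : ℝ) / M) ^ (1 + α) := by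
    calc PrP (qb σ) E2 (UTg 1 L x0 N w ρ M) * (1 / 4) ≤
          PrP (qb σ) E2 (UTg 1 L x0 N w ρ M) * σ ^ X0.card := mul_le_mul_of_nonneg_left hσc hp0
      _ = PrP (qb σ) E2 (fun ζ => UTg 1 L x0 N w ρ M ζ ∧ ζ ∩ Td X0 = ∅) := by rw [hind, hav]
      _ ≤ _ := hcmp.trans (le_of_eq hbt)
      _ ≤ _ := hfin
  rw [e1]
  linarith

end Pool.Agent.H59.Q1
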