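import Mathlib
import Pool.Agent.H59.Q1.PairS

set_option autoImplicit false
open Finset

/-!
# Two distinct untied classes with flat first contacts
-/

namespace Pool.Agent.H59.Q1

open Pool.Agent.H75.Perc Pool.Agent.H75.TwoArm Pool.Agent.H75.Four Pool.Agent.H49.Perc
open Pool.Agent.H99.NC Pool.Agent.H60.Q1 Pool.Agent.H20.Q1

variable {σ : ℝ} {κ s ε : ℤ} {q : ℤ × ℤ → ℝ} {x y z w u v x0 : ℤ × ℤ}
  {t t' a b j ρ ρ1 R r m a0 D N n : ℤ} {E F G L ω ω1 ω2 ζ : Finset (ℤ × ℤ)}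

/-- two distinct untied macroscopic classes with flat first contacts -/
def FP (κ : ℤ) (L : Finset (ℤ × ℤ)) (x0 : ℤ × ℤ) (N ρ1 R : ℤ) (ζ : Finset (ℤ × ℤ)) : Prop :=
  ∃ t t' : ℤ, ρ1 ≤ t ∧ t < t' ∧ t' + ρ1 ≤ N ∧
    (Mc L R (wp κ x0 t) ζ ∧ Rep κ L x0 N 1 t ζ ∧ Un κ L x0 N (wp κ x0 t) ζ) ∧
    (Mc L R (wp κ x0 t') ζ ∧ Rep κ L x0 N 1 t' ζ ∧ Un κ L x0 N (wp κ x0 t') ζ) ∧
    ¬ Co (ζ ∩ L) (wp κ x0 t) (wp κ x0 t')

/-- algebra of the near term -/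
lemma near_alg {c A j a ρ : ℝ} (hj : 0 < j) (ha : 0 < a) (hρ : 0 < ρ) :
    (A * (4 / j) * (4 * a / j) ^ ((1 + c / 2) / 2)) * ((A * (4 / j) * (4 * a / j) ^ ((1 + c / 2) / 2)) *
      (8 * j / ρ) ^ (2 + c)) =
    A ^ 2 * 16 * 4 ^ (1 + c / 2) * 8 ^ (2 + c) * a ^ (1 + c / 2) * (ρ ^ (2 + c))⁻¹ *
      j ^ (c / 2 - 1) := by
  have h1 : (4 * a / j) ^ ((1 + c / 2) / 2) * (4 * a / j) ^ ((1 + c / 2) / 2) =
      4 ^ (1 + c / 2) * a ^ (1 + c / 2) / j ^ (1 + c / 2) := by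
    rw [← Real.rpow_add (by positivity), Real.div_rpow (by positivity) hj.le,
      Real.mul_rpow (by norm_num) ha.le]
    have : (1 + c / 2) / 2 + (1 + c / 2) / 2 = 1 + c / 2 := by ring
    rw [this]
  have h2 : (8 * j / ρ) ^ (2 + c) = 8 ^ (2 + c) * (j ^ 2 * j ^ (1 + c / 2) * j ^ (c / 2 - 1)) /
      ρ ^ (2 + c) := by
    rw [Real.div_rpow (by positivity) hρ.le, Real.mul_rpow (by norm_num) hj.le]
    have : j ^ (2 + c) = j ^ 2 * j ^ (1 + c / 2) * j ^ (c / 2 - 1) := by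
      rw [← Real.rpow_two, ← Real.rpow_add hj, ← Real.rpow_add hj]
      congr 1
      ring
    rw [this]
  have h3 : 0 < j ^ (1 + c / 2) := Real.rpow_pos_of_pos hj _
  calc _ = A ^ 2 * 16 / j ^ 2 * ((4 * a / j) ^ ((1 + c / 2) / 2) * (4 * a / j) ^ ((1 + c / 2) / 2)) *
        (8 * j / ρ) ^ (2 + c) := by field_simp; ring
    _ = A ^ 2 * 16 / j ^ 2 * (4 ^ (1 + c / 2) * a ^ (1 + c / 2) / j ^ (1 + c / 2)) *
        (8 ^ (2 + c) * (j ^ 2 * j ^ (1 + c / 2) * j ^ (c / 2 - 1)) / ρ ^ (2 + c)) := by rw [h1, h2]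
    _ = _ := by field_simp

/-- **two untied classes with flat first contacts** -/
theorem flat_pairs : ∃ K C c : ℝ, 0 < K ∧ 0 < C ∧ 0 < c ∧ c ≤ 1 ∧ ∀ (κ : ℤ) (L : Finset (ℤ × ℤ))
    (x0 : ℤ × ℤ) (N D : ℤ), Wall κ L x0 N D → ∀ σ : ℝ, 1 / 4 ≤ σ → σ < 1 → ∀ a0 : ℤ, 2 ≤ a0 →
    K ≤ (1 - σ) ^ ((3 : ℝ) / 2) * a0 → ∀ ρ1 R : ℤ, a0 ≤ ρ1 → ρ1 ≤ D → ρ1 ≤ N → ρ1 ≤ R →
    PrP (qb σ) (EE κ L x0 N) (FP κ L x0 N ρ1 R) ≤
      C * ((N : ℝ) / ρ1) ^ 2 * ((a0 : ℝ) / ρ1) ^ (1 + c) := by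
  obtain ⟨K, C0, hK, hC0, hpS⟩ := pS_bd
  obtain ⟨Ct, c, hCt, hc0, hc1, hT⟩ := twoC_pow
  set C1 : ℝ := C0 ^ 2 * 16 * 4 ^ (1 + c / 2) * 8 ^ (2 + c) * Ct with hC1
  have hC1p : 0 < C1 := by rw [hC1]; positivity
  refine ⟨K, 2 * C1 * (2 / c) + 4 * (C0 * 1024) ^ 2, c / 2, hK, by positivity, by linarith,
    by linarith, ?_⟩
  intro κ L x0 N D h σ hσ1 hσ2 a0 ha0 hK1 ρ1 R haρ hρD hρN hρR
  have hκ := h.hκ
  have hσ0 : 0 ≤ σ := by linarith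
  have hpb := qb_pb hσ0 hσ2.le
  have ha0' : (2 : ℝ) ≤ a0 := by exact_mod_cast ha0
  have haρ' : (a0 : ℝ) ≤ ρ1 := by exact_mod_cast haρ
  have hρN' : (ρ1 : ℝ) ≤ N := by exact_mod_cast hρN
  have hρ0 : (0 : ℝ) < ρ1 := by linarith
  have ha00 : (0 : ℝ) < a0 := by linarith
  set n : ℤ := ρ1 / 2 with hn
  set b : ℤ := ρ1 / 32 with hb
  set T : Finset ℤ := Finset.Icc 0 N with hT'
  set J : Finset ℤ := Finset.Icc 1 (ρ1 / 8) with hJ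
  have hn4 : (ρ1 : ℝ) ≤ 4 * n := by
    have : ρ1 ≤ 4 * n := by omega
    exact_mod_cast this
  have hn0 : (0 : ℝ) < n := by linarith
  -- the two kinds of pairs
  set Ne : ℤ × ℤ → Finset (ℤ × ℤ) → Prop := fun p ζ => (n ≤ p.1 ∧ p.1 + n ≤ N) ∧
    (Lo κ 1 (wp κ x0 p.1) (p.2 / 4) ζ ∧ Lo κ 1 (wp κ x0 (p.1 + p.2)) (p.2 / 4) ζ ∧
      TwoC κ (wp κ x0 p.1) (2 * p.2) n ζ) with hNe
  set Fr : ℤ × ℤ → Finset (ℤ × ℤ) → Prop := fun p ζ => (ρ1 ≤ p.1 ∧ p.1 + ρ1 / 8 < p.2 ∧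
    p.2 + ρ1 ≤ N) ∧ (Lo κ 1 (wp κ x0 p.1) b ζ ∧ Lo κ 1 (wp κ x0 p.2) b ζ) with hFr
  have hsub : ∀ ζ, FP κ L x0 N ρ1 R ζ → (∃ p ∈ T ×ˢ J, Ne p ζ) ∨ ∃ p ∈ T ×ˢ T, Fr p ζ := by
    rintro ζ ⟨t, t', h1, h2, h3, ⟨m1, r1, u1⟩, ⟨m2, r2, u2⟩, hd⟩
    by_cases hj : t' - t ≤ ρ1 / 8
    · left
      refine ⟨(t, t' - t), ?_, ?_⟩
      · rw [mem_product, hT', hJ, mem_Icc, mem_Icc]
        simp only
        omega
      · have e : t + (t' - t) = t' := by ring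
        rw [hNe]
        simp only
        rw [e]
        refine ⟨by omega, h.lo_of (R := R) (by omega) (by omega) (by omega) (by omega) (by omega) m1 r1 u1,
          h.lo_of (R := R) (by omega) (by omega) (by omega) (by omega) (by omega) m2 r2 u2, ?_⟩
        refine h.two_of (R := R) (j := t' - t) (by omega) (by omega) (by omega) (by omega) (by omega)
          (by omega) m1 (by rw [e]; exact m2) r1 (by rw [e]; exact r2) (by rw [e]; exact hd)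
    · right
      refine ⟨(t, t'), ?_, ?_⟩
      · rw [mem_product, hT', mem_Icc, mem_Icc]
        simp only
        omega
      · rw [hFr]
        simp only
        exact ⟨by omega,
          h.lo_of (R := R) (by omega) (by omega) (by omega) (by omega) (by omega) m1 r1 u1,
          h.lo_of (R := R) (by omega) (by omega) (by omega) (by omega) (by omega) m2 r2 u2⟩
  have hcardT : ((T.card : ℕ) : ℝ) ≤ 2 * N := by
    rw [hT', Int.card_Icc]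
    have : (((N + 1 - 0).toNat : ℕ) : ℤ) = N + 1 := by
      rw [Int.toNat_of_nonneg] <;> omega
    have h2 : ((((N + 1 - 0).toNat : ℕ) : ℤ) : ℝ) = (N : ℝ) + 1 := by
      rw [this]; push_cast; ring
    have h3 : (((N + 1 - 0).toNat : ℕ) : ℝ) = (N : ℝ) + 1 := by exact_mod_cast h2
    rw [h3]
    linarith
  -- near pairs
  have hnear : ∀ p ∈ T ×ˢ J, PrP (qb σ) (EE κ L x0 N) (Ne p) ≤
      C1 * (a0 : ℝ) ^ (1 + c / 2) * ((ρ1 : ℝ) ^ (2 + c))⁻¹ * (p.2 : ℝ) ^ (c / 2 - 1) := by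
    rintro ⟨t, j⟩ hp
    rw [mem_product, hT', hJ, mem_Icc, mem_Icc] at hp
    simp only at hp ⊢
    have hj1 : (1 : ℝ) ≤ j := by exact_mod_cast hp.2.1
    have hj0 : (0 : ℝ) < j := by linarith
    by_cases hcase : n ≤ t ∧ t + n ≤ N
    · have h1 : PrP (qb σ) (EE κ L x0 N) (Ne (t, j)) ≤ pS σ κ 1 (j / 4) * (pS σ κ 1 (j / 4) *
          (Ct * (((2 * j : ℤ) : ℝ) / n) ^ (2 + c))) := by
        refine le_trans (PrP_mono hpb fun ω _ hω => ?_) (prob_pair (t := t) (a := j / 4) hT h hσ0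
          (by omega) (by omega) (by omega) (by omega) hcase.1 hcase.2 (by omega))
        exact hω.2
      have hp0 : 0 ≤ pS σ κ 1 (j / 4) := pS_nonneg hσ0
      obtain ⟨g1, g2⟩ := hpS κ hκ 1 (Or.inl rfl) σ hσ1 hσ2 a0 ha0 hK1 (j / 4) (by omega)
      have hr1 : (j : ℝ) / 4 ≤ ((j / 4 : ℤ) : ℝ) + 1 := by
        have : j ≤ 4 * (j / 4 + 1) := by omega
        have h2 : (j : ℝ) ≤ 4 * (((j / 4 : ℤ) : ℝ) + 1) := by exact_mod_cast this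
        linarith
      have hr0 : 0 < ((j / 4 : ℤ) : ℝ) + 1 := by linarith
      have g3 := pS_theta (by linarith : 0 ≤ C0) hr0 ha00 g1 g2
        (by linarith : 0 ≤ (1 + c / 2) / 2) (by linarith)
      have g4 : pS σ κ 1 (j / 4) ≤ C0 * (4 / j) * (4 * a0 / j) ^ ((1 + c / 2) / 2) := by
        refine g3.trans (mul_le_mul (mul_le_mul_of_nonneg_left ?_ (by linarith)) ?_
          (Real.rpow_nonneg (div_nonneg ha00.le hr0.le) _) (by positivity))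
        · rw [inv_le_comm₀ hr0 (by positivity), inv_div]
          exact hr1
        · refine Real.rpow_le_rpow (div_nonneg ha00.le hr0.le) ?_ (by linarith)
          rw [div_le_div_iff₀ hr0 hj0]
          nlinarith only [hr1, ha00]
      have hq0 : 0 ≤ ((2 * j : ℤ) : ℝ) / n := div_nonneg (by push_cast; linarith) hn0.le
      have g5 : Ct * (((2 * j : ℤ) : ℝ) / n) ^ (2 + c) ≤ Ct * (8 * j / ρ1) ^ (2 + c) := by
        refine mul_le_mul_of_nonneg_left (Real.rpow_le_rpow hq0 ?_ (by linarith)) hCt.le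
        push_cast
        rw [div_le_div_iff₀ hn0 hρ0]
        nlinarith only [hn4, hj0]
      have g6 : 0 ≤ Ct * (((2 * j : ℤ) : ℝ) / n) ^ (2 + c) :=
        mul_nonneg hCt.le (Real.rpow_nonneg hq0 _)
      calc _ ≤ _ := h1
        _ ≤ (C0 * (4 / j) * (4 * a0 / j) ^ ((1 + c / 2) / 2)) *
            ((C0 * (4 / j) * (4 * a0 / j) ^ ((1 + c / 2) / 2)) * (Ct * (8 * j / ρ1) ^ (2 + c))) :=
          mul_le_mul g4 (mul_le_mul g4 g5 g6 (hp0.trans g4)) (mul_nonneg hp0 g6) (hp0.trans g4)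
        _ = Ct * ((C0 * (4 / j) * (4 * a0 / j) ^ ((1 + c / 2) / 2)) *
            ((C0 * (4 / j) * (4 * a0 / j) ^ ((1 + c / 2) / 2)) * (8 * j / ρ1) ^ (2 + c))) := by ring
        _ = _ := by
          rw [near_alg hj0 ha00 hρ0, hC1]
          ring
    · have h0 : PrP (qb σ) (EE κ L x0 N) (Ne (t, j)) ≤ 0 := by
        refine (PrP_mono hpb (B := fun _ => False) fun ω _ hω => hcase hω.1).trans (le_of_eq ?_)
        unfold PrP
        rw [Ex_congr (g := fun _ => 0) fun ω _ => ind_false (fun h => h), Ex_const]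
      exact h0.trans (by positivity)
  -- far pairs
  have hfar : ∀ p ∈ T ×ˢ T, PrP (qb σ) (EE κ L x0 N) (Fr p) ≤
      (C0 * 1024) ^ 2 * ((a0 : ℝ) / ρ1 ^ 2) ^ 2 := by
    rintro ⟨t, t'⟩ hp
    by_cases hcase : ρ1 ≤ t ∧ t + ρ1 / 8 < t' ∧ t' + ρ1 ≤ N
    · have hL1 : Loc (EE κ L x0 N) (Fb (wp κ x0 t) b) (Lo κ 1 (wp κ x0 t) b) := Lo_loc hκ (by omega)
      have hL2 : Loc (EE κ L x0 N) (Fb (wp κ x0 t') b) (Lo κ 1 (wp κ x0 t') b) :=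
        Lo_loc hκ (by omega)
      have hd : Disjoint (Fb (wp κ x0 t) b) (Fb (wp κ x0 t') b) := Fb_disj (by
        left
        rw [wp_fst, wp_fst, lt_abs]
        omega)
      have h1 : PrP (qb σ) (EE κ L x0 N) (Fr (t, t')) ≤ pS σ κ 1 b * pS σ κ 1 b := by
        refine (PrP_mono hpb (B := fun ζ => Lo κ 1 (wp κ x0 t) b ζ ∧ Lo κ 1 (wp κ x0 t') b ζ)
          fun ω _ hω => hω.2).trans (le_of_eq ?_)
        rw [PrP_ind (qb σ) hL1 hL2 (Disjoint.mono inter_subset_right inter_subset_right hd),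
          h.prob_Lo (by omega) (by omega) (by omega) (by omega),
          h.prob_Lo (by omega) (by omega) (by omega) (by omega)]
      have hp0 : 0 ≤ pS σ κ 1 b := pS_nonneg hσ0
      obtain ⟨-, g2⟩ := hpS κ hκ 1 (Or.inl rfl) σ hσ1 hσ2 a0 ha0 hK1 b (by omega)
      have hb1 : (ρ1 : ℝ) ≤ 32 * ((b : ℝ) + 1) := by
        have : ρ1 ≤ 32 * (b + 1) := by omega
        exact_mod_cast this
      have g3 : pS σ κ 1 b ≤ C0 * 1024 * (a0 / (ρ1 : ℝ) ^ 2) := by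
        have h5 : (ρ1 : ℝ) ^ 2 ≤ 1024 * ((b : ℝ) + 1) ^ 2 := by nlinarith only [hb1, hρ0]
        have h6 : 0 < (ρ1 : ℝ) ^ 2 := by positivity
        rw [← mul_div_assoc, le_div_iff₀ h6]
        calc pS σ κ 1 b * (ρ1 : ℝ) ^ 2 ≤ pS σ κ 1 b * (1024 * ((b : ℝ) + 1) ^ 2) :=
              mul_le_mul_of_nonneg_left h5 hp0
          _ = 1024 * (pS σ κ 1 b * ((b : ℝ) + 1) ^ 2) := by ring
          _ ≤ 1024 * (C0 * a0) := by linarith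
          _ = _ := by ring
      calc _ ≤ _ := h1
        _ ≤ (C0 * 1024 * (a0 / (ρ1 : ℝ) ^ 2)) * (C0 * 1024 * (a0 / (ρ1 : ℝ) ^ 2)) :=
          mul_le_mul g3 g3 hp0 (hp0.trans g3)
        _ = _ := by ring
    · have h0 : PrP (qb σ) (EE κ L x0 N) (Fr (t, t')) ≤ 0 := by
        refine (PrP_mono hpb (B := fun _ => False) fun ω _ hω => hcase hω.1).trans (le_of_eq ?_)
        unfold PrP
        rw [Ex_congr (g := fun _ => 0) fun ω _ => ind_false (fun h => h), Ex_const]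
      exact h0.trans (by positivity)
  -- the sums
  have hS1 : ∑ p ∈ T ×ˢ J, PrP (qb σ) (EE κ L x0 N) (Ne p) ≤
      2 * N * (C1 * (a0 : ℝ) ^ (1 + c / 2) * ((ρ1 : ℝ) ^ (2 + c))⁻¹ * ((ρ1 : ℝ) ^ (c / 2) * (2 / c))) := by
    refine (sum_le_sum hnear).trans ?_
    rw [sum_product]
    simp only
    rw [sum_const, nsmul_eq_mul, ← mul_sum]
    have h4 := sum_rpow_Icc (β := c / 2) (n := ρ1 / 8) (by linarith) (by linarith) (by omega)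
    have h5 : (((ρ1 / 8 : ℤ) : ℝ)) ^ (c / 2) / (c / 2) ≤ (ρ1 : ℝ) ^ (c / 2) * (2 / c) := by
      have h6 : (((ρ1 / 8 : ℤ) : ℝ)) ≤ ρ1 := by
        have : ρ1 / 8 ≤ ρ1 := by omega
        exact_mod_cast this
      have h7 : (0 : ℝ) ≤ ((ρ1 / 8 : ℤ) : ℝ) := by
        have : 0 ≤ ρ1 / 8 := by omega
        exact_mod_cast this
      have h8 := Real.rpow_le_rpow h7 h6 (by linarith : 0 ≤ c / 2)
      have e : (ρ1 : ℝ) ^ (c / 2) * (2 / c) = (ρ1 : ℝ) ^ (c / 2) / (c / 2) := by field_simp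
      rw [e]
      exact div_le_div_of_nonneg_right h8 (by linarith)
    have h9 : ∑ j ∈ J, (j : ℝ) ^ (c / 2 - 1) ≤ (ρ1 : ℝ) ^ (c / 2) * (2 / c) := h4.trans h5
    have h10 : 0 ≤ ∑ j ∈ J, (j : ℝ) ^ (c / 2 - 1) := sum_nonneg fun j hj => by
      rw [hJ, mem_Icc] at hj
      have : (0 : ℝ) ≤ j := by exact_mod_cast (by omega : 0 ≤ j)
      positivity
    have h11 : 0 ≤ C1 * (a0 : ℝ) ^ (1 + c / 2) * ((ρ1 : ℝ) ^ (2 + c))⁻¹ := by positivity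
    exact mul_le_mul hcardT (mul_le_mul_of_nonneg_left h9 h11) (mul_nonneg h11 h10) (by linarith)
  have hS2 : ∑ p ∈ T ×ˢ T, PrP (qb σ) (EE κ L x0 N) (Fr p) ≤
      (2 * N) ^ 2 * ((C0 * 1024) ^ 2 * ((a0 : ℝ) / ρ1 ^ 2) ^ 2) := by
    refine (sum_le_sum hfar).trans ?_
    rw [sum_const, nsmul_eq_mul, card_product]
    push_cast
    refine mul_le_mul_of_nonneg_right ?_ (by positivity)
    rw [sq]
    exact mul_le_mul hcardT hcardT (Nat.cast_nonneg _) (by linarith)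
  have hP : PrP (qb σ) (EE κ L x0 N) (FP κ L x0 N ρ1 R) ≤
      ∑ p ∈ T ×ˢ J, PrP (qb σ) (EE κ L x0 N) (Ne p) +
      ∑ p ∈ T ×ˢ T, PrP (qb σ) (EE κ L x0 N) (Fr p) := by
    refine (PrP_mono hpb fun ω _ hω => hsub ω hω).trans ((PrP_or_le hpb _ _ _).trans ?_)
    exact add_le_add (PrP_exists_le hpb _ _ _) (PrP_exists_le hpb _ _ _)
  refine hP.trans ((add_le_add hS1 hS2).trans ?_)
  -- final algebra
  have hx0 : 0 < (a0 : ℝ) / ρ1 := by positivity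
  have hx1 : (a0 : ℝ) / ρ1 ≤ 1 := by rw [div_le_one hρ0]; exact haρ'
  have hy1 : 1 ≤ (N : ℝ) / ρ1 := by rw [le_div_iff₀ hρ0]; linarith
  have e1 : 2 * N * (C1 * (a0 : ℝ) ^ (1 + c / 2) * ((ρ1 : ℝ) ^ (2 + c))⁻¹ *
      ((ρ1 : ℝ) ^ (c / 2) * (2 / c))) =
      2 * C1 * (2 / c) * ((N : ℝ) / ρ1) * ((a0 : ℝ) / ρ1) ^ (1 + c / 2) := by
    have e2 : (ρ1 : ℝ) ^ (2 + c) = ρ1 * (ρ1 : ℝ) ^ (1 + c / 2) * (ρ1 : ℝ) ^ (c / 2) := by
      nth_rewrite 2 [← Real.rpow_one (ρ1 : ℝ)]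
      rw [← Real.rpow_add hρ0, ← Real.rpow_add hρ0]
      congr 1
      ring
    rw [e2, Real.div_rpow ha00.le hρ0.le]
    have h3 : 0 < (ρ1 : ℝ) ^ (1 + c / 2) := Real.rpow_pos_of_pos hρ0 _
    have h4 : 0 < (ρ1 : ℝ) ^ (c / 2) := Real.rpow_pos_of_pos hρ0 _
    field_simp
  have e3 : (2 * (N : ℝ)) ^ 2 * ((C0 * 1024) ^ 2 * ((a0 : ℝ) / ρ1 ^ 2) ^ 2) =
      4 * (C0 * 1024) ^ 2 * ((N : ℝ) / ρ1) ^ 2 * ((a0 : ℝ) / ρ1) ^ 2 := by
    field_simp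
    ring
  rw [e1, e3]
  have f1 : ((a0 : ℝ) / ρ1) ^ 2 ≤ ((a0 : ℝ) / ρ1) ^ (1 + c / 2) := by
    rw [← Real.rpow_two]
    exact Real.rpow_le_rpow_of_exponent_ge hx0 hx1 (by linarith)
  have f2 : (N : ℝ) / ρ1 ≤ ((N : ℝ) / ρ1) ^ 2 := by nlinarith only [hy1]
  have f3 : 0 ≤ ((a0 : ℝ) / ρ1) ^ (1 + c / 2) := by positivity
  have f4 : 0 ≤ 2 * C1 * (2 / c) := by positivity
  have f5 : 0 ≤ 4 * (C0 * 1024) ^ 2 * ((N : ℝ) / ρ1) ^ 2 := by positivity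
  calc _ ≤ 2 * C1 * (2 / c) * ((N : ℝ) / ρ1) ^ 2 * ((a0 : ℝ) / ρ1) ^ (1 + c / 2) +
        4 * (C0 * 1024) ^ 2 * ((N : ℝ) / ρ1) ^ 2 * ((a0 : ℝ) / ρ1) ^ (1 + c / 2) :=
        add_le_add (mul_le_mul_of_nonneg_right (mul_le_mul_of_nonneg_left f2 f4) f3)
          (mul_le_mul_of_nonneg_left f1 f5)
    _ = _ := by ring

end Pool.Agent.H59.Q1
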