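import Mathlib
import Pool.Agent.H59.Q1.CornQ
import Pool.Agent.H59.Q1.TwoU
import Pool.Agent.H59.Q1.ClsN

set_option autoImplicit false
open Finset

/-!
# Number of untied macroscopic classes; one family seen from the original configuration
-/

namespace Pool.Agent.H59.Q1

open Pool.Agent.H75.Perc Pool.Agent.H75.TwoArm Pool.Agent.H75.Four Pool.Agent.H49.Perc
open Pool.Agent.H99.NC Pool.Agent.H60.Q1 Pool.Agent.H20.Q1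

/-- contacts of distinct untied classes of radius `≥ R` -/
def Good (κ : ℤ) (L : Finset (ℤ × ℤ)) (x0 : ℤ × ℤ) (N R : ℤ) (ζ : Finset (ℤ × ℤ)) (S : Finset ℤ) :
    Prop :=
  (∀ t ∈ S, Mc L R (wp κ x0 t) ζ ∧ Un κ L x0 N (wp κ x0 t) ζ) ∧
    ∀ t ∈ S, ∀ t' ∈ S, t ≠ t' → ¬ Co (ζ ∩ L) (wp κ x0 t) (wp κ x0 t')

open Classical in
/-- number of untied classes of radius `≥ R` -/
noncomputable def NU (κ : ℤ) (L : Finset (ℤ × ℤ)) (x0 : ℤ × ℤ) (N R : ℤ) (ζ : Finset (ℤ × ℤ)) : ℕ :=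
  ((Finset.Icc 0 N).powerset.filter (Good κ L x0 N R ζ)).sup Finset.card

/-- a wall between two quadrant corners -/
structure WallQ (L : Finset (ℤ × ℤ)) (x0 : ℤ × ℤ) (N D : ℤ) : Prop where
  wall : Wall 1 L x0 N D
  DN : D ≤ N
  c0 : ∃ g, CQ L x0 N 0 (-1) g D
  c1 : ∃ g, CQ L x0 N N 1 g D

/-- flipped labels: the bulk labels of a closed family -/
def flb (c : Bool) (l : ℤ × ℤ) : Prop := c = false ∧ (l.1 + l.2) % 2 = 1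

/-- the view of a family -/
noncomputable def vw (π : ℤ × ℤ → ℤ × ℤ) (c : Bool) (L : Finset (ℤ × ℤ)) (x0 : ℤ × ℤ) (N : ℤ)
    (ω : Finset (ℤ × ℤ)) : Finset (ℤ × ℤ) := pull π (flb c) (EE 1 L x0 N) ω

/-- a family in the space `(q, E)` -/
structure FamQ (q : ℤ × ℤ → ℝ) (E : Finset (ℤ × ℤ)) (σ : ℝ) (L : Finset (ℤ × ℤ)) (x0 : ℤ × ℤ)
    (N D : ℤ) (π : ℤ × ℤ → ℤ × ℤ) : Prop where
  wq : WallQ L x0 N D
  inj : ∀ l ∈ EE 1 L x0 N, ∀ l' ∈ EE 1 L x0 N, π l = π l' → l = l'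
  map : ∀ l ∈ EE 1 L x0 N, π l ∈ E
  qL : ∀ l ∈ L, q (π l) = 1 / 2
  qT : ∀ l ∈ Tt 1 x0 N, q (π l) = 1 - σ

variable {σ : ℝ} {κ s ε : ℤ} {q : ℤ × ℤ → ℝ} {x y z w v x0 x1 c p l : ℤ × ℤ}
  {t t' a b j ρ ρ1 R r m a0 D N N1 n M τ k u δ f g : ℤ} {E F G L L1 V ω ω1 ω2 ζ η : Finset (ℤ × ℤ)}
  {π π1 : ℤ × ℤ → ℤ × ℤ} {cc cc1 : Bool} {S : Finset ℤ}

lemma NU_ge (hS : S ⊆ Finset.Icc 0 N) (h : Good κ L x0 N R ζ S) : S.card ≤ NU κ L x0 N R ζ := by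
  classical
  unfold NU
  exact le_sup (f := Finset.card) (mem_filter.2 ⟨mem_powerset.2 hS, h⟩)

lemma exists_NU : ∃ S ⊆ Finset.Icc 0 N, Good κ L x0 N R ζ S ∧ S.card = NU κ L x0 N R ζ := by
  classical
  have hne : ((Finset.Icc 0 N).powerset.filter (Good κ L x0 N R ζ)).Nonempty := by
    refine ⟨∅, mem_filter.2 ⟨mem_powerset.2 (empty_subset _), ?_, ?_⟩⟩
    · intro t ht; exact absurd ht (notMem_empty _)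
    · intro t ht; exact absurd ht (notMem_empty _)
  obtain ⟨S, hS, h⟩ := exists_mem_eq_sup _ hne Finset.card
  obtain ⟨h1, h2⟩ := mem_filter.1 hS
  exact ⟨S, mem_powerset.1 h1, h2, h.symm⟩

lemma one_le_NU (h : 1 ≤ NU κ L x0 N R ζ) : ∃ t, (0 ≤ t ∧ t ≤ N) ∧ Mc L R (wp κ x0 t) ζ ∧
    Un κ L x0 N (wp κ x0 t) ζ := by
  obtain ⟨S, hS, h1, h2⟩ := exists_NU (κ := κ) (L := L) (x0 := x0) (N := N) (R := R) (ζ := ζ)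
  have : S.Nonempty := card_pos.1 (by omega)
  obtain ⟨t, ht⟩ := this
  exact ⟨t, mem_Icc.1 (hS ht), h1.1 t ht⟩

lemma two_le_NU (h : 2 ≤ NU κ L x0 N R ζ) : TwoU κ L x0 N R ζ := by
  obtain ⟨S, hS, h1, h2⟩ := exists_NU (κ := κ) (L := L) (x0 := x0) (N := N) (R := R) (ζ := ζ)
  obtain ⟨t, ht, t', ht', hne⟩ := one_lt_card.1 (by omega : 1 < S.card)
  exact ⟨t, t', ⟨mem_Icc.1 (hS ht), h1.1 t ht⟩, ⟨mem_Icc.1 (hS ht'), h1.1 t' ht'⟩,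
    h1.2 t ht t' ht' hne⟩

/-! ### laws -/

lemma FamQ.law (h : FamQ q E σ L x0 N D π) (A : Finset (ℤ × ℤ) → Prop) :
    PrP q E (fun ω => A (vw π cc L x0 N ω)) = PrP (qb σ) (EE 1 L x0 N) A := by
  have hq : ∀ l ∈ EE 1 L x0 N, qb σ l = q (π l) := by
    intro l hl
    unfold qb
    rcases mem_union.1 hl with h1 | h1
    · rw [if_pos (h.wq.wall.odd l h1), h.qL l h1]
    · have := even_Tt h1
      rw [if_neg (by omega), h.qT l h1]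
  refine PrP_pull h.inj h.map (fun l hl hf => ?_) (fun l hl _ => hq l hl) A
  have h1 := hq l hl
  unfold qb at h1 ⊢
  rw [if_pos hf.2] at h1 ⊢
  rw [← h1]; norm_num

/-! ### theorems without the corner hypothesis -/

lemma WallQ.mono (h : WallQ L x0 N D) (hMD : M ≤ D) : WallQ L x0 N M := by
  obtain ⟨g0, c0⟩ := h.c0
  obtain ⟨g1, c1⟩ := h.c1
  exact ⟨⟨h.wall.hκ, h.wall.odd, fun t r h1 h2 h3 h4 => h.wall.flat t r h1 h2 h3 (by omega)⟩,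
    hMD.trans h.DN, ⟨g0, c0.side, fun l hl => c0.quad l (BR_mono hMD hl), c0.off⟩,
    ⟨g1, c1.side, fun l hl => c1.quad l (BR_mono hMD hl), c1.off⟩⟩

/-- **corner zone** -/
theorem corner_zone' : ∃ K C c : ℝ, 0 < K ∧ 0 < C ∧ 0 < c ∧ c ≤ 1 ∧
    ∀ (L : Finset (ℤ × ℤ)) (x0 : ℤ × ℤ) (N D : ℤ), WallQ L x0 N D →
    ∀ σ : ℝ, 1 / 4 ≤ σ → σ < 1 → ∀ a0 : ℤ, 2 ≤ a0 → K ≤ (1 - σ) ^ ((3 : ℝ) / 2) * a0 →
    ∀ ρ1 : ℤ, a0 ≤ ρ1 → 16 * ρ1 ≤ D → ∀ τ : ℤ, (τ = 0 ∨ τ = N) →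
    PrP (qb σ) (EE 1 L x0 N) (CZ 1 L x0 N τ ρ1 (2 * D)) ≤
      C * ((N : ℝ) / D) * ((a0 : ℝ) / D) * ((ρ1 : ℝ) / D) ^ c := by
  obtain ⟨K1, A, α, hK1, hA, hα, hut⟩ := utg_corner
  obtain ⟨K2, C, c, hK2, hC, hc, hc1, hcz⟩ := corner_zone A α hA hα
  refine ⟨max K1 K2, C, c, lt_max_of_lt_left hK1, hC, hc, hc1, ?_⟩
  intro L x0 N D h σ hσ1 hσ2 a0 ha0 hK ρ1 haρ hρD τ hτ
  refine hcz 1 L x0 N D h.wall σ hσ1 hσ2 a0 ha0 ((le_max_right _ _).trans hK) ρ1 D haρ hρD le_rfl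
    h.DN ?_ τ hτ
  intro τ' hτ' ρ M h1 h2 h3
  obtain ⟨g0, c0⟩ := h.c0
  obtain ⟨g1, c1⟩ := h.c1
  rcases hτ' with rfl | rfl
  · exact hut L x0 N 0 (-1) g0 D h.wall.odd c0 h.DN σ hσ1 hσ2 a0 ha0 ((le_max_left _ _).trans hK)
      ρ M h1 h2 h3
  · exact hut L x0 τ' τ' 1 g1 D h.wall.odd c1 h.DN σ hσ1 hσ2 a0 ha0 ((le_max_left _ _).trans hK)
      ρ M h1 h2 h3

/-- **two untied classes** -/
theorem two_untied' : ∃ K C c : ℝ, 0 < K ∧ 0 < C ∧ 0 < c ∧ c ≤ 1 ∧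
    ∀ (L : Finset (ℤ × ℤ)) (x0 : ℤ × ℤ) (N D : ℤ), WallQ L x0 N D →
    ∀ σ : ℝ, 1 / 4 ≤ σ → σ < 1 → ∀ a0 : ℤ, 2 ≤ a0 → K ≤ (1 - σ) ^ ((3 : ℝ) / 2) * a0 → a0 ≤ D →
    PrP (qb σ) (EE 1 L x0 N) (TwoU 1 L x0 N (2 * D)) ≤
      C * ((N : ℝ) / D) ^ 2 * ((a0 : ℝ) / D) ^ (1 + c) := by
  obtain ⟨K1, A, α, hK1, hA, hα, hut⟩ := utg_corner
  obtain ⟨K2, C, c, hK2, hC, hc, hc1, hcz⟩ := two_untied A α hA hα
  refine ⟨max K1 K2, C, c, lt_max_of_lt_left hK1, hC, hc, hc1, ?_⟩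
  intro L x0 N D h σ hσ1 hσ2 a0 ha0 hK haD
  refine hcz 1 L x0 N D h.wall σ hσ1 hσ2 a0 ha0 ((le_max_right _ _).trans hK) D haD le_rfl
    h.DN ?_
  intro τ' hτ' ρ M h1 h2 h3
  obtain ⟨g0, c0⟩ := h.c0
  obtain ⟨g1, c1⟩ := h.c1
  rcases hτ' with rfl | rfl
  · exact hut L x0 N 0 (-1) g0 D h.wall.odd c0 h.DN σ hσ1 hσ2 a0 ha0 ((le_max_left _ _).trans hK)
      ρ M h1 h2 h3
  · exact hut L x0 τ' τ' 1 g1 D h.wall.odd c1 h.DN σ hσ1 hσ2 a0 ha0 ((le_max_left _ _).trans hK)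
      ρ M h1 h2 h3

end Pool.Agent.H59.Q1
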