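import Mathlib
import Pool.Agent.H59.Q1.FamQ

set_option autoImplicit false
open Finset

/-!
# Untied macroscopic classes of two different families
-/

namespace Pool.Agent.H59.Q1

open Pool.Agent.H75.Perc Pool.Agent.H75.TwoArm Pool.Agent.H75.Four Pool.Agent.H49.Perc
open Pool.Agent.H99.NC Pool.Agent.H60.Q1 Pool.Agent.H20.Q1

/-- a local event at a flat point of the wall -/
def FLt (L : Finset (ℤ × ℤ)) (x0 : ℤ × ℤ) (N ρ1 : ℤ) (ζ : Finset (ℤ × ℤ)) : Prop :=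
  ∃ t ∈ (Finset.Icc 0 N).filter (fun t => ρ1 ≤ t ∧ t + ρ1 ≤ N), Lo 1 1 (wp 1 x0 t) (ρ1 / 32) ζ

/-- flat points of the two walls are seen in disjoint places -/
def Sep (L : Finset (ℤ × ℤ)) (x0 : ℤ × ℤ) (N : ℤ) (π : ℤ × ℤ → ℤ × ℤ) (L1 : Finset (ℤ × ℤ))
    (x1 : ℤ × ℤ) (N1 : ℤ) (π1 : ℤ × ℤ → ℤ × ℤ) : Prop :=
  ∀ ρ1 : ℤ, 1 ≤ ρ1 → ∀ t t' : ℤ, ρ1 ≤ t → t + ρ1 ≤ N → ρ1 ≤ t' → t' + ρ1 ≤ N1 →
    Disjoint ((EE 1 L x0 N ∩ Fb (wp 1 x0 t) (ρ1 / 32)).image π)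
      ((EE 1 L1 x1 N1 ∩ Fb (wp 1 x1 t') (ρ1 / 32)).image π1)

variable {σ : ℝ} {κ s ε : ℤ} {q : ℤ × ℤ → ℝ} {x y z w v x0 x1 c p l : ℤ × ℤ}
  {t t' a b j ρ ρ1 R r m a0 D N N1 n M τ k u δ f g : ℤ} {E F G L L1 V ω ω1 ω2 ζ η : Finset (ℤ × ℤ)}
  {π π1 : ℤ × ℤ → ℤ × ℤ} {cc cc1 : Bool} {S : Finset ℤ}

lemma one_cases (h : WallQ L x0 N D) (hρ : 1 ≤ ρ1) (hρD : ρ1 ≤ D)
    (h1 : 1 ≤ NU 1 L x0 N (2 * D) ζ) :
    (CZ 1 L x0 N 0 ρ1 (2 * D) ζ ∨ CZ 1 L x0 N N ρ1 (2 * D) ζ) ∨ FLt L x0 N ρ1 ζ := by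
  obtain ⟨t, ht, hM, hU⟩ := one_le_NU h1
  rcases first_cases (ρ1 := ρ1) h.wall.hκ ht hM hU with h2 | ⟨t1, g1, -, g3, g4, g5⟩
  · exact Or.inl h2
  right
  refine ⟨t1, mem_filter.2 ⟨mem_Icc.2 (by omega), g1⟩, ?_⟩
  exact h.wall.lo_of (R := D) (by omega) (by omega) (by omega) (by omega) (by omega) g3 g4 g5

lemma card_flat (hN : 1 ≤ N) (P : ℤ → Prop) [DecidablePred P] :
    ((((Finset.Icc 0 N).filter P).card : ℕ) : ℝ) ≤ 2 * N := by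
  have h1 : ((Finset.Icc 0 N).filter P).card ≤ (Finset.Icc 0 N).card := card_filter_le _ _
  rw [Int.card_Icc] at h1
  have h2 : (((N + 1 - 0).toNat : ℕ) : ℤ) = N + 1 := by
    rw [Int.toNat_of_nonneg] <;> omega
  have h3 : ((((Finset.Icc 0 N).filter P).card : ℕ) : ℤ) ≤ N + 1 := by rw [← h2]; exact_mod_cast h1
  have h4 : ((((Finset.Icc 0 N).filter P).card : ℕ) : ℝ) ≤ (N : ℝ) + 1 := by exact_mod_cast h3
  have h5 : (1 : ℝ) ≤ N := by exact_mod_cast hN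
  linarith

/-- flat points of two families -/
lemma flat_flat {C0 : ℝ} (hC0 : 1 ≤ C0) (hq : Pb q) (h : FamQ q E σ L x0 N D π)
    (h' : FamQ q E σ L1 x1 N1 D π1) (hs : Sep L x0 N π L1 x1 N1 π1) (hσ0 : 0 ≤ σ)
    (hρ : 1 ≤ ρ1) (hρD : ρ1 ≤ D) (ha0 : 0 ≤ a0)
    (hp : pS σ 1 1 (ρ1 / 32) * (((ρ1 / 32 : ℤ) : ℝ) + 1) ^ 2 ≤ C0 * a0) :
    PrP q E (fun ω => FLt L x0 N ρ1 (vw π cc L x0 N ω) ∧ FLt L1 x1 N1 ρ1 (vw π1 cc1 L1 x1 N1 ω)) ≤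
      2 * N * (2 * N1) * ((C0 * 1024) * (a0 / (ρ1 : ℝ) ^ 2)) ^ 2 := by
  have hρ' : (1 : ℝ) ≤ ρ1 := by exact_mod_cast hρ
  have ha0' : (0 : ℝ) ≤ a0 := by exact_mod_cast ha0
  have hN : 1 ≤ N := by have := h.wq.DN; omega
  have hN1 : 1 ≤ N1 := by have := h'.wq.DN; omega
  have hN' : (1 : ℝ) ≤ N := by exact_mod_cast hN
  have hN1' : (1 : ℝ) ≤ N1 := by exact_mod_cast hN1
  set b : ℤ := ρ1 / 32 with hb
  set T := (Finset.Icc 0 N).filter (fun t => ρ1 ≤ t ∧ t + ρ1 ≤ N) with hT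
  set T1 := (Finset.Icc 0 N1).filter (fun t => ρ1 ≤ t ∧ t + ρ1 ≤ N1) with hT1
  have hb1 : (ρ1 : ℝ) ≤ 32 * ((b : ℝ) + 1) := by
    have : ρ1 ≤ 32 * (b + 1) := by omega
    exact_mod_cast this
  have hp0 : 0 ≤ pS σ 1 1 b := pS_nonneg hσ0
  have g3 : pS σ 1 1 b ≤ C0 * 1024 * (a0 / (ρ1 : ℝ) ^ 2) := by
    have h5 : (ρ1 : ℝ) ^ 2 ≤ 1024 * ((b : ℝ) + 1) ^ 2 := by nlinarith
    have h6 : 0 < (ρ1 : ℝ) ^ 2 := by positivity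
    rw [← mul_div_assoc, le_div_iff₀ h6]
    calc pS σ 1 1 b * (ρ1 : ℝ) ^ 2 ≤ pS σ 1 1 b * (1024 * ((b : ℝ) + 1) ^ 2) :=
          mul_le_mul_of_nonneg_left h5 hp0
      _ = 1024 * (pS σ 1 1 b * ((b : ℝ) + 1) ^ 2) := by ring
      _ ≤ 1024 * (C0 * a0) := by linarith
      _ = _ := by ring
  have hterm : ∀ p ∈ T ×ˢ T1, PrP q E (fun ω => Lo 1 1 (wp 1 x0 p.1) b (vw π cc L x0 N ω) ∧
      Lo 1 1 (wp 1 x1 p.2) b (vw π1 cc1 L1 x1 N1 ω)) ≤ ((C0 * 1024) * (a0 / (ρ1 : ℝ) ^ 2)) ^ 2 := by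
    rintro ⟨t, t'⟩ hp'
    rw [mem_product, hT, hT1, mem_filter, mem_filter] at hp'
    simp only at hp' ⊢
    obtain ⟨⟨-, h1⟩, -, h2⟩ := hp'
    have hL1 : Loc (EE 1 L x0 N) (Fb (wp 1 x0 t) b) (Lo 1 1 (wp 1 x0 t) b) :=
      Lo_loc (Or.inr rfl) (by omega)
    have hL2 : Loc (EE 1 L1 x1 N1) (Fb (wp 1 x1 t') b) (Lo 1 1 (wp 1 x1 t') b) :=
      Lo_loc (Or.inr rfl) (by omega)
    have hP1 := loc_pull (π := π) (fl := flb cc) (E := E) hL1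
    have hP2 := loc_pull (π := π1) (fl := flb cc1) (E := E) hL2
    have hd := hs ρ1 hρ t t' h1.1 h1.2 h2.1 h2.2
    have e := PrP_ind q hP1 hP2 (dis hd)
    have e1 := h.law (cc := cc) (Lo 1 1 (wp 1 x0 t) b)
    have e2 := h'.law (cc := cc1) (Lo 1 1 (wp 1 x1 t') b)
    unfold vw at e1 e2 ⊢
    rw [e, e1, e2, h.wq.wall.prob_Lo (by omega) (by omega) (by omega) (by omega),
      h'.wq.wall.prob_Lo (by omega) (by omega) (by omega) (by omega), sq]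
    exact mul_le_mul g3 g3 hp0 (hp0.trans g3)
  have h1 : PrP q E (fun ω => FLt L x0 N ρ1 (vw π cc L x0 N ω) ∧ FLt L1 x1 N1 ρ1 (vw π1 cc1 L1 x1 N1 ω)) ≤
      ∑ p ∈ T ×ˢ T1, PrP q E (fun ω => Lo 1 1 (wp 1 x0 p.1) b (vw π cc L x0 N ω) ∧
        Lo 1 1 (wp 1 x1 p.2) b (vw π1 cc1 L1 x1 N1 ω)) := by
    refine (PrP_mono hq (B := fun ω => ∃ p ∈ T ×ˢ T1, Lo 1 1 (wp 1 x0 p.1) b (vw π cc L x0 N ω) ∧
      Lo 1 1 (wp 1 x1 p.2) b (vw π1 cc1 L1 x1 N1 ω)) fun ω _ hω => ?_).trans (PrP_exists_le hq _ _ _)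
    obtain ⟨⟨t, ht, h2⟩, t', ht', h3⟩ := hω
    exact ⟨(t, t'), mem_product.2 ⟨ht, ht'⟩, h2, h3⟩
  refine (h1.trans (sum_le_sum hterm)).trans ?_
  rw [sum_const, nsmul_eq_mul, card_product]
  push_cast
  refine mul_le_mul_of_nonneg_right ?_ (by positivity)
  exact mul_le_mul (card_flat hN _) (card_flat hN1 _) (Nat.cast_nonneg _) (by positivity)

/-- **classes of two different families** -/
theorem cross_pair : ∃ K C c : ℝ, 0 < K ∧ 0 < C ∧ 0 < c ∧ c ≤ 1 ∧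
    ∀ (q : ℤ × ℤ → ℝ) (E : Finset (ℤ × ℤ)) (σ : ℝ), Pb q → 1 / 4 ≤ σ → σ < 1 →
    ∀ a0 : ℤ, 2 ≤ a0 → K ≤ (1 - σ) ^ ((3 : ℝ) / 2) * a0 →
    ∀ (D : ℤ) (Q : ℝ), a0 ≤ D → 1 ≤ Q →
    ∀ (L : Finset (ℤ × ℤ)) (x0 : ℤ × ℤ) (N : ℤ) (π : ℤ × ℤ → ℤ × ℤ) (cc : Bool)
      (L1 : Finset (ℤ × ℤ)) (x1 : ℤ × ℤ) (N1 : ℤ) (π1 : ℤ × ℤ → ℤ × ℤ) (cc1 : Bool),
    FamQ q E σ L x0 N D π → FamQ q E σ L1 x1 N1 D π1 → Sep L x0 N π L1 x1 N1 π1 →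
    (N : ℝ) ≤ Q * D → (N1 : ℝ) ≤ Q * D →
    PrP q E (fun ω => 1 ≤ NU 1 L x0 N (2 * D) (vw π cc L x0 N ω) ∧
      1 ≤ NU 1 L1 x1 N1 (2 * D) (vw π1 cc1 L1 x1 N1 ω)) ≤
      C * Q ^ 2 * ((a0 : ℝ) / D) ^ (1 + c) := by
  obtain ⟨K2, C2, c2, hK2, hC2, hc2, hc21, hcz⟩ := corner_zone'
  obtain ⟨K1, C0, hK1, hC0, hpS⟩ := pS_bd
  set e : ℝ := 1 / 8 with he
  have he0 : 0 < e := by rw [he]; norm_num
  have he1 : e ≤ 1 := by rw [he]; norm_num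
  set c : ℝ := min (1 / 2) (e * c2) with hc
  have hc0 : 0 < c := lt_min (by norm_num) (by positivity)
  have hcc1 : c ≤ 1 / 2 := min_le_left _ _
  have hcc2 : c ≤ e * c2 := min_le_right _ _
  clear_value c
  set Cf : ℝ := 4 * (C0 * 1024) ^ 2 with hCf
  have hCfp : 0 < Cf := by rw [hCf]; positivity
  refine ⟨max K1 K2, 4 * (2 * C2) + Cf + 32 ^ ((1 + c) / e), c, lt_max_of_lt_left hK1,
    by positivity, hc0, by linarith, ?_⟩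
  intro q E σ hq hσ1 hσ2 a0 ha0 hK D Q haD hQ L x0 N π cc L1 x1 N1 π1 cc1 h h' hs hN hN1
  have hσ0 : 0 ≤ σ := by linarith
  have hpb := qb_pb hσ0 hσ2.le
  have ha0' : (2 : ℝ) ≤ a0 := by exact_mod_cast ha0
  have haD' : (a0 : ℝ) ≤ D := by exact_mod_cast haD
  have hD0 : (0 : ℝ) < D := by linarith
  have hDN' : (D : ℝ) ≤ N := by exact_mod_cast h.wq.DN
  have hDN1' : (D : ℝ) ≤ N1 := by exact_mod_cast h'.wq.DN
  set X : ℝ := (a0 : ℝ) / D with hX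
  have hX0 : 0 < X := by rw [hX]; positivity
  have hX1 : X ≤ 1 := by rw [hX, div_le_one hD0]; exact haD'
  have hQ2 : 1 ≤ Q ^ 2 := one_le_pow₀ hQ
  have hQQ : Q ≤ Q ^ 2 := by nlinarith
  have hXc : 0 < X ^ (1 + c) := Real.rpow_pos_of_pos hX0 _
  have htot : ∀ {P : ℝ}, P ≤ (4 * (2 * C2) + Cf) * (Q ^ 2 * X ^ (1 + c)) ∨
      P ≤ 32 ^ ((1 + c) / e) * (Q ^ 2 * X ^ (1 + c)) →
      P ≤ (4 * (2 * C2) + Cf + 32 ^ ((1 + c) / e)) * Q ^ 2 * X ^ (1 + c) := by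
    intro P hP
    have h1 : 0 < Q ^ 2 * X ^ (1 + c) := by positivity
    have h2 : 0 < (32 : ℝ) ^ ((1 + c) / e) := by positivity
    have h3 : 0 < 4 * (2 * C2) + Cf := by positivity
    rw [mul_assoc, add_mul]
    rcases hP with hP | hP
    · have := mul_pos h2 h1; linarith
    · have := mul_pos h3 h1; linarith
  refine htot ?_
  by_cases hbig : (1 : ℝ) / 32 < X ^ e
  · right
    refine (PrP_le_one hq _ _).trans ?_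
    have h1 : (1 : ℝ) ≤ 32 * X ^ e := by linarith
    have h2 : (1 : ℝ) ≤ (32 * X ^ e) ^ ((1 + c) / e) := Real.one_le_rpow h1 (by positivity)
    rw [Real.mul_rpow (by norm_num) (by positivity), ← Real.rpow_mul hX0.le,
      mul_div_cancel₀ _ he0.ne'] at h2
    have h3 : 0 < (32 : ℝ) ^ ((1 + c) / e) * X ^ (1 + c) := by positivity
    calc (1 : ℝ) ≤ 32 ^ ((1 + c) / e) * X ^ (1 + c) := h2
      _ ≤ Q ^ 2 * (32 ^ ((1 + c) / e) * X ^ (1 + c)) := le_mul_of_one_le_left h3.le hQ2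
      _ = _ := by ring
  left
  push Not at hbig
  obtain ⟨m1, m2, m3⟩ := mid_scale ha0' haD' he0 he1
  set ρ1 : ℤ := ⌈(D : ℝ) * ((a0 : ℝ) / D) ^ e⌉ with hρ1
  rw [← hX] at m2 m3
  have haρ : a0 ≤ ρ1 := by exact_mod_cast m1
  have hρ0 : (0 : ℝ) < ρ1 := by linarith
  have h16 : 16 * (ρ1 : ℝ) ≤ D := by
    calc 16 * (ρ1 : ℝ) ≤ 16 * (2 * (D * X ^ e)) := by linarith
      _ = 32 * X ^ e * D := by ring
      _ ≤ 1 * D := mul_le_mul_of_nonneg_right (by linarith) hD0.le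
      _ = D := one_mul _
  have h16' : 16 * ρ1 ≤ D := by exact_mod_cast h16
  have hK1' : K1 ≤ (1 - σ) ^ ((3 : ℝ) / 2) * a0 := (le_max_left _ _).trans hK
  have hK2' : K2 ≤ (1 - σ) ^ ((3 : ℝ) / 2) * a0 := (le_max_right _ _).trans hK
  have q1 : ((ρ1 : ℝ) / D) ^ c2 ≤ 2 * X ^ (e * c2) := by
    have h1 : (ρ1 : ℝ) / D ≤ 2 * X ^ e := by
      rw [div_le_iff₀ hD0]; linarith
    calc ((ρ1 : ℝ) / D) ^ c2 ≤ (2 * X ^ e) ^ c2 := Real.rpow_le_rpow (by positivity) h1 hc2.le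
      _ = 2 ^ c2 * X ^ (e * c2) := by
          rw [Real.mul_rpow (by norm_num) (by positivity), ← Real.rpow_mul hX0.le]
      _ ≤ 2 * X ^ (e * c2) := by
          refine mul_le_mul_of_nonneg_right ?_ (by positivity)
          calc (2 : ℝ) ^ c2 ≤ 2 ^ (1 : ℝ) := Real.rpow_le_rpow_of_exponent_le (by norm_num) hc21
            _ = 2 := Real.rpow_one 2
  have q2 : ∀ n : ℤ, (n : ℝ) ≤ Q * D → 0 ≤ n → C2 * ((n : ℝ) / D) * X * ((ρ1 : ℝ) / D) ^ c2 ≤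
      2 * C2 * (Q ^ 2 * X ^ (1 + c)) := by
    intro n hn hn0
    have hn0' : (0 : ℝ) ≤ n := by exact_mod_cast hn0
    have hnD : (n : ℝ) / D ≤ Q := by rw [div_le_iff₀ hD0]; exact hn
    have h1 : X * X ^ (e * c2) ≤ X ^ (1 + c) := by
      rw [← Real.rpow_one_add' hX0.le (by positivity)]
      exact Real.rpow_le_rpow_of_exponent_ge hX0 hX1 (by linarith)
    calc C2 * ((n : ℝ) / D) * X * ((ρ1 : ℝ) / D) ^ c2 ≤
          C2 * ((n : ℝ) / D) * X * (2 * X ^ (e * c2)) :=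
          mul_le_mul_of_nonneg_left q1 (by positivity)
      _ = 2 * C2 * (((n : ℝ) / D) * (X * X ^ (e * c2))) := by ring
      _ ≤ 2 * C2 * (Q ^ 2 * X ^ (1 + c)) := by
          refine mul_le_mul_of_nonneg_left ?_ (by positivity)
          exact mul_le_mul (hnD.trans hQQ) h1 (by positivity) (by positivity)
  have hN0 : 0 ≤ N := by have := h.wq.DN; omega
  have hN10 : 0 ≤ N1 := by have := h'.wq.DN; omega
  have p1 := (hcz L x0 N D h.wq σ hσ1 hσ2 a0 ha0 hK2' ρ1 haρ h16' 0 (Or.inl rfl)).trans (q2 N hN hN0)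
  have p2 := (hcz L x0 N D h.wq σ hσ1 hσ2 a0 ha0 hK2' ρ1 haρ h16' N (Or.inr rfl)).trans (q2 N hN hN0)
  have p3 := (hcz L1 x1 N1 D h'.wq σ hσ1 hσ2 a0 ha0 hK2' ρ1 haρ h16' 0 (Or.inl rfl)).trans
    (q2 N1 hN1 hN10)
  have p4 := (hcz L1 x1 N1 D h'.wq σ hσ1 hσ2 a0 ha0 hK2' ρ1 haρ h16' N1 (Or.inr rfl)).trans
    (q2 N1 hN1 hN10)
  have p5 := flat_flat (cc := cc) (cc1 := cc1) (a0 := a0) hC0 hq h h' hs hσ0 (ρ1 := ρ1) (by omega) (by omega) (by omega)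
    (hpS 1 (Or.inr rfl) 1 (Or.inl rfl) σ hσ1 hσ2 a0 ha0 hK1' (ρ1 / 32) (by omega)).2
  -- the flat term
  have p6 : 2 * N * (2 * N1) * ((C0 * 1024) * (a0 / (ρ1 : ℝ) ^ 2)) ^ 2 ≤
      Cf * (Q ^ 2 * X ^ (1 + c)) := by
    have hXe : 0 < X ^ e := Real.rpow_pos_of_pos hX0 _
    have h1 : (a0 : ℝ) / (ρ1 : ℝ) ^ 2 ≤ a0 / (D * X ^ e) ^ 2 :=
      div_le_div_of_nonneg_left (by linarith) (by positivity)
        (pow_le_pow_left₀ (by positivity) m2 2)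
    have h2 : (N : ℝ) * N1 ≤ (Q * D) * (Q * D) :=
      mul_le_mul hN hN1 (by exact_mod_cast hN10) (by positivity)
    have h3 : ((C0 * 1024) * (a0 / (ρ1 : ℝ) ^ 2)) ^ 2 ≤ ((C0 * 1024) * (a0 / (D * X ^ e) ^ 2)) ^ 2 :=
      pow_le_pow_left₀ (by positivity) (mul_le_mul_of_nonneg_left h1 (by positivity)) 2
    have h4 : X ^ 2 / (X ^ e) ^ 4 ≤ X ^ (1 + c) := by
      have e1 : (X ^ e) ^ 4 = X ^ ((1 : ℝ) / 2) := by
        rw [← Real.rpow_natCast, ← Real.rpow_mul hX0.le, he]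
        norm_num
      have e2 : X ^ 2 = X ^ (2 : ℝ) := (Real.rpow_two X).symm
      rw [e1, e2, ← Real.rpow_sub hX0]
      exact Real.rpow_le_rpow_of_exponent_ge hX0 hX1 (by linarith)
    calc 2 * N * (2 * N1) * ((C0 * 1024) * (a0 / (ρ1 : ℝ) ^ 2)) ^ 2 =
          4 * ((N : ℝ) * N1) * ((C0 * 1024) * (a0 / (ρ1 : ℝ) ^ 2)) ^ 2 := by ring
      _ ≤ 4 * ((Q * D) * (Q * D)) * ((C0 * 1024) * (a0 / (D * X ^ e) ^ 2)) ^ 2 := by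
          refine mul_le_mul (mul_le_mul_of_nonneg_left h2 (by norm_num)) h3 (by positivity) ?_
          positivity
      _ = Cf * (Q ^ 2 * (X ^ 2 / (X ^ e) ^ 4)) := by
          rw [hCf, hX]
          field_simp
      _ ≤ _ := mul_le_mul_of_nonneg_left (mul_le_mul_of_nonneg_left h4 (by positivity)) hCfp.le
  have l1 := h.law (cc := cc) (CZ 1 L x0 N 0 ρ1 (2 * D))
  have l2 := h.law (cc := cc) (CZ 1 L x0 N N ρ1 (2 * D))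
  have l3 := h'.law (cc := cc1) (CZ 1 L1 x1 N1 0 ρ1 (2 * D))
  have l4 := h'.law (cc := cc1) (CZ 1 L1 x1 N1 N1 ρ1 (2 * D))
  set V := fun ω => vw π cc L x0 N ω with hV
  set V1 := fun ω => vw π1 cc1 L1 x1 N1 ω with hV1
  have hsum : PrP q E (fun ω => 1 ≤ NU 1 L x0 N (2 * D) (V ω) ∧ 1 ≤ NU 1 L1 x1 N1 (2 * D) (V1 ω)) ≤
      (PrP q E (fun ω => CZ 1 L x0 N 0 ρ1 (2 * D) (V ω)) +
        PrP q E (fun ω => CZ 1 L x0 N N ρ1 (2 * D) (V ω))) +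
      ((PrP q E (fun ω => CZ 1 L1 x1 N1 0 ρ1 (2 * D) (V1 ω)) +
        PrP q E (fun ω => CZ 1 L1 x1 N1 N1 ρ1 (2 * D) (V1 ω))) +
      PrP q E (fun ω => FLt L x0 N ρ1 (V ω) ∧ FLt L1 x1 N1 ρ1 (V1 ω))) := by
    refine (PrP_mono hq (B := fun ω => (CZ 1 L x0 N 0 ρ1 (2 * D) (V ω) ∨
      CZ 1 L x0 N N ρ1 (2 * D) (V ω)) ∨ ((CZ 1 L1 x1 N1 0 ρ1 (2 * D) (V1 ω) ∨
      CZ 1 L1 x1 N1 N1 ρ1 (2 * D) (V1 ω)) ∨ (FLt L x0 N ρ1 (V ω) ∧ FLt L1 x1 N1 ρ1 (V1 ω))))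
      fun ω _ hω => ?_).trans ((PrP_or_le hq _ _ _).trans (add_le_add (PrP_or_le hq _ _ _)
        ((PrP_or_le hq _ _ _).trans (add_le_add (PrP_or_le hq _ _ _) le_rfl))))
    rcases one_cases (ρ1 := ρ1) h.wq (by omega) (by omega) hω.1 with h1 | h1
    · exact Or.inl h1
    rcases one_cases (ρ1 := ρ1) h'.wq (by omega) (by omega) hω.2 with h2 | h2
    · exact Or.inr (Or.inl h2)
    exact Or.inr (Or.inr ⟨h1, h2⟩)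
  refine hsum.trans ?_
  rw [← l1] at p1
  rw [← l2] at p2
  rw [← l3] at p3
  rw [← l4] at p4
  have p7 := p5.trans p6
  calc _ ≤ (2 * C2 * (Q ^ 2 * X ^ (1 + c)) + 2 * C2 * (Q ^ 2 * X ^ (1 + c))) +
        ((2 * C2 * (Q ^ 2 * X ^ (1 + c)) + 2 * C2 * (Q ^ 2 * X ^ (1 + c))) +
        Cf * (Q ^ 2 * X ^ (1 + c))) :=
        add_le_add (add_le_add p1 p2) (add_le_add (add_le_add p3 p4) p7)
    _ = _ := by ring

end Pool.Agent.H59.Q1
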