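import Mathlib
import Pool.Agent.H59.Q1.PairM

set_option autoImplicit false
open Finset

/-!
# All families together: pairs of untied classes, exponential moments, the intermediate scale
-/

namespace Pool.Agent.H59.Q1

open Pool.Agent.H75.Perc Pool.Agent.H75.TwoArm Pool.Agent.H75.Four Pool.Agent.H49.Perc
open Pool.Agent.H99.NC Pool.Agent.H60.Q1 Pool.Agent.H20.Q1

/-- finitely many families -/
structure FamS {ι : Type*} (q : ℤ × ℤ → ℝ) (E : Finset (ℤ × ℤ)) (σ : ℝ) (D : ℤ) (Q : ℝ)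
    (I : Finset ι) (L : ι → Finset (ℤ × ℤ)) (x0 : ι → ℤ × ℤ) (N : ι → ℤ)
    (π : ι → ℤ × ℤ → ℤ × ℤ) : Prop where
  fam : ∀ i ∈ I, FamQ q E σ (L i) (x0 i) (N i) D (π i)
  sep : ∀ i ∈ I, ∀ j ∈ I, i ≠ j → Sep (L i) (x0 i) (N i) (π i) (L j) (x0 j) (N j) (π j)
  len : ∀ i ∈ I, (N i : ℝ) ≤ Q * D

/-- number of untied classes of radius `≥ R` of all families -/
noncomputable def UU {ι : Type*} (I : Finset ι) (L : ι → Finset (ℤ × ℤ)) (x0 : ι → ℤ × ℤ)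
    (N : ι → ℤ) (π : ι → ℤ × ℤ → ℤ × ℤ) (cc : ι → Bool) (R : ℤ) (ω : Finset (ℤ × ℤ)) : ℕ :=
  ∑ i ∈ I, NU 1 (L i) (x0 i) (N i) R (vw (π i) (cc i) (L i) (x0 i) (N i) ω)

variable {ι : Type*} [DecidableEq ι] {σ Q X : ℝ} {q : ℤ × ℤ → ℝ} {D R n m a0 r : ℤ}
  {E ω : Finset (ℤ × ℤ)} {I : Finset ι} {L : ι → Finset (ℤ × ℤ)} {x0 : ι → ℤ × ℤ} {N : ι → ℤ}
  {π : ι → ℤ × ℤ → ℤ × ℤ} {cc : ι → Bool}

omit [DecidableEq ι] in
lemma FamS.mono (h : FamS q E σ D Q I L x0 N π) {M : ℤ} {Q' : ℝ} (hM : M ≤ D)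
    (hQ : Q * D ≤ Q' * M) : FamS q E σ M Q' I L x0 N π where
  fam := fun i hi => by
    have := h.fam i hi
    exact ⟨this.wq.mono hM, this.inj, this.map, this.qL, this.qT⟩
  sep := h.sep
  len := fun i hi => (h.len i hi).trans hQ

/-- two out of a sum -/
lemma two_of_sum {f : ι → ℕ} (h : 2 ≤ ∑ i ∈ I, f i) :
    (∃ i ∈ I, 2 ≤ f i) ∨ ∃ p ∈ I ×ˢ I, p.1 ≠ p.2 ∧ 1 ≤ f p.1 ∧ 1 ≤ f p.2 := by
  by_contra hcon
  push Not at hcon
  obtain ⟨h1, h2⟩ := hcon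
  by_cases h3 : ∃ i ∈ I, 1 ≤ f i
  · obtain ⟨i, hi, h4⟩ := h3
    have h5 : ∑ j ∈ I, f j = f i := by
      refine sum_eq_single_of_mem i hi fun j hj hji => ?_
      have h6 : f j < 1 := h2 (i, j) (mem_product.2 ⟨hi, hj⟩) (fun h => hji h.symm) h4
      omega
    have := h1 i hi
    omega
  · push Not at h3
    have : ∑ j ∈ I, f j = 0 := sum_eq_zero fun j hj => by have := h3 j hj; omega
    omega

/-- **two untied macroscopic classes, all families** -/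
theorem pair_prob : ∃ K C c : ℝ, 0 < K ∧ 0 < C ∧ 0 < c ∧ c ≤ 1 ∧
    ∀ (ι : Type) [DecidableEq ι] (q : ℤ × ℤ → ℝ) (E : Finset (ℤ × ℤ)) (σ : ℝ), Pb q → 1 / 4 ≤ σ → σ < 1 →
    ∀ a0 : ℤ, 2 ≤ a0 → K ≤ (1 - σ) ^ ((3 : ℝ) / 2) * a0 →
    ∀ (D : ℤ) (Q : ℝ), a0 ≤ D → 1 ≤ Q →
    ∀ (I : Finset ι) (L : ι → Finset (ℤ × ℤ)) (x0 : ι → ℤ × ℤ) (N : ι → ℤ)
      (π : ι → ℤ × ℤ → ℤ × ℤ) (cc : ι → Bool), FamS q E σ D Q I L x0 N π →
    PrP q E (fun ω => 2 ≤ UU I L x0 N π cc (2 * D) ω) ≤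
      C * (I.card : ℝ) ^ 2 * Q ^ 2 * ((a0 : ℝ) / D) ^ (1 + c) := by
  obtain ⟨K1, C1, c1, hK1, hC1, hc1, hc11, h1⟩ := two_untied'
  obtain ⟨K2, C2, c2, hK2, hC2, hc2, hc21, h2⟩ := cross_pair
  refine ⟨max K1 K2, C1 + C2, min c1 c2, lt_max_of_lt_left hK1, by positivity, lt_min hc1 hc2,
    (min_le_left _ _).trans hc11, ?_⟩
  intro ι _ q E σ hq hσ1 hσ2 a0 ha0 hK D Q haD hQ I L x0 N π cc h
  have ha0' : (2 : ℝ) ≤ a0 := by exact_mod_cast ha0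
  have haD' : (a0 : ℝ) ≤ D := by exact_mod_cast haD
  have hD0 : (0 : ℝ) < D := by linarith
  set X : ℝ := (a0 : ℝ) / D with hX
  have hX0 : 0 < X := by rw [hX]; positivity
  have hX1 : X ≤ 1 := by rw [hX, div_le_one hD0]; exact haD'
  set c := min c1 c2 with hc
  have hXc1 : X ^ (1 + c1) ≤ X ^ (1 + c) :=
    Real.rpow_le_rpow_of_exponent_ge hX0 hX1 (by have := min_le_left c1 c2; linarith)
  have hXc2 : X ^ (1 + c2) ≤ X ^ (1 + c) :=
    Real.rpow_le_rpow_of_exponent_ge hX0 hX1 (by have := min_le_right c1 c2; linarith)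
  have hXc : 0 < X ^ (1 + c) := Real.rpow_pos_of_pos hX0 _
  set f : Finset (ℤ × ℤ) → ι → ℕ := fun ω i =>
    NU 1 (L i) (x0 i) (N i) (2 * D) (vw (π i) (cc i) (L i) (x0 i) (N i) ω) with hf
  have hsum : PrP q E (fun ω => 2 ≤ UU I L x0 N π cc (2 * D) ω) ≤
      ∑ i ∈ I, PrP q E (fun ω => 2 ≤ f ω i) +
      ∑ p ∈ I ×ˢ I, PrP q E (fun ω => p.1 ≠ p.2 ∧ 1 ≤ f ω p.1 ∧ 1 ≤ f ω p.2) := by
    refine (PrP_mono hq fun ω _ hω => two_of_sum (f := f ω) hω).trans ((PrP_or_le hq _ _ _).trans ?_)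
    exact add_le_add (PrP_exists_le hq _ _ _) (PrP_exists_le hq _ _ _)
  have hA : ∀ i ∈ I, PrP q E (fun ω => 2 ≤ f ω i) ≤ C1 * (Q ^ 2 * X ^ (1 + c)) := by
    intro i hi
    have hi' := h.fam i hi
    have hN := h.len i hi
    have h3 : PrP q E (fun ω => 2 ≤ f ω i) ≤
        PrP q E (fun ω => TwoU 1 (L i) (x0 i) (N i) (2 * D) (vw (π i) (cc i) (L i) (x0 i) (N i) ω)) :=
      PrP_mono hq fun ω _ hω => two_le_NU hω
    rw [hi'.law (cc := cc i) (TwoU 1 (L i) (x0 i) (N i) (2 * D))] at h3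
    have h4 := h1 (L i) (x0 i) (N i) D hi'.wq σ hσ1 hσ2 a0 ha0 ((le_max_left _ _).trans hK) haD
    have hN0 : (0 : ℝ) ≤ N i := by
      have := hi'.wq.DN
      exact_mod_cast (by omega : 0 ≤ N i)
    have hND : (N i : ℝ) / D ≤ Q := by rw [div_le_iff₀ hD0]; exact hN
    refine h3.trans (h4.trans ?_)
    rw [mul_assoc]
    refine mul_le_mul_of_nonneg_left ?_ hC1.le
    exact mul_le_mul (pow_le_pow_left₀ (by positivity) hND 2) hXc1 (by positivity) (by positivity)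
  have hB : ∀ p ∈ I ×ˢ I, PrP q E (fun ω => p.1 ≠ p.2 ∧ 1 ≤ f ω p.1 ∧ 1 ≤ f ω p.2) ≤
      C2 * (Q ^ 2 * X ^ (1 + c)) := by
    rintro ⟨i, j⟩ hp
    rw [mem_product] at hp
    obtain ⟨hi, hj⟩ := hp
    simp only at hi hj ⊢
    by_cases hij : i = j
    · have h0 : PrP q E (fun ω => i ≠ j ∧ 1 ≤ f ω i ∧ 1 ≤ f ω j) ≤ 0 := by
        refine (PrP_mono hq (B := fun _ => False) fun ω _ hω => hω.1 hij).trans (le_of_eq ?_)
        unfold PrP
        rw [Ex_congr (g := fun _ => 0) fun ω _ => ind_false (fun h => h), Ex_const]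
      exact h0.trans (by positivity)
    · have h4 := h2 q E σ hq hσ1 hσ2 a0 ha0 ((le_max_right _ _).trans hK) D Q haD hQ
        (L i) (x0 i) (N i) (π i) (cc i) (L j) (x0 j) (N j) (π j) (cc j) (h.fam i hi) (h.fam j hj)
        (h.sep i hi j hj hij) (h.len i hi) (h.len j hj)
      refine (PrP_mono hq fun ω _ hω => hω.2).trans (h4.trans ?_)
      rw [mul_assoc]
      refine mul_le_mul_of_nonneg_left ?_ hC2.le
      exact mul_le_mul_of_nonneg_left hXc2 (by positivity)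
  refine hsum.trans ((add_le_add (sum_le_sum hA) (sum_le_sum hB)).trans ?_)
  rw [sum_const, sum_const, nsmul_eq_mul, nsmul_eq_mul, card_product]
  push_cast
  have h5 : (I.card : ℝ) ≤ (I.card : ℝ) ^ 2 := by
    rcases Nat.eq_zero_or_pos I.card with h6 | h6
    · rw [h6]; norm_num
    · have : (1 : ℝ) ≤ I.card := by exact_mod_cast h6
      nlinarith only [this]
  have h7 : 0 < C1 * (Q ^ 2 * X ^ (1 + c)) := by positivity
  calc (I.card : ℝ) * (C1 * (Q ^ 2 * X ^ (1 + c))) + (I.card : ℝ) * (I.card : ℝ) *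
        (C2 * (Q ^ 2 * X ^ (1 + c))) ≤ (I.card : ℝ) ^ 2 * (C1 * (Q ^ 2 * X ^ (1 + c))) +
        (I.card : ℝ) * (I.card : ℝ) * (C2 * (Q ^ 2 * X ^ (1 + c))) :=
        add_le_add (mul_le_mul_of_nonneg_right h5 h7.le) le_rfl
    _ = _ := by ring

/-- cutting the exponential -/
lemma cut_exp {l : ℝ} (hl : 1 ≤ l) (m U : ℕ) :
    (3 : ℝ) ^ U * ind (2 ≤ U) ≤ 3 ^ m * ind (2 ≤ U) + (3 * l) ^ U / l ^ m := by
  have hl0 : 0 < l := by linarith
  by_cases h : U ≤ m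
  · have h1 : (3 : ℝ) ^ U ≤ 3 ^ m := pow_le_pow_right₀ (by norm_num) h
    have h2 := mul_le_mul_of_nonneg_right h1 (ind_nonneg (2 ≤ U))
    have h3 : 0 ≤ (3 * l) ^ U / l ^ m := by positivity
    linarith
  · push Not at h
    have h1 : l ^ m ≤ l ^ U := pow_le_pow_right₀ hl h.le
    have h2 : (3 : ℝ) ^ U ≤ (3 * l) ^ U / l ^ m := by
      rw [le_div_iff₀ (by positivity), mul_pow]
      exact mul_le_mul_of_nonneg_left h1 (by positivity)
    have h3 : (3 : ℝ) ^ U * ind (2 ≤ U) ≤ 3 ^ U * 1 :=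
      mul_le_mul_of_nonneg_left (ind_le_one _) (by positivity)
    have h4 : 0 ≤ (3 : ℝ) ^ m * ind (2 ≤ U) := mul_nonneg (by positivity) (ind_nonneg _)
    linarith

omit [DecidableEq ι] in
/-- the exponential of a sum -/
lemma exp_sum {f : ι → ℕ} {μ : ℝ} (hμ : 1 ≤ μ) :
    μ ^ (∑ i ∈ I, f i) ≤ 1 + ∑ i ∈ I, (μ ^ I.card) ^ f i := by
  classical
  by_cases hI : I.Nonempty
  · obtain ⟨i, hi, hmax⟩ := exists_max_image I f hI
    have h1 : ∑ j ∈ I, f j ≤ I.card * f i := by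
      have := sum_le_card_nsmul I f (f i) hmax
      simpa using this
    have h2 : μ ^ (∑ i ∈ I, f i) ≤ (μ ^ I.card) ^ f i := by
      rw [← pow_mul]
      exact pow_le_pow_right₀ hμ h1
    have h3 : (μ ^ I.card) ^ f i ≤ ∑ i ∈ I, (μ ^ I.card) ^ f i :=
      single_le_sum (f := fun i => (μ ^ I.card) ^ f i) (fun j _ => by positivity) hi
    linarith
  · rw [not_nonempty_iff_eq_empty] at hI
    rw [hI]
    simp

/-- choice of the cut -/
lemma exists_cut {x c : ℝ} (hx0 : 0 < x) (hx1 : x ≤ 1) (hc0 : 0 < c) :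
    ∃ m : ℕ, (3 : ℝ) ^ m ≤ x ^ (-(c / 2)) ∧
      ((3 : ℝ) ^ (4 / c)) ^ m * ((3 : ℝ) ^ (4 / c) * x ^ 2) ≥ 1 := by
  have h1 : 1 ≤ x ^ (-(c / 2)) := Real.one_le_rpow_of_pos_of_le_one_of_nonpos hx0 hx1 (by linarith)
  obtain ⟨m, h2, h3⟩ := exists_nat_pow_near h1 (by norm_num : (1 : ℝ) < 3)
  refine ⟨m, h2, ?_⟩
  have h4 : (x ^ (-(c / 2))) ^ (4 / c) ≤ ((3 : ℝ) ^ (m + 1)) ^ (4 / c) :=
    Real.rpow_le_rpow (by positivity) h3.le (by positivity)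
  have e1 : (x ^ (-(c / 2))) ^ (4 / c) = (x ^ 2)⁻¹ := by
    rw [← Real.rpow_mul hx0.le, ← Real.rpow_two, ← Real.rpow_neg hx0.le]
    congr 1
    field_simp
    norm_num
  have e2 : ((3 : ℝ) ^ (m + 1)) ^ (4 / c) = ((3 : ℝ) ^ (4 / c)) ^ (m + 1) := by
    rw [← Real.rpow_natCast, ← Real.rpow_mul (by norm_num), mul_comm, Real.rpow_mul (by norm_num),
      Real.rpow_natCast]
  rw [e1, e2] at h4
  have h5 : 0 < x ^ 2 := by positivity
  have h6 : (x ^ 2)⁻¹ * x ^ 2 = 1 := inv_mul_cancel₀ h5.ne'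
  calc (1 : ℝ) = (x ^ 2)⁻¹ * x ^ 2 := h6.symm
    _ ≤ ((3 : ℝ) ^ (4 / c)) ^ (m + 1) * x ^ 2 := mul_le_mul_of_nonneg_right h4 h5.le
    _ = _ := by rw [pow_succ]; ring

/-- **exponential moment on two untied classes** -/
theorem pair_moment : ∃ K c : ℝ, 0 < K ∧ 0 < c ∧ c ≤ 1 ∧ ∀ (Q : ℝ) (k : ℕ), 1 ≤ Q →
    ∃ (C : ℝ) (D0 : ℤ), 0 < C ∧
    ∀ (ι : Type) [DecidableEq ι] (q : ℤ × ℤ → ℝ) (E : Finset (ℤ × ℤ)) (σ : ℝ), Pb q → 1 / 4 ≤ σ →
    σ < 1 → ∀ a0 : ℤ, 2 ≤ a0 → K ≤ (1 - σ) ^ ((3 : ℝ) / 2) * a0 →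
    ∀ (D : ℤ), a0 ≤ D → D0 ≤ D →
    ∀ (I : Finset ι) (L : ι → Finset (ℤ × ℤ)) (x0 : ι → ℤ × ℤ) (N : ι → ℤ)
      (π : ι → ℤ × ℤ → ℤ × ℤ) (cc : ι → Bool), I.card ≤ k → FamS q E σ D Q I L x0 N π →
    Ex q E (fun ω => (3 : ℝ) ^ UU I L x0 N π cc (2 * D) ω *
      ind (2 ≤ UU I L x0 N π cc (2 * D) ω)) ≤ C * ((a0 : ℝ) / D) ^ (1 + c) := by
  obtain ⟨K1, C1, c1, hK1, hC1, hc1, hc11, h1⟩ := pair_prob
  refine ⟨K1, c1 / 2, hK1, by linarith, by linarith, ?_⟩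
  intro Q k hQ
  set l : ℝ := (3 : ℝ) ^ (4 / c1) with hl
  have hl1 : 1 ≤ l := Real.one_le_rpow (by norm_num) (by positivity)
  set μ : ℝ := 3 * l with hμ
  have hμ1 : 1 ≤ μ := by rw [hμ]; linarith
  obtain ⟨Kt, D0, hKt, hD0, htail⟩ := cls_tail Q (μ ^ k) hQ (one_le_pow₀ hμ1)
  refine ⟨C1 * (k : ℝ) ^ 2 * Q ^ 2 + l * (1 + k * (2 * Kt)), D0, ?_, ?_⟩
  · have h2 : 0 ≤ C1 * (k : ℝ) ^ 2 * Q ^ 2 := by positivity
    have h3 : 0 < l * (1 + k * (2 * Kt)) := by positivity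
    linarith
  intro ι _ q E σ hq hσ1 hσ2 a0 ha0 hK D haD hDD I L x0 N π cc hIk h
  have hσ0 : 0 ≤ σ := by linarith
  have ha0' : (2 : ℝ) ≤ a0 := by exact_mod_cast ha0
  have haD' : (a0 : ℝ) ≤ D := by exact_mod_cast haD
  have hD0' : (0 : ℝ) < D := by linarith
  set X : ℝ := (a0 : ℝ) / D with hX
  have hX0 : 0 < X := by rw [hX]; positivity
  have hX1 : X ≤ 1 := by rw [hX, div_le_one hD0']; exact haD'
  set U := UU I L x0 N π cc (2 * D) with hU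
  obtain ⟨m, hm1, hm2⟩ := exists_cut hX0 hX1 hc1
  rw [← hl] at hm2
  have hlm : 0 < l ^ m := by positivity
  have hlm' : 1 / l ^ m ≤ l * X ^ 2 := by
    rw [div_le_iff₀ hlm]
    calc (1 : ℝ) ≤ l ^ m * (l * X ^ 2) := hm2
      _ = _ := by ring
  have hcut : Ex q E (fun ω => (3 : ℝ) ^ U ω * ind (2 ≤ U ω)) ≤
      3 ^ m * PrP q E (fun ω => 2 ≤ U ω) + (1 / l ^ m) * Ex q E (fun ω => μ ^ U ω) := by
    unfold PrP
    rw [← Ex_smul, ← Ex_smul, ← Ex_add]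
    refine Ex_mono hq fun ω _ => ?_
    have := cut_exp hl1 m (U ω)
    rw [← hμ] at this
    calc _ ≤ _ := this
      _ = _ := by ring
  -- exponential moment
  have hexp : Ex q E (fun ω => μ ^ U ω) ≤ 1 + k * (2 * Kt) := by
    set f : Finset (ℤ × ℤ) → ι → ℕ := fun ω i =>
      NU 1 (L i) (x0 i) (N i) (2 * D) (vw (π i) (cc i) (L i) (x0 i) (N i) ω) with hf
    have h2 : Ex q E (fun ω => μ ^ U ω) ≤ Ex q E (fun ω => 1 + ∑ i ∈ I, (μ ^ k) ^ f ω i) := by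
      refine Ex_mono hq fun ω _ => ?_
      refine (exp_sum (I := I) (f := f ω) hμ1).trans ?_
      refine add_le_add le_rfl (sum_le_sum fun i _ => ?_)
      exact pow_le_pow_left₀ (by positivity) (pow_le_pow_right₀ hμ1 hIk) _
    refine h2.trans ?_
    rw [Ex_add, Ex_const, Ex_sum]
    refine add_le_add le_rfl ?_
    have h3 : ∀ i ∈ I, Ex q E (fun ω => (μ ^ k) ^ f ω i) ≤ 2 * Kt := by
      intro i hi
      have hi' := h.fam i hi
      have hN0 : 0 ≤ N i := by have := hi'.wq.DN; omega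
      have hNQ : (N i : ℝ) ≤ Q * ((2 * D : ℤ) : ℝ) := by
        push_cast
        have := h.len i hi
        nlinarith only [this, hQ, hD0']
      obtain ⟨δ, hδ, ht⟩ := htail 1 (L i) (x0 i) (N i) (2 * D) (Or.inr rfl) hi'.wq.wall.odd hN0
        (by omega) hNQ σ hσ0 hσ2.le
      refine exp_mom hq E hKt (one_le_pow₀ hμ1) (by positivity : (0 : ℝ) ≤ 1 / (2 * μ ^ k)) ?_ ?_
      · have : 0 < μ ^ k := by positivity
        rw [mul_one_div, div_le_div_iff₀ (by positivity) (by norm_num)]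
        linarith
      · intro n
        refine le_trans ?_ (ht n)
        rw [← hi'.law (cc := cc i)]
        refine PrP_mono hq fun ω _ hω => ?_
        obtain ⟨S, hS, hG, hcard⟩ := exists_NU (κ := 1) (L := L i) (x0 := x0 i) (N := N i)
          (R := 2 * D) (ζ := vw (π i) (cc i) (L i) (x0 i) (N i) ω)
        have h4 := arms_of_classes (κ := 1) (x0 := x0 i) (L := L i) (N := N i) (R := 2 * D)
          (ζ := vw (π i) (cc i) (L i) (x0 i) (N i) ω) (S := S) (Or.inr rfl) hδ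
          (fun t ht => ⟨mem_Icc.1 (hS ht), (hG.1 t ht).1⟩) hG.2
        refine Arms_le ?_ h4
        rw [hcard]
        exact hω
    refine (sum_le_sum h3).trans ?_
    rw [sum_const, nsmul_eq_mul]
    refine mul_le_mul_of_nonneg_right ?_ (by positivity)
    exact_mod_cast hIk
  have hp := h1 ι q E σ hq hσ1 hσ2 a0 ha0 hK D Q haD hQ I L x0 N π cc h
  have hp' : PrP q E (fun ω => 2 ≤ U ω) ≤ C1 * (k : ℝ) ^ 2 * Q ^ 2 * X ^ (1 + c1) := by
    refine hp.trans ?_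
    have h2 : (I.card : ℝ) ≤ k := by exact_mod_cast hIk
    have h3 : (I.card : ℝ) ^ 2 ≤ (k : ℝ) ^ 2 := pow_le_pow_left₀ (by positivity) h2 2
    refine mul_le_mul_of_nonneg_right ?_ (by positivity)
    refine mul_le_mul_of_nonneg_right ?_ (by positivity)
    exact mul_le_mul_of_nonneg_left h3 hC1.le
  refine hcut.trans ?_
  have t1 : (3 : ℝ) ^ m * PrP q E (fun ω => 2 ≤ U ω) ≤
      C1 * (k : ℝ) ^ 2 * Q ^ 2 * X ^ (1 + c1 / 2) := by
    calc (3 : ℝ) ^ m * PrP q E (fun ω => 2 ≤ U ω) ≤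
          X ^ (-(c1 / 2)) * (C1 * (k : ℝ) ^ 2 * Q ^ 2 * X ^ (1 + c1)) :=
          mul_le_mul hm1 hp' (PrP_nonneg hq _ _) (by positivity)
      _ = C1 * (k : ℝ) ^ 2 * Q ^ 2 * (X ^ (-(c1 / 2)) * X ^ (1 + c1)) := by ring
      _ = _ := by
          rw [← Real.rpow_add hX0]
          congr 2
          ring
  have t2 : (1 / l ^ m) * Ex q E (fun ω => μ ^ U ω) ≤ l * (1 + k * (2 * Kt)) * X ^ (1 + c1 / 2) := by
    have h2 : X ^ 2 ≤ X ^ (1 + c1 / 2) := by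
      rw [← Real.rpow_two]
      exact Real.rpow_le_rpow_of_exponent_ge hX0 hX1 (by linarith)
    calc (1 / l ^ m) * Ex q E (fun ω => μ ^ U ω) ≤ (l * X ^ 2) * (1 + k * (2 * Kt)) :=
          mul_le_mul hlm' hexp (Ex_nonneg hq fun ω _ => by positivity) (by positivity)
      _ = l * (1 + k * (2 * Kt)) * X ^ 2 := by ring
      _ ≤ _ := mul_le_mul_of_nonneg_left h2 (by positivity)
  rw [add_mul]
  exact add_le_add t1 t2

/-- **the intermediate scale** -/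
theorem mid_terms : ∃ K C c e : ℝ, 0 < K ∧ 0 < C ∧ 0 < c ∧ c ≤ 1 ∧ 0 < e ∧ e ≤ 1 ∧
    ∀ (ι : Type) [DecidableEq ι] (q : ℤ × ℤ → ℝ) (E : Finset (ℤ × ℤ)) (σ : ℝ), Pb q → 1 / 4 ≤ σ →
    σ < 1 → ∀ a0 : ℤ, 2 ≤ a0 → K ≤ (1 - σ) ^ ((3 : ℝ) / 2) * a0 →
    ∀ (D : ℤ) (Q : ℝ), a0 ≤ D → 1 ≤ Q →
    ∀ (I : Finset ι) (L : ι → Finset (ℤ × ℤ)) (x0 : ι → ℤ × ℤ) (N : ι → ℤ)
      (π : ι → ℤ × ℤ → ℤ × ℤ) (cc : ι → Bool), FamS q E σ D Q I L x0 N π →
    ∀ r : ℤ, r = ⌈(D : ℝ) * ((a0 : ℝ) / D) ^ e⌉ → a0 ≤ r ∧ r ≤ D ∧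
    PrP q E (fun ω => 2 ≤ UU I L x0 N π cc (2 * r) ω) ≤
      C * (I.card : ℝ) ^ 2 * Q ^ 2 * ((a0 : ℝ) / D) ^ (1 + c) ∧
    ∀ i ∈ I, ∀ τ : ℤ, (τ = 0 ∨ τ = N i) →
      PrP q E (fun ω => CZ 1 (L i) (x0 i) (N i) τ (8 * r) (2 * D)
        (vw (π i) (cc i) (L i) (x0 i) (N i) ω)) ≤ C * Q * ((a0 : ℝ) / D) ^ (1 + c) := by
  obtain ⟨K1, C1, c1, hK1, hC1, hc1, hc11, h1⟩ := pair_prob
  obtain ⟨K2, C2, c2, hK2, hC2, hc2, hc21, h2⟩ := corner_zone'
  set e : ℝ := c1 / 8 with he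
  have he0 : 0 < e := by rw [he]; linarith
  have he1 : e ≤ 1 := by rw [he]; linarith
  set c : ℝ := min (c1 / 2) (e * c2) with hc
  have hc0 : 0 < c := lt_min (by linarith) (by positivity)
  have hcc1 : c ≤ c1 / 2 := min_le_left _ _
  have hcc2 : c ≤ e * c2 := min_le_right _ _
  clear_value c
  refine ⟨max K1 K2, C1 + 16 * C2 + 256 ^ ((1 + c) / e), c, e, lt_max_of_lt_left hK1, by positivity,
    hc0, by linarith, he0, he1, ?_⟩
  intro ι _ q E σ hq hσ1 hσ2 a0 ha0 hK D Q haD hQ I L x0 N π cc h r hr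
  have ha0' : (2 : ℝ) ≤ a0 := by exact_mod_cast ha0
  have haD' : (a0 : ℝ) ≤ D := by exact_mod_cast haD
  have hD0' : (0 : ℝ) < D := by linarith
  obtain ⟨m1, m2, m3⟩ := mid_scale ha0' haD' he0 he1
  rw [← hr] at m1 m2 m3
  set X : ℝ := (a0 : ℝ) / D with hX
  have hX0 : 0 < X := by rw [hX]; positivity
  have hX1 : X ≤ 1 := by rw [hX, div_le_one hD0']; exact haD'
  have hXe : 0 < X ^ e := Real.rpow_pos_of_pos hX0 _
  have hXe1 : X ^ e ≤ 1 := Real.rpow_le_one hX0.le hX1 he0.le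
  have har : a0 ≤ r := by exact_mod_cast m1
  have hrD : r ≤ D := by
    rw [hr]
    refine Int.ceil_le.2 ?_
    nlinarith only [hXe1, hD0']
  have hr0 : (0 : ℝ) < r := by linarith
  have hrD' : (r : ℝ) ≤ D := by exact_mod_cast hrD
  have hXc : 0 < X ^ (1 + c) := Real.rpow_pos_of_pos hX0 _
  have hbigC : 0 < (256 : ℝ) ^ ((1 + c) / e) := by positivity
  refine ⟨har, hrD, ?_, ?_⟩
  · -- pairs at scale `r`
    have hQ' : 1 ≤ Q * (D / r) := by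
      have : 1 ≤ (D : ℝ) / r := by rw [le_div_iff₀ hr0]; linarith only [hrD']
      nlinarith only [this, hQ]
    have hS : FamS q E σ r (Q * (D / r)) I L x0 N π := h.mono hrD (by
      rw [mul_assoc, div_mul_cancel₀ _ hr0.ne'])
    have h3 := h1 ι q E σ hq hσ1 hσ2 a0 ha0 ((le_max_left _ _).trans hK) r (Q * (D / r)) har hQ'
      I L x0 N π cc hS
    have h4 : (D : ℝ) / r ≤ (X ^ e)⁻¹ := by
      rw [div_le_iff₀ hr0, inv_mul_eq_div, le_div_iff₀ hXe]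
      exact m2
    have h5 : (a0 : ℝ) / r ≤ X * (X ^ e)⁻¹ := by
      rw [← div_eq_mul_inv, hX, div_div, ← hX]
      exact div_le_div_of_nonneg_left (by linarith) (by positivity) m2
    have h6 : (Q * ((D : ℝ) / r)) ^ 2 ≤ (Q * (X ^ e)⁻¹) ^ 2 :=
      pow_le_pow_left₀ (by positivity) (mul_le_mul_of_nonneg_left h4 (by linarith)) 2
    have h7 : ((a0 : ℝ) / r) ^ (1 + c1) ≤ (X * (X ^ e)⁻¹) ^ (1 + c1) :=
      Real.rpow_le_rpow (div_nonneg (by linarith) hr0.le) h5 (by linarith)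
    have h8 : (Q * (X ^ e)⁻¹) ^ 2 * (X * (X ^ e)⁻¹) ^ (1 + c1) =
        Q ^ 2 * X ^ ((1 - e) * (1 + c1) - 2 * e) := by
      have e1 : X * (X ^ e)⁻¹ = X ^ (1 - e) := by
        rw [Real.rpow_sub hX0, Real.rpow_one]
        exact (div_eq_mul_inv _ _).symm
      have e2 : ((X ^ e)⁻¹) ^ 2 = X ^ (-(2 * e)) := by
        rw [Real.rpow_neg hX0.le, mul_comm 2 e, Real.rpow_mul hX0.le, Real.rpow_two, inv_pow]
      rw [mul_pow, e1, e2, ← Real.rpow_mul hX0.le, mul_assoc, ← Real.rpow_add hX0]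
      congr 2
      ring
    have h9 : X ^ ((1 - e) * (1 + c1) - 2 * e) ≤ X ^ (1 + c) := by
      refine Real.rpow_le_rpow_of_exponent_ge hX0 hX1 ?_
      rw [he]
      nlinarith only [hcc1, hc11, hc1]
    refine h3.trans ?_
    calc C1 * (I.card : ℝ) ^ 2 * (Q * ((D : ℝ) / r)) ^ 2 * ((a0 : ℝ) / r) ^ (1 + c1) =
          C1 * (I.card : ℝ) ^ 2 * ((Q * ((D : ℝ) / r)) ^ 2 * ((a0 : ℝ) / r) ^ (1 + c1)) := by ring
      _ ≤ C1 * (I.card : ℝ) ^ 2 * ((Q * (X ^ e)⁻¹) ^ 2 * (X * (X ^ e)⁻¹) ^ (1 + c1)) := by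
          refine mul_le_mul_of_nonneg_left ?_ (by positivity)
          exact mul_le_mul h6 h7 (Real.rpow_nonneg (div_nonneg (by linarith) hr0.le) _)
            (by positivity)
      _ = C1 * (I.card : ℝ) ^ 2 * (Q ^ 2 * X ^ ((1 - e) * (1 + c1) - 2 * e)) := by rw [h8]
      _ ≤ C1 * (I.card : ℝ) ^ 2 * (Q ^ 2 * X ^ (1 + c)) :=
          mul_le_mul_of_nonneg_left (mul_le_mul_of_nonneg_left h9 (by positivity)) (by positivity)
      _ ≤ (C1 + 16 * C2 + 256 ^ ((1 + c) / e)) * (I.card : ℝ) ^ 2 * (Q ^ 2 * X ^ (1 + c)) := by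
          refine mul_le_mul_of_nonneg_right ?_ (by positivity)
          refine mul_le_mul_of_nonneg_right ?_ (by positivity)
          linarith
      _ = _ := by ring
  · -- corner zone
    intro i hi τ hτ
    have hi' := h.fam i hi
    rw [hi'.law (cc := cc i) (CZ 1 (L i) (x0 i) (N i) τ (8 * r) (2 * D))]
    by_cases hbig : (1 : ℝ) / 256 < X ^ e
    · refine (PrP_le_one (qb_pb (by linarith) hσ2.le) _ _).trans ?_
      have g1 : (1 : ℝ) ≤ 256 * X ^ e := by linarith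
      have g2 : (1 : ℝ) ≤ (256 * X ^ e) ^ ((1 + c) / e) := Real.one_le_rpow g1 (by positivity)
      rw [Real.mul_rpow (by norm_num) (by positivity), ← Real.rpow_mul hX0.le,
        mul_div_cancel₀ _ he0.ne'] at g2
      calc (1 : ℝ) ≤ 256 ^ ((1 + c) / e) * X ^ (1 + c) := g2
        _ ≤ (C1 + 16 * C2 + 256 ^ ((1 + c) / e)) * Q * X ^ (1 + c) := by
            refine mul_le_mul_of_nonneg_right ?_ hXc.le
            have : 256 ^ ((1 + c) / e) ≤ C1 + 16 * C2 + 256 ^ ((1 + c) / e) := by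
              linarith only [hC1, hC2]
            nlinarith only [this, hQ, hbigC]
    push Not at hbig
    have h16 : 16 * (8 * (r : ℝ)) ≤ D := by
      calc 16 * (8 * (r : ℝ)) ≤ 16 * (8 * (2 * (D * X ^ e))) := by linarith
        _ = 256 * X ^ e * D := by ring
        _ ≤ 1 * D := mul_le_mul_of_nonneg_right (by linarith) hD0'.le
        _ = D := one_mul _
    have h16' : 16 * (8 * r) ≤ D := by exact_mod_cast h16
    have h3 := h2 (L i) (x0 i) (N i) D hi'.wq σ hσ1 hσ2 a0 ha0 ((le_max_right _ _).trans hK) (8 * r)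
      (by omega) h16' τ hτ
    refine h3.trans ?_
    have hN0 : (0 : ℝ) ≤ N i := by
      have := hi'.wq.DN
      exact_mod_cast (by omega : 0 ≤ N i)
    have hND : (N i : ℝ) / D ≤ Q := by rw [div_le_iff₀ hD0']; exact h.len i hi
    have q1 : (((8 * r : ℤ) : ℝ) / D) ^ c2 ≤ 16 * X ^ (e * c2) := by
      have g1 : ((8 * r : ℤ) : ℝ) / D ≤ 16 * X ^ e := by
        rw [div_le_iff₀ hD0']
        push_cast
        linarith
      have g0 : 0 ≤ ((8 * r : ℤ) : ℝ) / D := by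
        push_cast
        positivity
      calc (((8 * r : ℤ) : ℝ) / D) ^ c2 ≤ (16 * X ^ e) ^ c2 := Real.rpow_le_rpow g0 g1 hc2.le
        _ = 16 ^ c2 * X ^ (e * c2) := by
            rw [Real.mul_rpow (by norm_num) (by positivity), ← Real.rpow_mul hX0.le]
        _ ≤ 16 * X ^ (e * c2) := by
            refine mul_le_mul_of_nonneg_right ?_ (by positivity)
            calc (16 : ℝ) ^ c2 ≤ 16 ^ (1 : ℝ) := Real.rpow_le_rpow_of_exponent_le (by norm_num) hc21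
              _ = 16 := Real.rpow_one 16
    have g2 : X * X ^ (e * c2) ≤ X ^ (1 + c) := by
      rw [← Real.rpow_one_add' hX0.le (by positivity)]
      exact Real.rpow_le_rpow_of_exponent_ge hX0 hX1 (by linarith)
    calc C2 * ((N i : ℝ) / D) * X * (((8 * r : ℤ) : ℝ) / D) ^ c2 ≤
          C2 * ((N i : ℝ) / D) * X * (16 * X ^ (e * c2)) :=
          mul_le_mul_of_nonneg_left q1 (by positivity)
      _ = 16 * C2 * (((N i : ℝ) / D) * (X * X ^ (e * c2))) := by ring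
      _ ≤ 16 * C2 * (Q * X ^ (1 + c)) := by
          refine mul_le_mul_of_nonneg_left ?_ (by positivity)
          exact mul_le_mul hND g2 (by positivity) (by linarith)
      _ ≤ (C1 + 16 * C2 + 256 ^ ((1 + c) / e)) * (Q * X ^ (1 + c)) := by
          refine mul_le_mul_of_nonneg_right ?_ (by positivity)
          linarith
      _ = _ := by ring

end Pool.Agent.H59.Q1
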