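import Mathlib
import Pool.Agent.H59.Q1.CornQ
import Pool.Agent.H59.Q1.PairF

set_option autoImplicit false
open Finset

/-!
# Walls of polygons: ties at an arbitrary set `V` of boundary vertices

`WallV` : a straight wall whose vertices belong to `V`. `UnV` : no tie at any vertex of `V`. `UTV` : untied
crossing.
-/

namespace Pool.Agent.H59.Q1

open Pool.Agent.H75.Perc Pool.Agent.H75.TwoArm Pool.Agent.H75.Four Pool.Agent.H49.Perc
open Pool.Agent.H99.NC Pool.Agent.H60.Q1 Pool.Agent.H20.Q1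

/-- labels of the layer and of the ties -/
noncomputable def EV (L V : Finset (ℤ × ℤ)) : Finset (ℤ × ℤ) := L ∪ Td V

/-- a straight wall, all its vertices may be tied -/
structure WallV (κ : ℤ) (L V : Finset (ℤ × ℤ)) (x0 : ℤ × ℤ) (N D : ℤ) : Prop where
  wall : Wall κ L x0 N D
  hV : ∀ t : ℤ, 0 ≤ t → t ≤ N → wp κ x0 t ∈ V

/-- no contact of the class is tied -/
def UnV (V L : Finset (ℤ × ℤ)) (x : ℤ × ℤ) (ζ : Finset (ℤ × ℤ)) : Prop :=
  ∀ y ∈ V, Co (ζ ∩ L) x y → y + y ∉ ζ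

/-- untied open crossing of an annulus -/
def UTV (V L : Finset (ℤ × ℤ)) (c : ℤ × ℤ) (ρ M : ℤ) (ζ : Finset (ℤ × ℤ)) : Prop :=
  ∃ p v, Near c ρ p ∧ Far c M v ∧ Co (ζ ∩ (L ∩ Ar c ρ M)) p v ∧
    ∀ y ∈ V, Co (ζ ∩ (L ∩ Ar c ρ M)) p y → y + y ∉ ζ

/-- ties at distance `≥ ρ` from `c` -/
noncomputable def TFV (V : Finset (ℤ × ℤ)) (c : ℤ × ℤ) (ρ : ℤ) : Finset (ℤ × ℤ) :=
  (Td V).filter (fun l => 2 * ρ ≤ |l.1 - 2 * c.1| ∨ 2 * ρ ≤ |l.2 - 2 * c.2|)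

variable {σ : ℝ} {κ s ε : ℤ} {q : ℤ × ℤ → ℝ} {x y z w v x0 c p l : ℤ × ℤ}
  {t t' a b j ρ ρ1 R r m a0 D N n M τ k u : ℤ} {E F G L V ω ω1 ω2 ζ η : Finset (ℤ × ℤ)}
  {A : Finset (ℤ × ℤ) → Prop}

lemma UnV.un (h : UnV V L x ζ) (hV : ∀ t : ℤ, 0 ≤ t → t ≤ N → wp κ x0 t ∈ V) : Un κ L x0 N x ζ :=
  fun t h1 h2 h3 => h _ (hV t h1 h2) h3

lemma UnV.trans (h : UnV V L x ζ) (h' : Co (ζ ∩ L) x y) : UnV V L y ζ :=
  fun z g1 g2 => h z g1 (h'.trans g2)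

lemma UTV_of (h : Co (ζ ∩ L) x v) (hx : inR c ρ x) (hv : Far c M v) (hρM : ρ < M)
    (hU : UnV V L x ζ) : UTV V L c ρ M ζ := by
  obtain ⟨p, v', h1, h2, h3, h4⟩ := cross_gen h hx hv hρM
  rw [cap_eq] at h3
  refine ⟨p, v', h1, h2, h3, fun y g1 g3 => hU y g1 ?_⟩
  refine h4.trans (g3.mono ?_)
  rw [← cap_eq]
  exact inter_subset_left

lemma UTV_loc (hρM : ρ < M) : Loc E (Ar c ρ M ∪ TFV V c ρ) (UTV V L c ρ M) := by
  intro ω _
  have e1 : ω ∩ (Ar c ρ M ∪ TFV V c ρ) ∩ (L ∩ Ar c ρ M) = ω ∩ (L ∩ Ar c ρ M) := by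
    ext l; simp only [mem_inter, mem_union]; tauto
  unfold UTV
  rw [e1]
  refine exists_congr fun p => exists_congr fun v => ?_
  refine and_congr_right fun h1 => and_congr_right fun h2 => and_congr_right fun h3 => ?_
  refine forall_congr' fun y => forall_congr' fun g1 => forall_congr' fun g3 => ?_
  have h4 := far_ver hρM h1 h2 h3 g3
  have h5 : y + y ∈ Ar c ρ M ∪ TFV V c ρ := by
    refine mem_union_right _ (mem_filter.2 ⟨mem_Td.2 g1, ?_⟩)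
    simp only [Prod.fst_add, Prod.snd_add, le_abs] at h4 ⊢
    omega
  rw [mem_inter]
  tauto

/-! ### comparison of the spaces -/

lemma EE_sub (hV : ∀ t : ℤ, 0 ≤ t → t ≤ N → wp κ x0 t ∈ V) : EE κ L x0 N ⊆ EV L V := by
  refine union_subset_union_right ?_
  intro l hl
  obtain ⟨t, ht, rfl⟩ := mem_image.1 hl
  rw [mem_Icc] at ht
  exact mem_Td.2 (hV t ht.1 ht.2)

lemma EV_Ar : EV L V ∩ Ar c ρ M = EE κ L x0 N ∩ Ar c ρ M := by
  ext l
  rw [mem_inter, mem_inter]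
  refine and_congr_left fun h1 => ?_
  have h2 := odd_BR (Ar_sub h1)
  unfold EV EE
  rw [mem_union, mem_union]
  constructor
  · rintro (h3 | h3)
    · exact Or.inl h3
    · have := even_Td h3; omega
  · rintro (h3 | h3)
    · exact Or.inl h3
    · have := even_Tt h3; omega

lemma ARg_V (q : ℤ × ℤ → ℝ) : PrP q (EV L V) (ARg L c ρ M) = PrP q (EE κ L x0 N) (ARg L c ρ M) := by
  rw [PrP_loc q (ARg_loc (L := L) (c := c) (ρ := ρ) (M := M) (E := EV L V)),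
    PrP_loc q (ARg_loc (L := L) (c := c) (ρ := ρ) (M := M) (E := EE κ L x0 N)), EV_Ar]

lemma lay_V (q : ℤ × ℤ → ℝ) : PrP q (EV L V) (fun ζ => A (ζ ∩ L)) =
    PrP q (EE κ L x0 N) (fun ζ => A (ζ ∩ L)) := by
  have h1 : L ⊆ EV L V := subset_union_left
  have h2 : L ⊆ EE κ L x0 N := subset_union_left
  rw [PrP_restrict q h1 A, PrP_restrict q h2 A]

lemma WallV.prob_Lo (h : WallV κ L V x0 N D) (h0 : 0 ≤ r) (h1 : r ≤ t) (h2 : t + r ≤ N) (h3 : r ≤ D) :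
    PrP (qb σ) (EV L V) (Lo κ s (wp κ x0 t) r) = pS σ κ s r := by
  refine PrP_Lo h.wall.hκ h0 ((h.wall.HLsub h0 h1 h2 h3).trans subset_union_left) ?_
  intro y hy hr
  rw [htw] at hy
  have e := of_ht hy
  rw [e, wp_dist h.wall.hκ, abs_le] at hr
  refine mem_union_right _ (mem_Td.2 ?_)
  rw [e]
  exact h.hV _ (by omega) (by omega)

lemma WallV.mono (h : WallV κ L V x0 N D) (hMD : M ≤ D) : WallV κ L V x0 N M :=
  ⟨⟨h.wall.hκ, h.wall.odd, fun t r h1 h2 h3 h4 => h.wall.flat t r h1 h2 h3 (by omega)⟩, h.hV⟩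

/-- flat pairs in the big space -/
lemma FP_V (hV : ∀ t : ℤ, 0 ≤ t → t ≤ N → wp κ x0 t ∈ V) (q : ℤ × ℤ → ℝ) :
    PrP q (EV L V) (FP κ L x0 N ρ1 R) = PrP q (EE κ L x0 N) (FP κ L x0 N ρ1 R) := by
  rw [← PrP_restrict q (EE_sub hV) (FP κ L x0 N ρ1 R)]
  refine PrP_congr fun ω _ => ?_
  have hL : L ⊆ EE κ L x0 N := subset_union_left
  have e1 : ω ∩ EE κ L x0 N ∩ L = ω ∩ L := by
    rw [inter_assoc, inter_eq_right.2 hL]
  have e2 : ∀ x, Un κ L x0 N x (ω ∩ EE κ L x0 N) ↔ Un κ L x0 N x ω := by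
    intro x
    unfold Un
    rw [e1]
    refine forall_congr' fun t => forall_congr' fun g1 => forall_congr' fun g2 =>
      forall_congr' fun g3 => ?_
    have := mem_tt (κ := κ) (L := L) (x0 := x0) g1 g2
    rw [mem_inter]
    tauto
  unfold FP Mc Rep
  simp only [e1, e2]

end Pool.Agent.H59.Q1
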