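import Mathlib
import Pool.Agent.H59.Q1.VA

set_option autoImplicit false
open Finset

/-!
# Corner zones, ties at an arbitrary set of boundary vertices
-/

namespace Pool.Agent.H59.Q1

open Pool.Agent.H75.Perc Pool.Agent.H75.TwoArm Pool.Agent.H75.Four Pool.Agent.H49.Perc
open Pool.Agent.H99.NC Pool.Agent.H60.Q1 Pool.Agent.H20.Q1

/-- an untied class of radius `≥ R` enters the box of radius `ρ1` around the wall point `τ` -/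
def CZV (κ : ℤ) (L V : Finset (ℤ × ℤ)) (x0 : ℤ × ℤ) (N τ ρ1 R : ℤ) (ζ : Finset (ℤ × ℤ)) : Prop :=
  ∃ t : ℤ, (0 ≤ t ∧ t ≤ N) ∧ Mc L R (wp κ x0 t) ζ ∧ UnV V L (wp κ x0 t) ζ ∧
    ∃ p, inR (wp κ x0 τ) ρ1 p ∧ Co (ζ ∩ L) (wp κ x0 t) p

variable {σ : ℝ} {κ s ε : ℤ} {q : ℤ × ℤ → ℝ} {x y z w u v x0 c p : ℤ × ℤ}
  {t t' a b j ρ ρ1 R r m a0 D N n M τ k : ℤ} {E F G L V ω ω1 ω2 ζ η : Finset (ℤ × ℤ)}

/-! ### the three kinds of events -/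

/-- first contact near the corner -/
def EaV (κ : ℤ) (L V : Finset (ℤ × ℤ)) (x0 : ℤ × ℤ) (N τ s a0 ρ1 D u : ℤ) (ζ : Finset (ℤ × ℤ)) : Prop :=
  Lo κ s (wp κ x0 (τ + s * u)) (u / 8) ζ ∧ (ARg L (wp κ x0 τ) ρ1 (u - u / 8 - 1) ζ ∧
    (ARg L (wp κ x0 τ) (2 * u + 2) (max (2 * u + 2) a0) ζ ∧
      UTV V L (wp κ x0 τ) (max (2 * u + 2) a0) (D / 2) ζ))

/-- all contacts near the other corner -/
def EcV (κ : ℤ) (L V : Finset (ℤ × ℤ)) (x0 : ℤ × ℤ) (N τ s a0 ρ1 D u : ℤ) (ζ : Finset (ℤ × ℤ)) : Prop :=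
  ARg L (wp κ x0 τ) ρ1 (D / 4) ζ ∧ (Lo κ (-s) (wp κ x0 (N - τ - s * u)) (u / 8) ζ ∧
    (ARg L (wp κ x0 (N - τ)) (2 * u + 2) (max (2 * u + 2) a0) ζ ∧
      UTV V L (wp κ x0 (N - τ)) (max (2 * u + 2) a0) (D / 2) ζ))

/-- **deterministic part** -/
theorem cz_splitV (hw : WallV κ L V x0 N R) (hsτ : (s = 1 ∧ τ = 0) ∨ (s = -1 ∧ τ = N))
    (_ha0 : 1 ≤ a0) (hρ : 1 ≤ ρ1) (haρ : a0 ≤ ρ1) (hρD : 16 * ρ1 ≤ D) (hDR : D ≤ R) (hDN : D ≤ N)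
    (hD : 32 ≤ D) (hcz : CZV κ L V x0 N τ ρ1 (2 * D) ζ) :
    (∃ u ∈ Finset.Icc 0 (D / 16), EaV κ L V x0 N τ s a0 ρ1 D u ζ) ∨
    (∃ t ∈ (Finset.Icc 0 N).filter (fun t => D / 16 < s * (t - τ) ∧ s * (t - τ) ≤ N - D / 16),
      Eb κ L x0 τ s ρ1 D t ζ) ∨
    ∃ u ∈ Finset.Icc 0 (D / 16), EcV κ L V x0 N τ s a0 ρ1 D u ζ := by
  have h := hw.wall
  have hκ := h.hκ
  obtain ⟨t0, ht0, hM0, hU0, p, hp1, hp2⟩ := hcz
  obtain ⟨t, ht, hc, hrep⟩ := exists_rep (κ := κ) (L := L) (x0 := x0) (ζ := ζ) s ht0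
  have hM := hM0.half hc
  have hU := hU0.trans hc
  have hpx : Co (ζ ∩ L) p (wp κ x0 t) := hp2.symm.trans hc
  have hτ : 0 ≤ τ ∧ τ ≤ N := by omega
  -- reaching far
  have hfar : ∀ {t' τ' : ℤ} {v : ℤ × ℤ}, Far (wp κ x0 t') D v → |t' - τ'| ≤ D / 16 → ∀ M, M ≤ D / 2 →
      Far (wp κ x0 τ') M v := by
    intro t' τ' v h1 h2 M hM'
    have h3 := (wp_dist (κ := κ) (x0 := x0) (t := τ') (t' := t') (r := D / 16) hκ).2 h2
    rw [inR_iff] at h3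
    unfold Far at h1 ⊢
    rw [le_abs, le_abs] at h1 ⊢
    omega
  by_cases h1 : s * (t - τ) ≤ D / 16
  · left
    set u : ℤ := s * (t - τ) with hu
    have hu0 : 0 ≤ u := by
      rw [hu]; rcases hsτ with ⟨rfl, rfl⟩ | ⟨rfl, rfl⟩ <;> omega
    have htu : τ + s * u = t := by
      rw [hu]; rcases hsτ with ⟨rfl, rfl⟩ | ⟨rfl, rfl⟩ <;> ring
    have habs : |t - τ| = u := by
      rw [hu]
      rcases hsτ with ⟨rfl, rfl⟩ | ⟨rfl, rfl⟩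
      · rw [abs_of_nonneg (by omega)]; ring
      · rw [abs_of_nonpos (by omega)]; ring
    clear_value u
    refine ⟨u, mem_Icc.2 ⟨hu0, h1⟩, ?_⟩
    obtain ⟨v, hv1, hv2⟩ := hM
    have hin : ∀ k : ℤ, u ≤ k → inR (wp κ x0 τ) k (wp κ x0 t) := fun k hk => by
      rw [wp_dist hκ, habs]; exact hk
    have hmax : max (2 * u + 2) a0 < D / 2 := by
      rw [max_lt_iff]; omega
    unfold EaV
    rw [htu]
    refine ⟨?_, ?_, ?_, ?_⟩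
    · refine h.lo_of (R := D) (by omega) ?_ ?_ (by omega) (by omega) ⟨v, hv1, hv2⟩ hrep (hU.un hw.hV)
      · rw [← htu]; rcases hsτ with ⟨rfl, rfl⟩ | ⟨rfl, rfl⟩ <;> omega
      · rw [← htu]; rcases hsτ with ⟨rfl, rfl⟩ | ⟨rfl, rfl⟩ <;> omega
    · exact ARg_of hpx (by omega) hp1 (far_wp (by rw [habs]; omega))
    · exact ARg_of hv2 (by omega) (hin _ (by omega)) (hfar hv1 (by rw [habs]; exact h1) _ hmax.le)
    · exact UTV_of hv2 (hin _ (le_trans (by omega) (le_max_left _ _)))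
        (hfar hv1 (by rw [habs]; exact h1) _ le_rfl) hmax hU
  push Not at h1
  right
  by_cases h2 : s * (t - τ) ≤ N - D / 16
  · left
    have ht1 : D / 16 ≤ t ∧ t + D / 16 ≤ N := by
      rcases hsτ with ⟨rfl, rfl⟩ | ⟨rfl, rfl⟩ <;> omega
    refine ⟨t, mem_filter.2 ⟨mem_Icc.2 ht, h1, h2⟩, ?_⟩
    refine ⟨h.lo_of (R := D) (by omega) (by omega) (by omega) (by omega) (by omega) hM hrep (hU.un hw.hV), ?_⟩
    refine ARg_of hpx (by omega) hp1 (far_wp ?_)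
    rcases hsτ with ⟨rfl, rfl⟩ | ⟨rfl, rfl⟩
    · rw [le_abs]; omega
    · rw [le_abs]; omega
  · right
    push Not at h2
    obtain ⟨t2, ht2, hc2, hrep2⟩ := exists_rep (κ := κ) (L := L) (x0 := x0) (ζ := ζ) (-s) ht0
    have hM2 := hM0.half hc2
    have hU2 := hU0.trans hc2
    have hpx2 : Co (ζ ∩ L) p (wp κ x0 t2) := hp2.symm.trans hc2
    have h3 := hrep t2 ht2.1 ht2.2 (hc.symm.trans hc2)
    set u : ℤ := s * (N - τ - t2) with hu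
    have hu0 : 0 ≤ u := by
      rw [hu]; rcases hsτ with ⟨rfl, rfl⟩ | ⟨rfl, rfl⟩ <;> omega
    have hu1 : u ≤ D / 16 := by
      rw [hu]; rcases hsτ with ⟨rfl, rfl⟩ | ⟨rfl, rfl⟩ <;> omega
    have htu : N - τ - s * u = t2 := by
      rw [hu]; rcases hsτ with ⟨rfl, rfl⟩ | ⟨rfl, rfl⟩ <;> ring
    have habs : |t2 - (N - τ)| = u := by
      rw [hu]
      rcases hsτ with ⟨rfl, rfl⟩ | ⟨rfl, rfl⟩
      · rw [abs_of_nonpos (by omega)]; ring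
      · rw [abs_of_nonneg (by omega)]; ring
    clear_value u
    refine ⟨u, mem_Icc.2 ⟨hu0, hu1⟩, ?_⟩
    obtain ⟨v, hv1, hv2⟩ := hM2
    have hin : ∀ k : ℤ, u ≤ k → inR (wp κ x0 (N - τ)) k (wp κ x0 t2) := fun k hk => by
      rw [wp_dist hκ, habs]; exact hk
    have hmax : max (2 * u + 2) a0 < D / 2 := by
      rw [max_lt_iff]; omega
    unfold EcV
    rw [htu]
    refine ⟨?_, ?_, ?_, ?_⟩
    · refine ARg_of hpx2 (by omega) hp1 (far_wp ?_)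
      rcases hsτ with ⟨rfl, rfl⟩ | ⟨rfl, rfl⟩
      · rw [le_abs]; omega
      · rw [le_abs]; omega
    · refine h.lo_of (R := D) (by omega) ?_ ?_ (by omega) (by omega) ⟨v, hv1, hv2⟩ hrep2 (hU2.un hw.hV)
      · rw [← htu]; rcases hsτ with ⟨rfl, rfl⟩ | ⟨rfl, rfl⟩ <;> omega
      · rw [← htu]; rcases hsτ with ⟨rfl, rfl⟩ | ⟨rfl, rfl⟩ <;> omega
    · exact ARg_of hv2 (by omega) (hin _ (by omega)) (hfar hv1 (by rw [habs]; exact hu1) _ hmax.le)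
    · exact UTV_of hv2 (hin _ (le_trans (by omega) (le_max_left _ _)))
        (hfar hv1 (by rw [habs]; exact hu1) _ le_rfl) hmax hU2

end Pool.Agent.H59.Q1
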