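import Mathlib
import Pool.Agent.H59.Q1.VP
import Pool.Agent.H59.Q1.TwoU

set_option autoImplicit false
open Finset

/-!
# Two distinct untied macroscopic classes at one wall of a polygon
-/

namespace Pool.Agent.H59.Q1

open Pool.Agent.H75.Perc Pool.Agent.H75.TwoArm Pool.Agent.H75.Four Pool.Agent.H49.Perc
open Pool.Agent.H99.NC Pool.Agent.H60.Q1 Pool.Agent.H20.Q1

/-- two distinct untied classes of radius `≥ R` -/
def TwoUV (κ : ℤ) (L V : Finset (ℤ × ℤ)) (x0 : ℤ × ℤ) (N R : ℤ) (ζ : Finset (ℤ × ℤ)) : Prop :=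
  ∃ t t' : ℤ, ((0 ≤ t ∧ t ≤ N) ∧ Mc L R (wp κ x0 t) ζ ∧ UnV V L (wp κ x0 t) ζ) ∧
    ((0 ≤ t' ∧ t' ≤ N) ∧ Mc L R (wp κ x0 t') ζ ∧ UnV V L (wp κ x0 t') ζ) ∧
    ¬ Co (ζ ∩ L) (wp κ x0 t) (wp κ x0 t')

variable {σ : ℝ} {κ s ε : ℤ} {q : ℤ × ℤ → ℝ} {x y z w v x0 c p : ℤ × ℤ}
  {t t' a b j ρ ρ1 R r m a0 D N n M τ k u : ℤ} {E F G L V ω ω1 ω2 ζ η : Finset (ℤ × ℤ)}

/-- an untied class: first contact in the middle, or the class is near one end -/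
lemma first_casesV (hκ : κ = 0 ∨ κ = 1) (ht : 0 ≤ t ∧ t ≤ N) (hM : Mc L (2 * D) (wp κ x0 t) ζ)
    (hU : UnV V L (wp κ x0 t) ζ) :
    (CZV κ L V x0 N 0 ρ1 (2 * D) ζ ∨ CZV κ L V x0 N N ρ1 (2 * D) ζ) ∨
    ∃ t1, (ρ1 ≤ t1 ∧ t1 + ρ1 ≤ N) ∧ Co (ζ ∩ L) (wp κ x0 t) (wp κ x0 t1) ∧
      Mc L D (wp κ x0 t1) ζ ∧ Rep κ L x0 N 1 t1 ζ ∧ UnV V L (wp κ x0 t1) ζ := by
  obtain ⟨t1, ht1, hc, hrep⟩ := exists_rep (κ := κ) (L := L) (x0 := x0) (ζ := ζ) 1 ht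
  by_cases h1 : t1 < ρ1
  · left; left
    refine ⟨t, ht, hM, hU, wp κ x0 t1, ?_, hc⟩
    rw [wp_dist hκ, abs_le]; omega
  by_cases h2 : N < t1 + ρ1
  · left; right
    refine ⟨t, ht, hM, hU, wp κ x0 t1, ?_, hc⟩
    rw [wp_dist hκ, abs_le]; omega
  right
  exact ⟨t1, by omega, hc, hM.half hc, hrep, hU.trans hc⟩

theorem twoUV_split (hκ : κ = 0 ∨ κ = 1) (hV : ∀ t : ℤ, 0 ≤ t → t ≤ N → wp κ x0 t ∈ V) (h : TwoUV κ L V x0 N (2 * D) ζ) :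
    (CZV κ L V x0 N 0 ρ1 (2 * D) ζ ∨ CZV κ L V x0 N N ρ1 (2 * D) ζ) ∨ FP κ L x0 N ρ1 D ζ := by
  obtain ⟨t, t', ⟨ht, hM, hU⟩, ⟨ht', hM', hU'⟩, hd⟩ := h
  rcases first_casesV (ρ1 := ρ1) hκ ht hM hU with h1 | ⟨t1, g1, g2, g3, g4, g5⟩
  · exact Or.inl h1
  rcases first_casesV (ρ1 := ρ1) hκ ht' hM' hU' with h1 | ⟨t2, k1, k2, k3, k4, k5⟩
  · exact Or.inl h1
  right
  have hd' : ¬ Co (ζ ∩ L) (wp κ x0 t1) (wp κ x0 t2) := fun h1 => hd ((g2.trans h1).trans k2.symm)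
  rcases lt_trichotomy t1 t2 with h1 | h1 | h1
  · exact ⟨t1, t2, g1.1, h1, k1.2, ⟨g3, g4, g5.un hV⟩, ⟨k3, k4, k5.un hV⟩, hd'⟩
  · rw [h1] at hd'
    exact absurd (Co.refl _ _) hd'
  · exact ⟨t2, t1, k1.1, h1, g1.2, ⟨k3, k4, k5.un hV⟩, ⟨g3, g4, g5.un hV⟩, fun h2 => hd' h2.symm⟩

/-- **two distinct untied macroscopic classes at one wall** -/
theorem two_untiedV (A α : ℝ) (hA : 0 < A) (hα : 0 < α) : ∃ K C c : ℝ, 0 < K ∧ 0 < C ∧ 0 < c ∧ c ≤ 1 ∧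
    ∀ (κ : ℤ) (L V : Finset (ℤ × ℤ)) (x0 : ℤ × ℤ) (N Dw : ℤ), WallV κ L V x0 N Dw →
    ∀ σ : ℝ, 1 / 4 ≤ σ → σ < 1 → ∀ a0 : ℤ, 2 ≤ a0 → K ≤ (1 - σ) ^ ((3 : ℝ) / 2) * a0 →
    ∀ D : ℤ, a0 ≤ D → D ≤ Dw → D ≤ N →
    (∀ τ : ℤ, (τ = 0 ∨ τ = N) → ∀ ρ M : ℤ, a0 ≤ ρ → ρ < M → M ≤ D →
      PrP (qb σ) (EV L V) (UTV V L (wp κ x0 τ) ρ M) ≤ A * ((ρ : ℝ) / M) ^ (1 + α)) →
    PrP (qb σ) (EV L V) (TwoUV κ L V x0 N (2 * D)) ≤
      C * ((N : ℝ) / D) ^ 2 * ((a0 : ℝ) / D) ^ (1 + c) := by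
  obtain ⟨K2, C2, c2, hK2, hC2, hc2, hc21, hcz⟩ := corner_zoneV A α hA hα
  obtain ⟨K1, C1, c1, hK1, hC1, hc1, hc11, hfp⟩ := flat_pairs
  set e : ℝ := c1 / 8 with he
  have he0 : 0 < e := by rw [he]; linarith
  have he1 : e ≤ 1 := by rw [he]; linarith
  set c : ℝ := min (c1 / 2) (e * c2) with hc
  have hc0 : 0 < c := lt_min (by linarith) (by positivity)
  have hcc1 : c ≤ c1 / 2 := min_le_left _ _
  have hcc2 : c ≤ e * c2 := min_le_right _ _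
  clear_value c
  refine ⟨max K1 K2, 2 * C2 * 2 + C1 + 32 ^ ((1 + c) / e), c, lt_max_of_lt_left hK1, by positivity,
    hc0, by linarith, ?_⟩
  intro κ L V x0 N Dw h σ hσ1 hσ2 a0 ha0 hK D haD hDD hDN hUT
  have hσ0 : 0 ≤ σ := by linarith
  have hpb := qb_pb hσ0 hσ2.le
  have ha0' : (2 : ℝ) ≤ a0 := by exact_mod_cast ha0
  have haD' : (a0 : ℝ) ≤ D := by exact_mod_cast haD
  have hDN' : (D : ℝ) ≤ N := by exact_mod_cast hDN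
  have hD0 : (0 : ℝ) < D := by linarith
  set X : ℝ := (a0 : ℝ) / D with hX
  have hX0 : 0 < X := by rw [hX]; positivity
  have hX1 : X ≤ 1 := by rw [hX, div_le_one hD0]; exact haD'
  have hy1 : 1 ≤ (N : ℝ) / D := by rw [le_div_iff₀ hD0]; linarith
  have hy2 : (N : ℝ) / D ≤ ((N : ℝ) / D) ^ 2 := by nlinarith only [hy1]
  have hXc : 0 < X ^ (1 + c) := Real.rpow_pos_of_pos hX0 _
  have htot : ∀ {P : ℝ}, P ≤ (2 * C2 * 2 + C1) * (((N : ℝ) / D) ^ 2 * X ^ (1 + c)) ∨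
      P ≤ 32 ^ ((1 + c) / e) * (((N : ℝ) / D) ^ 2 * X ^ (1 + c)) →
      P ≤ (2 * C2 * 2 + C1 + 32 ^ ((1 + c) / e)) * ((N : ℝ) / D) ^ 2 * X ^ (1 + c) := by
    intro P hP
    have h1 : 0 < ((N : ℝ) / D) ^ 2 * X ^ (1 + c) := by positivity
    have h2 : 0 < (32 : ℝ) ^ ((1 + c) / e) := by positivity
    have h3 : 0 < 2 * C2 * 2 + C1 := by positivity
    rw [mul_assoc, add_mul]
    rcases hP with hP | hP
    · have := mul_pos h2 h1; linarith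
    · have := mul_pos h3 h1; linarith
  refine htot ?_
  by_cases hbig : (1 : ℝ) / 32 < X ^ e
  · right
    refine (PrP_le_one hpb _ _).trans ?_
    have h1 : (1 : ℝ) ≤ 32 * X ^ e := by linarith
    have h2 : (1 : ℝ) ≤ (32 * X ^ e) ^ ((1 + c) / e) := Real.one_le_rpow h1 (by positivity)
    rw [Real.mul_rpow (by norm_num) (by positivity), ← Real.rpow_mul hX0.le,
      mul_div_cancel₀ _ he0.ne'] at h2
    have h3 : 0 < (32 : ℝ) ^ ((1 + c) / e) * X ^ (1 + c) := by positivity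
    calc (1 : ℝ) ≤ 32 ^ ((1 + c) / e) * X ^ (1 + c) := h2
      _ ≤ ((N : ℝ) / D) ^ 2 * (32 ^ ((1 + c) / e) * X ^ (1 + c)) :=
          le_mul_of_one_le_left h3.le (hy1.trans hy2)
      _ = _ := by ring
  left
  push Not at hbig
  obtain ⟨m1, m2, m3⟩ := mid_scale ha0' haD' he0 he1
  set ρ1 : ℤ := ⌈(D : ℝ) * ((a0 : ℝ) / D) ^ e⌉ with hρ1
  rw [← hX] at m2 m3
  have haρ : a0 ≤ ρ1 := by exact_mod_cast m1
  have hρ0 : (0 : ℝ) < ρ1 := by linarith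
  have h16 : 16 * (ρ1 : ℝ) ≤ D := by
    calc 16 * (ρ1 : ℝ) ≤ 16 * (2 * (D * X ^ e)) := by linarith
      _ = 32 * X ^ e * D := by ring
      _ ≤ 1 * D := mul_le_mul_of_nonneg_right (by linarith) hD0.le
      _ = D := one_mul _
  have h16' : 16 * ρ1 ≤ D := by exact_mod_cast h16
  have hK1' : K1 ≤ (1 - σ) ^ ((3 : ℝ) / 2) * a0 := (le_max_left _ _).trans hK
  have hK2' : K2 ≤ (1 - σ) ^ ((3 : ℝ) / 2) * a0 := (le_max_right _ _).trans hK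
  have p1 := hcz κ L V x0 N Dw h σ hσ1 hσ2 a0 ha0 hK2' ρ1 D haρ h16' hDD hDN hUT 0 (Or.inl rfl)
  have p2 := hcz κ L V x0 N Dw h σ hσ1 hσ2 a0 ha0 hK2' ρ1 D haρ h16' hDD hDN hUT N (Or.inr rfl)
  have p3 := hfp κ L x0 N Dw h.wall σ hσ1 hσ2 a0 ha0 hK1' ρ1 D haρ (by omega) (by omega) (by omega)
  have hsum : PrP (qb σ) (EV L V) (TwoUV κ L V x0 N (2 * D)) ≤
      PrP (qb σ) (EV L V) (CZV κ L V x0 N 0 ρ1 (2 * D)) +
      PrP (qb σ) (EV L V) (CZV κ L V x0 N N ρ1 (2 * D)) +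
      PrP (qb σ) (EV L V) (FP κ L x0 N ρ1 D) := by
    refine (PrP_mono hpb fun ω _ hω => twoUV_split (ρ1 := ρ1) h.wall.hκ h.hV hω).trans ((PrP_or_le hpb _ _ _).trans ?_)
    exact add_le_add (PrP_or_le hpb _ _ _) le_rfl
  rw [← hX] at p1 p2
  rw [← FP_V h.hV] at p3
  -- corner terms
  have q1 : ((ρ1 : ℝ) / D) ^ c2 ≤ 2 * X ^ (e * c2) := by
    have h1 : (ρ1 : ℝ) / D ≤ 2 * X ^ e := by
      rw [div_le_iff₀ hD0]; linarith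
    calc ((ρ1 : ℝ) / D) ^ c2 ≤ (2 * X ^ e) ^ c2 := Real.rpow_le_rpow (by positivity) h1 hc2.le
      _ = 2 ^ c2 * X ^ (e * c2) := by
          rw [Real.mul_rpow (by norm_num) (by positivity), ← Real.rpow_mul hX0.le]
      _ ≤ 2 * X ^ (e * c2) := by
          refine mul_le_mul_of_nonneg_right ?_ (by positivity)
          calc (2 : ℝ) ^ c2 ≤ 2 ^ (1 : ℝ) := Real.rpow_le_rpow_of_exponent_le (by norm_num) hc21
            _ = 2 := Real.rpow_one 2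
  have q2 : C2 * ((N : ℝ) / D) * X * ((ρ1 : ℝ) / D) ^ c2 ≤
      C2 * 2 * (((N : ℝ) / D) ^ 2 * X ^ (1 + c)) := by
    have h1 : X * X ^ (e * c2) ≤ X ^ (1 + c) := by
      rw [← Real.rpow_one_add' hX0.le (by positivity)]
      exact Real.rpow_le_rpow_of_exponent_ge hX0 hX1 (by linarith)
    calc C2 * ((N : ℝ) / D) * X * ((ρ1 : ℝ) / D) ^ c2 ≤
          C2 * ((N : ℝ) / D) * X * (2 * X ^ (e * c2)) :=
          mul_le_mul_of_nonneg_left q1 (by positivity)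
      _ = C2 * 2 * (((N : ℝ) / D) * (X * X ^ (e * c2))) := by ring
      _ ≤ C2 * 2 * (((N : ℝ) / D) ^ 2 * X ^ (1 + c)) := by
          refine mul_le_mul_of_nonneg_left ?_ (by positivity)
          exact mul_le_mul hy2 h1 (by positivity) (by positivity)
  -- flat pairs
  have q3 : C1 * ((N : ℝ) / ρ1) ^ 2 * ((a0 : ℝ) / ρ1) ^ (1 + c1) ≤
      C1 * (((N : ℝ) / D) ^ 2 * X ^ (1 + c)) := by
    have hXe : 0 < X ^ e := Real.rpow_pos_of_pos hX0 _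
    have h1 : (N : ℝ) / ρ1 ≤ ((N : ℝ) / D) * (X ^ e)⁻¹ := by
      rw [← div_eq_mul_inv, div_div]
      exact div_le_div_of_nonneg_left (by linarith) (by positivity) m2
    have h2 : (a0 : ℝ) / ρ1 ≤ X * (X ^ e)⁻¹ := by
      rw [← div_eq_mul_inv, hX, div_div]
      rw [← hX]
      exact div_le_div_of_nonneg_left (by linarith) (by positivity) m2
    have h3 : ((N : ℝ) / ρ1) ^ 2 ≤ (((N : ℝ) / D) * (X ^ e)⁻¹) ^ 2 :=
      pow_le_pow_left₀ (div_nonneg (by linarith) hρ0.le) h1 2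
    have h4 : ((a0 : ℝ) / ρ1) ^ (1 + c1) ≤ (X * (X ^ e)⁻¹) ^ (1 + c1) :=
      Real.rpow_le_rpow (div_nonneg (by linarith) hρ0.le) h2 (by linarith)
    have h5 : (((N : ℝ) / D) * (X ^ e)⁻¹) ^ 2 * (X * (X ^ e)⁻¹) ^ (1 + c1) =
        ((N : ℝ) / D) ^ 2 * X ^ ((1 - e) * (1 + c1) - 2 * e) := by
      have e1 : X * (X ^ e)⁻¹ = X ^ (1 - e) := by
        rw [Real.rpow_sub hX0, Real.rpow_one]
        exact (div_eq_mul_inv _ _).symm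
      have e2 : ((X ^ e)⁻¹) ^ 2 = X ^ (-(2 * e)) := by
        rw [Real.rpow_neg hX0.le, mul_comm 2 e, Real.rpow_mul hX0.le, Real.rpow_two, inv_pow]
      rw [mul_pow, e1, e2, ← Real.rpow_mul hX0.le, mul_assoc, ← Real.rpow_add hX0]
      congr 2
      ring
    have h6 : X ^ ((1 - e) * (1 + c1) - 2 * e) ≤ X ^ (1 + c) := by
      refine Real.rpow_le_rpow_of_exponent_ge hX0 hX1 ?_
      rw [he]
      nlinarith only [hcc1, hc11, hc1]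
    calc C1 * ((N : ℝ) / ρ1) ^ 2 * ((a0 : ℝ) / ρ1) ^ (1 + c1) =
          C1 * (((N : ℝ) / ρ1) ^ 2 * ((a0 : ℝ) / ρ1) ^ (1 + c1)) := by ring
      _ ≤ C1 * ((((N : ℝ) / D) * (X ^ e)⁻¹) ^ 2 * (X * (X ^ e)⁻¹) ^ (1 + c1)) := by
          refine mul_le_mul_of_nonneg_left ?_ hC1.le
          exact mul_le_mul h3 h4 (Real.rpow_nonneg (div_nonneg (by linarith) hρ0.le) _) (by positivity)
      _ = C1 * (((N : ℝ) / D) ^ 2 * X ^ ((1 - e) * (1 + c1) - 2 * e)) := by rw [h5]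
      _ ≤ _ := mul_le_mul_of_nonneg_left (mul_le_mul_of_nonneg_left h6 (by positivity)) hC1.le
  calc _ ≤ _ := hsum
    _ ≤ C2 * 2 * (((N : ℝ) / D) ^ 2 * X ^ (1 + c)) + C2 * 2 * (((N : ℝ) / D) ^ 2 * X ^ (1 + c)) +
        C1 * (((N : ℝ) / D) ^ 2 * X ^ (1 + c)) :=
        add_le_add (add_le_add (p1.trans q2) (p2.trans q2)) (p3.trans q3)
    _ = _ := by ring

end Pool.Agent.H59.Q1
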