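import Mathlib
import Pool.Agent.H59.Q1.VT
import Pool.Agent.H59.Q1.FamQ

set_option autoImplicit false
open Finset

/-!
# Walls of polygons: number of untied macroscopic classes, one wall seen from the original configuration

`CB` : the corner bound. `cb_convex` : it holds at a convex corner.
-/

namespace Pool.Agent.H59.Q1

open Pool.Agent.H75.Perc Pool.Agent.H75.TwoArm Pool.Agent.H75.Four Pool.Agent.H49.Perc
open Pool.Agent.H99.NC Pool.Agent.H60.Q1 Pool.Agent.H20.Q1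
open Pool.Agent.H23.TC (UT AA bt bits_corner B2 mem_AA dG)

/-- bound for the untied crossings around `w` -/
def CB (A α σ : ℝ) (a0 D : ℤ) (L V : Finset (ℤ × ℤ)) (w : ℤ × ℤ) : Prop :=
  ∀ ρ M : ℤ, a0 ≤ ρ → ρ < M → M ≤ D →
    PrP (qb σ) (EV L V) (UTV V L w ρ M) ≤ A * ((ρ : ℝ) / M) ^ (1 + α)

/-- contacts of distinct untied classes of radius `≥ R` -/
def GoodV (κ : ℤ) (L V : Finset (ℤ × ℤ)) (x0 : ℤ × ℤ) (R : ℤ) (ζ : Finset (ℤ × ℤ)) (S : Finset ℤ) :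
    Prop :=
  (∀ t ∈ S, Mc L R (wp κ x0 t) ζ ∧ UnV V L (wp κ x0 t) ζ) ∧
    ∀ t ∈ S, ∀ t' ∈ S, t ≠ t' → ¬ Co (ζ ∩ L) (wp κ x0 t) (wp κ x0 t')

open Classical in
/-- number of untied classes of radius `≥ R` which touch the wall -/
noncomputable def NUV (κ : ℤ) (L V : Finset (ℤ × ℤ)) (x0 : ℤ × ℤ) (N R : ℤ)
    (ζ : Finset (ℤ × ℤ)) : ℕ :=
  ((Finset.Icc 0 N).powerset.filter (GoodV κ L V x0 R ζ)).sup Finset.card

/-- a wall of a polygon -/
structure WallB (A α σ : ℝ) (a0 : ℤ) (L V : Finset (ℤ × ℤ)) (x0 : ℤ × ℤ) (N D : ℤ) : Prop where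
  wall : WallV 1 L V x0 N D
  DN : D ≤ N
  cor : ∀ τ : ℤ, (τ = 0 ∨ τ = N) → CB A α σ a0 D L V (wp 1 x0 τ)

/-- the view of a wall -/
noncomputable def vwV (π : ℤ × ℤ → ℤ × ℤ) (c : Bool) (L V : Finset (ℤ × ℤ))
    (ω : Finset (ℤ × ℤ)) : Finset (ℤ × ℤ) := pull π (flb c) (EV L V) ω

/-- a wall in the space `(q, E)` -/
structure FamB (A α : ℝ) (a0 : ℤ) (q : ℤ × ℤ → ℝ) (E : Finset (ℤ × ℤ)) (σ : ℝ)
    (L V : Finset (ℤ × ℤ)) (x0 : ℤ × ℤ) (N D : ℤ) (π : ℤ × ℤ → ℤ × ℤ) : Prop where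
  wq : WallB A α σ a0 L V x0 N D
  inj : ∀ l ∈ EV L V, ∀ l' ∈ EV L V, π l = π l' → l = l'
  map : ∀ l ∈ EV L V, π l ∈ E
  qL : ∀ l ∈ L, q (π l) = 1 / 2
  qT : ∀ l ∈ Td V, q (π l) = 1 - σ

variable {A α σ : ℝ} {κ s ε : ℤ} {q : ℤ × ℤ → ℝ} {x y z w v x0 x1 c p l : ℤ × ℤ}
  {t t' a b j ρ ρ1 R r m a0 D N N1 n M τ k u δ f g : ℤ} {E F G L L1 V V1 V0 ω ω1 ω2 ζ η : Finset (ℤ × ℤ)}
  {π π1 : ℤ × ℤ → ℤ × ℤ} {cc cc1 : Bool} {S : Finset ℤ}

lemma NUV_ge (hS : S ⊆ Finset.Icc 0 N) (h : GoodV κ L V x0 R ζ S) :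
    S.card ≤ NUV κ L V x0 N R ζ := by
  classical
  unfold NUV
  exact le_sup (f := Finset.card) (mem_filter.2 ⟨mem_powerset.2 hS, h⟩)

lemma exists_NUV : ∃ S ⊆ Finset.Icc 0 N, GoodV κ L V x0 R ζ S ∧ S.card = NUV κ L V x0 N R ζ := by
  classical
  have hne : ((Finset.Icc 0 N).powerset.filter (GoodV κ L V x0 R ζ)).Nonempty := by
    refine ⟨∅, mem_filter.2 ⟨mem_powerset.2 (empty_subset _), ?_, ?_⟩⟩
    · intro t ht; exact absurd ht (notMem_empty _)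
    · intro t ht; exact absurd ht (notMem_empty _)
  obtain ⟨S, hS, h⟩ := exists_mem_eq_sup _ hne Finset.card
  obtain ⟨h1, h2⟩ := mem_filter.1 hS
  exact ⟨S, mem_powerset.1 h1, h2, h.symm⟩

lemma one_le_NUV (h : 1 ≤ NUV κ L V x0 N R ζ) : ∃ t, (0 ≤ t ∧ t ≤ N) ∧ Mc L R (wp κ x0 t) ζ ∧
    UnV V L (wp κ x0 t) ζ := by
  obtain ⟨S, hS, h1, h2⟩ := exists_NUV (κ := κ) (L := L) (V := V) (x0 := x0) (N := N) (R := R) (ζ := ζ)
  have : S.Nonempty := card_pos.1 (by omega)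
  obtain ⟨t, ht⟩ := this
  exact ⟨t, mem_Icc.1 (hS ht), h1.1 t ht⟩

lemma two_le_NUV (h : 2 ≤ NUV κ L V x0 N R ζ) : TwoUV κ L V x0 N R ζ := by
  obtain ⟨S, hS, h1, h2⟩ := exists_NUV (κ := κ) (L := L) (V := V) (x0 := x0) (N := N) (R := R) (ζ := ζ)
  obtain ⟨t, ht, t', ht', hne⟩ := one_lt_card.1 (by omega : 1 < S.card)
  exact ⟨t, t', ⟨mem_Icc.1 (hS ht), h1.1 t ht⟩, ⟨mem_Icc.1 (hS ht'), h1.1 t' ht'⟩,
    h1.2 t ht t' ht' hne⟩

/-! ### laws -/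

lemma FamB.law (h : FamB A α a0 q E σ L V x0 N D π) (P : Finset (ℤ × ℤ) → Prop) :
    PrP q E (fun ω => P (vwV π cc L V ω)) = PrP (qb σ) (EV L V) P := by
  have hq : ∀ l ∈ EV L V, qb σ l = q (π l) := by
    intro l hl
    unfold qb
    rcases mem_union.1 hl with h1 | h1
    · rw [if_pos (h.wq.wall.wall.odd l h1), h.qL l h1]
    · have := even_Td h1
      rw [if_neg (by omega), h.qT l h1]
  refine PrP_pull h.inj h.map (fun l hl hf => ?_) (fun l hl _ => hq l hl) P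
  have h1 := hq l hl
  unfold qb at h1 ⊢
  rw [if_pos hf.2] at h1 ⊢
  rw [← h1]; norm_num

lemma WallB.mono (h : WallB A α σ a0 L V x0 N D) (hMD : M ≤ D) : WallB A α σ a0 L V x0 N M :=
  ⟨h.wall.mono hMD, hMD.trans h.DN, fun τ hτ ρ m h1 h2 h3 => h.cor τ hτ ρ m h1 h2 (by omega)⟩

/-! ### corners -/

/-- comparison with an iterated mean -/
lemma utv_le_bt (hσ0 : 0 ≤ σ) (hσ1 : σ ≤ 1) (hρM : ρ < M) (hodd : ∀ l ∈ L, (l.1 + l.2) % 2 = 1)
    (hV : ∀ y ∈ V0, (ρ ≤ |y.1 - w.1| ∨ ρ ≤ |y.2 - w.2|) →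
      (∃ z, IsUnit4 (y - z) ∧ z + y ∈ L ∩ Ar w ρ M) → y ∈ V) :
    PrP (qb σ) (EV L V) (UTV V L w ρ M) ≤ bt σ (L ∩ Ar w ρ M) V0 (L ∩ Ar w ρ M) w ρ M := by
  have hpb := qb_pb hσ0 hσ1
  set a := L ∩ Ar w ρ M with ha
  have hao : ∀ l ∈ a, (l.1 + l.2) % 2 = 1 := fun l hl => hodd l (mem_inter.1 hl).1
  set E2 : Finset (ℤ × ℤ) := EV L V ∪ Td V0 with hE2
  have hLE : L ⊆ E2 := (subset_union_left : L ⊆ EV L V).trans subset_union_left
  have hsub : Td V0 ⊆ E2 := subset_union_right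
  -- the event depends on the labels of `EV L V`
  have e1 : PrP (qb σ) (EV L V) (UTV V L w ρ M) = PrP (qb σ) E2 (UTV V L w ρ M) := by
    rw [← PrP_restrict (qb σ) (subset_union_left : EV L V ⊆ E2) (UTV V L w ρ M)]
    refine PrP_congr fun ω _ => ?_
    have hL : L ⊆ EV L V := subset_union_left
    have g1 : ω ∩ EV L V ∩ (L ∩ Ar w ρ M) = ω ∩ (L ∩ Ar w ρ M) := by
      rw [inter_assoc, inter_eq_right.2 (inter_subset_left.trans hL)]
    unfold UTV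
    rw [g1]
    refine exists_congr fun p => exists_congr fun v => ?_
    refine and_congr_right fun h1 => and_congr_right fun h2 => and_congr_right fun h3 => ?_
    refine forall_congr' fun y => forall_congr' fun g2 => forall_congr' fun g3 => ?_
    have h5 : y + y ∈ EV L V := mem_union_right _ (mem_Td.2 g2)
    rw [mem_inter]
    tauto
  have hcmp : PrP (qb σ) E2 (UTV V L w ρ M) ≤
      PrP (qb σ) E2 (fun ζ => UT a w ρ M (ζ ∩ a) (V0.filter (fun y => y + y ∈ ζ))) := by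
    refine PrP_mono hpb fun ζ _ hζ => ?_
    obtain ⟨p, v, h1, h2, h3, h4⟩ := hζ
    have e : ζ ∩ a ∩ a = ζ ∩ (L ∩ Ar w ρ M) := by rw [inter_assoc, inter_self]
    refine ⟨p, v, h1, h2, ?_, ?_⟩
    · rw [e]; exact h3
    · intro y hy hc
      rw [e] at hc
      obtain ⟨h6, h7⟩ := mem_filter.1 hy
      refine h4 y (hV y h6 (far_ver hρM h1 h2 h3 hc) ?_) hc h7
      have hne : p ≠ v := near_ne_far hρM h1 h2
      by_cases hpy : p = y
      · subst hpy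
        rcases Relation.ReflTransGen.cases_head h3 with h11 | ⟨z', h11, -⟩
        · exact absurd h11 hne
        · refine ⟨z', ?_, by rw [add_comm]; exact (mem_inter.1 h11.2).2⟩
          have := isUnit4_neg h11.1
          rwa [neg_sub] at this
      · obtain ⟨z', h11, h12, -⟩ := end_in hc hpy
        exact ⟨z', h11, (mem_inter.1 h12).2⟩
  have hbt : PrP (qb σ) E2 (fun ζ => UT a w ρ M (ζ ∩ a) (V0.filter (fun y => y + y ∈ ζ))) =
      bt σ a V0 a w ρ M := by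
    have hL3 : Loc E2 (a ∪ Td V0) (fun ζ => UT a w ρ M (ζ ∩ a) (V0.filter (fun y => y + y ∈ ζ))) := by
      intro ω _
      simp only
      have e3 : ω ∩ (a ∪ Td V0) ∩ a = ω ∩ a := by
        rw [inter_assoc, inter_eq_right.2 subset_union_left]
      have e4 : V0.filter (fun y => y + y ∈ ω ∩ (a ∪ Td V0)) = V0.filter (fun y => y + y ∈ ω) := by
        refine filter_congr fun y hy => ?_
        rw [mem_inter]
        have : y + y ∈ a ∪ Td V0 := mem_union_right _ (mem_Td.2 hy)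
        tauto
      rw [e3, e4]
    have haE : a ⊆ E2 := inter_subset_left.trans hLE
    rw [PrP_loc _ hL3, inter_eq_right.2 (union_subset haE hsub), bt_eq hao]
    rfl
  rw [e1]
  exact hcmp.trans (le_of_eq hbt)

/-- **the corner bound at a convex corner** (the other side may be tied or not) -/
theorem cb_convex : ∃ K A α : ℝ, 0 < K ∧ 0 < A ∧ 0 < α ∧ ∀ (L V : Finset (ℤ × ℤ)) (x0 : ℤ × ℤ)
    (N τ f g D : ℤ), WallV 1 L V x0 N D → CQ L x0 N τ f g D → D ≤ N →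
    ∀ σ : ℝ, 0 ≤ σ → σ < 1 → ∀ a0 : ℤ, 2 ≤ a0 → K ≤ (1 - σ) ^ ((3 : ℝ) / 2) * a0 →
    CB A α σ a0 D L V (wp 1 x0 τ) := by
  obtain ⟨C, α, K, hC, hα, hK, hb⟩ := bits_corner
  refine ⟨K, C, α, by linarith, hC, hα, ?_⟩
  intro L V x0 N τ f g D hW hq hDN σ hσ0 hσ2 a0 ha0 hK1 ρ M haρ hρM hMD
  have hκ : (1 : ℤ) = 0 ∨ (1 : ℤ) = 1 := Or.inr rfl
  set w := wp 1 x0 τ with hw
  set g1 : ℤ := ht 1 x0 with hg1
  have hwh : ht 1 w = g1 := htw
  have hoff := hq.off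
  rw [← hw] at hoff
  have hla : L ∩ Ar w ρ M = AA 1 f g1 g w ρ M := by
    ext l
    rw [mem_inter, mem_AA]
    unfold Ar
    rw [mem_sdiff]
    constructor
    · rintro ⟨h1, h2, h3⟩
      have h4 := (hq.quad l (BR_mono hMD h2)).1 h1
      refine ⟨⟨h2, h3⟩, ?_, h4.2⟩
      have h5 := h4.1
      rw [← hg1] at h5
      unfold ht at h5
      linarith
    · rintro ⟨⟨h2, h3⟩, h4, h5⟩
      refine ⟨(hq.quad l (BR_mono hMD h2)).2 ⟨?_, h5⟩, h2, h3⟩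
      rw [← hg1]
      unfold ht
      linarith
  set V0 : Finset (ℤ × ℤ) := (Finset.Icc (-M) M).image (fun i => wp 1 w i) with hV
  have hmV : ∀ y, y ∈ V0 ↔ ht 1 y = g1 ∧ inR w M y := by
    intro y
    rw [hV, mem_image]
    constructor
    · rintro ⟨i, hi, rfl⟩
      rw [mem_Icc] at hi
      refine ⟨by rw [htw, hwh], ?_⟩
      have e1 := wp_fst (κ := 1) (x0 := w) (t := i)
      have e2 := wp_snd (κ := 1) (x0 := w) (t := i)
      rw [inR_iff, e1, e2]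
      omega
    · rintro ⟨h1, h2⟩
      rw [inR_iff] at h2
      have h3 := of_ht (h1.trans hwh.symm)
      exact ⟨y.1 - w.1, mem_Icc.2 (by omega), h3.symm⟩
  refine (utv_le_bt (V0 := V0) hσ0 hσ2.le hρM hW.wall.odd ?_).trans ?_
  · intro y hy hfar hlab
    obtain ⟨z, h11, h12⟩ := hlab
    rw [hla] at h12
    have h13 := (mem_AA.1 h12).2
    unfold dG at h13
    simp only [Prod.fst_add, Prod.snd_add] at h13
    have h14 := unit_cases h11
    obtain ⟨h1, h2⟩ := (hmV y).1 hy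
    have h5 := of_ht (h1.trans hg1)
    have h15 : g ≤ f * (y.2 - y.1) := by
      rcases hq.side with ⟨e1, -⟩ | ⟨e1, -⟩ <;> rw [e1] at h13 ⊢ <;> omega
    set i := y.1 - x0.1 with hi
    have h6 : 0 ≤ i ∧ i ≤ N := by
      rw [inR_iff] at h2
      rw [le_abs, le_abs] at hfar
      rw [h5] at h2 h15 hfar
      rw [hw] at h2 hoff hfar
      simp only [wp_fst, wp_snd] at h2 h15 hoff hfar
      rcases hq.side with ⟨e1, e2⟩ | ⟨e1, e2⟩ <;> rw [e1] at h15 hoff <;> rw [e2] at h2 hoff hfar <;>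
        omega
    rw [h5]
    exact hW.hV i h6.1 h6.2
  · rw [hla]
    refine (hb 1 (Or.inl rfl)).2 f g1 g w σ a0 ?_ ?_ ?_ hσ0 hσ2 hK1 ρ M haρ hρM.le _ V0
      (Subset.refl _) ?_
    · rcases hq.side with h | h
      · exact Or.inr h.1
      · exact Or.inl h.1
    · have : 1 * (w.1 + w.2) - g1 = 0 := by
        rw [← hwh]; unfold ht; ring
      rw [this]; norm_num
    · rw [abs_le]; omega
    · intro y hy1 hy2
      rw [hmV]
      refine ⟨?_, hy1⟩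
      rw [← hy2]; unfold ht; ring

end Pool.Agent.H59.Q1
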