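import Mathlib
import Pool.Agent.H23.TC.RfxMain
import Pool.Agent.H59.Q1.VF

set_option autoImplicit false
open Finset

/-!
# The corner bound at the ends of the walls of a polygon

`CB A α σ a0 D L V w` at a convex end, at a reflex end and at a flat end (the wall goes on). The shape of the
layer is only needed between the radii `8` and `D` around a centre `w'` with `|w' - w| ≤ 8`.
-/

namespace Pool.Agent.H59.Q1

open Pool.Agent.H75.Perc Pool.Agent.H75.TwoArm Pool.Agent.H75.Four Pool.Agent.H49.Perc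
open Pool.Agent.H99.NC Pool.Agent.H60.Q1 Pool.Agent.H20.Q1
open Pool.Agent.H23.TC (UT AA bt bits_corner B2 mem_AA dG dR AR mem_AR WV Vw mem_Vw bits_reflex
  bits_flat AS mem_AS FS)
open Pool.Agent.H60.Q1.Corn (AG mem_AG)

/-- shape `dm` of the layer and tied vertices `tv` around `w` -/
structure EndG (dm tv : ℤ × ℤ → Prop) (L V : Finset (ℤ × ℤ)) (w : ℤ × ℤ) (D : ℤ) : Prop where
  dom : ∀ l : ℤ × ℤ, l ∈ BR w D → l ∉ BR w 8 → (l ∈ L ↔ dm l)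
  ver : ∀ y : ℤ × ℤ, inR w D y → ¬ inR w 8 y → tv y → y ∈ V

/-- the ends of a wall: convex (the side `e (y.1 + y.2) = g1` tied), reflex (both sides tied), flat -/
inductive EndW (L V : Finset (ℤ × ℤ)) (w : ℤ × ℤ) (D : ℤ) : Prop
  | convex (e f g1 g2 : ℤ) (he : e = 1 ∨ e = -1) (hf : f = 1 ∨ f = -1)
      (h1 : |e * (w.1 + w.2) - g1| ≤ 3) (h2 : |f * (w.2 - w.1) - g2| ≤ 3)
      (h : EndG (dG e f g1 g2) (fun y => e * (y.1 + y.2) = g1 ∧ g2 ≤ f * (y.2 - y.1)) L V w D) : EndW L V w D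
  | reflex (e f g1 g2 : ℤ) (he : e = 1 ∨ e = -1) (hf : f = 1 ∨ f = -1)
      (h1 : |e * (w.1 + w.2) - g1| ≤ 3) (h2 : |f * (w.2 - w.1) - g2| ≤ 3)
      (h : EndG (dR e f g1 g2) (WV e f g1 g2) L V w D) : EndW L V w D
  | flat (e g1 : ℤ) (he : e = 1 ∨ e = -1) (h1 : |e * (w.1 + w.2) - g1| ≤ 3)
      (h : EndG (fun l => 2 * g1 ≤ e * (l.1 + l.2)) (fun y => e * (y.1 + y.2) = g1) L V w D) : EndW L V w D

variable {A α σ C A1 α1 : ℝ} {κ s ε : ℤ} {q : ℤ × ℤ → ℝ} {x y z w w' v x0 x1 c p l : ℤ × ℤ}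
  {t t' a b j ρ ρ1 R r m a0 D D' N N1 n M τ k u δ f g e g1 g2 : ℤ}
  {E F G L L1 V V1 V0 ω ω1 ω2 ζ η : Finset (ℤ × ℤ)} {dm tv : ℤ × ℤ → Prop}

lemma EndG.mono (h : EndG dm tv L V w D) (hD : M ≤ D) : EndG dm tv L V w M :=
  ⟨fun l h1 h2 => h.dom l (BR_mono hD h1) h2, fun y h1 h2 h3 => h.ver y (by
    rw [inR_iff] at h1 ⊢; omega) h2 h3⟩

lemma EndW.mono (h : EndW L V w D) (hD : M ≤ D) : EndW L V w M := by
  cases h with
  | convex e f g1 g2 he hf h1 h2 h => exact .convex e f g1 g2 he hf h1 h2 (h.mono hD)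
  | reflex e f g1 g2 he hf h1 h2 h => exact .reflex e f g1 g2 he hf h1 h2 (h.mono hD)
  | flat e g1 he h1 h => exact .flat e g1 he h1 (h.mono hD)

/-- change of the centre -/
lemma UTV.shift (h : UTV V L w ρ M ζ) (h1 : |w'.1 - w.1| ≤ k) (h2 : |w'.2 - w.2| ≤ k) (hM : ρ + k < M - k) :
    UTV V L w' (ρ + k) (M - k) ζ := by
  obtain ⟨p, v, g1, g2, g3, g4⟩ := h
  rw [abs_le] at h1 h2
  unfold Near at g1
  rw [abs_le, abs_le] at g1
  have hp : inR w' (ρ + k) p := by rw [inR_iff]; omega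
  have hv : Far w' (M - k) v := by
    unfold Far at g2 ⊢
    rw [le_abs, le_abs] at g2 ⊢
    omega
  have hsub : Ar w' (ρ + k) (M - k) ⊆ Ar w ρ M := by
    intro l hl
    unfold Ar at hl ⊢
    rw [mem_sdiff] at hl ⊢
    unfold BR at hl ⊢
    rw [mem_Bx, mem_Bx] at hl ⊢
    omega
  have h5 := UTV_of (L := L ∩ Ar w ρ M) g3 hp hv hM g4
  have e1 : L ∩ Ar w ρ M ∩ Ar w' (ρ + k) (M - k) = L ∩ Ar w' (ρ + k) (M - k) := by
    rw [inter_assoc, inter_eq_right.2 hsub]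
  unfold UTV at h5 ⊢
  rw [e1] at h5
  exact h5

/-- change of the centre in the corner bound -/
lemma cb_shift (hσ0 : 0 ≤ σ) (hσ1 : σ ≤ 1) (ha0 : 16 ≤ a0) (hC : 0 < C) (hα : 0 < α)
    (h1 : |w'.1 - w.1| ≤ 8) (h2 : |w'.2 - w.2| ≤ 8)
    (h : ∀ ρ M : ℤ, a0 ≤ ρ → ρ < M → M ≤ D →
      PrP (qb σ) (EV L V) (UTV V L w' ρ M) ≤ C * ((ρ : ℝ) / M) ^ (1 + α)) :
    CB ((C + 1) * 4 ^ (1 + α)) α σ a0 D L V w := by
  have hpb := qb_pb hσ0 hσ1
  intro ρ M haρ hρM hMD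
  have hρ0 : (16 : ℝ) ≤ ρ := by exact_mod_cast ha0.trans haρ
  have hM0 : (ρ : ℝ) < M := by exact_mod_cast hρM
  have hM1 : (0 : ℝ) < M := by linarith
  have hX0 : 0 ≤ (ρ : ℝ) / M := by positivity
  have hsplit : (4 * ((ρ : ℝ) / M)) ^ (1 + α) = 4 ^ (1 + α) * ((ρ : ℝ) / M) ^ (1 + α) :=
    Real.mul_rpow (by norm_num) hX0
  have hpos : 0 ≤ (4 : ℝ) ^ (1 + α) * ((ρ : ℝ) / M) ^ (1 + α) := by positivity
  by_cases hc : ρ + 8 < M - 8
  · have h3 : PrP (qb σ) (EV L V) (UTV V L w ρ M) ≤ PrP (qb σ) (EV L V) (UTV V L w' (ρ + 8) (M - 8)) :=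
      PrP_mono hpb fun ζ _ hζ => hζ.shift h1 h2 hc
    have h4 := h (ρ + 8) (M - 8) (by omega) hc (by omega)
    have h5 : (((ρ + 8 : ℤ) : ℝ) / ((M - 8 : ℤ) : ℝ)) ≤ 4 * ((ρ : ℝ) / M) := by
      have h6 : (16 : ℝ) < M := by linarith
      push_cast
      rw [← mul_div_assoc, div_le_div_iff₀ (by linarith) hM1]
      have h7 : (ρ : ℝ) + 8 ≤ 2 * ρ := by linarith
      have h8 : (M : ℝ) ≤ 2 * (M - 8) := by linarith
      calc ((ρ : ℝ) + 8) * M ≤ (2 * ρ) * (2 * (M - 8)) :=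
            mul_le_mul h7 h8 hM1.le (by linarith)
        _ = 4 * ρ * (M - 8) := by ring
    have h9 : 0 ≤ (((ρ + 8 : ℤ) : ℝ) / ((M - 8 : ℤ) : ℝ)) := by
      refine div_nonneg ?_ ?_
      · exact_mod_cast (by omega : (0 : ℤ) ≤ ρ + 8)
      · exact_mod_cast (by omega : (0 : ℤ) ≤ M - 8)
    have h10 : (((ρ + 8 : ℤ) : ℝ) / ((M - 8 : ℤ) : ℝ)) ^ (1 + α) ≤ 4 ^ (1 + α) * ((ρ : ℝ) / M) ^ (1 + α) := by
      rw [← hsplit]
      exact Real.rpow_le_rpow h9 h5 (by linarith)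
    calc _ ≤ _ := h3
      _ ≤ _ := h4
      _ ≤ C * (4 ^ (1 + α) * ((ρ : ℝ) / M) ^ (1 + α)) := mul_le_mul_of_nonneg_left h10 hC.le
      _ ≤ (C + 1) * (4 ^ (1 + α) * ((ρ : ℝ) / M) ^ (1 + α)) :=
          mul_le_mul_of_nonneg_right (by linarith) hpos
      _ = _ := by ring
  · push Not at hc
    have h3 : (1 : ℝ) ≤ 4 * ((ρ : ℝ) / M) := by
      rw [← mul_div_assoc, le_div_iff₀ hM1]
      have h4 : M ≤ ρ + 16 := by omega
      have h5 : (M : ℝ) ≤ ρ + 16 := by exact_mod_cast h4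
      linarith
    have h4 : (1 : ℝ) ≤ 4 ^ (1 + α) * ((ρ : ℝ) / M) ^ (1 + α) := by
      rw [← hsplit]
      exact Real.one_le_rpow h3 (by linarith)
    calc _ ≤ (1 : ℝ) := PrP_le_one hpb _ _
      _ ≤ 1 * (4 ^ (1 + α) * ((ρ : ℝ) / M) ^ (1 + α)) := by rw [one_mul]; exact h4
      _ ≤ (C + 1) * (4 ^ (1 + α) * ((ρ : ℝ) / M) ^ (1 + α)) :=
          mul_le_mul_of_nonneg_right (by linarith) hpos
      _ = _ := by ring

/-- monotonicity in the constants -/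
lemma CB.weak (h : CB A α σ a0 D L V w) (hA : A ≤ A1) (hA0 : 0 ≤ A) (hα : α1 ≤ α) (ha0 : 1 ≤ a0) :
    CB A1 α1 σ a0 D L V w := by
  intro ρ M h1 h2 h3
  have hρ0 : (1 : ℝ) ≤ ρ := by exact_mod_cast ha0.trans h1
  have hM0 : (ρ : ℝ) < M := by exact_mod_cast h2
  have hX0 : 0 < (ρ : ℝ) / M := div_pos (by linarith) (by linarith)
  have hX1 : (ρ : ℝ) / M ≤ 1 := by rw [div_le_one (by linarith)]; exact hM0.le
  refine (h ρ M h1 h2 h3).trans ?_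
  exact mul_le_mul hA (Real.rpow_le_rpow_of_exponent_ge hX0 hX1 (by linarith)) (by positivity)
    (hA0.trans hA)

lemma CB.mono (h : CB A α σ a0 D L V w) (hD : M ≤ D) : CB A α σ a0 M L V w :=
  fun ρ M' h1 h2 h3 => h ρ M' h1 h2 (h3.trans hD)

lemma EndG.ar (h : EndG dm tv L V w D) (h8 : 8 ≤ ρ) (hMD : M ≤ D) : L ∩ Ar w ρ M = AG (fun _ => dm) w ρ M := by
  ext l
  rw [mem_inter, mem_AG]
  unfold Ar
  rw [mem_sdiff]
  constructor
  · rintro ⟨h1, h2, h3⟩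
    exact ⟨⟨h2, h3⟩, (h.dom l (BR_mono hMD h2) (fun h4 => h3 (BR_mono h8 h4))).1 h1⟩
  · rintro ⟨⟨h2, h3⟩, h4⟩
    exact ⟨(h.dom l (BR_mono hMD h2) (fun h5 => h3 (BR_mono h8 h5))).2 h4, h2, h3⟩

lemma EndG.far (h : EndG dm tv L V w D) (h8 : 8 < ρ) (hy : inR w D y)
    (hfar : ρ ≤ |y.1 - w.1| ∨ ρ ≤ |y.2 - w.2|) (ht : tv y) : y ∈ V := by
  refine h.ver y hy ?_ ht
  rw [inR_iff]
  rw [le_abs, le_abs] at hfar
  omega

/-- **the corner bound at all ends** -/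
theorem cb_end : ∃ K A α : ℝ, 16 ≤ K ∧ 0 < A ∧ 0 < α ∧ ∀ (L V : Finset (ℤ × ℤ)) (w w' : ℤ × ℤ) (D : ℤ),
    (∀ l ∈ L, (l.1 + l.2) % 2 = 1) → |w'.1 - w.1| ≤ 8 → |w'.2 - w.2| ≤ 8 → EndW L V w' D →
    ∀ σ : ℝ, 0 ≤ σ → σ < 1 → ∀ a0 : ℤ, K ≤ (1 - σ) ^ ((3 : ℝ) / 2) * a0 →
    CB A α σ a0 D L V w := by
  obtain ⟨C1, α1, K1, hC1, hα1, hK1, hb1⟩ := bits_corner
  obtain ⟨C2, α2, K2, hC2, hα2, hK2, hb2⟩ := bits_reflex
  obtain ⟨C3, α3, K3, hC3, hα3, hK3, hb3⟩ := bits_flat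
  set C := max C1 (max C2 C3) with hC
  set α := min α1 (min α2 α3) with hα
  have hC0 : 0 < C := lt_max_of_lt_left hC1
  have hα0 : 0 < α := lt_min hα1 (lt_min hα2 hα3)
  have c1 : C1 ≤ C := le_max_left _ _
  have c2 : C2 ≤ C := (le_max_left _ _).trans (le_max_right _ _)
  have c3 : C3 ≤ C := (le_max_right _ _).trans (le_max_right _ _)
  have d1 : α ≤ α1 := min_le_left _ _
  have d2 : α ≤ α2 := (min_le_right _ _).trans (min_le_left _ _)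
  have d3 : α ≤ α3 := (min_le_right _ _).trans (min_le_right _ _)
  clear_value C α
  refine ⟨max 16 (max K1 (max K2 K3)), (C + 1) * 4 ^ (1 + α), α, le_max_left _ _, by positivity, hα0, ?_⟩
  intro L V w w' D hodd hw1 hw2 hE σ hσ0 hσ1 a0 hK
  have hK16 : (16 : ℝ) ≤ (1 - σ) ^ ((3 : ℝ) / 2) * a0 := (le_max_left _ _).trans hK
  have k1 : K1 ≤ (1 - σ) ^ ((3 : ℝ) / 2) * a0 := ((le_max_left _ _).trans (le_max_right _ _)).trans hK
  have k2 : K2 ≤ (1 - σ) ^ ((3 : ℝ) / 2) * a0 :=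
    (((le_max_left _ _).trans (le_max_right _ _)).trans (le_max_right _ _)).trans hK
  have k3 : K3 ≤ (1 - σ) ^ ((3 : ℝ) / 2) * a0 :=
    (((le_max_right _ _).trans (le_max_right _ _)).trans (le_max_right _ _)).trans hK
  have ha0 : 16 ≤ a0 := by
    have h1 : (1 - σ) ^ ((3 : ℝ) / 2) ≤ 1 := Real.rpow_le_one (by linarith) (by linarith) (by norm_num)
    have h0 : 0 ≤ (1 - σ) ^ ((3 : ℝ) / 2) := Real.rpow_nonneg (by linarith) _
    have h2 : (0 : ℝ) < a0 := by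
      by_contra h3
      push Not at h3
      have := mul_nonpos_of_nonneg_of_nonpos h0 h3
      linarith
    have h4 : (1 - σ) ^ ((3 : ℝ) / 2) * a0 ≤ 1 * a0 := mul_le_mul_of_nonneg_right h1 h2.le
    have h5 : (16 : ℝ) ≤ a0 := by linarith
    exact_mod_cast h5
  refine cb_shift hσ0 hσ1.le ha0 hC0 hα0 hw1 hw2 ?_
  intro ρ M haρ hρM hMD
  have hρ0 : (16 : ℝ) ≤ ρ := by exact_mod_cast ha0.trans haρ
  have hM0 : (ρ : ℝ) < M := by exact_mod_cast hρM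
  have hX0 : 0 < (ρ : ℝ) / M := div_pos (by linarith) (by linarith)
  have hX1 : (ρ : ℝ) / M ≤ 1 := by rw [div_le_one (by linarith)]; exact hM0.le
  have fin : ∀ {C' α' P : ℝ}, P ≤ C' * ((ρ : ℝ) / M) ^ (1 + α') → C' ≤ C → α ≤ α' → 0 < C' →
      P ≤ C * ((ρ : ℝ) / M) ^ (1 + α) := by
    intro C' α' P h1 h2 h3 h4
    exact h1.trans (mul_le_mul h2 (Real.rpow_le_rpow_of_exponent_ge hX0 hX1 (by linarith))
      (by positivity) hC0.le)
  have h8 : 8 ≤ ρ := by omega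
  cases hE with
  | convex e f g1 g2 he hf h1 h2 h =>
    have hla := h.ar h8 hMD
    set V0 : Finset (ℤ × ℤ) := (Icc (w'.1 - M) (w'.1 + M) ×ˢ Icc (w'.2 - M) (w'.2 + M)).filter
      (fun y => e * (y.1 + y.2) = g1) with hV0
    have hmV : ∀ y, y ∈ V0 ↔ inR w' M y ∧ e * (y.1 + y.2) = g1 := by
      intro y
      rw [hV0, mem_filter, mem_product, mem_Icc, mem_Icc]
      exact Iff.rfl
    refine fin ((utv_le_bt (V0 := V0) hσ0 hσ1.le hρM hodd ?_).trans ?_) c1 d1 hC1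
    · intro y hy hfar hlab
      obtain ⟨z, h11, h12⟩ := hlab
      rw [hla, mem_AG] at h12
      have h13 := h12.2
      unfold dG at h13
      simp only [Prod.fst_add, Prod.snd_add] at h13
      have h14 := unit_cases h11
      obtain ⟨h3, h4⟩ := (hmV y).1 hy
      refine h.far (by omega) (by rw [inR_iff] at h3 ⊢; omega) hfar ⟨h4, ?_⟩
      rcases hf with hf | hf <;> rw [hf] at h13 ⊢ <;> omega
    · rw [hla]
      refine (hb1 e he).2 f g1 g2 w' σ a0 hf h1 h2 hσ0 hσ1 k1 ρ M haρ hρM.le _ V0 (Subset.refl _) ?_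
      intro y hy1 hy2
      exact (hmV y).2 ⟨hy1, hy2⟩
  | reflex e f g1 g2 he hf h1 h2 h =>
    have hla := h.ar h8 hMD
    refine fin ((utv_le_bt (V0 := Vw e f g1 g2 w' ρ M) hσ0 hσ1.le hρM hodd ?_).trans ?_) c2 d2 hC2
    · intro y hy hfar _
      obtain ⟨h3, -, h4⟩ := mem_Vw.1 hy
      exact h.far (by omega) (by rw [inR_iff] at h3 ⊢; omega) hfar h4
    · rw [hla]
      refine hb2 e f g1 g2 w' σ a0 he hf h1 h2 hσ0 hσ1 k2 ρ M haρ hρM.le _ _ (Subset.refl _) ?_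
      intro y hy1 hy2 hy3
      exact mem_Vw.2 ⟨hy1, hy2, hy3⟩
  | flat e g1 he h1 h =>
    have hla := h.ar h8 hMD
    set V0 : Finset (ℤ × ℤ) := (Icc (w'.1 - M) (w'.1 + M) ×ˢ Icc (w'.2 - M) (w'.2 + M)).filter
      (fun y => e * (y.1 + y.2) = g1) with hV0
    have hmV : ∀ y, y ∈ V0 ↔ inR w' M y ∧ e * (y.1 + y.2) = g1 := by
      intro y
      rw [hV0, mem_filter, mem_product, mem_Icc, mem_Icc]
      exact Iff.rfl
    refine fin ((utv_le_bt (V0 := V0) hσ0 hσ1.le hρM hodd ?_).trans ?_) c3 d3 hC3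
    · intro y hy hfar _
      obtain ⟨h3, h4⟩ := (hmV y).1 hy
      exact h.far (by omega) (by rw [inR_iff] at h3 ⊢; omega) hfar h4
    · rw [hla]
      refine (hb3 e he).1 g1 w' σ a0 h1 hσ0 hσ1 k3 ρ M haρ hρM.le _ V0 (Subset.refl _) ?_
      intro y hy1 hy2
      exact (hmV y).2 ⟨hy1, hy2⟩

end Pool.Agent.H59.Q1
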