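import Mathlib
import Pool.Agent.H59.Q1.VX
import Pool.Agent.H59.Q1.MomM

set_option autoImplicit false
open Finset

/-!
# All walls of polygons together: pairs of untied classes, exponential moments, intermediate scale
-/

namespace Pool.Agent.H59.Q1

open Pool.Agent.H75.Perc Pool.Agent.H75.TwoArm Pool.Agent.H75.Four Pool.Agent.H49.Perc
open Pool.Agent.H99.NC Pool.Agent.H60.Q1 Pool.Agent.H20.Q1

/-- finitely many families -/
structure FamT {ι : Type*} (A α : ℝ) (a0 : ℤ) (q : ℤ × ℤ → ℝ) (E : Finset (ℤ × ℤ)) (σ : ℝ) (D : ℤ)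
    (Q : ℝ) (I : Finset ι) (L V : ι → Finset (ℤ × ℤ)) (x0 : ι → ℤ × ℤ) (N : ι → ℤ)
    (π : ι → ℤ × ℤ → ℤ × ℤ) : Prop where
  fam : ∀ i ∈ I, FamB A α a0 q E σ (L i) (V i) (x0 i) (N i) D (π i)
  sep : ∀ i ∈ I, ∀ j ∈ I, i ≠ j → SepV (L i) (V i) (x0 i) (N i) (π i) (L j) (V j) (x0 j) (N j) (π j)
  len : ∀ i ∈ I, (N i : ℝ) ≤ Q * D

/-- number of untied classes of radius `≥ R` of all families -/
noncomputable def UUV {ι : Type*} (I : Finset ι) (L V : ι → Finset (ℤ × ℤ)) (x0 : ι → ℤ × ℤ)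
    (N : ι → ℤ) (π : ι → ℤ × ℤ → ℤ × ℤ) (cc : ι → Bool) (R : ℤ) (ω : Finset (ℤ × ℤ)) : ℕ :=
  ∑ i ∈ I, NUV 1 (L i) (V i) (x0 i) (N i) R (vwV (π i) (cc i) (L i) (V i) ω)

variable {ι : Type*} [DecidableEq ι] {A α σ Q X : ℝ} {q : ℤ × ℤ → ℝ} {D R n m a0 r : ℤ}
  {E ω : Finset (ℤ × ℤ)} {I : Finset ι} {L V : ι → Finset (ℤ × ℤ)} {x0 : ι → ℤ × ℤ} {N : ι → ℤ}
  {π : ι → ℤ × ℤ → ℤ × ℤ} {cc : ι → Bool}

omit [DecidableEq ι] in
lemma FamT.mono (h : FamT A α a0 q E σ D Q I L V x0 N π) {M : ℤ} {Q' : ℝ} (hM : M ≤ D)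
    (hQ : Q * D ≤ Q' * M) : FamT A α a0 q E σ M Q' I L V x0 N π where
  fam := fun i hi => by
    have := h.fam i hi
    exact ⟨this.wq.mono hM, this.inj, this.map, this.qL, this.qT⟩
  sep := h.sep
  len := fun i hi => (h.len i hi).trans hQ

/-- **two untied macroscopic classes, all families** -/
theorem pair_probV (A α : ℝ) (hA : 0 < A) (hα : 0 < α) : ∃ K C c : ℝ, 0 < K ∧ 0 < C ∧ 0 < c ∧ c ≤ 1 ∧
    ∀ (ι : Type) [DecidableEq ι] (q : ℤ × ℤ → ℝ) (E : Finset (ℤ × ℤ)) (σ : ℝ), Pb q → 1 / 4 ≤ σ → σ < 1 →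
    ∀ a0 : ℤ, 2 ≤ a0 → K ≤ (1 - σ) ^ ((3 : ℝ) / 2) * a0 →
    ∀ (D : ℤ) (Q : ℝ), a0 ≤ D → 1 ≤ Q →
    ∀ (I : Finset ι) (L V : ι → Finset (ℤ × ℤ)) (x0 : ι → ℤ × ℤ) (N : ι → ℤ)
      (π : ι → ℤ × ℤ → ℤ × ℤ) (cc : ι → Bool), FamT A α a0 q E σ D Q I L V x0 N π →
    PrP q E (fun ω => 2 ≤ UUV I L V x0 N π cc (2 * D) ω) ≤
      C * (I.card : ℝ) ^ 2 * Q ^ 2 * ((a0 : ℝ) / D) ^ (1 + c) := by
  obtain ⟨K1, C1, c1, hK1, hC1, hc1, hc11, h1⟩ := two_untiedB A α hA hα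
  obtain ⟨K2, C2, c2, hK2, hC2, hc2, hc21, h2⟩ := cross_pairV A α hA hα
  refine ⟨max K1 K2, C1 + C2, min c1 c2, lt_max_of_lt_left hK1, by positivity, lt_min hc1 hc2,
    (min_le_left _ _).trans hc11, ?_⟩
  intro ι _ q E σ hq hσ1 hσ2 a0 ha0 hK D Q haD hQ I L V x0 N π cc h
  have ha0' : (2 : ℝ) ≤ a0 := by exact_mod_cast ha0
  have haD' : (a0 : ℝ) ≤ D := by exact_mod_cast haD
  have hD0 : (0 : ℝ) < D := by linarith
  set X : ℝ := (a0 : ℝ) / D with hX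
  have hX0 : 0 < X := by rw [hX]; positivity
  have hX1 : X ≤ 1 := by rw [hX, div_le_one hD0]; exact haD'
  set c := min c1 c2 with hc
  have hXc1 : X ^ (1 + c1) ≤ X ^ (1 + c) :=
    Real.rpow_le_rpow_of_exponent_ge hX0 hX1 (by have := min_le_left c1 c2; linarith)
  have hXc2 : X ^ (1 + c2) ≤ X ^ (1 + c) :=
    Real.rpow_le_rpow_of_exponent_ge hX0 hX1 (by have := min_le_right c1 c2; linarith)
  have hXc : 0 < X ^ (1 + c) := Real.rpow_pos_of_pos hX0 _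
  set f : Finset (ℤ × ℤ) → ι → ℕ := fun ω i =>
    NUV 1 (L i) (V i) (x0 i) (N i) (2 * D) (vwV (π i) (cc i) (L i) (V i) ω) with hf
  have hsum : PrP q E (fun ω => 2 ≤ UUV I L V x0 N π cc (2 * D) ω) ≤
      ∑ i ∈ I, PrP q E (fun ω => 2 ≤ f ω i) +
      ∑ p ∈ I ×ˢ I, PrP q E (fun ω => p.1 ≠ p.2 ∧ 1 ≤ f ω p.1 ∧ 1 ≤ f ω p.2) := by
    refine (PrP_mono hq fun ω _ hω => two_of_sum (f := f ω) hω).trans ((PrP_or_le hq _ _ _).trans ?_)
    exact add_le_add (PrP_exists_le hq _ _ _) (PrP_exists_le hq _ _ _)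
  have hA : ∀ i ∈ I, PrP q E (fun ω => 2 ≤ f ω i) ≤ C1 * (Q ^ 2 * X ^ (1 + c)) := by
    intro i hi
    have hi' := h.fam i hi
    have hN := h.len i hi
    have h3 : PrP q E (fun ω => 2 ≤ f ω i) ≤
        PrP q E (fun ω => TwoUV 1 (L i) (V i) (x0 i) (N i) (2 * D) (vwV (π i) (cc i) (L i) (V i) ω)) :=
      PrP_mono hq fun ω _ hω => two_le_NUV hω
    rw [hi'.law (cc := cc i) (TwoUV 1 (L i) (V i) (x0 i) (N i) (2 * D))] at h3
    have h4 := h1 (L i) (V i) (x0 i) (N i) D σ a0 hi'.wq hσ1 hσ2 ha0 ((le_max_left _ _).trans hK) haD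
    have hN0 : (0 : ℝ) ≤ N i := by
      have := hi'.wq.DN
      exact_mod_cast (by omega : 0 ≤ N i)
    have hND : (N i : ℝ) / D ≤ Q := by rw [div_le_iff₀ hD0]; exact hN
    refine h3.trans (h4.trans ?_)
    rw [mul_assoc]
    refine mul_le_mul_of_nonneg_left ?_ hC1.le
    exact mul_le_mul (pow_le_pow_left₀ (by positivity) hND 2) hXc1 (by positivity) (by positivity)
  have hB : ∀ p ∈ I ×ˢ I, PrP q E (fun ω => p.1 ≠ p.2 ∧ 1 ≤ f ω p.1 ∧ 1 ≤ f ω p.2) ≤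
      C2 * (Q ^ 2 * X ^ (1 + c)) := by
    rintro ⟨i, j⟩ hp
    rw [mem_product] at hp
    obtain ⟨hi, hj⟩ := hp
    simp only at hi hj ⊢
    by_cases hij : i = j
    · have h0 : PrP q E (fun ω => i ≠ j ∧ 1 ≤ f ω i ∧ 1 ≤ f ω j) ≤ 0 := by
        refine (PrP_mono hq (B := fun _ => False) fun ω _ hω => hω.1 hij).trans (le_of_eq ?_)
        unfold PrP
        rw [Ex_congr (g := fun _ => 0) fun ω _ => ind_false (fun h => h), Ex_const]
      exact h0.trans (by positivity)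
    · have h4 := h2 q E σ hq hσ1 hσ2 a0 ha0 ((le_max_right _ _).trans hK) D Q haD hQ
        (L i) (V i) (x0 i) (N i) (π i) (cc i) (L j) (V j) (x0 j) (N j) (π j) (cc j) (h.fam i hi) (h.fam j hj)
        (h.sep i hi j hj hij) (h.len i hi) (h.len j hj)
      refine (PrP_mono hq fun ω _ hω => hω.2).trans (h4.trans ?_)
      rw [mul_assoc]
      refine mul_le_mul_of_nonneg_left ?_ hC2.le
      exact mul_le_mul_of_nonneg_left hXc2 (by positivity)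
  refine hsum.trans ((add_le_add (sum_le_sum hA) (sum_le_sum hB)).trans ?_)
  rw [sum_const, sum_const, nsmul_eq_mul, nsmul_eq_mul, card_product]
  push_cast
  have h5 : (I.card : ℝ) ≤ (I.card : ℝ) ^ 2 := by
    rcases Nat.eq_zero_or_pos I.card with h6 | h6
    · rw [h6]; norm_num
    · have : (1 : ℝ) ≤ I.card := by exact_mod_cast h6
      nlinarith only [this]
  have h7 : 0 < C1 * (Q ^ 2 * X ^ (1 + c)) := by positivity
  calc (I.card : ℝ) * (C1 * (Q ^ 2 * X ^ (1 + c))) + (I.card : ℝ) * (I.card : ℝ) *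
        (C2 * (Q ^ 2 * X ^ (1 + c))) ≤ (I.card : ℝ) ^ 2 * (C1 * (Q ^ 2 * X ^ (1 + c))) +
        (I.card : ℝ) * (I.card : ℝ) * (C2 * (Q ^ 2 * X ^ (1 + c))) :=
        add_le_add (mul_le_mul_of_nonneg_right h5 h7.le) le_rfl
    _ = _ := by ring

/-- **exponential moment on two untied classes** -/
theorem pair_momentV (A α : ℝ) (hA : 0 < A) (hα : 0 < α) : ∃ K c : ℝ, 0 < K ∧ 0 < c ∧ c ≤ 1 ∧ ∀ (Q : ℝ) (k : ℕ), 1 ≤ Q →
    ∃ (C : ℝ) (D0 : ℤ), 0 < C ∧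
    ∀ (ι : Type) [DecidableEq ι] (q : ℤ × ℤ → ℝ) (E : Finset (ℤ × ℤ)) (σ : ℝ), Pb q → 1 / 4 ≤ σ →
    σ < 1 → ∀ a0 : ℤ, 2 ≤ a0 → K ≤ (1 - σ) ^ ((3 : ℝ) / 2) * a0 →
    ∀ (D : ℤ), a0 ≤ D → D0 ≤ D →
    ∀ (I : Finset ι) (L V : ι → Finset (ℤ × ℤ)) (x0 : ι → ℤ × ℤ) (N : ι → ℤ)
      (π : ι → ℤ × ℤ → ℤ × ℤ) (cc : ι → Bool), I.card ≤ k → FamT A α a0 q E σ D Q I L V x0 N π →
    Ex q E (fun ω => (3 : ℝ) ^ UUV I L V x0 N π cc (2 * D) ω *
      ind (2 ≤ UUV I L V x0 N π cc (2 * D) ω)) ≤ C * ((a0 : ℝ) / D) ^ (1 + c) := by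
  obtain ⟨K1, C1, c1, hK1, hC1, hc1, hc11, h1⟩ := pair_probV A α hA hα
  refine ⟨K1, c1 / 2, hK1, by linarith, by linarith, ?_⟩
  intro Q k hQ
  set l : ℝ := (3 : ℝ) ^ (4 / c1) with hl
  have hl1 : 1 ≤ l := Real.one_le_rpow (by norm_num) (by positivity)
  set μ : ℝ := 3 * l with hμ
  have hμ1 : 1 ≤ μ := by rw [hμ]; linarith
  obtain ⟨Kt, D0, hKt, hD0, htail⟩ := cls_tail Q (μ ^ k) hQ (one_le_pow₀ hμ1)
  refine ⟨C1 * (k : ℝ) ^ 2 * Q ^ 2 + l * (1 + k * (2 * Kt)), D0, ?_, ?_⟩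
  · have h2 : 0 ≤ C1 * (k : ℝ) ^ 2 * Q ^ 2 := by positivity
    have h3 : 0 < l * (1 + k * (2 * Kt)) := by positivity
    linarith
  intro ι _ q E σ hq hσ1 hσ2 a0 ha0 hK D haD hDD I L V x0 N π cc hIk h
  have hσ0 : 0 ≤ σ := by linarith
  have ha0' : (2 : ℝ) ≤ a0 := by exact_mod_cast ha0
  have haD' : (a0 : ℝ) ≤ D := by exact_mod_cast haD
  have hD0' : (0 : ℝ) < D := by linarith
  set X : ℝ := (a0 : ℝ) / D with hX
  have hX0 : 0 < X := by rw [hX]; positivity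
  have hX1 : X ≤ 1 := by rw [hX, div_le_one hD0']; exact haD'
  set U := UUV I L V x0 N π cc (2 * D) with hU
  obtain ⟨m, hm1, hm2⟩ := exists_cut hX0 hX1 hc1
  rw [← hl] at hm2
  have hlm : 0 < l ^ m := by positivity
  have hlm' : 1 / l ^ m ≤ l * X ^ 2 := by
    rw [div_le_iff₀ hlm]
    calc (1 : ℝ) ≤ l ^ m * (l * X ^ 2) := hm2
      _ = _ := by ring
  have hcut : Ex q E (fun ω => (3 : ℝ) ^ U ω * ind (2 ≤ U ω)) ≤
      3 ^ m * PrP q E (fun ω => 2 ≤ U ω) + (1 / l ^ m) * Ex q E (fun ω => μ ^ U ω) := by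
    unfold PrP
    rw [← Ex_smul, ← Ex_smul, ← Ex_add]
    refine Ex_mono hq fun ω _ => ?_
    have := cut_exp hl1 m (U ω)
    rw [← hμ] at this
    calc _ ≤ _ := this
      _ = _ := by ring
  -- exponential moment
  have hexp : Ex q E (fun ω => μ ^ U ω) ≤ 1 + k * (2 * Kt) := by
    set f : Finset (ℤ × ℤ) → ι → ℕ := fun ω i =>
      NUV 1 (L i) (V i) (x0 i) (N i) (2 * D) (vwV (π i) (cc i) (L i) (V i) ω) with hf
    have h2 : Ex q E (fun ω => μ ^ U ω) ≤ Ex q E (fun ω => 1 + ∑ i ∈ I, (μ ^ k) ^ f ω i) := by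
      refine Ex_mono hq fun ω _ => ?_
      refine (exp_sum (I := I) (f := f ω) hμ1).trans ?_
      refine add_le_add le_rfl (sum_le_sum fun i _ => ?_)
      exact pow_le_pow_left₀ (by positivity) (pow_le_pow_right₀ hμ1 hIk) _
    refine h2.trans ?_
    rw [Ex_add, Ex_const, Ex_sum]
    refine add_le_add le_rfl ?_
    have h3 : ∀ i ∈ I, Ex q E (fun ω => (μ ^ k) ^ f ω i) ≤ 2 * Kt := by
      intro i hi
      have hi' := h.fam i hi
      have hN0 : 0 ≤ N i := by have := hi'.wq.DN; omega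
      have hNQ : (N i : ℝ) ≤ Q * ((2 * D : ℤ) : ℝ) := by
        push_cast
        have := h.len i hi
        nlinarith only [this, hQ, hD0']
      obtain ⟨δ, hδ, ht⟩ := htail 1 (L i) (x0 i) (N i) (2 * D) (Or.inr rfl) hi'.wq.wall.wall.odd hN0
        (by omega) hNQ σ hσ0 hσ2.le
      refine exp_mom hq E hKt (one_le_pow₀ hμ1) (by positivity : (0 : ℝ) ≤ 1 / (2 * μ ^ k)) ?_ ?_
      · have : 0 < μ ^ k := by positivity
        rw [mul_one_div, div_le_div_iff₀ (by positivity) (by norm_num)]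
        linarith
      · intro n
        refine le_trans ?_ (ht n)
        rw [← lay_V (V := V i) (A := fun S => H49.Perc.Arms n
          (WA 1 (x0 i) δ (2 * D) (Finset.Icc 0 (N i / δ))) S) (qb σ), ← hi'.law (cc := cc i)]
        refine PrP_mono hq fun ω _ hω => ?_
        obtain ⟨S, hS, hG, hcard⟩ := exists_NUV (κ := 1) (L := L i) (V := V i) (x0 := x0 i) (N := N i)
          (R := 2 * D) (ζ := vwV (π i) (cc i) (L i) (V i) ω)
        have h4 := arms_of_classes (κ := 1) (x0 := x0 i) (L := L i) (N := N i) (R := 2 * D)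
          (ζ := vwV (π i) (cc i) (L i) (V i) ω) (S := S) (Or.inr rfl) hδ
          (fun t ht => ⟨mem_Icc.1 (hS ht), (hG.1 t ht).1⟩) hG.2
        refine Arms_le ?_ h4
        rw [hcard]
        exact hω
    refine (sum_le_sum h3).trans ?_
    rw [sum_const, nsmul_eq_mul]
    refine mul_le_mul_of_nonneg_right ?_ (by positivity)
    exact_mod_cast hIk
  have hp := h1 ι q E σ hq hσ1 hσ2 a0 ha0 hK D Q haD hQ I L V x0 N π cc h
  have hp' : PrP q E (fun ω => 2 ≤ U ω) ≤ C1 * (k : ℝ) ^ 2 * Q ^ 2 * X ^ (1 + c1) := by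
    refine hp.trans ?_
    have h2 : (I.card : ℝ) ≤ k := by exact_mod_cast hIk
    have h3 : (I.card : ℝ) ^ 2 ≤ (k : ℝ) ^ 2 := pow_le_pow_left₀ (by positivity) h2 2
    refine mul_le_mul_of_nonneg_right ?_ (by positivity)
    refine mul_le_mul_of_nonneg_right ?_ (by positivity)
    exact mul_le_mul_of_nonneg_left h3 hC1.le
  refine hcut.trans ?_
  have t1 : (3 : ℝ) ^ m * PrP q E (fun ω => 2 ≤ U ω) ≤
      C1 * (k : ℝ) ^ 2 * Q ^ 2 * X ^ (1 + c1 / 2) := by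
    calc (3 : ℝ) ^ m * PrP q E (fun ω => 2 ≤ U ω) ≤
          X ^ (-(c1 / 2)) * (C1 * (k : ℝ) ^ 2 * Q ^ 2 * X ^ (1 + c1)) :=
          mul_le_mul hm1 hp' (PrP_nonneg hq _ _) (by positivity)
      _ = C1 * (k : ℝ) ^ 2 * Q ^ 2 * (X ^ (-(c1 / 2)) * X ^ (1 + c1)) := by ring
      _ = _ := by
          rw [← Real.rpow_add hX0]
          congr 2
          ring
  have t2 : (1 / l ^ m) * Ex q E (fun ω => μ ^ U ω) ≤ l * (1 + k * (2 * Kt)) * X ^ (1 + c1 / 2) := by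
    have h2 : X ^ 2 ≤ X ^ (1 + c1 / 2) := by
      rw [← Real.rpow_two]
      exact Real.rpow_le_rpow_of_exponent_ge hX0 hX1 (by linarith)
    calc (1 / l ^ m) * Ex q E (fun ω => μ ^ U ω) ≤ (l * X ^ 2) * (1 + k * (2 * Kt)) :=
          mul_le_mul hlm' hexp (Ex_nonneg hq fun ω _ => by positivity) (by positivity)
      _ = l * (1 + k * (2 * Kt)) * X ^ 2 := by ring
      _ ≤ _ := mul_le_mul_of_nonneg_left h2 (by positivity)
  rw [add_mul]
  exact add_le_add t1 t2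

/-- **the intermediate scale** -/
theorem mid_termsV (A α : ℝ) (hA : 0 < A) (hα : 0 < α) : ∃ K C c e : ℝ, 0 < K ∧ 0 < C ∧ 0 < c ∧ c ≤ 1 ∧ 0 < e ∧ e ≤ 1 ∧
    ∀ (ι : Type) [DecidableEq ι] (q : ℤ × ℤ → ℝ) (E : Finset (ℤ × ℤ)) (σ : ℝ), Pb q → 1 / 4 ≤ σ →
    σ < 1 → ∀ a0 : ℤ, 2 ≤ a0 → K ≤ (1 - σ) ^ ((3 : ℝ) / 2) * a0 →
    ∀ (D : ℤ) (Q : ℝ), a0 ≤ D → 1 ≤ Q →
    ∀ (I : Finset ι) (L V : ι → Finset (ℤ × ℤ)) (x0 : ι → ℤ × ℤ) (N : ι → ℤ)
      (π : ι → ℤ × ℤ → ℤ × ℤ) (cc : ι → Bool), FamT A α a0 q E σ D Q I L V x0 N π →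
    ∀ r : ℤ, r = ⌈(D : ℝ) * ((a0 : ℝ) / D) ^ e⌉ → a0 ≤ r ∧ r ≤ D ∧
    PrP q E (fun ω => 2 ≤ UUV I L V x0 N π cc (2 * r) ω) ≤
      C * (I.card : ℝ) ^ 2 * Q ^ 2 * ((a0 : ℝ) / D) ^ (1 + c) ∧
    ∀ i ∈ I, ∀ τ : ℤ, (τ = 0 ∨ τ = N i) → ∀ ρ1 : ℤ, a0 ≤ ρ1 → ρ1 ≤ 64 * r →
      PrP q E (fun ω => CZV 1 (L i) (V i) (x0 i) (N i) τ ρ1 (2 * D)
        (vwV (π i) (cc i) (L i) (V i) ω)) ≤ C * Q * ((a0 : ℝ) / D) ^ (1 + c) := by
  obtain ⟨K1, C1, c1, hK1, hC1, hc1, hc11, h1⟩ := pair_probV A α hA hα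
  obtain ⟨K2, C2, c2, hK2, hC2, hc2, hc21, h2⟩ := corner_zoneB A α hA hα
  set e : ℝ := c1 / 8 with he
  have he0 : 0 < e := by rw [he]; linarith
  have he1 : e ≤ 1 := by rw [he]; linarith
  set c : ℝ := min (c1 / 2) (e * c2) with hc
  have hc0 : 0 < c := lt_min (by linarith) (by positivity)
  have hcc1 : c ≤ c1 / 2 := min_le_left _ _
  have hcc2 : c ≤ e * c2 := min_le_right _ _
  clear_value c
  refine ⟨max K1 K2, C1 + 128 * C2 + 2048 ^ ((1 + c) / e), c, e, lt_max_of_lt_left hK1, by positivity,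
    hc0, by linarith, he0, he1, ?_⟩
  intro ι _ q E σ hq hσ1 hσ2 a0 ha0 hK D Q haD hQ I L V x0 N π cc h r hr
  have ha0' : (2 : ℝ) ≤ a0 := by exact_mod_cast ha0
  have haD' : (a0 : ℝ) ≤ D := by exact_mod_cast haD
  have hD0' : (0 : ℝ) < D := by linarith
  obtain ⟨m1, m2, m3⟩ := mid_scale ha0' haD' he0 he1
  rw [← hr] at m1 m2 m3
  set X : ℝ := (a0 : ℝ) / D with hX
  have hX0 : 0 < X := by rw [hX]; positivity
  have hX1 : X ≤ 1 := by rw [hX, div_le_one hD0']; exact haD'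
  have hXe : 0 < X ^ e := Real.rpow_pos_of_pos hX0 _
  have hXe1 : X ^ e ≤ 1 := Real.rpow_le_one hX0.le hX1 he0.le
  have har : a0 ≤ r := by exact_mod_cast m1
  have hrD : r ≤ D := by
    rw [hr]
    refine Int.ceil_le.2 ?_
    nlinarith only [hXe1, hD0']
  have hr0 : (0 : ℝ) < r := by linarith
  have hrD' : (r : ℝ) ≤ D := by exact_mod_cast hrD
  have hXc : 0 < X ^ (1 + c) := Real.rpow_pos_of_pos hX0 _
  have hbigC : 0 < (2048 : ℝ) ^ ((1 + c) / e) := by positivity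
  refine ⟨har, hrD, ?_, ?_⟩
  · -- pairs at scale `r`
    have hQ' : 1 ≤ Q * (D / r) := by
      have : 1 ≤ (D : ℝ) / r := by rw [le_div_iff₀ hr0]; linarith only [hrD']
      nlinarith only [this, hQ]
    have hS : FamT A α a0 q E σ r (Q * (D / r)) I L V x0 N π := h.mono hrD (by
      rw [mul_assoc, div_mul_cancel₀ _ hr0.ne'])
    have h3 := h1 ι q E σ hq hσ1 hσ2 a0 ha0 ((le_max_left _ _).trans hK) r (Q * (D / r)) har hQ'
      I L V x0 N π cc hS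
    have h4 : (D : ℝ) / r ≤ (X ^ e)⁻¹ := by
      rw [div_le_iff₀ hr0, inv_mul_eq_div, le_div_iff₀ hXe]
      exact m2
    have h5 : (a0 : ℝ) / r ≤ X * (X ^ e)⁻¹ := by
      rw [← div_eq_mul_inv, hX, div_div, ← hX]
      exact div_le_div_of_nonneg_left (by linarith) (by positivity) m2
    have h6 : (Q * ((D : ℝ) / r)) ^ 2 ≤ (Q * (X ^ e)⁻¹) ^ 2 :=
      pow_le_pow_left₀ (by positivity) (mul_le_mul_of_nonneg_left h4 (by linarith)) 2
    have h7 : ((a0 : ℝ) / r) ^ (1 + c1) ≤ (X * (X ^ e)⁻¹) ^ (1 + c1) :=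
      Real.rpow_le_rpow (div_nonneg (by linarith) hr0.le) h5 (by linarith)
    have h8 : (Q * (X ^ e)⁻¹) ^ 2 * (X * (X ^ e)⁻¹) ^ (1 + c1) =
        Q ^ 2 * X ^ ((1 - e) * (1 + c1) - 2 * e) := by
      have e1 : X * (X ^ e)⁻¹ = X ^ (1 - e) := by
        rw [Real.rpow_sub hX0, Real.rpow_one]
        exact (div_eq_mul_inv _ _).symm
      have e2 : ((X ^ e)⁻¹) ^ 2 = X ^ (-(2 * e)) := by
        rw [Real.rpow_neg hX0.le, mul_comm 2 e, Real.rpow_mul hX0.le, Real.rpow_two, inv_pow]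
      rw [mul_pow, e1, e2, ← Real.rpow_mul hX0.le, mul_assoc, ← Real.rpow_add hX0]
      congr 2
      ring
    have h9 : X ^ ((1 - e) * (1 + c1) - 2 * e) ≤ X ^ (1 + c) := by
      refine Real.rpow_le_rpow_of_exponent_ge hX0 hX1 ?_
      rw [he]
      nlinarith only [hcc1, hc11, hc1]
    refine h3.trans ?_
    calc C1 * (I.card : ℝ) ^ 2 * (Q * ((D : ℝ) / r)) ^ 2 * ((a0 : ℝ) / r) ^ (1 + c1) =
          C1 * (I.card : ℝ) ^ 2 * ((Q * ((D : ℝ) / r)) ^ 2 * ((a0 : ℝ) / r) ^ (1 + c1)) := by ring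
      _ ≤ C1 * (I.card : ℝ) ^ 2 * ((Q * (X ^ e)⁻¹) ^ 2 * (X * (X ^ e)⁻¹) ^ (1 + c1)) := by
          refine mul_le_mul_of_nonneg_left ?_ (by positivity)
          exact mul_le_mul h6 h7 (Real.rpow_nonneg (div_nonneg (by linarith) hr0.le) _)
            (by positivity)
      _ = C1 * (I.card : ℝ) ^ 2 * (Q ^ 2 * X ^ ((1 - e) * (1 + c1) - 2 * e)) := by rw [h8]
      _ ≤ C1 * (I.card : ℝ) ^ 2 * (Q ^ 2 * X ^ (1 + c)) :=
          mul_le_mul_of_nonneg_left (mul_le_mul_of_nonneg_left h9 (by positivity)) (by positivity)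
      _ ≤ (C1 + 128 * C2 + 2048 ^ ((1 + c) / e)) * (I.card : ℝ) ^ 2 * (Q ^ 2 * X ^ (1 + c)) := by
          refine mul_le_mul_of_nonneg_right ?_ (by positivity)
          refine mul_le_mul_of_nonneg_right ?_ (by positivity)
          linarith
      _ = _ := by ring
  · -- corner zone
    intro i hi τ hτ ρ1 haρ hρ64
    have hi' := h.fam i hi
    rw [hi'.law (cc := cc i) (CZV 1 (L i) (V i) (x0 i) (N i) τ ρ1 (2 * D))]
    by_cases hbig : (1 : ℝ) / 2048 < X ^ e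
    · refine (PrP_le_one (qb_pb (by linarith) hσ2.le) _ _).trans ?_
      have g1 : (1 : ℝ) ≤ 2048 * X ^ e := by linarith
      have g2 : (1 : ℝ) ≤ (2048 * X ^ e) ^ ((1 + c) / e) := Real.one_le_rpow g1 (by positivity)
      rw [Real.mul_rpow (by norm_num) (by positivity), ← Real.rpow_mul hX0.le,
        mul_div_cancel₀ _ he0.ne'] at g2
      calc (1 : ℝ) ≤ 2048 ^ ((1 + c) / e) * X ^ (1 + c) := g2
        _ ≤ (C1 + 128 * C2 + 2048 ^ ((1 + c) / e)) * Q * X ^ (1 + c) := by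
            refine mul_le_mul_of_nonneg_right ?_ hXc.le
            have : 2048 ^ ((1 + c) / e) ≤ C1 + 128 * C2 + 2048 ^ ((1 + c) / e) := by
              linarith only [hC1, hC2]
            nlinarith only [this, hQ, hbigC]
    push Not at hbig
    have h16 : 16 * (64 * (r : ℝ)) ≤ D := by
      calc 16 * (64 * (r : ℝ)) ≤ 16 * (64 * (2 * (D * X ^ e))) := by linarith
        _ = 2048 * X ^ e * D := by ring
        _ ≤ 1 * D := mul_le_mul_of_nonneg_right (by linarith) hD0'.le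
        _ = D := one_mul _
    have h16' : 16 * (64 * r) ≤ D := by exact_mod_cast h16
    have h3 := h2 (L i) (V i) (x0 i) (N i) D σ a0 hi'.wq hσ1 hσ2 ha0 ((le_max_right _ _).trans hK) ρ1
      haρ (by omega) τ hτ
    refine h3.trans ?_
    have hN0 : (0 : ℝ) ≤ N i := by
      have := hi'.wq.DN
      exact_mod_cast (by omega : 0 ≤ N i)
    have hND : (N i : ℝ) / D ≤ Q := by rw [div_le_iff₀ hD0']; exact h.len i hi
    have q1 : ((ρ1 : ℝ) / D) ^ c2 ≤ 128 * X ^ (e * c2) := by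
      have g3 : (ρ1 : ℝ) ≤ 64 * r := by exact_mod_cast hρ64
      have g1 : (ρ1 : ℝ) / D ≤ 128 * X ^ e := by
        rw [div_le_iff₀ hD0']
        linarith
      have g0 : 0 ≤ (ρ1 : ℝ) / D := by
        have : (0 : ℝ) ≤ ρ1 := by exact_mod_cast (by omega : 0 ≤ ρ1)
        positivity
      calc ((ρ1 : ℝ) / D) ^ c2 ≤ (128 * X ^ e) ^ c2 := Real.rpow_le_rpow g0 g1 hc2.le
        _ = 128 ^ c2 * X ^ (e * c2) := by
            rw [Real.mul_rpow (by norm_num) (by positivity), ← Real.rpow_mul hX0.le]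
        _ ≤ 128 * X ^ (e * c2) := by
            refine mul_le_mul_of_nonneg_right ?_ (by positivity)
            calc (128 : ℝ) ^ c2 ≤ 128 ^ (1 : ℝ) := Real.rpow_le_rpow_of_exponent_le (by norm_num) hc21
              _ = 128 := Real.rpow_one 128
    have g2 : X * X ^ (e * c2) ≤ X ^ (1 + c) := by
      rw [← Real.rpow_one_add' hX0.le (by positivity)]
      exact Real.rpow_le_rpow_of_exponent_ge hX0 hX1 (by linarith)
    calc C2 * ((N i : ℝ) / D) * X * ((ρ1 : ℝ) / D) ^ c2 ≤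
          C2 * ((N i : ℝ) / D) * X * (128 * X ^ (e * c2)) :=
          mul_le_mul_of_nonneg_left q1 (by positivity)
      _ = 128 * C2 * (((N i : ℝ) / D) * (X * X ^ (e * c2))) := by ring
      _ ≤ 128 * C2 * (Q * X ^ (1 + c)) := by
          refine mul_le_mul_of_nonneg_left ?_ (by positivity)
          exact mul_le_mul hND g2 (by positivity) (by linarith)
      _ ≤ (C1 + 128 * C2 + 2048 ^ ((1 + c) / e)) * (Q * X ^ (1 + c)) := by
          refine mul_le_mul_of_nonneg_right ?_ (by positivity)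
          linarith
      _ = _ := by ring

end Pool.Agent.H59.Q1
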