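import Mathlib
import Pool.Agent.H59.Q1.VC
import Pool.Agent.H59.Q1.VM

set_option autoImplicit false
open Finset

/-!
# Polygons: final form

`WallE` : a straight wall with its two ends (convex, reflex or flat). `FamE` : such a wall seen in the space
`(q, E)`. `FamW` : finitely many walls. `UUV` : number of untied classes of all walls (a class which touches
several walls is counted several times).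
-/

namespace Pool.Agent.H59.Q1

open Pool.Agent.H75.Perc Pool.Agent.H75.TwoArm Pool.Agent.H75.Four Pool.Agent.H49.Perc
open Pool.Agent.H99.NC Pool.Agent.H60.Q1 Pool.Agent.H20.Q1

/-- a wall and its two ends -/
structure WallE (L V : Finset (ℤ × ℤ)) (x0 : ℤ × ℤ) (N D : ℤ) : Prop where
  wall : WallV 1 L V x0 N D
  DN : D ≤ N
  ends : ∀ τ : ℤ, (τ = 0 ∨ τ = N) → ∃ w : ℤ × ℤ, |w.1 - (wp 1 x0 τ).1| ≤ 8 ∧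
    |w.2 - (wp 1 x0 τ).2| ≤ 8 ∧ EndW L V w D

/-- a wall in the space `(q, E)` -/
structure FamE (q : ℤ × ℤ → ℝ) (E : Finset (ℤ × ℤ)) (σ : ℝ)
    (L V : Finset (ℤ × ℤ)) (x0 : ℤ × ℤ) (N D : ℤ) (π : ℤ × ℤ → ℤ × ℤ) : Prop where
  we : WallE L V x0 N D
  inj : ∀ l ∈ EV L V, ∀ l' ∈ EV L V, π l = π l' → l = l'
  map : ∀ l ∈ EV L V, π l ∈ E
  qL : ∀ l ∈ L, q (π l) = 1 / 2
  qT : ∀ l ∈ Td V, q (π l) = 1 - σ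

/-- finitely many walls -/
structure FamW {ι : Type*} (q : ℤ × ℤ → ℝ) (E : Finset (ℤ × ℤ)) (σ : ℝ) (D : ℤ)
    (Q : ℝ) (I : Finset ι) (L V : ι → Finset (ℤ × ℤ)) (x0 : ι → ℤ × ℤ) (N : ι → ℤ)
    (π : ι → ℤ × ℤ → ℤ × ℤ) : Prop where
  fam : ∀ i ∈ I, FamE q E σ (L i) (V i) (x0 i) (N i) D (π i)
  sep : ∀ i ∈ I, ∀ j ∈ I, i ≠ j → SepV (L i) (V i) (x0 i) (N i) (π i) (L j) (V j) (x0 j) (N j) (π j)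
  len : ∀ i ∈ I, (N i : ℝ) ≤ Q * D

variable {A α σ Q : ℝ} {q : ℤ × ℤ → ℝ} {x0 : ℤ × ℤ} {a0 D N M : ℤ} {E L V : Finset (ℤ × ℤ)}
  {π : ℤ × ℤ → ℤ × ℤ}

lemma WallE.mono (h : WallE L V x0 N D) (hMD : M ≤ D) : WallE L V x0 N M :=
  ⟨h.wall.mono hMD, hMD.trans h.DN, fun τ hτ => by
    obtain ⟨w, h1, h2, h3⟩ := h.ends τ hτ
    exact ⟨w, h1, h2, h3.mono hMD⟩⟩

lemma FamE.law {cc : Bool} (h : FamE q E σ L V x0 N D π) (P : Finset (ℤ × ℤ) → Prop) :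
    PrP q E (fun ω => P (vwV π cc L V ω)) = PrP (qb σ) (EV L V) P := by
  have hq : ∀ l ∈ EV L V, qb σ l = q (π l) := by
    intro l hl
    unfold qb
    rcases mem_union.1 hl with h1 | h1
    · rw [if_pos (h.we.wall.wall.odd l h1), h.qL l h1]
    · have := even_Td h1
      rw [if_neg (by omega), h.qT l h1]
  refine PrP_pull h.inj h.map (fun l hl hf => ?_) (fun l hl _ => hq l hl) P
  have h1 := hq l hl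
  unfold qb at h1 ⊢
  rw [if_pos hf.2] at h1 ⊢
  rw [← h1]; norm_num

/-- the constants -/
theorem wallB_of : ∃ K A α : ℝ, 16 ≤ K ∧ 0 < A ∧ 0 < α ∧
    ∀ (σ : ℝ) (a0 : ℤ), 0 ≤ σ → σ < 1 → K ≤ (1 - σ) ^ ((3 : ℝ) / 2) * a0 →
    (∀ (L V : Finset (ℤ × ℤ)) (x0 : ℤ × ℤ) (N D : ℤ), WallE L V x0 N D → WallB A α σ a0 L V x0 N D) ∧
    (∀ (q : ℤ × ℤ → ℝ) (E L V : Finset (ℤ × ℤ)) (x0 : ℤ × ℤ) (N D : ℤ) (π : ℤ × ℤ → ℤ × ℤ),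
      FamE q E σ L V x0 N D π → FamB A α a0 q E σ L V x0 N D π) ∧
    ∀ {ι : Type} (q : ℤ × ℤ → ℝ) (E : Finset (ℤ × ℤ)) (D : ℤ) (Q : ℝ) (I : Finset ι)
      (L V : ι → Finset (ℤ × ℤ)) (x0 : ι → ℤ × ℤ) (N : ι → ℤ) (π : ι → ℤ × ℤ → ℤ × ℤ),
      FamW q E σ D Q I L V x0 N π → FamT A α a0 q E σ D Q I L V x0 N π := by
  obtain ⟨K, A, α, hK, hA, hα, h⟩ := cb_end
  refine ⟨K, A, α, hK, hA, hα, ?_⟩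
  intro σ a0 hσ0 hσ1 hKa
  have h1 : ∀ (L V : Finset (ℤ × ℤ)) (x0 : ℤ × ℤ) (N D : ℤ), WallE L V x0 N D →
      WallB A α σ a0 L V x0 N D := by
    intro L V x0 N D hw
    refine ⟨hw.wall, hw.DN, fun τ hτ => ?_⟩
    obtain ⟨w, g1, g2, g3⟩ := hw.ends τ hτ
    exact h L V _ w D hw.wall.wall.odd g1 g2 g3 σ hσ0 hσ1 a0 hKa
  have h2 : ∀ (q : ℤ × ℤ → ℝ) (E L V : Finset (ℤ × ℤ)) (x0 : ℤ × ℤ) (N D : ℤ) (π : ℤ × ℤ → ℤ × ℤ),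
      FamE q E σ L V x0 N D π → FamB A α a0 q E σ L V x0 N D π :=
    fun q E L V x0 N D π hf => ⟨h1 L V x0 N D hf.we, hf.inj, hf.map, hf.qL, hf.qT⟩
  exact ⟨h1, h2, fun q E D Q I L V x0 N π hf => ⟨fun i hi => h2 _ _ _ _ _ _ _ _ (hf.fam i hi), hf.sep,
    hf.len⟩⟩

/-- **corner zones, polygons** -/
theorem corner_zoneE : ∃ K C c : ℝ, 16 ≤ K ∧ 0 < C ∧ 0 < c ∧ c ≤ 1 ∧
    ∀ (L V : Finset (ℤ × ℤ)) (x0 : ℤ × ℤ) (N D : ℤ), WallE L V x0 N D →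
    ∀ σ : ℝ, 1 / 4 ≤ σ → σ < 1 → ∀ a0 : ℤ, 2 ≤ a0 → K ≤ (1 - σ) ^ ((3 : ℝ) / 2) * a0 →
    ∀ ρ1 : ℤ, a0 ≤ ρ1 → 16 * ρ1 ≤ D → ∀ τ : ℤ, (τ = 0 ∨ τ = N) →
    PrP (qb σ) (EV L V) (CZV 1 L V x0 N τ ρ1 (2 * D)) ≤
      C * ((N : ℝ) / D) * ((a0 : ℝ) / D) * ((ρ1 : ℝ) / D) ^ c := by
  obtain ⟨K1, A, α, hK1, hA, hα, h⟩ := wallB_of
  obtain ⟨K2, C, c, hK2, hC, hc, hc1, hcz⟩ := corner_zoneB A α hA hα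
  refine ⟨max K1 K2, C, c, hK1.trans (le_max_left _ _), hC, hc, hc1, ?_⟩
  intro L V x0 N D hw σ hσ1 hσ2 a0 ha0 hK ρ1 haρ hρD τ hτ
  exact hcz L V x0 N D σ a0 ((h σ a0 (by linarith) hσ2 ((le_max_left _ _).trans hK)).1 L V x0 N D hw)
    hσ1 hσ2 ha0 ((le_max_right _ _).trans hK) ρ1 haρ hρD τ hτ

/-- **two untied classes of one wall, polygons** -/
theorem two_untiedE : ∃ K C c : ℝ, 16 ≤ K ∧ 0 < C ∧ 0 < c ∧ c ≤ 1 ∧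
    ∀ (L V : Finset (ℤ × ℤ)) (x0 : ℤ × ℤ) (N D : ℤ), WallE L V x0 N D →
    ∀ σ : ℝ, 1 / 4 ≤ σ → σ < 1 → ∀ a0 : ℤ, 2 ≤ a0 → K ≤ (1 - σ) ^ ((3 : ℝ) / 2) * a0 → a0 ≤ D →
    PrP (qb σ) (EV L V) (TwoUV 1 L V x0 N (2 * D)) ≤
      C * ((N : ℝ) / D) ^ 2 * ((a0 : ℝ) / D) ^ (1 + c) := by
  obtain ⟨K1, A, α, hK1, hA, hα, h⟩ := wallB_of
  obtain ⟨K2, C, c, hK2, hC, hc, hc1, hcz⟩ := two_untiedB A α hA hα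
  refine ⟨max K1 K2, C, c, hK1.trans (le_max_left _ _), hC, hc, hc1, ?_⟩
  intro L V x0 N D hw σ hσ1 hσ2 a0 ha0 hK haD
  exact hcz L V x0 N D σ a0 ((h σ a0 (by linarith) hσ2 ((le_max_left _ _).trans hK)).1 L V x0 N D hw)
    hσ1 hσ2 ha0 ((le_max_right _ _).trans hK) haD

/-- **two untied macroscopic classes, polygons** -/
theorem pair_probE : ∃ K C c : ℝ, 16 ≤ K ∧ 0 < C ∧ 0 < c ∧ c ≤ 1 ∧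
    ∀ (ι : Type) [DecidableEq ι] (q : ℤ × ℤ → ℝ) (E : Finset (ℤ × ℤ)) (σ : ℝ), Pb q → 1 / 4 ≤ σ → σ < 1 →
    ∀ a0 : ℤ, 2 ≤ a0 → K ≤ (1 - σ) ^ ((3 : ℝ) / 2) * a0 →
    ∀ (D : ℤ) (Q : ℝ), a0 ≤ D → 1 ≤ Q →
    ∀ (I : Finset ι) (L V : ι → Finset (ℤ × ℤ)) (x0 : ι → ℤ × ℤ) (N : ι → ℤ)
      (π : ι → ℤ × ℤ → ℤ × ℤ) (cc : ι → Bool), FamW q E σ D Q I L V x0 N π →
    PrP q E (fun ω => 2 ≤ UUV I L V x0 N π cc (2 * D) ω) ≤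
      C * (I.card : ℝ) ^ 2 * Q ^ 2 * ((a0 : ℝ) / D) ^ (1 + c) := by
  obtain ⟨K1, A, α, hK1, hA, hα, h⟩ := wallB_of
  obtain ⟨K2, C, c, hK2, hC, hc, hc1, hcz⟩ := pair_probV A α hA hα
  refine ⟨max K1 K2, C, c, hK1.trans (le_max_left _ _), hC, hc, hc1, ?_⟩
  intro ι _ q E σ hq hσ1 hσ2 a0 ha0 hK D Q haD hQ I L V x0 N π cc hw
  exact hcz ι q E σ hq hσ1 hσ2 a0 ha0 ((le_max_right _ _).trans hK) D Q haD hQ I L V x0 N π cc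
    ((h σ a0 (by linarith) hσ2 ((le_max_left _ _).trans hK)).2.2 q E D Q I L V x0 N π hw)

/-- **exponential moment on two untied classes, polygons** -/
theorem pair_momentE : ∃ K c : ℝ, 16 ≤ K ∧ 0 < c ∧ c ≤ 1 ∧ ∀ (Q : ℝ) (k : ℕ), 1 ≤ Q →
    ∃ (C : ℝ) (D0 : ℤ), 0 < C ∧
    ∀ (ι : Type) [DecidableEq ι] (q : ℤ × ℤ → ℝ) (E : Finset (ℤ × ℤ)) (σ : ℝ), Pb q → 1 / 4 ≤ σ →
    σ < 1 → ∀ a0 : ℤ, 2 ≤ a0 → K ≤ (1 - σ) ^ ((3 : ℝ) / 2) * a0 →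
    ∀ (D : ℤ), a0 ≤ D → D0 ≤ D →
    ∀ (I : Finset ι) (L V : ι → Finset (ℤ × ℤ)) (x0 : ι → ℤ × ℤ) (N : ι → ℤ)
      (π : ι → ℤ × ℤ → ℤ × ℤ) (cc : ι → Bool), I.card ≤ k → FamW q E σ D Q I L V x0 N π →
    Ex q E (fun ω => (3 : ℝ) ^ UUV I L V x0 N π cc (2 * D) ω *
      ind (2 ≤ UUV I L V x0 N π cc (2 * D) ω)) ≤ C * ((a0 : ℝ) / D) ^ (1 + c) := by
  obtain ⟨K1, A, α, hK1, hA, hα, h⟩ := wallB_of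
  obtain ⟨K2, c, hK2, hc, hc1, hcz⟩ := pair_momentV A α hA hα
  refine ⟨max K1 K2, c, hK1.trans (le_max_left _ _), hc, hc1, ?_⟩
  intro Q k hQ
  obtain ⟨C, D0, hC, hm⟩ := hcz Q k hQ
  refine ⟨C, D0, hC, ?_⟩
  intro ι _ q E σ hq hσ1 hσ2 a0 ha0 hK D haD hDD I L V x0 N π cc hIk hw
  exact hm ι q E σ hq hσ1 hσ2 a0 ha0 ((le_max_right _ _).trans hK) D haD hDD I L V x0 N π cc hIk
    ((h σ a0 (by linarith) hσ2 ((le_max_left _ _).trans hK)).2.2 q E D Q I L V x0 N π hw)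

/-- **the intermediate scale, polygons** -/
theorem mid_termsE : ∃ K C c e : ℝ, 16 ≤ K ∧ 0 < C ∧ 0 < c ∧ c ≤ 1 ∧ 0 < e ∧ e ≤ 1 ∧
    ∀ (ι : Type) [DecidableEq ι] (q : ℤ × ℤ → ℝ) (E : Finset (ℤ × ℤ)) (σ : ℝ), Pb q → 1 / 4 ≤ σ →
    σ < 1 → ∀ a0 : ℤ, 2 ≤ a0 → K ≤ (1 - σ) ^ ((3 : ℝ) / 2) * a0 →
    ∀ (D : ℤ) (Q : ℝ), a0 ≤ D → 1 ≤ Q →
    ∀ (I : Finset ι) (L V : ι → Finset (ℤ × ℤ)) (x0 : ι → ℤ × ℤ) (N : ι → ℤ)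
      (π : ι → ℤ × ℤ → ℤ × ℤ) (cc : ι → Bool), FamW q E σ D Q I L V x0 N π →
    ∀ r : ℤ, r = ⌈(D : ℝ) * ((a0 : ℝ) / D) ^ e⌉ → a0 ≤ r ∧ r ≤ D ∧
    PrP q E (fun ω => 2 ≤ UUV I L V x0 N π cc (2 * r) ω) ≤
      C * (I.card : ℝ) ^ 2 * Q ^ 2 * ((a0 : ℝ) / D) ^ (1 + c) ∧
    ∀ i ∈ I, ∀ τ : ℤ, (τ = 0 ∨ τ = N i) → ∀ ρ1 : ℤ, a0 ≤ ρ1 → ρ1 ≤ 64 * r →
      PrP q E (fun ω => CZV 1 (L i) (V i) (x0 i) (N i) τ ρ1 (2 * D)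
        (vwV (π i) (cc i) (L i) (V i) ω)) ≤ C * Q * ((a0 : ℝ) / D) ^ (1 + c) := by
  obtain ⟨K1, A, α, hK1, hA, hα, h⟩ := wallB_of
  obtain ⟨K2, C, c, e, hK2, hC, hc, hc1, he0, he1, hcz⟩ := mid_termsV A α hA hα
  refine ⟨max K1 K2, C, c, e, hK1.trans (le_max_left _ _), hC, hc, hc1, he0, he1, ?_⟩
  intro ι _ q E σ hq hσ1 hσ2 a0 ha0 hK D Q haD hQ I L V x0 N π cc hw
  exact hcz ι q E σ hq hσ1 hσ2 a0 ha0 ((le_max_right _ _).trans hK) D Q haD hQ I L V x0 N π cc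
    ((h σ a0 (by linarith) hσ2 ((le_max_left _ _).trans hK)).2.2 q E D Q I L V x0 N π hw)

end Pool.Agent.H59.Q1
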